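import Pool.Agent.TC.St
import Pool.Agent.Helper65.PT.Law
import Pool.Agent.Helper65.PT.Oub

/-! Module D10 of project TC. -/

set_option autoImplicit false

open MeasureTheory ProbabilityTheory Pool.H65.PS Pool.H65.PT

namespace Pool.TC

private theorem D10_mp {κ κ' : Type} [Fintype κ] [Fintype κ'] (ι : κ → κ') (hι : Function.Injective ι) :
    MeasurePreserving (fun (x : κ' → ℝ) (i : κ) => x (ι i)) (gam κ') (gam κ) := by
  classical
  have h := Law_mp (fun (i : κ') (j : κ) => if i = ι j then (1 : ℝ) else 0) (fun j k => by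
    rw [Finset.sum_eq_single (ι j)]
    · by_cases hjk : j = k
      · simp [hjk]
      · simp [hjk, hι.ne hjk]
    · intro b _ hb
      simp [hb]
    · intro h
      exact absurd (Finset.mem_univ _) h)
  have e : lin (fun (i : κ') (j : κ) => if i = ι j then (1 : ℝ) else 0)
      = fun (x : κ' → ℝ) (i : κ) => x (ι i) := by
    funext g j
    rw [Law_lin_apply]
    rw [Finset.sum_eq_single (ι j)]
    · simp
    · intro b _ hb
      simp [hb]
    · intro h
      exact absurd (Finset.mem_univ _) h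
  rwa [e] at h

private theorem D10_pull {κ κ' : Type} [Fintype κ] [Fintype κ'] (ι : κ → κ') (hι : Function.Injective ι)
    {m : ℕ} (ρ : ℝ) (f : (κ → ℝ) → Fin m → ℝ) (hf : Pt f) (hb : Bal f) :
    Pt (fun (x : κ' → ℝ) => f (fun i => x (ι i))) ∧ Bal (fun (x : κ' → ℝ) => f (fun i => x (ι i))) ∧
      St ρ (fun (x : κ' → ℝ) => f (fun i => x (ι i))) = St ρ f := by
  have hmp := D10_mp ι hι
  refine ⟨⟨fun j => (hf.meas j).comp hmp.measurable, fun x => hf.simp _⟩, fun j => ?_, ?_⟩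
  · rw [← hb j]
    exact oub_map hmp (hf.meas j)
  · unfold St
    refine Finset.sum_congr rfl fun j _ => ?_
    unfold sg
    have h2 := hmp.prod hmp
    have hm : Measurable fun p : (κ → ℝ) × (κ → ℝ) =>
        f p.1 j * f (ρ • p.1 + Real.sqrt (1 - ρ ^ 2) • p.2) j :=
      ((hf.meas j).comp measurable_fst).mul ((hf.meas j).comp (oub_jm ρ (Real.sqrt (1 - ρ ^ 2))))
    exact oub_map h2 hm

theorem pD10 (hD1 : StD1) (hD6z : StD6z) (hD8 : StD8) (hD9 : StD9) : StD10 := by
  intro m ρ hm hρ hρ1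
  have key : ∀ (n : ℕ) (κ : Type) [Fintype κ] (f : (κ → ℝ) → Fin m → ℝ), Fintype.card κ = n →
      Pt f → Bal f → ∃ g : (Fin (m - 1) → ℝ) → Fin m → ℝ, Pt g ∧ Bal g ∧ St ρ f ≤ St ρ g := by
    intro n
    induction n with
    | zero =>
      intro κ _ f hc hf hb
      have : IsEmpty κ := Fintype.card_eq_zero_iff.1 hc
      obtain ⟨h1, h2, h3⟩ := D10_pull (κ' := Fin (m - 1)) (fun i : κ => isEmptyElim i)
        (fun a => isEmptyElim a) ρ f hf hb
      exact ⟨_, h1, h2, h3.ge⟩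
    | succ n ih =>
      intro κ _ f hc hf hb
      by_cases hle : n + 1 ≤ m - 1
      · obtain ⟨ι⟩ := Function.Embedding.nonempty_of_card_le (α := κ) (β := Fin (m - 1))
          (by rw [hc, Fintype.card_fin]; exact hle)
        obtain ⟨h1, h2, h3⟩ := D10_pull (κ' := Fin (m - 1)) ι ι.injective ρ f hf hb
        exact ⟨_, h1, h2, h3.ge⟩
      · obtain ⟨F, hF⟩ := hD1 κ m ρ (by omega) hρ.le hρ1
        obtain ⟨F', hF', hs, hmo⟩ := hD9 n m ρ κ hc (by omega) (by omega) hρ.le hρ1.le F hF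
        obtain ⟨-, -, h3, h4⟩ := hD6z (Fin n) m ρ F' hρ.le hρ1.le hF'.pt
        obtain ⟨g, hg1, hg2, hg3⟩ := ih (Fin n) (marg F') (Fintype.card_fin n) h3 (h4 hF'.bal)
        refine ⟨g, hg1, hg2, ?_⟩
        calc St ρ f ≤ St ρ F := hF.max f hf hb
          _ = St ρ F' := hs.symm
          _ ≤ St ρ (marg F') := hD8 (Fin n) m ρ F' (by omega) hρ hρ1 hF' hmo
          _ ≤ St ρ g := hg3
  intro κ _ f hf hb
  exact key _ κ f rfl hf hb

end Pool.TC
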