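import Pool.Agent.TC.St
import Pool.Agent.Helper65.PT.Oub

/-! Module D2a of project TC: a maximiser of the quadratic form maximises its linearisation. -/

set_option autoImplicit false

open MeasureTheory ProbabilityTheory Pool.H65.PS Pool.H65.PT

namespace Pool.TC

variable {κ : Type} [Fintype κ] {m : ℕ}

omit [Fintype κ] in
private theorem D2a_bm {f : (κ → ℝ) → Fin m → ℝ} (hf : Pt f) (j : Fin m) : Bm (fun x => f x j) := by
  refine ⟨hf.meas j, 1, fun x => ?_⟩
  have h := mem_Icc_of_mem_stdSimplex (hf.simp x) j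
  rw [abs_of_nonneg h.1]
  exact h.2

omit [Fintype κ] in
private theorem D2a_sub {a b : (κ → ℝ) → ℝ} (ha : Bm a) (hb : Bm b) : Bm (fun x => a x - b x) := by
  obtain ⟨A, hA⟩ := ha.bdd
  obtain ⟨B, hB⟩ := hb.bdd
  refine ⟨ha.meas.sub hb.meas, A + B, fun x => ?_⟩
  exact (abs_sub (a x) (b x)).trans (add_le_add (hA x) (hB x))

private theorem D2a_int {a b : (κ → ℝ) → ℝ} (ha : Bm a) (hb : Bm b) (ρ : ℝ) :
    Integrable (fun p : (κ → ℝ) × (κ → ℝ) => a p.1 * b (ρ • p.1 + Real.sqrt (1 - ρ ^ 2) • p.2))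
      ((gam κ).prod (gam κ)) :=
  oub_int ((ha.meas.comp measurable_fst).mul (hb.meas.comp (oub_jm ρ (Real.sqrt (1 - ρ ^ 2)))))
    (oub_mul (oub_comp ha.bdd _) (oub_comp hb.bdd _))

private theorem D2a_exp {a b : (κ → ℝ) → ℝ} (ha : Bm a) (hb : Bm b) (ρ : ℝ) (h0 : 0 ≤ ρ) (h1 : ρ ≤ 1) :
    sg ρ a a = sg ρ b b + 2 * (∫ x, (a x - b x) * OU ρ b x ∂(gam κ))
      + sg ρ (fun x => a x - b x) (fun x => a x - b x) := by
  have hg := D2a_sub ha hb
  have habs : |ρ| ≤ 1 := by rw [abs_of_nonneg h0]; exact h1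
  have e1 : ∫ x, (a x - b x) * OU ρ b x ∂(gam κ) = sg ρ (fun x => a x - b x) b :=
    (sg_eq_OU hg hb ρ).symm
  have e2 : sg ρ a a = sg ρ b b + sg ρ (fun x => a x - b x) b + sg ρ b (fun x => a x - b x)
      + sg ρ (fun x => a x - b x) (fun x => a x - b x) := by
    have i1 := D2a_int hb hb ρ
    have i2 := D2a_int hg hb ρ
    have i3 := D2a_int hb hg ρ
    have i4 := D2a_int hg hg ρ
    have h12 := integral_add i1 i2
    have h123 := integral_add (i1.add i2) i3
    have h1234 := integral_add ((i1.add i2).add i3) i4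
    simp only [Pi.add_apply] at h12 h123 h1234
    unfold sg
    rw [← h12, ← h123, ← h1234]
    apply integral_congr_ae
    refine Filter.Eventually.of_forall fun p => ?_
    simp only
    ring
  rw [e2, sg_symm hb hg ρ habs, e1]
  ring

theorem pD2a : StD2a := by
  intro κ _ m ρ F h0 h1 hM f hf hbal
  have hfb : ∀ j, Bm (fun x => f x j) := D2a_bm hf
  have hFb : ∀ j, Bm (fun x => F x j) := D2a_bm hM.pt
  have hmax : St ρ f ≤ St ρ F := hM.max f hf hbal
  have hexp : St ρ f = St ρ F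
      + 2 * (∑ j, ∫ x, (f x j - F x j) * OU ρ (fun y => F y j) x ∂(gam κ))
      + ∑ j, sg ρ (fun x => f x j - F x j) (fun x => f x j - F x j) := by
    unfold St
    rw [Finset.mul_sum, ← Finset.sum_add_distrib, ← Finset.sum_add_distrib]
    exact Finset.sum_congr rfl fun j _ => D2a_exp (hfb j) (hFb j) ρ h0 h1
  have hnn : 0 ≤ ∑ j, sg ρ (fun x => f x j - F x j) (fun x => f x j - F x j) :=
    Finset.sum_nonneg fun j _ => sg_self_nonneg (D2a_sub (hfb j) (hFb j)) ρ h0 h1
  have hi : ∀ (a : (κ → ℝ) → Fin m → ℝ), (∀ j, Bm (fun x => a x j)) → ∀ j,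
      Integrable (fun x => a x j * OU ρ (fun y => F y j) x) (gam κ) := fun a ha j =>
    oub_int ((ha j).meas.mul (OU_bm (hFb j) ρ).meas) (oub_mul (ha j).bdd (OU_bm (hFb j) ρ).bdd)
  rw [integral_finsetSum _ (fun j _ => hi f hfb j), integral_finsetSum _ (fun j _ => hi F hFb j)]
  have hd : ∑ j, ∫ x, (f x j - F x j) * OU ρ (fun y => F y j) x ∂(gam κ)
      = (∑ j, ∫ x, f x j * OU ρ (fun y => F y j) x ∂(gam κ))
        - ∑ j, ∫ x, F x j * OU ρ (fun y => F y j) x ∂(gam κ) := by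
    rw [← Finset.sum_sub_distrib]
    refine Finset.sum_congr rfl fun j _ => ?_
    rw [← integral_sub (hi f hfb j) (hi F hFb j)]
    apply integral_congr_ae
    refine Filter.Eventually.of_forall fun x => ?_
    simp only
    ring
  linarith

end Pool.TC
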