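import Pool.Agent.TC.St

set_option autoImplicit false

open MeasureTheory ProbabilityTheory Pool.H65.PS Pool.H65.PT

namespace Pool.TC

variable {κ : Type} [Fintype κ] {m : ℕ}

private theorem D2b_int {f : (κ → ℝ) → ℝ} (hf : Measurable f) (B : ℝ) (hB : ∀ x, |f x| ≤ B) :
    Integrable f (gam κ) :=
  Integrable.of_bound hf.aestronglyMeasurable B
    (Filter.Eventually.of_forall fun x => by rw [Real.norm_eq_abs]; exact hB x)

private theorem D2b_smpos (hm : 1 ≤ m) (x : Fin m → ℝ) (j : Fin m) : 0 < sm x j :=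
  div_pos (Real.exp_pos _) (Finset.sum_pos (fun _ _ => Real.exp_pos _) ⟨⟨0, hm⟩, Finset.mem_univ _⟩)

private theorem D2b_smsum (hm : 1 ≤ m) (x : Fin m → ℝ) : ∑ j, sm x j = 1 := by
  unfold sm
  rw [← Finset.sum_div, div_self]
  exact (Finset.sum_pos (fun _ _ => Real.exp_pos _) ⟨⟨0, hm⟩, Finset.mem_univ _⟩).ne'

private theorem D2b_soft (hm : 1 ≤ m) (a : Fin m → ℝ) (T : ℝ) (hT : 0 < T) (i : Fin m) :
    a i ≤ ∑ j, sm (fun k => a k / T) j * a j + m * T := by
  have h1 : ∀ j, sm (fun k => a k / T) j * (a i - a j) ≤ T := by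
    intro j
    have hs := D2b_smpos hm (fun k => a k / T) j
    rcases le_or_gt (a i) (a j) with h | h
    · exact (mul_nonpos_of_nonneg_of_nonpos hs.le (by linarith)).trans hT.le
    · have hy : 0 < (a i - a j) / T := div_pos (by linarith) hT
      have h2 : sm (fun k => a k / T) j ≤ Real.exp (-((a i - a j) / T)) := by
        have h3 : Real.exp (a i / T) ≤ ∑ k, Real.exp (a k / T) :=
          Finset.single_le_sum (f := fun k => Real.exp (a k / T)) (fun _ _ => (Real.exp_pos _).le)
            (Finset.mem_univ i)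
        have h4 : sm (fun k => a k / T) j = Real.exp (a j / T) / ∑ k, Real.exp (a k / T) := rfl
        have h5 : Real.exp (-((a i - a j) / T)) = Real.exp (a j / T) / Real.exp (a i / T) := by
          rw [← Real.exp_sub]
          congr 1
          ring
        rw [h4, h5]
        exact div_le_div_of_nonneg_left (Real.exp_pos _).le (Real.exp_pos _) h3
      have h6 : (a i - a j) / T ≤ Real.exp ((a i - a j) / T) := by
        have := Real.add_one_le_exp ((a i - a j) / T)
        linarith
      have h7 : (a i - a j) / T * Real.exp (-((a i - a j) / T)) ≤ 1 := by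
        rw [Real.exp_neg, ← div_eq_mul_inv, div_le_one (Real.exp_pos _)]
        exact h6
      calc sm (fun k => a k / T) j * (a i - a j)
          ≤ Real.exp (-((a i - a j) / T)) * (a i - a j) :=
            mul_le_mul_of_nonneg_right h2 (by linarith)
        _ = T * ((a i - a j) / T * Real.exp (-((a i - a j) / T))) := by
            field_simp
        _ ≤ T * 1 := mul_le_mul_of_nonneg_left h7 hT.le
        _ = T := mul_one T
  have h2 : ∑ j, sm (fun k => a k / T) j * (a i - a j) ≤ m * T := by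
    calc ∑ j, sm (fun k => a k / T) j * (a i - a j) ≤ ∑ _j : Fin m, T :=
          Finset.sum_le_sum fun j _ => h1 j
      _ = m * T := by simp
  have h3 : ∑ j, sm (fun k => a k / T) j * (a i - a j) =
      a i - ∑ j, sm (fun k => a k / T) j * a j := by
    simp only [mul_sub, Finset.sum_sub_distrib, ← Finset.sum_mul]
    rw [D2b_smsum hm, one_mul]
  linarith

omit [Fintype κ] in
private theorem D2b_abs {f : (κ → ℝ) → Fin m → ℝ} (hf : Pt f) (j : Fin m) (x : κ → ℝ) :
    |f x j| ≤ 1 := by
  have h0 := (hf.simp x).1 j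
  have h1 : f x j ≤ ∑ k, f x k := Finset.single_le_sum (fun k _ => (hf.simp x).1 k)
    (Finset.mem_univ j)
  rw [(hf.simp x).2] at h1
  rw [abs_of_nonneg h0]
  exact h1

private theorem D2b_fint {f : (κ → ℝ) → Fin m → ℝ} (hf : Pt f) {h : (κ → ℝ) → ℝ}
    (hh : Measurable h) (B : ℝ) (hB : ∀ x, |h x| ≤ B) (j : Fin m) :
    Integrable (fun x => f x j * h x) (gam κ) := by
  apply D2b_int ((hf.meas j).mul hh) B
  intro x
  change |f x j * h x| ≤ B
  rw [abs_mul]
  have h1 := D2b_abs hf j x
  have h2 := hB x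
  calc |f x j| * |h x| ≤ 1 * |h x| := mul_le_mul_of_nonneg_right h1 (abs_nonneg _)
    _ ≤ B := by rw [one_mul]; exact h2

private theorem D2b_shift {f : (κ → ℝ) → Fin m → ℝ} (hf : Pt f) (hb : Bal f)
    (G : Fin m → (κ → ℝ) → ℝ) (hG : ∀ j, Measurable (G j)) (B : ℝ) (hB : ∀ j x, |G j x| ≤ B)
    (c : Fin m → ℝ) : ∫ x, ∑ j, f x j * (G j x + c j) ∂(gam κ) =
      (∫ x, ∑ j, f x j * G j x ∂(gam κ)) + (∑ j, c j) * (1 / (m : ℝ)) := by
  have h1 : ∀ x, ∑ j, f x j * (G j x + c j) = ∑ j, f x j * G j x + ∑ j, f x j * c j := by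
    intro x
    rw [← Finset.sum_add_distrib]
    exact Finset.sum_congr rfl fun j _ => by ring
  have h2 : Integrable (fun x => ∑ j, f x j * G j x) (gam κ) :=
    integrable_finsetSum _ fun j _ => D2b_fint hf (hG j) B (hB j) j
  have h3 : ∀ j, Integrable (fun x => f x j * c j) (gam κ) := fun j =>
    D2b_fint hf measurable_const |c j| (fun _ => le_rfl) j
  simp only [h1]
  rw [integral_add h2 (integrable_finsetSum _ fun j _ => h3 j),
    integral_finsetSum _ fun j _ => h3 j, Finset.sum_mul]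
  congr 1
  apply Finset.sum_congr rfl
  intro j _
  rw [integral_mul_const, hb j]
  ring

theorem pD2b (hSoft : StSoft) : StD2b := by
  intro κ _ m hm G hG F hF hFb hopt
  have hne : Nonempty (Fin m) := ⟨⟨0, hm⟩⟩
  choose B0 hB0 using fun j => (hG j).bdd
  obtain ⟨B, hBdef⟩ : ∃ B, B = ∑ j, |B0 j| := ⟨_, rfl⟩
  have hB : 0 ≤ B := by
    rw [hBdef]
    exact Finset.sum_nonneg fun _ _ => abs_nonneg _
  have hGB : ∀ j x, |G j x| ≤ B := by
    intro j x
    rw [hBdef]
    exact (hB0 j x).trans ((le_abs_self _).trans (Finset.single_le_sum (f := fun j => |B0 j|)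
      (fun _ _ => abs_nonneg _) (Finset.mem_univ j)))
  have h1 : ∀ n : ℕ, ∃ c : Fin m → ℝ, (∀ j, |c j| ≤ m * (2 * B + m)) ∧
      ∀ j, ∫ x, sm (fun k => (G k x + c k) / (1 / ((n : ℝ) + 1))) j ∂(gam κ) = 1 / (m : ℝ) := by
    intro n
    refine hSoft κ m hm G (fun j => (hG j).meas) B hB hGB _ (by positivity) ?_
    rw [div_le_one (by positivity)]
    have : (0 : ℝ) ≤ n := Nat.cast_nonneg n
    linarith
  choose c hc hcb using h1
  have hcomp : IsCompact (Set.univ.pi fun _ : Fin m =>
      Set.Icc (-((m : ℝ) * (2 * B + m))) (m * (2 * B + m))) :=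
    isCompact_univ_pi fun _ => isCompact_Icc
  obtain ⟨c0, -, φ, hφ, hlim⟩ := hcomp.tendsto_subseq (x := c) (by
    intro n j _
    exact Set.mem_Icc.2 (abs_le.1 (hc n j)))
  refine ⟨c0, ?_⟩
  obtain ⟨M, hM⟩ : ∃ M : (κ → ℝ) → ℝ, M = fun x => ⨆ j, (G j x + c0 j) := ⟨_, rfl⟩
  have hMle : ∀ x j, G j x + c0 j ≤ M x := by
    intro x j
    rw [hM]
    exact le_ciSup (f := fun j => G j x + c0 j) (Set.finite_range _).bddAbove j
  have hMmeas : Measurable M := by
    rw [hM]
    exact Measurable.iSup fun j => (hG j).meas.add measurable_const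
  obtain ⟨R, hR⟩ : ∃ R, R = B + ∑ j, |c0 j| := ⟨_, rfl⟩
  have hHB : ∀ j x, |G j x + c0 j| ≤ R := by
    intro j x
    have h2 : |c0 j| ≤ ∑ j, |c0 j| := Finset.single_le_sum (f := fun j => |c0 j|)
      (fun _ _ => abs_nonneg _) (Finset.mem_univ j)
    have h3 := abs_add_le (G j x) (c0 j)
    have h4 := hGB j x
    rw [hR]
    linarith
  have hMB : ∀ x, |M x| ≤ R := by
    intro x
    rw [abs_le]
    constructor
    · have h2 := hMle x ⟨0, hm⟩
      have h3 := (abs_le.1 (hHB ⟨0, hm⟩ x)).1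
      linarith
    · rw [hM]
      exact ciSup_le fun j => (abs_le.1 (hHB j x)).2
  have hMint : Integrable M (gam κ) := D2b_int hMmeas R hMB
  -- the main inequality
  have key : ∀ n : ℕ, ∫ x, M x ∂(gam κ) - ∫ x, ∑ j, F x j * (G j x + c0 j) ∂(gam κ) ≤
      m * (1 / ((φ n : ℝ) + 1)) + 2 * ∑ j, |c (φ n) j - c0 j| := by
    intro n
    obtain ⟨T, hT⟩ : ∃ T, T = 1 / ((φ n : ℝ) + 1) := ⟨_, rfl⟩
    have hT0 : 0 < T := by rw [hT]; positivity
    obtain ⟨e, he⟩ : ∃ e, e = ∑ j, |c (φ n) j - c0 j| := ⟨_, rfl⟩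
    have he0 : 0 ≤ e := by rw [he]; exact Finset.sum_nonneg fun _ _ => abs_nonneg _
    obtain ⟨g, hg⟩ : ∃ g : (κ → ℝ) → Fin m → ℝ,
        g = fun x => sm (fun k => (G k x + c (φ n) k) / T) := ⟨_, rfl⟩
    have hgPt : Pt g := by
      constructor
      · intro j
        rw [hg]
        have hk : ∀ k, Measurable fun x => Real.exp ((G k x + c (φ n) k) / T) := fun k =>
          Real.measurable_exp.comp (((hG k).meas.add measurable_const).div measurable_const)
        exact (hk j).div (Finset.measurable_sum _ fun k _ => hk k)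
      · intro x
        rw [hg]
        exact ⟨fun j => (D2b_smpos hm _ j).le, D2b_smsum hm _⟩
    have hgB : Bal g := by
      intro j
      rw [hg]
      have := hcb (φ n) j
      rw [← hT] at this
      exact this
    have h2 : ∀ x, M x ≤ (∑ j, g x j * (G j x + c (φ n) j)) + (m * T + e) := by
      intro x
      rw [hM]
      apply ciSup_le
      intro i
      have h3 := D2b_soft hm (fun k => G k x + c (φ n) k) T hT0 i
      have h4 : |c (φ n) i - c0 i| ≤ e := by
        rw [he]
        exact Finset.single_le_sum (f := fun j => |c (φ n) j - c0 j|) (fun _ _ => abs_nonneg _)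
          (Finset.mem_univ i)
      have h5 := (abs_le.1 h4).1
      have h6 : ∑ j, g x j * (G j x + c (φ n) j) =
          ∑ j, sm (fun k => (G k x + c (φ n) k) / T) j * (G j x + c (φ n) j) := by rw [hg]
      rw [h6]
      have h3' : G i x + c (φ n) i ≤
        ∑ j, sm (fun k => (G k x + c (φ n) k) / T) j * (G j x + c (φ n) j) + m * T := h3
      linarith
    have hbd : ∀ j x, |G j x + c (φ n) j| ≤ B + ∑ j, |c (φ n) j| := by
      intro j x
      have h3 : |c (φ n) j| ≤ ∑ j, |c (φ n) j| := Finset.single_le_sum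
        (f := fun j => |c (φ n) j|) (fun _ _ => abs_nonneg _) (Finset.mem_univ j)
      have h4 := abs_add_le (G j x) (c (φ n) j)
      have h5 := hGB j x
      linarith
    have hgint : Integrable (fun x => ∑ j, g x j * (G j x + c (φ n) j)) (gam κ) :=
      integrable_finsetSum _ fun j _ => D2b_fint hgPt ((hG j).meas.add measurable_const)
        (B + ∑ j, |c (φ n) j|) (hbd j) j
    have h3 : ∫ x, M x ∂(gam κ) ≤
        ∫ x, ((∑ j, g x j * (G j x + c (φ n) j)) + (m * T + e)) ∂(gam κ) :=
      integral_mono hMint (hgint.add (integrable_const _)) h2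
    rw [integral_add hgint (integrable_const _), integral_const, probReal_univ, one_smul,
      D2b_shift hgPt hgB G (fun j => (hG j).meas) B hGB] at h3
    have h4 := hopt g hgPt hgB
    have h5 : ∑ j, c (φ n) j ≤ ∑ j, c0 j + e := by
      rw [he, ← Finset.sum_add_distrib]
      apply Finset.sum_le_sum
      intro j _
      have := le_abs_self (c (φ n) j - c0 j)
      linarith
    have hm' : (1 : ℝ) ≤ m := by exact_mod_cast hm
    have h6 : (∑ j, c (φ n) j) * (1 / (m : ℝ)) ≤ (∑ j, c0 j) * (1 / (m : ℝ)) + e := by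
      have h7 : (∑ j, c (φ n) j) * (1 / (m : ℝ)) ≤ (∑ j, c0 j + e) * (1 / (m : ℝ)) :=
        mul_le_mul_of_nonneg_right h5 (by positivity)
      have h8 : e * (1 / (m : ℝ)) ≤ e * 1 := by
        apply mul_le_mul_of_nonneg_left _ he0
        rw [div_le_one (by linarith)]
        exact hm'
      linarith [add_mul (∑ j, c0 j) e (1 / (m : ℝ))]
    rw [D2b_shift hF hFb G (fun j => (hG j).meas) B hGB c0, ← hT, ← he]
    linarith
  have hlim2 : Filter.Tendsto (fun n : ℕ => (m : ℝ) * (1 / ((φ n : ℝ) + 1)) +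
      2 * ∑ j, |c (φ n) j - c0 j|) Filter.atTop (nhds 0) := by
    have l1 : Filter.Tendsto (fun n : ℕ => (m : ℝ) * (1 / ((φ n : ℝ) + 1))) Filter.atTop
        (nhds ((m : ℝ) * 0)) :=
      (tendsto_one_div_add_atTop_nhds_zero_nat.comp hφ.tendsto_atTop).const_mul _
    have l2 : Filter.Tendsto (fun n : ℕ => ∑ j, |c (φ n) j - c0 j|) Filter.atTop
        (nhds (∑ _j : Fin m, (0 : ℝ))) := by
      apply tendsto_finsetSum
      intro j _
      have l3 : Filter.Tendsto (fun n : ℕ => c (φ n) j) Filter.atTop (nhds (c0 j)) :=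
        (tendsto_pi_nhds.1 hlim) j
      have l4 := (l3.sub_const (c0 j)).abs
      rw [sub_self, abs_zero] at l4
      exact l4
    have l5 := l1.add (l2.const_mul 2)
    simp only [mul_zero, Finset.sum_const_zero, add_zero] at l5
    exact l5
  have hle : ∫ x, M x ∂(gam κ) - ∫ x, ∑ j, F x j * (G j x + c0 j) ∂(gam κ) ≤ 0 :=
    ge_of_tendsto' hlim2 key
  -- conclusion
  have hDnn : ∀ x, 0 ≤ ∑ j, F x j * (M x - (G j x + c0 j)) := fun x =>
    Finset.sum_nonneg fun j _ => mul_nonneg ((hF.simp x).1 j) (by linarith [hMle x j])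
  have hDeq : ∀ x, ∑ j, F x j * (M x - (G j x + c0 j)) =
      M x - ∑ j, F x j * (G j x + c0 j) := by
    intro x
    simp only [mul_sub, Finset.sum_sub_distrib, ← Finset.sum_mul]
    rw [(hF.simp x).2, one_mul]
  have hFint : Integrable (fun x => ∑ j, F x j * (G j x + c0 j)) (gam κ) :=
    integrable_finsetSum _ fun j _ => D2b_fint hF ((hG j).meas.add measurable_const) R (hHB j) j
  have hDint : Integrable (fun x => ∑ j, F x j * (M x - (G j x + c0 j))) (gam κ) := by
    simp only [hDeq]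
    exact hMint.sub hFint
  have hD0 : ∫ x, ∑ j, F x j * (M x - (G j x + c0 j)) ∂(gam κ) = 0 := by
    apply le_antisymm
    · simp only [hDeq]
      rw [integral_sub hMint hFint]
      exact hle
    · exact integral_nonneg hDnn
  have hae := (integral_eq_zero_iff_of_nonneg hDnn hDint).1 hD0
  filter_upwards [hae] with x hx
  intro j k hj
  have hx' : ∑ j, F x j * (M x - (G j x + c0 j)) = 0 := hx
  have h2 := (Finset.sum_eq_zero_iff_of_nonneg fun j _ =>
    mul_nonneg ((hF.simp x).1 j) (by linarith [hMle x j])).1 hx' j (Finset.mem_univ j)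
  rcases mul_eq_zero.1 h2 with h3 | h3
  · exact absurd h3 hj.ne'
  · linarith [hMle x k]

end Pool.TC
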