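import Pool.Agent.TC.St

/-! Module D3a of project TC (MP_c6cf29_pr): mass can be moved between two colours which meet. -/

set_option autoImplicit false

open MeasureTheory ProbabilityTheory Pool.H65.PS Pool.H65.PT

namespace Pool.TC

section

variable {κ : Type} [Fintype κ] {m : ℕ}

private lemma D3a_int {f : (κ → ℝ) → ℝ} (hm : Measurable f) {B : ℝ} (hB : ∀ x, |f x| ≤ B) :
    Integrable f (gam κ) :=
  Integrable.of_bound hm.aestronglyMeasurable B
    (Filter.Eventually.of_forall fun x => by rw [Real.norm_eq_abs]; exact hB x)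

private lemma D3a_nn {F : (κ → ℝ) → Fin m → ℝ} (hF : Pt F) (x : κ → ℝ) (j : Fin m) :
    0 ≤ F x j := (hF.simp x).1 j

private lemma D3a_sum {F : (κ → ℝ) → Fin m → ℝ} (hF : Pt F) (x : κ → ℝ) :
    ∑ j, F x j = 1 := (hF.simp x).2

private lemma D3a_le {F : (κ → ℝ) → Fin m → ℝ} (hF : Pt F) (x : κ → ℝ) (j : Fin m) :
    F x j ≤ 1 := by
  rw [← D3a_sum hF x]
  exact Finset.single_le_sum (fun k _ => D3a_nn hF x k) (Finset.mem_univ j)

private lemma D3a_abs {F : (κ → ℝ) → Fin m → ℝ} (hF : Pt F) (x : κ → ℝ) (j : Fin m) :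
    |F x j| ≤ 1 := by
  rw [abs_of_nonneg (D3a_nn hF x j)]
  exact D3a_le hF x j

/-- at `p` the functional of the colour `a` is maximal -/
private lemma D3a_max {F : (κ → ℝ) → Fin m → ℝ} {H : Fin m → (κ → ℝ) → ℝ} (hF : Pt F)
    (hc : ∀ j, Continuous (H j))
    (hae : ∀ᵐ x ∂(gam κ), ∀ j k, 0 < F x j → H k x ≤ H j x) (a k : Fin m) (p : κ → ℝ)
    (hp : ∀ U : Set (κ → ℝ), IsOpen U → p ∈ U → 0 < ∫ x in U, F x a ∂(gam κ)) :
    H k p ≤ H a p := by
  by_contra hcon
  rw [not_le] at hcon
  have h1 := hp {x | H a x < H k x} (isOpen_lt (hc a) (hc k)) hcon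
  have hm : MeasurableSet {x | H a x < H k x} := (isOpen_lt (hc a) (hc k)).measurableSet
  have h2 : ∫ x in {x | H a x < H k x}, F x a ∂(gam κ) = 0 := by
    have h3 : ∀ᵐ x ∂((gam κ).restrict {x | H a x < H k x}), F x a = 0 := by
      rw [ae_restrict_iff' hm]
      filter_upwards [hae] with x hx hxU
      by_contra h0
      have h4 : 0 < F x a := lt_of_le_of_ne (D3a_nn hF x a) (Ne.symm h0)
      exact absurd (hx a k h4) (not_le.2 hxU)
    rw [integral_congr_ae h3]
    exact integral_zero _ _
  rw [h2] at h1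
  exact lt_irrefl _ h1

end

theorem pD3a : StD3a := by
  intro κ _ m F H hF hH hc hae i j p hi hj
  have hHi : Bm (H i) := hH i
  by_cases hij : i = j
  · subst hij
    refine ⟨2, by norm_num, fun ε hε => ⟨1, 1, one_pos, one_pos, fun G hG _ σ h0 _ =>
      ⟨G, hG, fun _ _ => rfl, fun k => ?_, ?_, ?_⟩⟩⟩
    · rw [sub_self, mul_zero, add_zero]
    · have h1 : L1 G G = 0 := by
        unfold L1
        simp only [sub_self, abs_zero, Finset.sum_const_zero, integral_zero]
      rw [h1]
      positivity
    · have h1 : ∫ x, ∑ k, (G x k - G x k) * H k x ∂(gam κ) = 0 := by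
        simp only [sub_self, zero_mul, Finset.sum_const_zero, integral_zero]
      rw [h1]
      have := mul_nonneg hε.le h0
      linarith
  have hpe : H i p = H j p :=
    le_antisymm (D3a_max hF hc hae j i p hj) (D3a_max hF hc hae i j p hi)
  refine ⟨2, by norm_num, fun ε hε => ?_⟩
  -- the ball
  have hcont : Continuous (fun x => H i x - H j x) := (hc i).sub (hc j)
  have hopen : IsOpen {x | |H i x - H j x| < ε} := isOpen_lt (continuous_abs.comp hcont) continuous_const
  have hpm : p ∈ {x | |H i x - H j x| < ε} := by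
    show |H i p - H j p| < ε
    rw [hpe, sub_self, abs_zero]
    exact hε
  obtain ⟨r, hr, hball⟩ := Metric.isOpen_iff.1 hopen p hpm
  set U : Set (κ → ℝ) := Metric.ball p r with hU
  have hUm : MeasurableSet U := Metric.isOpen_ball.measurableSet
  have hβ : 0 < ∫ x in U, F x i ∂(gam κ) := hi U Metric.isOpen_ball (Metric.mem_ball_self hr)
  set β : ℝ := ∫ x in U, F x i ∂(gam κ) with hβd
  refine ⟨‖p‖ + r, β / 4, by positivity, by positivity, fun G hG hL σ h0 hσ => ?_⟩
  -- mass of `G i` in the ball
  have hGi : Integrable (fun x => G x i) (gam κ) := D3a_int (hG.meas i) (fun x => D3a_abs hG x i)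
  have hFi : Integrable (fun x => F x i) (gam κ) := D3a_int (hF.meas i) (fun x => D3a_abs hF x i)
  have hdk : ∀ k, Integrable (fun x => |G x k - F x k|) (gam κ) := fun k =>
    ((D3a_int (hG.meas k) (fun x => D3a_abs hG x k)).sub
      (D3a_int (hF.meas k) (fun x => D3a_abs hF x k))).abs
  have hb1 : β - β / 4 ≤ ∫ x in U, G x i ∂(gam κ) := by
    have h1 : ∫ x in U, |G x i - F x i| ∂(gam κ) ≤ β / 4 := by
      calc ∫ x in U, |G x i - F x i| ∂(gam κ) ≤ ∫ x, |G x i - F x i| ∂(gam κ) :=
            setIntegral_le_integral (hdk i) (Filter.Eventually.of_forall fun x => abs_nonneg _)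
        _ ≤ ∫ x, ∑ k, |G x k - F x k| ∂(gam κ) :=
            integral_mono (hdk i) (integrable_finsetSum _ fun k _ => hdk k)
              (fun x => Finset.single_le_sum (f := fun k => |G x k - F x k|)
                (fun k _ => abs_nonneg _) (Finset.mem_univ i))
        _ ≤ β / 4 := hL
    have h2 : ∫ x in U, (F x i - G x i) ∂(gam κ) ≤ ∫ x in U, |G x i - F x i| ∂(gam κ) :=
      integral_mono (hFi.sub hGi).integrableOn (hdk i).integrableOn
        (fun x => by
          show F x i - G x i ≤ |G x i - F x i|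
          rw [abs_sub_comm]
          exact le_abs_self _)
    rw [integral_sub hFi.integrableOn hGi.integrableOn] at h2
    linarith
  set b : ℝ := ∫ x in U, G x i ∂(gam κ) with hb
  have hb0 : 0 < b := by linarith
  have hbσ : σ ≤ b := by linarith
  set s : ℝ := σ / b with hs
  have hs0 : 0 ≤ s := div_nonneg h0 hb0.le
  have hs1 : s ≤ 1 := (div_le_one hb0).2 hbσ
  have hsb : s * b = σ := div_mul_cancel₀ σ hb0.ne'
  -- the moved mass
  set w : (κ → ℝ) → ℝ := U.indicator (fun x => s * G x i) with hw
  have hwm : Measurable w := ((hG.meas i).const_mul s).indicator hUm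
  have hw0 : ∀ x, 0 ≤ w x := fun x => Set.indicator_nonneg
    (fun x _ => mul_nonneg hs0 (D3a_nn hG x i)) x
  have hwG : ∀ x, w x ≤ G x i := by
    intro x
    by_cases hx : x ∈ U
    · rw [hw, Set.indicator_of_mem hx]
      exact mul_le_of_le_one_left (D3a_nn hG x i) hs1
    · rw [hw, Set.indicator_of_notMem hx]
      exact D3a_nn hG x i
  have hwa : ∀ x, |w x| ≤ 1 := fun x => by
    rw [abs_of_nonneg (hw0 x)]
    exact (hwG x).trans (D3a_le hG x i)
  have hwi : Integrable w (gam κ) := D3a_int hwm hwa
  have hwI : ∫ x, w x ∂(gam κ) = σ := by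
    rw [hw, integral_indicator hUm, integral_const_mul, hsb]
  set c : Fin m → ℝ := fun k => (if k = j then 1 else 0) - (if k = i then 1 else 0) with hcd
  have hji : j ≠ i := fun h => hij h.symm
  have hcj : c j = 1 := by
    show (if j = j then (1 : ℝ) else 0) - (if j = i then 1 else 0) = 1
    rw [if_pos rfl, if_neg hji, sub_zero]
  have hci : c i = -1 := by
    show (if i = j then (1 : ℝ) else 0) - (if i = i then 1 else 0) = -1
    rw [if_pos rfl, if_neg hij, zero_sub]
  have hc0 : ∀ k, k ≠ j → k ≠ i → c k = 0 := fun k h1 h2 => by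
    show (if k = j then (1 : ℝ) else 0) - (if k = i then 1 else 0) = 0
    rw [if_neg h1, if_neg h2, sub_zero]
  have hcs : ∀ (g : Fin m → ℝ), ∑ k, c k * g k = g j - g i := by
    intro g
    have h1 : ∀ k, c k * g k = (if k = j then g k else 0) - (if k = i then g k else 0) := by
      intro k
      show ((if k = j then (1 : ℝ) else 0) - (if k = i then 1 else 0)) * g k = _
      rw [sub_mul, ite_mul, ite_mul, one_mul, zero_mul]
    simp only [h1, Finset.sum_sub_distrib, Finset.sum_ite_eq', Finset.mem_univ, if_true]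
  set G' : (κ → ℝ) → Fin m → ℝ := fun x k => G x k + w x * c k with hG'
  have hdiff : ∀ x k, G' x k - G x k = w x * c k := fun x k => by
    show G x k + w x * c k - G x k = w x * c k
    ring
  refine ⟨G', ⟨fun k => ?_, fun x => ⟨fun k => ?_, ?_⟩⟩, fun x hx => ?_, fun k => ?_, ?_, ?_⟩
  · exact (hG.meas k).add (hwm.mul_const (c k))
  · show 0 ≤ G x k + w x * c k
    have h1 := D3a_nn hG x k
    have h2 := hw0 x
    by_cases hkj : k = j
    · rw [hkj, hcj]
      rw [hkj] at h1
      linarith
    · by_cases hki : k = i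
      · rw [hki, hci]
        have := hwG x
        linarith
      · rw [hc0 k hkj hki]
        linarith
  · show ∑ k, (G x k + w x * c k) = 1
    rw [Finset.sum_add_distrib, D3a_sum hG x, ← Finset.mul_sum]
    have h1 := hcs (fun _ => 1)
    simp only [mul_one, sub_self] at h1
    rw [h1, mul_zero, add_zero]
  · have hxU : x ∉ U := by
      intro h
      have h1 : ‖x - p‖ < r := by
        have := Metric.mem_ball.1 h
        rwa [dist_eq_norm] at this
      have h2 : ‖x‖ ≤ ‖x - p‖ + ‖p‖ := by
        have := norm_add_le (x - p) p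
        rwa [sub_add_cancel] at this
      linarith
    funext k
    show G x k + w x * c k = G x k
    rw [hw, Set.indicator_of_notMem hxU, zero_mul, add_zero]
  · show ∫ x, (G x k + w x * c k) ∂(gam κ) - 1 / (m : ℝ) =
      ∫ x, G x k ∂(gam κ) - 1 / (m : ℝ) + σ * c k
    rw [integral_add (D3a_int (hG.meas k) (fun x => D3a_abs hG x k)) (hwi.mul_const _),
      integral_mul_const, hwI]
    ring
  · unfold L1
    have h1 : ∀ x, ∑ k, |G' x k - G x k| = w x * ∑ k, |c k| := by
      intro x
      rw [Finset.mul_sum]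
      refine Finset.sum_congr rfl fun k _ => ?_
      rw [hdiff, abs_mul, abs_of_nonneg (hw0 x)]
    have h2 : ∑ k, |c k| = 2 := by
      have h3 : ∀ k, |c k| = c k * c k := by
        intro k
        by_cases hkj : k = j
        · rw [hkj, hcj]
          norm_num
        · by_cases hki : k = i
          · rw [hki, hci]
            norm_num
          · rw [hc0 k hkj hki]
            norm_num
      simp only [h3]
      rw [hcs, hcj, hci]
      norm_num
    simp only [h1, h2]
    rw [integral_mul_const, hwI]
    linarith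
  · have h1 : ∀ x, ∑ k, (G' x k - G x k) * H k x = w x * (H j x - H i x) := by
      intro x
      rw [← hcs (fun k => H k x), Finset.mul_sum]
      refine Finset.sum_congr rfl fun k _ => ?_
      rw [hdiff]
      ring
    simp only [h1]
    obtain ⟨Bi, hBi⟩ := (hH i).bdd
    obtain ⟨Bj, hBj⟩ := (hH j).bdd
    have hint : Integrable (fun x => w x * (H j x - H i x)) (gam κ) := by
      refine D3a_int (B := 1 * (Bj + Bi)) (hwm.mul ((hH j).meas.sub (hH i).meas)) fun x => ?_
      rw [abs_mul]
      have h2 : |H j x - H i x| ≤ Bj + Bi :=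
        (abs_sub _ _).trans (add_le_add (hBj x) (hBi x))
      exact mul_le_mul (hwa x) h2 (abs_nonneg _) zero_le_one
    have h3 : ∀ x, -(ε * w x) ≤ w x * (H j x - H i x) := by
      intro x
      by_cases hx : x ∈ U
      · have h4 : |H i x - H j x| < ε := hball hx
        have h5 : -ε ≤ H j x - H i x := by
          have := (abs_lt.1 h4).2
          linarith
        have h6 := mul_le_mul_of_nonneg_left h5 (hw0 x)
        linarith
      · have h4 : w x = 0 := by rw [hw, Set.indicator_of_notMem hx]
        rw [h4]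
        simp
    have h4 : ∫ x, -(ε * w x) ∂(gam κ) ≤ ∫ x, w x * (H j x - H i x) ∂(gam κ) :=
      integral_mono (hwi.const_mul ε).neg hint h3
    rw [integral_neg, integral_const_mul, hwI] at h4
    exact h4

end Pool.TC

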