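import Pool.Agent.TC.St

/-! Project TC, module D3b. -/

set_option autoImplicit false

open MeasureTheory ProbabilityTheory Pool.H65.PS Pool.H65.PT

namespace Pool.TC

variable {κ : Type} [Fintype κ] {m : ℕ}

private theorem D3b_prob : IsProbabilityMeasure (gam κ) := by
  unfold gam
  infer_instance

omit [Fintype κ] in
private theorem D3b_bd {f : (κ → ℝ) → Fin m → ℝ} (hf : Pt f) (x : κ → ℝ) (j : Fin m) :
    0 ≤ f x j ∧ f x j ≤ 1 := by
  obtain ⟨h0, h1⟩ := hf.simp x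
  refine ⟨h0 j, ?_⟩
  rw [← h1]
  exact Finset.single_le_sum (fun k _ => h0 k) (Finset.mem_univ j)

private theorem D3b_int {f : (κ → ℝ) → ℝ} (hf : Measurable f) (B : ℝ) (hB : ∀ x, |f x| ≤ B) :
    Integrable f (gam κ) := by
  have := D3b_prob (κ := κ)
  exact Integrable.of_bound hf.aestronglyMeasurable B
    (Filter.Eventually.of_forall fun x => by rw [Real.norm_eq_abs]; exact hB x)

private theorem D3b_absdiff {F G : (κ → ℝ) → Fin m → ℝ} (hF : Pt F) (hG : Pt G) (j : Fin m) :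
    Integrable (fun x => |G x j - F x j|) (gam κ) := by
  refine D3b_int ((hG.meas j).sub (hF.meas j)).abs 1 fun x => ?_
  rw [abs_abs, abs_le]
  have h1 := D3b_bd hF x j
  have h2 := D3b_bd hG x j
  constructor <;> linarith [h1.1, h1.2, h2.1, h2.2]

private theorem D3b_L1_int {F G : (κ → ℝ) → Fin m → ℝ} (hF : Pt F) (hG : Pt G) :
    Integrable (fun x => ∑ j, |G x j - F x j|) (gam κ) :=
  integrable_finsetSum _ fun j _ => D3b_absdiff hF hG j

private theorem D3b_tri {F G K : (κ → ℝ) → Fin m → ℝ} (hF : Pt F) (hG : Pt G) (hK : Pt K) :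
    L1 F K ≤ L1 F G + L1 G K := by
  unfold L1
  rw [← integral_add (D3b_L1_int hF hG) (D3b_L1_int hG hK)]
  refine integral_mono (D3b_L1_int hF hK) ((D3b_L1_int hF hG).add (D3b_L1_int hG hK)) fun x => ?_
  simp only [← Finset.sum_add_distrib]
  refine Finset.sum_le_sum fun j _ => ?_
  have h1 := abs_add_le (G x j - F x j) (K x j - G x j)
  have h2 : G x j - F x j + (K x j - G x j) = K x j - F x j := by ring
  rw [h2] at h1
  exact h1

private theorem D3b_Hint {F G : (κ → ℝ) → Fin m → ℝ} {H : Fin m → (κ → ℝ) → ℝ} (hF : Pt F)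
    (hG : Pt G) (hH : ∀ j, Bm (H j)) :
    Integrable (fun x => ∑ k, (G x k - F x k) * H k x) (gam κ) := by
  refine integrable_finsetSum _ fun k _ => ?_
  obtain ⟨B, hB⟩ := (hH k).bdd
  refine D3b_int (((hG.meas k).sub (hF.meas k)).mul (hH k).meas) B fun x => ?_
  rw [abs_mul]
  have h1 := D3b_bd hF x k
  have h2 := D3b_bd hG x k
  have h3 : |G x k - F x k| ≤ 1 := by
    rw [abs_le]
    constructor <;> linarith [h1.1, h1.2, h2.1, h2.2]
  calc |G x k - F x k| * |H k x| ≤ 1 * |H k x| :=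
        mul_le_mul_of_nonneg_right h3 (abs_nonneg _)
    _ ≤ B := by rw [one_mul]; exact hB x

private theorem D3b_Hadd {F G K : (κ → ℝ) → Fin m → ℝ} {H : Fin m → (κ → ℝ) → ℝ} (hF : Pt F)
    (hG : Pt G) (hK : Pt K) (hH : ∀ j, Bm (H j)) :
    ∫ x, ∑ k, (K x k - F x k) * H k x ∂(gam κ) =
      ∫ x, ∑ k, (G x k - F x k) * H k x ∂(gam κ) +
        ∫ x, ∑ k, (K x k - G x k) * H k x ∂(gam κ) := by
  rw [← integral_add (D3b_Hint hF hG hH) (D3b_Hint hG hK hH)]
  refine integral_congr_ae (Filter.Eventually.of_forall fun x => ?_)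
  simp only [← Finset.sum_add_distrib]
  exact Finset.sum_congr rfl fun k _ => by ring

theorem pD3b : StD3b := by
  intro κ _ m F H hF hH i k j h1 h2
  obtain ⟨C1, hC1, h1⟩ := h1
  obtain ⟨C2, hC2, h2⟩ := h2
  refine ⟨C1 + C2, by linarith, fun ε hε => ?_⟩
  obtain ⟨R1, δ1, hR1, hδ1, h1⟩ := h1 (ε / 2) (by linarith)
  obtain ⟨R2, δ2, hR2, hδ2, h2⟩ := h2 (ε / 2) (by linarith)
  have hC : 0 < 1 + C1 := by linarith
  refine ⟨max R1 R2, min δ1 (min δ2 (δ2 / (1 + C1))), lt_max_of_lt_left hR1,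
    lt_min hδ1 (lt_min hδ2 (div_pos hδ2 hC)), fun G hG hFG σ hσ hσδ => ?_⟩
  obtain ⟨G1, hG1, hR, hdf, hL, hint⟩ := h1 G hG (hFG.trans (min_le_left _ _)) σ hσ
    (hσδ.trans (min_le_left _ _))
  have hFG1 : L1 F G1 ≤ δ2 := by
    have h3 : min δ1 (min δ2 (δ2 / (1 + C1))) ≤ δ2 / (1 + C1) :=
      (min_le_right _ _).trans (min_le_right _ _)
    calc L1 F G1 ≤ L1 F G + L1 G G1 := D3b_tri hF hG hG1
      _ ≤ δ2 / (1 + C1) + C1 * (δ2 / (1 + C1)) :=
          add_le_add (hFG.trans h3) (hL.trans (mul_le_mul_of_nonneg_left (hσδ.trans h3) hC1))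
      _ = δ2 := by field_simp
  obtain ⟨G2, hG2, hR', hdf', hL', hint'⟩ := h2 G1 hG1 hFG1 σ hσ
    (hσδ.trans ((min_le_right _ _).trans (min_le_left _ _)))
  refine ⟨G2, hG2, ?_, ?_, ?_, ?_⟩
  · intro x hx
    rw [hR' x (lt_of_le_of_lt (le_max_right _ _) hx), hR x (lt_of_le_of_lt (le_max_left _ _) hx)]
  · intro l
    rw [hdf' l, hdf l]
    ring
  · calc L1 G G2 ≤ L1 G G1 + L1 G1 G2 := D3b_tri hG hG1 hG2
      _ ≤ C1 * σ + C2 * σ := add_le_add hL hL'
      _ = (C1 + C2) * σ := by ring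
  · rw [D3b_Hadd hG hG1 hG2 hH]
    linarith

end Pool.TC
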