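import Pool.Agent.TC.St

/-! Project TC, module D3c: mass can be moved between any two colours. -/

set_option autoImplicit false

open MeasureTheory ProbabilityTheory Pool.H65.PS Pool.H65.PT

namespace Pool.TC

/-- the points near which colour `j` is present -/
private def D3c_Om {κ : Type} [Fintype κ] {m : ℕ} (F : (κ → ℝ) → Fin m → ℝ) (j : Fin m) :
    Set (κ → ℝ) :=
  {p | ∀ U : Set (κ → ℝ), IsOpen U → p ∈ U → 0 < ∫ x in U, F x j ∂(gam κ)}

private theorem D3c_openPos (κ : Type) [Fintype κ] : Measure.IsOpenPosMeasure (gam κ) := by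
  have h1 : Measure.IsOpenPosMeasure (gaussianReal 0 1) :=
    (gaussianReal_absolutelyContinuous' 0 one_ne_zero).isOpenPosMeasure
  unfold gam
  infer_instance

variable {κ : Type} [Fintype κ] {m : ℕ} {F : (κ → ℝ) → Fin m → ℝ}

private theorem D3c_nn (hF : Pt F) (j : Fin m) (x : κ → ℝ) : 0 ≤ F x j := (hF.simp x).1 j

private theorem D3c_le (hF : Pt F) (j : Fin m) (x : κ → ℝ) : F x j ≤ 1 := by
  have h1 : ∑ k, F x k = 1 := (hF.simp x).2
  rw [← h1]
  exact Finset.single_le_sum (f := fun k => F x k) (fun k _ => D3c_nn hF k x)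
    (Finset.mem_univ j)

private theorem D3c_int (hF : Pt F) (j : Fin m) : Integrable (fun x => F x j) (gam κ) := by
  refine Integrable.of_bound (hF.meas j).aestronglyMeasurable 1 (Filter.Eventually.of_forall ?_)
  intro x
  rw [Real.norm_eq_abs, abs_of_nonneg (D3c_nn hF j x)]
  exact D3c_le hF j x

private theorem D3c_closed (j : Fin m) : IsClosed (D3c_Om F j) := by
  rw [← isOpen_compl_iff, isOpen_iff_mem_nhds]
  intro p hp
  have h1 : ∃ U : Set (κ → ℝ), IsOpen U ∧ p ∈ U ∧ ¬ 0 < ∫ x in U, F x j ∂(gam κ) := by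
    by_contra hcon
    push Not at hcon
    exact hp fun U hU hpU => hcon U hU hpU
  obtain ⟨U, hU, hpU, hneg⟩ := h1
  exact Filter.mem_of_superset (hU.mem_nhds hpU) fun q hq hq' => hneg (hq' U hU hq)

private theorem D3c_zero (hF : Pt F) (j : Fin m) {U : Set (κ → ℝ)} (hU : IsOpen U)
    (h : ¬ 0 < ∫ x in U, F x j ∂(gam κ)) : gam κ (U ∩ {x | 0 < F x j}) = 0 := by
  have h0 : 0 ≤ ∫ x in U, F x j ∂(gam κ) := integral_nonneg fun x => D3c_nn hF j x
  have h1 : ∫ x in U, F x j ∂(gam κ) = 0 := le_antisymm (not_lt.1 h) h0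
  rw [integral_eq_zero_iff_of_nonneg (fun x => D3c_nn hF j x) (D3c_int hF j).integrableOn] at h1
  have h2 : ∀ᵐ x ∂(gam κ), x ∈ U → F x j = 0 := (ae_restrict_iff' hU.measurableSet).1 h1
  refine measure_mono_null ?_ h2
  rintro x ⟨hx, hx'⟩ hx''
  exact (ne_of_gt hx') (hx'' hx)

private theorem D3c_nonempty (hF : Pt F) (j : Fin m) (h : 0 < ∫ x, F x j ∂(gam κ)) :
    (D3c_Om F j).Nonempty := by
  by_contra hcon
  rw [Set.not_nonempty_iff_eq_empty] at hcon
  have h1 : gam κ {x | 0 < F x j} = 0 := by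
    refine measure_null_of_locally_null _ fun p hp => ?_
    have h2 : p ∉ D3c_Om F j := by rw [hcon]; exact Set.notMem_empty p
    have h3 : ∃ U : Set (κ → ℝ), IsOpen U ∧ p ∈ U ∧ ¬ 0 < ∫ x in U, F x j ∂(gam κ) := by
      by_contra hcon
      push Not at hcon
      exact h2 fun U hU hpU => hcon U hU hpU
    obtain ⟨U, hU, hpU, hneg⟩ := h3
    exact ⟨U ∩ {x | 0 < F x j}, Filter.inter_mem (mem_nhdsWithin_of_mem_nhds (hU.mem_nhds hpU))
      self_mem_nhdsWithin, D3c_zero hF j hU hneg⟩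
  have h4 : ∫ x, F x j ∂(gam κ) = 0 := by
    refine integral_eq_zero_of_ae ?_
    have h5 : ∀ᵐ x ∂(gam κ), ¬ 0 < F x j := by
      rw [ae_iff]
      simpa using h1
    filter_upwards [h5] with x hx
    exact le_antisymm (not_lt.1 hx) (D3c_nn hF j x)
  exact h.ne' h4

private theorem D3c_cover (hF : Pt F) (p : κ → ℝ) : ∃ j, p ∈ D3c_Om F j := by
  have := D3c_openPos κ
  by_contra hcon
  push Not at hcon
  have h1 : ∀ j, ∃ U : Set (κ → ℝ), IsOpen U ∧ p ∈ U ∧ ¬ 0 < ∫ x in U, F x j ∂(gam κ) := by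
    intro j
    by_contra hcon'
    push Not at hcon'
    exact hcon j fun U hU hpU => hcon' U hU hpU
  choose U hU hpU hneg using h1
  have h2 : IsOpen (⋂ j, U j) := isOpen_iInter_of_finite hU
  have h3 : 0 < gam κ (⋂ j, U j) := h2.measure_pos _ ⟨p, Set.mem_iInter.2 hpU⟩
  have h4 : (⋂ j, U j) ⊆ ⋃ j, (U j ∩ {x | 0 < F x j}) := by
    intro x hx
    have h5 : ∃ j, 0 < F x j := by
      by_contra hcon'
      push Not at hcon'
      have h6 : ∑ k, F x k = 1 := (hF.simp x).2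
      have h7 : ∑ k, F x k ≤ 0 := Finset.sum_nonpos fun k _ => hcon' k
      linarith
    obtain ⟨j, hj⟩ := h5
    exact Set.mem_iUnion.2 ⟨j, Set.mem_iInter.1 hx j, hj⟩
  have h8 : gam κ (⋃ j, (U j ∩ {x | 0 < F x j})) = 0 :=
    measure_iUnion_null fun j => D3c_zero hF j (hU j) (hneg j)
  exact h3.ne' (measure_mono_null h4 h8)

theorem pD3c (hD3a : StD3a) (hD3b : StD3b) : StD3c := by
  classical
  intro κ _ m F H hF hH hHc hae hpos i j
  have hT : ∀ k l : Fin m, ∀ p, p ∈ D3c_Om F k → p ∈ D3c_Om F l → Tr F H k l :=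
    fun k l p hk hl => hD3a κ m F H hF hH hHc hae k l p hk hl
  set K1 : Set (κ → ℝ) := ⋃ k : Fin m, {p | p ∈ D3c_Om F k ∧ (Tr F H i k ∧ Tr F H k i)} with hK1
  set K2 : Set (κ → ℝ) := ⋃ k : Fin m, {p | p ∈ D3c_Om F k ∧ ¬ (Tr F H i k ∧ Tr F H k i)}
    with hK2
  have hc1 : IsClosed K1 := isClosed_iUnion_of_finite fun k =>
    (D3c_closed k).inter isClosed_const
  have hc2 : IsClosed K2 := isClosed_iUnion_of_finite fun k =>
    (D3c_closed k).inter isClosed_const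
  obtain ⟨p, hp⟩ := D3c_nonempty hF i (hpos i)
  have hn1 : (Set.univ ∩ K1).Nonempty :=
    ⟨p, Set.mem_univ p, Set.mem_iUnion.2 ⟨i, hp, hT i i p hp hp, hT i i p hp hp⟩⟩
  have hcov : (Set.univ : Set (κ → ℝ)) ⊆ K1 ∪ K2 := by
    intro q _
    obtain ⟨k, hk⟩ := D3c_cover hF q
    by_cases h1 : Tr F H i k ∧ Tr F H k i
    · exact Or.inl (Set.mem_iUnion.2 ⟨k, hk, h1⟩)
    · exact Or.inr (Set.mem_iUnion.2 ⟨k, hk, h1⟩)
  have hn2 : ¬ (Set.univ ∩ K2).Nonempty := by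
    intro hn2
    obtain ⟨q, -, hq1, hq2⟩ :=
      isPreconnected_closed_iff.1 (isPreconnected_univ (α := κ → ℝ)) K1 K2 hc1 hc2 hcov hn1 hn2
    obtain ⟨k, hk, hk1, hk2⟩ := Set.mem_iUnion.1 hq1
    obtain ⟨l, hl, hl'⟩ := Set.mem_iUnion.1 hq2
    exact hl' ⟨hD3b κ m F H hF hH i k l hk1 (hT k l q hk hl),
      hD3b κ m F H hF hH l k i (hT l k q hl hk) hk2⟩
  obtain ⟨q, hq⟩ := D3c_nonempty hF j (hpos j)
  by_contra hcon
  exact hn2 ⟨q, Set.mem_univ q, Set.mem_iUnion.2 ⟨j, hq, fun h => hcon h.1⟩⟩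

end Pool.TC
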