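import Pool.Agent.TC.St

/-! Project TC, module D3d. -/

set_option autoImplicit false

open MeasureTheory ProbabilityTheory Pool.H65.PS Pool.H65.PT

namespace Pool.TC

variable {κ : Type} [Fintype κ] {m : ℕ}

private theorem D3d_prob : IsProbabilityMeasure (gam κ) := by
  unfold gam
  infer_instance

omit [Fintype κ] in
private theorem D3d_bd {f : (κ → ℝ) → Fin m → ℝ} (hf : Pt f) (x : κ → ℝ) (j : Fin m) :
    0 ≤ f x j ∧ f x j ≤ 1 := by
  obtain ⟨h0, h1⟩ := hf.simp x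
  refine ⟨h0 j, ?_⟩
  rw [← h1]
  exact Finset.single_le_sum (fun k _ => h0 k) (Finset.mem_univ j)

private theorem D3d_int {f : (κ → ℝ) → ℝ} (hf : Measurable f) (B : ℝ) (hB : ∀ x, |f x| ≤ B) :
    Integrable f (gam κ) := by
  have := D3d_prob (κ := κ)
  exact Integrable.of_bound hf.aestronglyMeasurable B
    (Filter.Eventually.of_forall fun x => by rw [Real.norm_eq_abs]; exact hB x)

private theorem D3d_absdiff {F G : (κ → ℝ) → Fin m → ℝ} (hF : Pt F) (hG : Pt G) (j : Fin m) :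
    Integrable (fun x => |G x j - F x j|) (gam κ) := by
  refine D3d_int ((hG.meas j).sub (hF.meas j)).abs 1 fun x => ?_
  rw [abs_abs, abs_le]
  have h1 := D3d_bd hF x j
  have h2 := D3d_bd hG x j
  constructor <;> linarith [h1.1, h1.2, h2.1, h2.2]

private theorem D3d_L1_int {F G : (κ → ℝ) → Fin m → ℝ} (hF : Pt F) (hG : Pt G) :
    Integrable (fun x => ∑ j, |G x j - F x j|) (gam κ) :=
  integrable_finsetSum _ fun j _ => D3d_absdiff hF hG j

private theorem D3d_tri {F G K : (κ → ℝ) → Fin m → ℝ} (hF : Pt F) (hG : Pt G) (hK : Pt K) :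
    L1 F K ≤ L1 F G + L1 G K := by
  unfold L1
  rw [← integral_add (D3d_L1_int hF hG) (D3d_L1_int hG hK)]
  refine integral_mono (D3d_L1_int hF hK) ((D3d_L1_int hF hG).add (D3d_L1_int hG hK)) fun x => ?_
  simp only [← Finset.sum_add_distrib]
  refine Finset.sum_le_sum fun j _ => ?_
  have h1 := abs_add_le (G x j - F x j) (K x j - G x j)
  have h2 : G x j - F x j + (K x j - G x j) = K x j - F x j := by ring
  rw [h2] at h1
  exact h1

private theorem D3d_Hint {F G : (κ → ℝ) → Fin m → ℝ} {H : Fin m → (κ → ℝ) → ℝ} (hF : Pt F)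
    (hG : Pt G) (hH : ∀ j, Bm (H j)) :
    Integrable (fun x => ∑ k, (G x k - F x k) * H k x) (gam κ) := by
  refine integrable_finsetSum _ fun k _ => ?_
  obtain ⟨B, hB⟩ := (hH k).bdd
  refine D3d_int (((hG.meas k).sub (hF.meas k)).mul (hH k).meas) B fun x => ?_
  rw [abs_mul]
  have h1 := D3d_bd hF x k
  have h2 := D3d_bd hG x k
  have h3 : |G x k - F x k| ≤ 1 := by
    rw [abs_le]
    constructor <;> linarith [h1.1, h1.2, h2.1, h2.2]
  calc |G x k - F x k| * |H k x| ≤ 1 * |H k x| :=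
        mul_le_mul_of_nonneg_right h3 (abs_nonneg _)
    _ ≤ B := by rw [one_mul]; exact hB x

private theorem D3d_Hadd {F G K : (κ → ℝ) → Fin m → ℝ} {H : Fin m → (κ → ℝ) → ℝ} (hF : Pt F)
    (hG : Pt G) (hK : Pt K) (hH : ∀ j, Bm (H j)) :
    ∫ x, ∑ k, (K x k - F x k) * H k x ∂(gam κ) =
      ∫ x, ∑ k, (G x k - F x k) * H k x ∂(gam κ) +
        ∫ x, ∑ k, (K x k - G x k) * H k x ∂(gam κ) := by
  rw [← integral_add (D3d_Hint hF hG hH) (D3d_Hint hG hK hH)]
  refine integral_congr_ae (Filter.Eventually.of_forall fun x => ?_)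
  simp only [← Finset.sum_add_distrib]
  exact Finset.sum_congr rfl fun k _ => by ring

private theorem D3d_main (F : (κ → ℝ) → Fin m → ℝ) (H : Fin m → (κ → ℝ) → ℝ) (hF : Pt F)
    (hH : ∀ j, Bm (H j)) (hTr : ∀ i j : Fin m, Tr F H i j) (i0 : Fin m) (s : Finset (Fin m)) :
    i0 ∉ s → ∃ C : ℝ, 0 ≤ C ∧ ∀ ε : ℝ, 0 < ε → ∃ R δ : ℝ, 0 < R ∧ 0 < δ ∧
    ∀ G : (κ → ℝ) → Fin m → ℝ, Pt G → L1 F G ≤ δ → (∀ j ∈ s, |df G j| ≤ δ) →
      ∃ G' : (κ → ℝ) → Fin m → ℝ, Pt G' ∧ (∀ j ∈ s, df G' j = 0) ∧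
        (∀ k, k ∉ s → k ≠ i0 → df G' k = df G k) ∧ (∀ x, R < ‖x‖ → G' x = G x) ∧
        L1 G G' ≤ C * ∑ j ∈ s, |df G j| ∧
        -(ε * ∑ j ∈ s, |df G j|) ≤ ∫ x, ∑ k, (G' x k - G x k) * H k x ∂(gam κ) := by
  classical
  induction s using Finset.induction_on with
  | empty =>
    intro _
    refine ⟨0, le_refl _, fun ε _ => ⟨1, 1, one_pos, one_pos, fun G hG _ _ => ⟨G, hG, ?_, ?_, ?_,
      ?_, ?_⟩⟩⟩
    · intro j hj
      exact absurd hj (Finset.notMem_empty j)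
    · intro k _ _
      rfl
    · intro x _
      rfl
    · unfold L1
      simp
    · simp
  | insert j s hjs ih =>
    intro hi0
    have hj0 : j ≠ i0 := fun h => hi0 (by rw [← h]; exact Finset.mem_insert_self j s)
    have hs0 : i0 ∉ s := fun h => hi0 (Finset.mem_insert_of_mem h)
    obtain ⟨C1, hC1, h1⟩ := ih hs0
    obtain ⟨C2, hC2, h2⟩ := hTr j i0
    obtain ⟨C3, hC3, h3⟩ := hTr i0 j
    refine ⟨C1 + (C2 + C3), by positivity, fun ε hε => ?_⟩
    obtain ⟨R1, δ1, hR1, hδ1, h1⟩ := h1 ε hε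
    obtain ⟨R2, δ2, hR2, hδ2, h2⟩ := h2 ε hε
    obtain ⟨R3, δ3, hR3, hδ3, h3⟩ := h3 ε hε
    have hden : (1 : ℝ) ≤ 1 + C1 * (s.card : ℝ) := by
      have : 0 ≤ C1 * (s.card : ℝ) := by positivity
      linarith
    have hden0 : (0 : ℝ) < 1 + C1 * (s.card : ℝ) := by linarith
    have hδ23 : 0 < min δ2 δ3 := lt_min hδ2 hδ3
    have hdpos : 0 < min δ2 δ3 / (1 + C1 * (s.card : ℝ)) := div_pos hδ23 hden0
    refine ⟨max R1 (max R2 R3), min δ1 (min δ2 δ3 / (1 + C1 * (s.card : ℝ))),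
      lt_max_of_lt_left hR1, lt_min hδ1 hdpos, fun G hG hL hd => ?_⟩
    have hd1 : min δ1 (min δ2 δ3 / (1 + C1 * (s.card : ℝ))) ≤ δ1 := min_le_left _ _
    have hd2 : min δ1 (min δ2 δ3 / (1 + C1 * (s.card : ℝ))) * (1 + C1 * (s.card : ℝ))
        ≤ min δ2 δ3 := by
      have h4 := mul_le_mul_of_nonneg_right
        (min_le_right δ1 (min δ2 δ3 / (1 + C1 * (s.card : ℝ)))) hden0.le
      rw [div_mul_cancel₀ _ hden0.ne'] at h4
      exact h4
    have hdpos' : 0 < min δ1 (min δ2 δ3 / (1 + C1 * (s.card : ℝ))) := lt_min hδ1 hdpos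
    generalize min δ1 (min δ2 δ3 / (1 + C1 * (s.card : ℝ))) = δ at *
    have hd3 : δ ≤ min δ2 δ3 := by
      have h4 : δ * 1 ≤ δ * (1 + C1 * (s.card : ℝ)) := mul_le_mul_of_nonneg_left hden hdpos'.le
      linarith
    obtain ⟨G1, hG1, ha, hb, hc, hL1, hE1⟩ := h1 G hG (hL.trans hd1) fun k hk =>
      (hd k (Finset.mem_insert_of_mem hk)).trans hd1
    have hsum : ∑ k ∈ s, |df G k| ≤ (s.card : ℝ) * δ := by
      have h4 := Finset.sum_le_card_nsmul s (fun k => |df G k|) δ fun k hk =>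
        hd k (Finset.mem_insert_of_mem hk)
      rw [nsmul_eq_mul] at h4
      exact h4
    have hLF : L1 F G1 ≤ min δ2 δ3 := by
      have h4 := D3d_tri hF hG hG1
      have h5 : C1 * ∑ k ∈ s, |df G k| ≤ C1 * ((s.card : ℝ) * δ) :=
        mul_le_mul_of_nonneg_left hsum hC1
      have h6 : δ + C1 * ((s.card : ℝ) * δ) = δ * (1 + C1 * (s.card : ℝ)) := by ring
      linarith
    have hdj : |df G j| ≤ min δ2 δ3 := (hd j (Finset.mem_insert_self j s)).trans hd3
    have hG1j : df G1 j = df G j := hb j hjs hj0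
    have key : ∃ G2 : (κ → ℝ) → Fin m → ℝ, Pt G2 ∧ (∀ x, max R2 R3 < ‖x‖ → G2 x = G1 x) ∧
        df G2 j = 0 ∧ (∀ k, k ≠ j → k ≠ i0 → df G2 k = df G1 k) ∧
        L1 G1 G2 ≤ (C2 + C3) * |df G j| ∧
        -(ε * |df G j|) ≤ ∫ x, ∑ k, (G2 x k - G1 x k) * H k x ∂(gam κ) := by
      rcases le_total 0 (df G j) with h0 | h0
      · rw [abs_of_nonneg h0] at hdj ⊢
        obtain ⟨G2, hG2, ha2, hb2, hc2, he2⟩ := h2 G1 hG1 (hLF.trans (min_le_left _ _)) (df G j) h0
          (hdj.trans (min_le_left _ _))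
        refine ⟨G2, hG2, fun x hx => ha2 x ((le_max_left _ _).trans_lt hx), ?_, ?_, ?_, he2⟩
        · rw [hb2 j, hG1j, if_neg hj0, if_pos rfl]
          ring
        · intro k hk hk0
          rw [hb2 k, if_neg hk0, if_neg hk]
          ring
        · have h7 : 0 ≤ C3 * df G j := mul_nonneg hC3 h0
          linarith
      · rw [abs_of_nonpos h0] at hdj ⊢
        have h0' : 0 ≤ -df G j := by linarith
        obtain ⟨G2, hG2, ha2, hb2, hc2, he2⟩ := h3 G1 hG1 (hLF.trans (min_le_right _ _))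
          (-df G j) h0' (hdj.trans (min_le_right _ _))
        refine ⟨G2, hG2, fun x hx => ha2 x ((le_max_right _ _).trans_lt hx), ?_, ?_, ?_, he2⟩
        · rw [hb2 j, hG1j, if_pos rfl, if_neg hj0]
          ring
        · intro k hk hk0
          rw [hb2 k, if_neg hk, if_neg hk0]
          ring
        · have h7 : 0 ≤ C2 * (-df G j) := mul_nonneg hC2 h0'
          linarith
    obtain ⟨G2, hG2, ha2, hb2, hc2, hL2, hE2⟩ := key
    refine ⟨G2, hG2, ?_, ?_, ?_, ?_, ?_⟩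
    · intro k hk
      rcases Finset.mem_insert.1 hk with rfl | hk
      · exact hb2
      · have hkj : k ≠ j := fun h => hjs (by rw [← h]; exact hk)
        have hk0 : k ≠ i0 := fun h => hs0 (by rw [← h]; exact hk)
        rw [hc2 k hkj hk0]
        exact ha k hk
    · intro k hk hk0
      have hkj : k ≠ j := fun h => hk (by rw [h]; exact Finset.mem_insert_self j s)
      rw [hc2 k hkj hk0]
      exact hb k (fun h => hk (Finset.mem_insert_of_mem h)) hk0
    · intro x hx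
      rw [ha2 x ((le_max_right _ _).trans_lt hx), hc x ((le_max_left _ _).trans_lt hx)]
    · rw [Finset.sum_insert hjs]
      have h4 := D3d_tri hG hG1 hG2
      have h5 : 0 ≤ ∑ k ∈ s, |df G k| := Finset.sum_nonneg fun k _ => abs_nonneg _
      have h6 : 0 ≤ |df G j| := abs_nonneg _
      have h7 : 0 ≤ C1 * |df G j| := mul_nonneg hC1 h6
      have h8 : 0 ≤ (C2 + C3) * ∑ k ∈ s, |df G k| := mul_nonneg (by linarith) h5
      have h9 : (C1 + (C2 + C3)) * (|df G j| + ∑ k ∈ s, |df G k|) =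
          C1 * |df G j| + C1 * (∑ k ∈ s, |df G k|) + (C2 + C3) * |df G j| +
            (C2 + C3) * ∑ k ∈ s, |df G k| := by ring
      rw [h9]
      linarith
    · rw [Finset.sum_insert hjs, D3d_Hadd hG hG1 hG2 hH]
      have h9 : -(ε * (|df G j| + ∑ k ∈ s, |df G k|)) =
          -(ε * ∑ k ∈ s, |df G k|) + -(ε * |df G j|) := by ring
      rw [h9]
      linarith

private theorem D3d_dfsum (hm : 1 ≤ m) {G : (κ → ℝ) → Fin m → ℝ} (hG : Pt G) :
    ∑ j, df G j = 0 := by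
  have hp := D3d_prob (κ := κ)
  unfold df
  rw [Finset.sum_sub_distrib, ← integral_finsetSum _ fun j _ =>
    D3d_int (hG.meas j) 1 fun x => by
      rw [abs_le]
      have h1 := D3d_bd hG x j
      constructor <;> linarith [h1.1, h1.2]]
  have h1 : ∀ x, ∑ j, G x j = 1 := fun x => (hG.simp x).2
  simp only [h1]
  have h2 : (m : ℝ) ≠ 0 := by
    have : (1 : ℝ) ≤ m := by exact_mod_cast hm
    linarith
  simp [h2]

theorem pD3d : StD3d := by
  classical
  intro κ _ m F H hm hF hH hTr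
  have hi0 : 0 < m := hm
  obtain ⟨C, hC, h⟩ := D3d_main F H hF hH hTr ⟨0, hi0⟩ (Finset.univ.erase ⟨0, hi0⟩)
    (Finset.notMem_erase _ _)
  refine ⟨C, hC, fun ε hε => ?_⟩
  obtain ⟨R, δ, hR, hδ, h⟩ := h ε hε
  refine ⟨R, δ, hR, hδ, fun G hG hL hd => ?_⟩
  obtain ⟨G', hG', ha, -, hc, hL', hE⟩ := h G hG hL fun j _ => hd j
  have hsum : ∑ j ∈ Finset.univ.erase (⟨0, hi0⟩ : Fin m), |df G j| ≤ ∑ j, |df G j| :=
    Finset.sum_le_sum_of_subset_of_nonneg (Finset.erase_subset _ _) fun _ _ _ => abs_nonneg _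
  have h0 : ∀ j, df G' j = 0 := by
    intro j
    by_cases hj : j = ⟨0, hi0⟩
    · have h1 := D3d_dfsum hm hG'
      rw [← Finset.add_sum_erase _ _ (Finset.mem_univ j)] at h1
      rw [Finset.sum_eq_zero, add_zero] at h1
      · exact h1
      · intro k hk
        rw [hj] at hk
        exact ha k hk
    · exact ha j (Finset.mem_erase.2 ⟨hj, Finset.mem_univ j⟩)
  refine ⟨G', hG', ?_, hc, hL'.trans (mul_le_mul_of_nonneg_left hsum hC), ?_⟩
  · intro j
    have h1 := h0 j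
    unfold df at h1
    linarith
  · refine le_trans ?_ hE
    have h1 := mul_le_mul_of_nonneg_left hsum hε.le
    linarith

end Pool.TC
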