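import Pool.Agent.TC.St
import Pool.Agent.Helper65.PT.Oub
import Pool.Agent.Helper65.PT.Ous

/-! Project TC, module D4: the second order estimate near a maximiser. -/

set_option autoImplicit false

open MeasureTheory ProbabilityTheory Pool.H65.PS Pool.H65.PT

namespace Pool.TC

section D4

variable {κ : Type} [Fintype κ] {m : ℕ}

omit [Fintype κ] in
private theorem D4_rng {F : (κ → ℝ) → Fin m → ℝ} (hF : Pt F) (x : κ → ℝ) (j : Fin m) :
    0 ≤ F x j ∧ F x j ≤ 1 := by
  obtain ⟨h0, h1⟩ := hF.simp x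
  refine ⟨h0 j, ?_⟩
  rw [← h1]
  exact Finset.single_le_sum (f := fun j => F x j) (fun i _ => h0 i) (Finset.mem_univ j)

omit [Fintype κ] in
private theorem D4_bm {F : (κ → ℝ) → Fin m → ℝ} (hF : Pt F) (j : Fin m) :
    Bm (fun x => F x j) := by
  refine ⟨hF.meas j, 1, fun x => ?_⟩
  obtain ⟨h0, h1⟩ := D4_rng hF x j
  rw [abs_of_nonneg h0]
  exact h1

omit [Fintype κ] in
private theorem D4_bm_sub {f g : (κ → ℝ) → ℝ} (hf : Bm f) (hg : Bm g) :
    Bm (fun x => f x - g x) := by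
  obtain ⟨A, hA⟩ := hf.bdd
  obtain ⟨B, hB⟩ := hg.bdd
  refine ⟨hf.meas.sub hg.meas, A + B, fun x => ?_⟩
  exact (abs_sub _ _).trans (add_le_add (hA x) (hB x))

omit [Fintype κ] in
private theorem D4_bm_add {f g : (κ → ℝ) → ℝ} (hf : Bm f) (hg : Bm g) :
    Bm (fun x => f x + g x) := by
  obtain ⟨A, hA⟩ := hf.bdd
  obtain ⟨B, hB⟩ := hg.bdd
  refine ⟨hf.meas.add hg.meas, A + B, fun x => ?_⟩
  exact (abs_add_le _ _).trans (add_le_add (hA x) (hB x))

omit [Fintype κ] in
private theorem D4_bm_mul {f g : (κ → ℝ) → ℝ} (hf : Bm f) (hg : Bm g) :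
    Bm (fun x => f x * g x) := ⟨hf.meas.mul hg.meas, oub_mul hf.bdd hg.bdd⟩

omit [Fintype κ] in
private theorem D4_bm_abs {f : (κ → ℝ) → ℝ} (hf : Bm f) : Bm (fun x => |f x|) := by
  obtain ⟨A, hA⟩ := hf.bdd
  refine ⟨hf.meas.abs, A, fun x => ?_⟩
  rw [abs_abs]
  exact hA x

omit [Fintype κ] in
private theorem D4_bm_const (c : ℝ) : Bm (fun _ : κ → ℝ => c) :=
  ⟨measurable_const, |c|, fun _ => le_rfl⟩

omit [Fintype κ] in
private theorem D4_bm_sum {f : Fin m → (κ → ℝ) → ℝ} (hf : ∀ j, Bm (f j)) :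
    Bm (fun x => ∑ j, f j x) := by
  choose B hB using fun j => (hf j).bdd
  refine ⟨Finset.measurable_sum _ fun j _ => (hf j).meas, ∑ j, B j, fun x => ?_⟩
  exact (Finset.abs_sum_le_sum_abs _ _).trans (Finset.sum_le_sum fun j _ => hB j x)

private theorem D4_OU_sub {f g : (κ → ℝ) → ℝ} (hf : Bm f) (hg : Bm g) (r : ℝ) (x : κ → ℝ) :
    OU r (fun y => f y - g y) x = OU r f x - OU r g x := by
  unfold OU
  exact integral_sub (oub_int (hf.meas.comp (oub_am (r • x) _)) (oub_comp hf.bdd _))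
    (oub_int (hg.meas.comp (oub_am (r • x) _)) (oub_comp hg.bdd _))

private theorem D4_conv {f g : (κ → ℝ) → ℝ} (hf : Bm f) (hg : Bm g) (ρ : ℝ) (h0 : 0 ≤ ρ)
    (h1 : ρ ≤ 1) :
    sg ρ f f + 2 * ∫ x, (g x - f x) * OU ρ f x ∂(gam κ) ≤ sg ρ g g := by
  have hh : Bm (fun x => g x - f x) := D4_bm_sub hg hf
  have ha : |ρ| ≤ 1 := by rw [abs_of_nonneg h0]; exact h1
  have hpos := sg_self_nonneg hh ρ h0 h1
  have iOf := OU_bm hf ρ
  have iOg := OU_bm hg ρ
  have e1 : ∫ x, (g x - f x) * OU ρ f x ∂(gam κ) = sg ρ g f - sg ρ f f := by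
    rw [sg_eq_OU hg hf, sg_eq_OU hf hf, ← integral_sub (Ous_integrable_bm (D4_bm_mul hg iOf))
      (Ous_integrable_bm (D4_bm_mul hf iOf))]
    refine integral_congr_ae (Filter.Eventually.of_forall fun x => ?_)
    simp only
    ring
  have e2 : ∫ x, (g x - f x) * OU ρ g x ∂(gam κ) = sg ρ g g - sg ρ f g := by
    rw [sg_eq_OU hg hg, sg_eq_OU hf hg, ← integral_sub (Ous_integrable_bm (D4_bm_mul hg iOg))
      (Ous_integrable_bm (D4_bm_mul hf iOg))]
    refine integral_congr_ae (Filter.Eventually.of_forall fun x => ?_)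
    simp only
    ring
  have e3 : sg ρ (fun x => g x - f x) (fun x => g x - f x) =
      ∫ x, (g x - f x) * OU ρ g x ∂(gam κ) - ∫ x, (g x - f x) * OU ρ f x ∂(gam κ) := by
    rw [sg_eq_OU hh hh, ← integral_sub (Ous_integrable_bm (D4_bm_mul hh iOg))
      (Ous_integrable_bm (D4_bm_mul hh iOf))]
    refine integral_congr_ae (Filter.Eventually.of_forall fun x => ?_)
    simp only
    rw [D4_OU_sub hg hf ρ x]
    ring
  have e4 := sg_symm hf hg ρ ha
  rw [e3, e2, e1, e4] at hpos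
  rw [e1]
  linarith

private theorem D4_df_le {F G : (κ → ℝ) → Fin m → ℝ} (hF : Pt F) (hG : Pt G) (hB : Bal F)
    (j : Fin m) : |df G j| ≤ L1 F G := by
  have e : df G j = ∫ x, (G x j - F x j) ∂(gam κ) := by
    rw [integral_sub (Ous_integrable_bm (D4_bm hG j)) (Ous_integrable_bm (D4_bm hF j)), hB j]
    rfl
  rw [e]
  refine (abs_integral_le_integral_abs).trans ?_
  refine integral_mono (Ous_integrable_bm (D4_bm_abs (D4_bm_sub (D4_bm hG j) (D4_bm hF j))))
    (Ous_integrable_bm (D4_bm_sum fun k => D4_bm_abs (D4_bm_sub (D4_bm hG k) (D4_bm hF k))))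
    fun x => ?_
  exact Finset.single_le_sum (f := fun k => |G x k - F x k|) (fun i _ => abs_nonneg _)
    (Finset.mem_univ j)

private theorem D4_int_le {F G : (κ → ℝ) → Fin m → ℝ} (hF : Pt F) (hG : Pt G) (j : Fin m) :
    ∫ x, |G x j - F x j| ∂(gam κ) ≤ L1 F G := by
  refine integral_mono (Ous_integrable_bm (D4_bm_abs (D4_bm_sub (D4_bm hG j) (D4_bm hF j))))
    (Ous_integrable_bm (D4_bm_sum fun k => D4_bm_abs (D4_bm_sub (D4_bm hG k) (D4_bm hF k))))
    fun x => ?_
  exact Finset.single_le_sum (f := fun k => |G x k - F x k|) (fun i _ => abs_nonneg _)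
    (Finset.mem_univ j)

theorem pD4 (hD2a : StD2a) (hD2b : StD2b) (hD3c : StD3c) (hD3d : StD3d) (hD4a : StD4a) :
    StD4 := by
  intro κ _ m ρ F hm h0 h1 hMx
  have hF := hMx.pt
  have hB := hMx.bal
  have bF : ∀ j, Bm (fun x => F x j) := fun j => D4_bm hF j
  have bO : ∀ j, Bm (OU ρ (fun x => F x j)) := fun j => OU_bm (bF j) ρ
  obtain ⟨c, hc⟩ := hD2b κ m hm (fun j => OU ρ (fun x => F x j)) bO F hF hB
    (fun f hf hfB => hD2a κ m ρ F h0 h1.le hMx f hf hfB)
  refine ⟨c, fun ε hε => ?_⟩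
  set H : Fin m → (κ → ℝ) → ℝ := fun j x => OU ρ (fun x => F x j) x + c j with hH
  have bH : ∀ j, Bm (H j) := fun j => D4_bm_add (bO j) (D4_bm_const (c j))
  have cH : ∀ j, Continuous (H j) := fun j =>
    (OU_continuous (bF j) ρ h0 h1).add continuous_const
  have mpos : (0 : ℝ) < 1 / (m : ℝ) := by
    have : (0 : ℝ) < m := by exact_mod_cast hm
    positivity
  have hTr := hD3c κ m F H hF bH cH hc (fun j => by rw [hB j]; exact mpos)
  obtain ⟨C, hC, h3⟩ := hD3d κ m F H hm hF bH hTr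
  obtain ⟨R, δ₁, hR, hδ₁, h3'⟩ := h3 (ε / 4) (by positivity)
  have hCε : 0 < ε / (4 * (C + 1)) := by positivity
  obtain ⟨δ₂, hδ₂, h4⟩ := hD4a κ ρ R h0 h1 _ hCε
  refine ⟨min δ₁ δ₂, lt_min hδ₁ hδ₂, fun G hG hL => ?_⟩
  have hL1 := hL.trans (min_le_left _ _)
  have hL2 := hL.trans (min_le_right _ _)
  obtain ⟨G', hG', hGB, hout, hLG, hint⟩ := h3' G hG hL1
    (fun j => (D4_df_le hF hG hB j).trans hL1)
  have hmax := hMx.max G' hG' hGB
  -- convexity
  have hconv : St ρ G + 2 * ∑ j, ∫ x, (G' x j - G x j) * OU ρ (fun y => G y j) x ∂(gam κ) ≤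
      St ρ G' := by
    unfold St
    rw [Finset.mul_sum, ← Finset.sum_add_distrib]
    exact Finset.sum_le_sum fun j _ => D4_conv (D4_bm hG j) (D4_bm hG' j) ρ h0 h1.le
  -- the integrals
  have hsplit : ∀ j, ∫ x, (G' x j - G x j) * OU ρ (fun y => G y j) x ∂(gam κ) =
      ∫ x, (G' x j - G x j) * H j x ∂(gam κ) + c j * df G j +
        ∫ x, (G' x j - G x j) * OU ρ (fun y => G y j - F y j) x ∂(gam κ) := by
    intro j
    have bd : Bm (fun x => G' x j - G x j) := D4_bm_sub (D4_bm hG' j) (D4_bm hG j)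
    have bs : Bm (fun y => G y j - F y j) := D4_bm_sub (D4_bm hG j) (bF j)
    have i1 := Ous_integrable_bm (D4_bm_mul bd (bH j))
    have i2 := Ous_integrable_bm (D4_bm_mul bd (D4_bm_const (κ := κ) (c j)))
    have i3 := Ous_integrable_bm (D4_bm_mul bd (OU_bm bs ρ))
    have i12 : Integrable (fun x => (G' x j - G x j) * H j x - (G' x j - G x j) * c j)
        (gam κ) := i1.sub i2
    have e1 : ∫ x, (G' x j - G x j) * c j ∂(gam κ) = -(c j * df G j) := by
      rw [integral_mul_const, integral_sub (Ous_integrable_bm (D4_bm hG' j))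
        (Ous_integrable_bm (D4_bm hG j)), hGB j, df]
      ring
    have e2 : ∫ x, (G' x j - G x j) * OU ρ (fun y => G y j) x ∂(gam κ) =
        ∫ x, (G' x j - G x j) * H j x ∂(gam κ) - ∫ x, (G' x j - G x j) * c j ∂(gam κ) +
        ∫ x, (G' x j - G x j) * OU ρ (fun y => G y j - F y j) x ∂(gam κ) := by
      rw [← integral_sub i1 i2, ← integral_add i12 i3]
      refine integral_congr_ae (Filter.Eventually.of_forall fun x => ?_)
      simp only [hH]
      rw [D4_OU_sub (D4_bm hG j) (bF j) ρ x]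
      ring
    rw [e2, e1]
    ring
  -- the error term
  have herr : ∀ j, -(ε / (4 * (C + 1)) * ∫ x, |G' x j - G x j| ∂(gam κ)) ≤
      ∫ x, (G' x j - G x j) * OU ρ (fun y => G y j - F y j) x ∂(gam κ) := by
    intro j
    have bd : Bm (fun x => G' x j - G x j) := D4_bm_sub (D4_bm hG' j) (D4_bm hG j)
    have bs : Bm (fun y => G y j - F y j) := D4_bm_sub (D4_bm hG j) (bF j)
    have hsmall := h4 (fun y => G y j - F y j) bs.meas (fun y => by
      obtain ⟨a1, a2⟩ := D4_rng hG y j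
      obtain ⟨b1, b2⟩ := D4_rng hF y j
      rw [abs_le]
      constructor <;> linarith) ((D4_int_le hF hG j).trans hL2)
    have hpt : ∀ x, |(G' x j - G x j) * OU ρ (fun y => G y j - F y j) x| ≤
        ε / (4 * (C + 1)) * |G' x j - G x j| := by
      intro x
      by_cases hx : R < ‖x‖
      · rw [hout x hx]
        simp
      · rw [abs_mul, mul_comm]
        exact mul_le_mul_of_nonneg_right (hsmall x (not_lt.1 hx)) (abs_nonneg _)
    rw [← integral_const_mul]
    have hab := abs_le.1 ((abs_integral_le_integral_abs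
      (f := fun x => (G' x j - G x j) * OU ρ (fun y => G y j - F y j) x) (μ := gam κ)).trans
      (integral_mono (Ous_integrable_bm (D4_bm_abs (D4_bm_mul bd (OU_bm bs ρ))))
        (Ous_integrable_bm (D4_bm_mul (D4_bm_const (κ := κ) (ε / (4 * (C + 1))))
          (D4_bm_abs bd))) hpt))
    exact hab.1
  -- sums
  have hsumL : ∑ j, ∫ x, |G' x j - G x j| ∂(gam κ) = L1 G G' := by
    unfold L1
    rw [integral_finsetSum]
    exact fun j _ => Ous_integrable_bm (D4_bm_abs (D4_bm_sub (D4_bm hG' j) (D4_bm hG j)))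
  have hsumH : ∑ j, ∫ x, (G' x j - G x j) * H j x ∂(gam κ) =
      ∫ x, ∑ k, (G' x k - G x k) * H k x ∂(gam κ) := by
    rw [integral_finsetSum]
    exact fun j _ => Ous_integrable_bm (D4_bm_mul (D4_bm_sub (D4_bm hG' j) (D4_bm hG j)) (bH j))
  have hsum : ∑ j, ∫ x, (G' x j - G x j) * OU ρ (fun y => G y j) x ∂(gam κ) =
      ∫ x, ∑ k, (G' x k - G x k) * H k x ∂(gam κ) + ∑ j, c j * df G j +
      ∑ j, ∫ x, (G' x j - G x j) * OU ρ (fun y => G y j - F y j) x ∂(gam κ) := by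
    rw [← hsumH, ← Finset.sum_add_distrib, ← Finset.sum_add_distrib]
    exact Finset.sum_congr rfl fun j _ => hsplit j
  have herr' : -(ε / (4 * (C + 1)) * L1 G G') ≤
      ∑ j, ∫ x, (G' x j - G x j) * OU ρ (fun y => G y j - F y j) x ∂(gam κ) := by
    rw [← hsumL, Finset.mul_sum, ← Finset.sum_neg_distrib]
    exact Finset.sum_le_sum fun j _ => herr j
  have hD : 0 ≤ ∑ j, |df G j| := Finset.sum_nonneg fun j _ => abs_nonneg _
  have hLL : ε / (4 * (C + 1)) * L1 G G' ≤ ε / 4 * ∑ j, |df G j| := by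
    have a1 : ε / (4 * (C + 1)) * L1 G G' ≤ ε / (4 * (C + 1)) * (C * ∑ j, |df G j|) :=
      mul_le_mul_of_nonneg_left hLG hCε.le
    have a2 : ε / (4 * (C + 1)) * C ≤ ε / 4 := by
      rw [div_mul_eq_mul_div, div_le_div_iff₀ (by positivity) (by norm_num)]
      nlinarith
    have a3 := mul_le_mul_of_nonneg_right a2 hD
    linarith
  linarith [hmax, hconv, hsum, herr', hLL, hint]

end D4

end Pool.TC
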