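import Pool.Agent.TC.St
import Pool.Agent.Helper65.PT.Ous
import Pool.Agent.Helper65.PT.Oub

/-! Project TC, module D4a: uniform smallness of the noise operator on balls. -/

set_option autoImplicit false

open MeasureTheory ProbabilityTheory Pool.H65.PS Pool.H65.PT

namespace Pool.TC

private theorem D4a_openPos (κ : Type) [Fintype κ] : Measure.IsOpenPosMeasure (gam κ) := by
  have h1 : Measure.IsOpenPosMeasure (gaussianReal 0 1) :=
    (gaussianReal_absolutelyContinuous' 0 one_ne_zero).isOpenPosMeasure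
  unfold gam
  infer_instance

private theorem D4a_young (a b l e : ℝ) (hl : 0 < l) (h0 : 0 ≤ b) (h1 : b ≤ 1) (hae : a ^ 2 ≤ e) :
    a * b ≤ l / 2 * e + (2 * l)⁻¹ * b := by
  have h2 : a * b ≤ l / 2 * a ^ 2 + (2 * l)⁻¹ * b ^ 2 := by
    have h3 : 0 ≤ (2 * l)⁻¹ * (l * a - b) ^ 2 := by positivity
    have h4 : (2 * l)⁻¹ * (l * a - b) ^ 2 = l / 2 * a ^ 2 + (2 * l)⁻¹ * b ^ 2 - a * b := by
      field_simp
      ring
    linarith
  have h5 : b ^ 2 ≤ b := by nlinarith
  have h6 : 0 ≤ (2 * l)⁻¹ := by positivity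
  have h7 := mul_le_mul_of_nonneg_left h5 h6
  have h8 := mul_le_mul_of_nonneg_left hae (by positivity : 0 ≤ l / 2)
  linarith

/-- a Harnack type inequality -/
private theorem D4a_harnack {κ : Type} [Fintype κ] {ρ : ℝ} (h0 : 0 ≤ ρ) (h1 : ρ < 1)
    {G : (κ → ℝ) → ℝ} (hG : Measurable G) (hG0 : ∀ x, 0 ≤ G x) (hG1 : ∀ x, G x ≤ 1)
    {M l : ℝ} (hl : 0 < l) (x x' : κ → ℝ)
    (hM : ∀ i, |((ρ / Real.sqrt (1 - ρ ^ 2)) • (x - x')) i| ≤ M) :
    OU ρ G x ≤ l / 2 * (∫ y : κ → ℝ, Real.exp ((2 * M) * ∑ i, |y i|) ∂(gam κ))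
      + (2 * l)⁻¹ * OU ρ G x' := by
  have hσ := Ous_sigma_pos h0 h1
  set σ := Real.sqrt (1 - ρ ^ 2) with hσd
  set v : κ → ℝ := (ρ / σ) • (x - x') with hv
  have hFm : Measurable (fun y : κ → ℝ => G (ρ • x' + σ • y)) :=
    hG.comp (measurable_const.add (measurable_id.const_smul σ))
  have e1 : OU ρ G x = ∫ y, G (ρ • x' + σ • (y + v)) ∂(gam κ) := by
    unfold OU
    refine integral_congr_ae (Filter.Eventually.of_forall fun y => ?_)
    simp only
    congr 1
    funext i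
    simp only [hv, Pi.add_apply, Pi.smul_apply, Pi.sub_apply, smul_eq_mul]
    field_simp
    ring
  have e2 : ∫ y, G (ρ • x' + σ • (y + v)) ∂(gam κ) =
      ∫ y, Real.exp (dot v y - dot v v / 2) * G (ρ • x' + σ • y) ∂(gam κ) :=
    cameron_martin v (fun y => G (ρ • x' + σ • y)) hFm
  have hFi : Integrable (fun y : κ → ℝ => G (ρ • x' + σ • y)) (gam κ) :=
    oub_int hFm ⟨1, fun y => by rw [abs_of_nonneg (hG0 _)]; exact hG1 _⟩
  have hE := Ous_exp_abs (κ := κ) (2 * M)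
  rw [e1, e2]
  unfold OU
  rw [← integral_const_mul, ← integral_const_mul, ← integral_add (hE.const_mul _)
    (hFi.const_mul _)]
  refine integral_mono_of_nonneg (Filter.Eventually.of_forall fun y => ?_)
    ((hE.const_mul _).add (hFi.const_mul _)) (Filter.Eventually.of_forall fun y => ?_)
  · exact mul_nonneg (Real.exp_pos _).le (hG0 _)
  · refine D4a_young _ _ _ _ hl (hG0 _) (hG1 _) ?_
    have h2 := Ous_dens_le v y M hM
    have h3 := pow_le_pow_left₀ (Real.exp_pos _).le h2 2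
    refine h3.trans (le_of_eq ?_)
    rw [← Real.exp_nat_mul]
    congr 1
    push_cast
    ring

theorem pD4a : StD4a := by
  intro κ _ ρ R h0 h1 ε hε
  have := D4a_openPos κ
  have hσ := Ous_sigma_pos h0 h1
  set σ := Real.sqrt (1 - ρ ^ 2) with hσd
  set M : ℝ := ρ / σ * (|R| + 1) with hM
  set K : ℝ := ∫ y : κ → ℝ, Real.exp ((2 * M) * ∑ i, |y i|) ∂(gam κ) with hK
  have hM0 : 0 ≤ M := by positivity
  have hK1 : 1 ≤ K := by
    have h2 : ∫ _ : κ → ℝ, (1 : ℝ) ∂(gam κ) ≤ K := by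
      refine integral_mono (integrable_const _) (Ous_exp_abs (κ := κ) (2 * M)) fun y => ?_
      refine Real.one_le_exp ?_
      have h3 : 0 ≤ ∑ i, |y i| := Finset.sum_nonneg fun i _ => abs_nonneg _
      positivity
    simpa using h2
  have hK0 : 0 < K := by linarith
  set p : ℝ := (gam κ).real (Metric.ball (0 : κ → ℝ) 1) with hp
  have hp0 : 0 < p := by
    rw [hp, Measure.real, ENNReal.toReal_pos_iff]
    exact ⟨Metric.isOpen_ball.measure_pos _ ⟨0, Metric.mem_ball_self one_pos⟩, measure_lt_top _ _⟩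
  set l : ℝ := ε / K with hl
  have hl0 : 0 < l := by positivity
  refine ⟨ε * l * p, by positivity, ?_⟩
  intro g hg hg1 hgi x hx
  set G : (κ → ℝ) → ℝ := fun y => |g y| with hGd
  have hGm : Measurable G := hg.abs
  have hG0 : ∀ y, 0 ≤ G y := fun y => abs_nonneg _
  have hGB : Bm G := ⟨hGm, 1, fun y => by rw [abs_of_nonneg (hG0 y)]; exact hg1 y⟩
  have hOU := OU_bm hGB ρ
  have hOU0 : ∀ y, 0 ≤ OU ρ G y := fun y => integral_nonneg fun z => hG0 _
  have hOUi : Integrable (OU ρ G) (gam κ) := oub_int hOU.meas hOU.bdd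
  have h2 : |OU ρ g x| ≤ OU ρ G x := by
    unfold OU
    exact abs_integral_le_integral_abs
  have h3 : ∀ x' ∈ Metric.ball (0 : κ → ℝ) 1,
      OU ρ G x ≤ l / 2 * K + (2 * l)⁻¹ * OU ρ G x' := by
    intro x' hx'
    refine D4a_harnack h0 h1 hGm hG0 hg1 hl0 x x' fun i => ?_
    rw [Pi.smul_apply, smul_eq_mul, abs_mul, abs_of_nonneg (by positivity : 0 ≤ ρ / σ)]
    refine mul_le_mul_of_nonneg_left ?_ (by positivity)
    rw [Pi.sub_apply]
    have h4 : |x i| ≤ ‖x‖ := by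
      rw [← Real.norm_eq_abs]
      exact norm_le_pi_norm x i
    have h5 : |x' i| ≤ ‖x'‖ := by
      rw [← Real.norm_eq_abs]
      exact norm_le_pi_norm x' i
    have h6 : ‖x'‖ < 1 := by simpa using hx'
    have h7 := abs_sub (x i) (x' i)
    have h8 := le_abs_self R
    linarith
  have h4 : p * OU ρ G x ≤ p * (l / 2 * K) + (2 * l)⁻¹ * ∫ x', G x' ∂(gam κ) := by
    have h5 : ∫ _ in Metric.ball (0 : κ → ℝ) 1, OU ρ G x ∂(gam κ) ≤
        ∫ x' in Metric.ball (0 : κ → ℝ) 1, (l / 2 * K + (2 * l)⁻¹ * OU ρ G x') ∂(gam κ) := by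
      refine setIntegral_mono_on (integrable_const _)
        ((integrable_const _).add (hOUi.integrableOn.const_mul _)) Metric.isOpen_ball.measurableSet
        h3
    have h6 : ∫ x' in Metric.ball (0 : κ → ℝ) 1, (l / 2 * K + (2 * l)⁻¹ * OU ρ G x') ∂(gam κ)
        = p * (l / 2 * K) + (2 * l)⁻¹ * ∫ x' in Metric.ball (0 : κ → ℝ) 1, OU ρ G x' ∂(gam κ) := by
      rw [integral_add (integrable_const _) (hOUi.integrableOn.const_mul _), setIntegral_const,
        smul_eq_mul, integral_const_mul]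
    have h7 : ∫ x' in Metric.ball (0 : κ → ℝ) 1, OU ρ G x' ∂(gam κ) ≤ ∫ x', G x' ∂(gam κ) := by
      rw [← integral_OU hGB ρ (by rw [abs_of_nonneg h0]; exact h1.le)]
      exact setIntegral_le_integral hOUi (Filter.Eventually.of_forall hOU0)
    rw [setIntegral_const, smul_eq_mul, h6] at h5
    have h8 : (2 * l)⁻¹ * ∫ x' in Metric.ball (0 : κ → ℝ) 1, OU ρ G x' ∂(gam κ) ≤
        (2 * l)⁻¹ * ∫ x', G x' ∂(gam κ) := mul_le_mul_of_nonneg_left h7 (by positivity)
    have h9 : (gam κ).real (Metric.ball (0 : κ → ℝ) 1) * OU ρ G x = p * OU ρ G x := rfl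
    linarith
  have h5 : (2 * l)⁻¹ * ∫ x', G x' ∂(gam κ) ≤ p * (ε / 2) := by
    have h6 : (2 * l)⁻¹ * ∫ x', G x' ∂(gam κ) ≤ (2 * l)⁻¹ * (ε * l * p) :=
      mul_le_mul_of_nonneg_left hgi (by positivity)
    refine h6.trans (le_of_eq ?_)
    field_simp
  have h6 : l / 2 * K = ε / 2 := by
    rw [hl]
    field_simp
  rw [h6] at h4
  have h7 : p * OU ρ G x ≤ p * ε := by linarith
  exact h2.trans (le_of_mul_le_mul_left h7 hp0)

end Pool.TC
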