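import Pool.Agent.TC.St
import Pool.Agent.Helper65.PT.Law

/-! Project TC, module D5. -/

set_option autoImplicit false

open MeasureTheory ProbabilityTheory Pool.H65.PS Pool.H65.PT

namespace Pool.TC

private noncomputable def D5_C : ℝ := Real.exp (2 / 9) * Real.sqrt (2 * Real.pi * (9 / 2))

private noncomputable def D5_nu : Measure ℝ := ENNReal.ofReal D5_C • gaussianReal 0 (9 / 2)

private theorem D5_pdf (h x : ℝ) (v : NNReal) (hv : (1 : ℝ) / 4 ≤ v) (hv' : (v : ℝ) ≤ 9 / 4)
    (hh : |h| ≤ 1) : gaussianPDFReal h v x ≤ D5_C * gaussianPDFReal 0 (9 / 2) x := by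
  unfold gaussianPDFReal D5_C
  have h92 : (((9 / 2 : NNReal)) : ℝ) = 9 / 2 := by norm_num
  rw [h92]
  have hpi := Real.pi_gt_three
  have h1 : (0 : ℝ) < Real.sqrt (2 * Real.pi * (9 / 2)) := Real.sqrt_pos.2 (by positivity)
  have h2 : (Real.sqrt (2 * Real.pi * v))⁻¹ ≤ 1 := by
    apply inv_le_one_of_one_le₀
    rw [Real.one_le_sqrt]
    nlinarith
  have h3 : Real.exp (-(x - h) ^ 2 / (2 * v)) ≤ Real.exp (2 / 9) * Real.exp (-(x - 0) ^ 2 /
      (2 * (9 / 2))) := by
    rw [← Real.exp_add]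
    apply Real.exp_le_exp.2
    have hv0 : (0 : ℝ) < v := by linarith
    have h4 : (x - h) ^ 2 / (2 * v) ≥ (x - h) ^ 2 / (9 / 2) := by
      apply div_le_div_of_nonneg_left (sq_nonneg _) (by positivity) (by linarith)
    have h5 : h ^ 2 ≤ 1 := by
      have := sq_abs h
      nlinarith [abs_nonneg h]
    have h6 : x ^ 2 / 2 - 1 ≤ (x - h) ^ 2 := by nlinarith [sq_nonneg (x - 2 * h)]
    have h7 : -(x - h) ^ 2 / (2 * v) = -((x - h) ^ 2 / (2 * v)) := by ring
    rw [h7]
    have h8 : (x - h) ^ 2 / (9 / 2) = 2 / 9 * (x - h) ^ 2 := by ring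
    rw [h8] at h4
    have h9 : 2 / 9 + -(x - 0) ^ 2 / (2 * (9 / 2)) = 2 / 9 - x ^ 2 / 9 := by ring
    rw [h9]
    linarith
  calc (Real.sqrt (2 * Real.pi * v))⁻¹ * Real.exp (-(x - h) ^ 2 / (2 * v))
      ≤ 1 * (Real.exp (2 / 9) * Real.exp (-(x - 0) ^ 2 / (2 * (9 / 2)))) :=
        mul_le_mul h2 h3 (Real.exp_pos _).le zero_le_one
    _ = Real.exp (2 / 9) * Real.sqrt (2 * Real.pi * (9 / 2)) *
        ((Real.sqrt (2 * Real.pi * (9 / 2)))⁻¹ * Real.exp (-(x - 0) ^ 2 / (2 * (9 / 2)))) := by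
        field_simp

private theorem D5_law (a h : ℝ) (ha : |a - 1| ≤ 1 / 2) (hh : |h| ≤ 1) :
    (gaussianReal 0 1).map (fun u => a * u + h) ≤ D5_nu := by
  rw [abs_le] at ha
  have e1 : (gaussianReal 0 1).map (fun u => a * u + h) =
      gaussianReal h (.mk (a ^ 2) (sq_nonneg _)) := by
    have h1 : (fun u : ℝ => a * u + h) = (fun u => u + h) ∘ (fun u => a * u) := rfl
    rw [h1, ← Measure.map_map (by fun_prop) (by fun_prop), gaussianReal_map_const_mul,
      gaussianReal_map_add_const]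
    simp
  rw [e1]
  have hv : (1 : ℝ) / 4 ≤ ((NNReal.mk (a ^ 2) (sq_nonneg _) : NNReal) : ℝ) := by
    change 1 / 4 ≤ a ^ 2
    nlinarith
  have hv' : ((NNReal.mk (a ^ 2) (sq_nonneg _) : NNReal) : ℝ) ≤ 9 / 4 := by
    change a ^ 2 ≤ 9 / 4
    nlinarith
  generalize (NNReal.mk (a ^ 2) (sq_nonneg _) : NNReal) = v at hv hv'
  have hv0 : v ≠ 0 := by
    intro h0
    rw [h0] at hv
    norm_num at hv
  unfold D5_nu
  rw [gaussianReal_of_var_ne_zero _ hv0, gaussianReal_of_var_ne_zero _ (by norm_num),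
    ← withDensity_smul _ (measurable_gaussianPDF _ _)]
  apply withDensity_mono
  refine Filter.Eventually.of_forall fun x => ?_
  simp only [Pi.smul_apply, smul_eq_mul]
  unfold gaussianPDF
  rw [← ENNReal.ofReal_mul (by unfold D5_C; positivity)]
  exact ENNReal.ofReal_le_ofReal (D5_pdf h x v hv hv' hh)

section
variable {κ : Type} [Fintype κ]

/-- glue a last coordinate -/
private def D5_e (p : (κ → ℝ) × ℝ) : κ ⊕ Unit → ℝ := Sum.elim p.1 (fun _ => p.2)

/-- the affine map in the last coordinate -/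
private def D5_T (a h : ℝ) (x : κ ⊕ Unit → ℝ) : κ ⊕ Unit → ℝ :=
  Sum.elim (fun i => x (Sum.inl i)) (fun _ => a * x (Sum.inr ()) + h)

omit [Fintype κ] in
private theorem D5_e_meas : Measurable (D5_e (κ := κ)) := by
  unfold D5_e
  rw [measurable_pi_iff]
  rintro (i | i)
  · exact (measurable_pi_apply i).comp measurable_fst
  · exact measurable_snd

omit [Fintype κ] in
private theorem D5_T_meas (a h : ℝ) : Measurable (D5_T (κ := κ) a h) := by
  unfold D5_T
  rw [measurable_pi_iff]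
  rintro (i | i)
  · exact measurable_pi_apply (Sum.inl i)
  · have h1 : Measurable (fun x : κ ⊕ Unit → ℝ => x (Sum.inr ())) := measurable_pi_apply _
    exact (h1.const_mul a).add_const h

private theorem D5_prob (κ : Type) [Fintype κ] : IsProbabilityMeasure (gam κ) := by
  unfold gam
  infer_instance

private theorem D5_gam : gam (κ ⊕ Unit) = ((gam κ).prod (gaussianReal 0 1)).map D5_e := by
  have := D5_prob κ
  have := D5_prob Unit
  have h1 := (Law_sum_symm κ Unit).map_eq
  have h2 : gam Unit = (gaussianReal 0 1).map (fun z (_ : Unit) => z) := by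
    have h3 := (measurePreserving_funUnique (gaussianReal 0 1) Unit).symm
    exact h3.map_eq.symm
  have h4 : (gam κ).prod (gam Unit) =
      ((gam κ).prod (gaussianReal 0 1)).map (Prod.map id (fun z (_ : Unit) => z)) := by
    rw [h2, ← Measure.map_prod_map _ _ measurable_id (by fun_prop), Measure.map_id]
  rw [← h1, h4, Measure.map_map]
  · rfl
  · rw [measurable_pi_iff]
    rintro (i | i)
    · exact (measurable_pi_apply i).comp measurable_fst
    · exact (measurable_pi_apply i).comp measurable_snd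
  · exact measurable_id.prodMap (by fun_prop)

private noncomputable def D5_N (κ : Type) [Fintype κ] : Measure (κ ⊕ Unit → ℝ) :=
  ((gam κ).prod D5_nu).map D5_e

private theorem D5_nu_fin : IsFiniteMeasure D5_nu := by
  unfold D5_nu
  exact Measure.smul_finite _ ENNReal.ofReal_ne_top

private theorem D5_N_fin : IsFiniteMeasure (D5_N κ) := by
  have := D5_nu_fin
  have := D5_prob κ
  unfold D5_N
  infer_instance

private theorem D5_dom (a h : ℝ) (ha : |a - 1| ≤ 1 / 2) (hh : |h| ≤ 1) :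
    (gam (κ ⊕ Unit)).map (D5_T a h) ≤ D5_N κ := by
  have := D5_nu_fin
  have := D5_prob κ
  rw [D5_gam, Measure.map_map (D5_T_meas a h) D5_e_meas]
  have h1 : (D5_T a h ∘ D5_e : (κ → ℝ) × ℝ → _) = D5_e ∘ Prod.map id (fun u => a * u + h) := by
    funext p
    funext i
    rcases i with i | i <;> rfl
  rw [h1, ← Measure.map_map D5_e_meas (measurable_id.prodMap (by fun_prop)),
    ← Measure.map_prod_map _ _ measurable_id (by fun_prop), Measure.map_id]
  unfold D5_N
  exact Measure.map_mono (Measure.prod_mono le_rfl (D5_law a h ha hh)) D5_e_meas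

omit [Fintype κ] in
private theorem D5_T_one (x : κ ⊕ Unit → ℝ) : D5_T 1 0 x = x := by
  funext i
  rcases i with i | i
  · rfl
  · simp [D5_T]

private theorem D5_one (f : (κ ⊕ Unit → ℝ) → ℝ) (hf : Measurable f)
    (h01 : ∀ x, 0 ≤ f x ∧ f x ≤ 1) (ε : ℝ) (hε : 0 < ε) : ∃ δ : ℝ, 0 < δ ∧ ∀ a h : ℝ,
      |a - 1| ≤ δ → |h| ≤ δ → ∫ x, |f (D5_T a h x) - f x| ∂(gam (κ ⊕ Unit)) ≤ ε := by
  have hN := D5_N_fin (κ := κ)
  have hG := D5_prob (κ ⊕ Unit)
  have hfN : Integrable f (D5_N κ) :=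
    Integrable.of_bound hf.aestronglyMeasurable 1 (Filter.Eventually.of_forall fun x => by
      rw [Real.norm_eq_abs, abs_le]
      constructor <;> linarith [(h01 x).1, (h01 x).2])
  obtain ⟨g, hgs, hg1, hgc, hgi⟩ :=
    hfN.exists_hasCompactSupport_integral_sub_le (ε := ε / 4) (by positivity)
  obtain ⟨B, hB⟩ := hgc.bounded_above_of_compact_support hgs
  have hB' : ∀ x, |g x| ≤ B := fun x => by
    rw [← Real.norm_eq_abs]
    exact hB x
  -- the transfer inequality
  have key : ∀ a h : ℝ, |a - 1| ≤ 1 / 2 → |h| ≤ 1 →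
      ∫ x, |f (D5_T a h x) - g (D5_T a h x)| ∂(gam (κ ⊕ Unit)) ≤ ε / 4 := by
    intro a h ha hh
    have h1 : ∫ x, |f (D5_T a h x) - g (D5_T a h x)| ∂(gam (κ ⊕ Unit)) =
        ∫ x, |f x - g x| ∂((gam (κ ⊕ Unit)).map (D5_T a h)) := by
      rw [integral_map (D5_T_meas a h).aemeasurable]
      exact ((hf.sub hgc.measurable).abs).aestronglyMeasurable
    rw [h1]
    have hI : Integrable (fun x => |f x - g x|) (D5_N κ) := (hfN.sub hgi).abs
    refine (integral_mono_measure (D5_dom a h ha hh)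
      (Filter.Eventually.of_forall fun x => abs_nonneg _) hI).trans ?_
    simpa [Real.norm_eq_abs] using hg1
  -- continuity for g
  have hcont : Continuous (fun p : ℝ × ℝ =>
      ∫ x, |g (D5_T p.1 p.2 x) - g x| ∂(gam (κ ⊕ Unit))) := by
    refine continuous_of_dominated (bound := fun _ => 2 * B) ?_ ?_ (integrable_const _) ?_
    · intro p
      exact (((hgc.measurable.comp (D5_T_meas p.1 p.2)).sub hgc.measurable).abs).aestronglyMeasurable
    · intro p
      refine Filter.Eventually.of_forall fun x => ?_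
      rw [Real.norm_eq_abs, abs_abs]
      have h1 := hB' (D5_T p.1 p.2 x)
      have h2 := hB' x
      rw [abs_le] at h1 h2 ⊢
      constructor <;> linarith [h1.1, h1.2, h2.1, h2.2]
    · refine Filter.Eventually.of_forall fun x => ?_
      refine ((hgc.comp ?_).sub continuous_const).abs
      rw [continuous_pi_iff]
      rintro (i | i)
      · exact continuous_const
      · simp only [D5_T, Sum.elim_inr]
        fun_prop
  have h0 : ∫ x, |g (D5_T 1 0 x) - g x| ∂(gam (κ ⊕ Unit)) = 0 := by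
    simp only [D5_T_one, sub_self, abs_zero, integral_zero]
  have hev : ∀ᶠ p : ℝ × ℝ in nhds (1, 0),
      ∫ x, |g (D5_T p.1 p.2 x) - g x| ∂(gam (κ ⊕ Unit)) < ε / 4 := by
    refine (hcont.tendsto (1, 0)).eventually_lt_const ?_
    simp only
    rw [h0]
    positivity
  obtain ⟨δ, hδ, hδ'⟩ := Metric.eventually_nhds_iff.1 hev
  refine ⟨min (δ / 2) (1 / 2), by positivity, fun a h ha hh => ?_⟩
  have ha1 : |a - 1| ≤ 1 / 2 := ha.trans (min_le_right _ _)
  have hh1 : |h| ≤ 1 := (hh.trans (min_le_right _ _)).trans (by norm_num)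
  have hgG : ∫ x, |g (D5_T a h x) - g x| ∂(gam (κ ⊕ Unit)) ≤ ε / 4 := by
    refine (hδ' (y := (a, h)) ?_).le
    rw [Prod.dist_eq, max_lt_iff, Real.dist_eq, Real.dist_eq, sub_zero]
    have h1 := ha.trans (min_le_left _ _)
    have h2 := hh.trans (min_le_left _ _)
    constructor
    · change |a - 1| < δ
      linarith
    · change |h| < δ
      linarith
  have k1 := key a h ha1 hh1
  have k2 := key 1 0 (by norm_num) (by norm_num)
  simp only [D5_T_one] at k2
  have hm1 : Measurable fun x => f (D5_T a h x) := hf.comp (D5_T_meas a h)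
  have hm2 : Measurable fun x => g (D5_T a h x) := hgc.measurable.comp (D5_T_meas a h)
  have bI : ∀ (u : (κ ⊕ Unit → ℝ) → ℝ), Measurable u → (∀ x, |u x| ≤ 2 * B + 2) →
      Integrable u (gam (κ ⊕ Unit)) := fun u hu hb =>
    Integrable.of_bound hu.aestronglyMeasurable (2 * B + 2)
      (Filter.Eventually.of_forall fun x => by rw [Real.norm_eq_abs]; exact hb x)
  have hB0 : 0 ≤ B := (abs_nonneg _).trans (hB' 0)
  have i1 : Integrable (fun x => |f (D5_T a h x) - g (D5_T a h x)|) (gam (κ ⊕ Unit)) := by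
    refine bI _ (hm1.sub hm2).abs fun x => ?_
    rw [abs_abs]
    have h1 := h01 (D5_T a h x)
    have h2 := abs_le.1 (hB' (D5_T a h x))
    rw [abs_le]
    constructor <;> linarith [h1.1, h1.2, h2.1, h2.2]
  have i2 : Integrable (fun x => |g (D5_T a h x) - g x|) (gam (κ ⊕ Unit)) := by
    refine bI _ (hm2.sub hgc.measurable).abs fun x => ?_
    rw [abs_abs]
    have h1 := abs_le.1 (hB' x)
    have h2 := abs_le.1 (hB' (D5_T a h x))
    rw [abs_le]
    constructor <;> linarith [h1.1, h1.2, h2.1, h2.2]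
  have i3 : Integrable (fun x => |f x - g x|) (gam (κ ⊕ Unit)) := by
    refine bI _ (hf.sub hgc.measurable).abs fun x => ?_
    rw [abs_abs]
    have h1 := h01 x
    have h2 := abs_le.1 (hB' x)
    rw [abs_le]
    constructor <;> linarith [h1.1, h1.2, h2.1, h2.2]
  have i4 : Integrable (fun x => |f (D5_T a h x) - f x|) (gam (κ ⊕ Unit)) := by
    refine bI _ (hm1.sub hf).abs fun x => ?_
    rw [abs_abs]
    have h1 := h01 x
    have h2 := h01 (D5_T a h x)
    rw [abs_le]
    constructor <;> linarith [h1.1, h1.2, h2.1, h2.2]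
  have hle : ∫ x, |f (D5_T a h x) - f x| ∂(gam (κ ⊕ Unit)) ≤
      ∫ x, (|f (D5_T a h x) - g (D5_T a h x)| + |g (D5_T a h x) - g x| + |f x - g x|)
        ∂(gam (κ ⊕ Unit)) := by
    refine integral_mono i4 ((i1.add i2).add i3) fun x => ?_
    have h1 := abs_add_le (f (D5_T a h x) - g (D5_T a h x)) (g (D5_T a h x) - g x)
    have h2 := abs_add_le ((f (D5_T a h x) - g (D5_T a h x)) + (g (D5_T a h x) - g x))
      (g x - f x)
    have h3 : (f (D5_T a h x) - g (D5_T a h x)) + (g (D5_T a h x) - g x) + (g x - f x) =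
      f (D5_T a h x) - f x := by ring
    rw [h3, abs_sub_comm (g x) (f x)] at h2
    simp only
    linarith
  rw [integral_add (f := fun x => |f (D5_T a h x) - g (D5_T a h x)| + |g (D5_T a h x) - g x|)
    (i1.add i2) i3, integral_add i1 i2] at hle
  linarith

end

theorem pD5 : StD5 := by
  intro κ _ m F hF η hη
  have h01 : ∀ j x, 0 ≤ F x j ∧ F x j ≤ 1 := by
    intro j x
    obtain ⟨h0, h1⟩ := hF.simp x
    refine ⟨h0 j, ?_⟩
    rw [← h1]
    exact Finset.single_le_sum (fun k _ => h0 k) (Finset.mem_univ j)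
  have hG := D5_prob (κ ⊕ Unit)
  have hm : (0 : ℝ) < (m : ℝ) + 1 := by positivity
  choose δ hδ hδ' using fun j : Fin m => D5_one (fun x => F x j) (hF.meas j) (h01 j)
    (η / ((m : ℝ) + 1)) (by positivity)
  have h1 : ∀ᶠ t in nhdsWithin (0 : ℝ) (Set.Ioi 0), ∀ j, t ≤ δ j := by
    refine Filter.eventually_all.2 fun j => ?_
    exact Filter.mem_of_superset (Ioc_mem_nhdsGT (hδ j)) fun t ht => ht.2
  obtain ⟨t, ht, ht0⟩ := (h1.and self_mem_nhdsWithin).exists
  refine ⟨t, ht0, fun a h ha hh => ?_⟩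
  unfold L1
  have hi : ∀ j, Integrable (fun x => |shf a h F x j - F x j|) (gam (κ ⊕ Unit)) := by
    intro j
    refine Integrable.of_bound (((((hF.meas j).comp (D5_T_meas a h)).sub
      (hF.meas j)).abs).aestronglyMeasurable) 1 (Filter.Eventually.of_forall fun x => ?_)
    rw [Real.norm_eq_abs, abs_abs]
    have h1 := h01 j x
    have h2 := h01 j (D5_T a h x)
    change |F (D5_T a h x) j - F x j| ≤ 1
    rw [abs_le]
    constructor <;> linarith [h1.1, h1.2, h2.1, h2.2]
  rw [integral_finsetSum _ fun j _ => hi j]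
  have h2 : ∀ j ∈ (Finset.univ : Finset (Fin m)),
      ∫ x, |shf a h F x j - F x j| ∂(gam (κ ⊕ Unit)) ≤ η / ((m : ℝ) + 1) := fun j _ =>
    hδ' j a h (ha.trans (ht j)) (hh.trans (ht j))
  refine (Finset.sum_le_card_nsmul _ _ _ h2).trans ?_
  rw [nsmul_eq_mul, Finset.card_univ, Fintype.card_fin, mul_div_assoc', div_le_iff₀ hm]
  nlinarith

end Pool.TC
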