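import Pool.Agent.TC.St
import Pool.Agent.Helper65.PT.Law
import Pool.Agent.Helper65.PT.Oub

set_option autoImplicit false

open MeasureTheory ProbabilityTheory Pool.H65.PS Pool.H65.PT

namespace Pool.TC

/-- rearrangement of a product of four factors -/
private theorem D6x_re {A U : Type} [MeasurableSpace A] [MeasurableSpace U] (μ : Measure A)
    (ν : Measure U) [IsProbabilityMeasure μ] [IsProbabilityMeasure ν] :
    MeasurePreserving
      (fun q : (U × U) × (A × A) => (((q.2.1, q.1.1), (q.2.2, q.1.2)) : (A × U) × (A × U)))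
      ((ν.prod ν).prod (μ.prod μ)) ((μ.prod ν).prod (μ.prod ν)) := by
  have h1 := measurePreserving_prodAssoc ν ν (μ.prod μ)
  have h2 := (MeasurePreserving.id ν).prod
    (MeasurePreserving.symm _ (measurePreserving_prodAssoc ν μ μ))
  have h3 := (MeasurePreserving.id ν).prod
    ((Measure.measurePreserving_swap (μ := ν) (ν := μ)).prod (MeasurePreserving.id μ))
  have h4 := (MeasurePreserving.id ν).prod (measurePreserving_prodAssoc μ ν μ)
  have h5 := (MeasurePreserving.id ν).prod ((MeasurePreserving.id μ).prod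
    (Measure.measurePreserving_swap (μ := ν) (ν := μ)))
  have h6 := MeasurePreserving.symm _ (measurePreserving_prodAssoc ν μ (μ.prod ν))
  have h7 := (Measure.measurePreserving_swap (μ := ν) (ν := μ)).prod
    (MeasurePreserving.id (μ.prod ν))
  exact h7.comp (h6.comp (h5.comp (h4.comp (h3.comp (h2.comp h1)))))

private theorem D6x_sg {κ : Type} [Fintype κ] {f h : (κ → ℝ) → ℝ} (hf : Bm f) (hh : Bm h) (ρ : ℝ)
    (hρ : 0 ≤ ρ) (hρ1 : ρ ≤ 1) :
    sg ρ f h = ∫ x, OU (Real.sqrt ρ) f x * OU (Real.sqrt ρ) h x ∂(gam κ) := by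
  have h1 := sg_OU hf hh (Real.sqrt ρ) 1 (Real.sqrt_nonneg _) (Real.sqrt_le_one.2 hρ1)
    zero_le_one le_rfl
  rw [Real.sq_sqrt hρ, mul_one] at h1
  rw [← h1, sg_one (OU_bm hf _) (OU_bm hh _)]

theorem pD6x : StD6x := by
  intro κ _ m ρ F hρ hρ1 hF
  have hel : Measurable (fun p : (κ → ℝ) × (Unit → ℝ) =>
      (Sum.elim p.1 p.2 : κ ⊕ Unit → ℝ)) := (Law_sum_symm κ Unit).measurable
  have hF0 : ∀ x j, 0 ≤ F x j := fun x j => (hF.simp x).1 j
  have hF1 : ∀ x j, F x j ≤ 1 := by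
    intro x j
    have h1 : F x j ≤ ∑ k, F x k := Finset.single_le_sum (fun k _ => (hF.simp x).1 k)
      (Finset.mem_univ j)
    rw [(hF.simp x).2] at h1
    exact h1
  have hFa : ∀ x j, |F x j| ≤ 1 := fun x j => by rw [abs_of_nonneg (hF0 x j)]; exact hF1 x j
  have hfm : ∀ j, Measurable (fun p : (κ → ℝ) × (Unit → ℝ) => fib ρ F j p.1 p.2) := by
    intro j
    have h1 : StronglyMeasurable (Function.uncurry fun (p : (κ → ℝ) × (Unit → ℝ)) (y : κ → ℝ) =>
        F (Sum.elim (Real.sqrt ρ • p.1 + Real.sqrt (1 - Real.sqrt ρ ^ 2) • y) p.2) j) := by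
      have h2 : Measurable fun q : ((κ → ℝ) × (Unit → ℝ)) × (κ → ℝ) =>
          (Real.sqrt ρ • q.1.1 + Real.sqrt (1 - Real.sqrt ρ ^ 2) • q.2, q.1.2) := by
        fun_prop
      exact ((hF.meas j).comp (hel.comp h2)).stronglyMeasurable
    exact (h1.integral_prod_right (ν := gam κ)).measurable
  have hfb : ∀ j y u, 0 ≤ fib ρ F j y u ∧ fib ρ F j y u ≤ 1 := by
    intro j y u
    constructor
    · exact integral_nonneg fun z => hF0 _ j
    · have h1 := norm_integral_le_of_norm_le_const (μ := gam κ)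
        (f := fun z : κ → ℝ =>
          F (Sum.elim (Real.sqrt ρ • y + Real.sqrt (1 - Real.sqrt ρ ^ 2) • z) u) j) (C := 1)
        (Filter.Eventually.of_forall fun z => by rw [Real.norm_eq_abs]; exact hFa _ j)
      rw [probReal_univ, mul_one, Real.norm_eq_abs] at h1
      exact (le_abs_self _).trans h1
  have hfa : ∀ j y u, |fib ρ F j y u| ≤ 1 := fun j y u => by
    rw [abs_of_nonneg (hfb j y u).1]; exact (hfb j y u).2
  refine ⟨hfm, hfb, ?_⟩
  intro r hr hr1
  apply Finset.sum_congr rfl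
  intro j _
  obtain ⟨sρ, hsρ⟩ : ∃ s, s = Real.sqrt (1 - ρ ^ 2) := ⟨_, rfl⟩
  obtain ⟨sr', hsr⟩ : ∃ s, s = Real.sqrt (1 - r ^ 2) := ⟨_, rfl⟩
  have hBm : ∀ u : Unit → ℝ, Bm (fun z : κ → ℝ => F (Sum.elim z u) j) := fun u =>
    ⟨(hF.meas j).comp (hel.comp (measurable_id.prodMk measurable_const)), 1, fun z => hFa _ j⟩
  -- the integrand on the product of the four factors
  have hG : Measurable fun p : (κ ⊕ Unit → ℝ) × (κ ⊕ Unit → ℝ) => F p.1 j * F (Sum.elim
      (fun i => ρ * p.1 (Sum.inl i) + Real.sqrt (1 - ρ ^ 2) * p.2 (Sum.inl i))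
      (fun _ => r * p.1 (Sum.inr ()) + Real.sqrt (1 - r ^ 2) * p.2 (Sum.inr ()))) j := by
    apply ((hF.meas j).comp measurable_fst).mul
    apply (hF.meas j).comp
    rw [measurable_pi_iff]
    intro i
    rcases i with i | i
    · simp only [Sum.elim_inl]
      fun_prop
    · simp only [Sum.elim_inr]
      fun_prop
  have hmp := (((Law_sum_symm κ Unit).prod (Law_sum_symm κ Unit)).comp
    (D6x_re (gam κ) (gam Unit)))
  have e1 := oub_map hmp hG
  have hH : Measurable fun q : ((Unit → ℝ) × (Unit → ℝ)) × ((κ → ℝ) × (κ → ℝ)) =>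
      F (Sum.elim q.2.1 q.1.1) j *
        F (Sum.elim (ρ • q.2.1 + sρ • q.2.2) (r • q.1.1 + sr' • q.1.2)) j := by
    apply Measurable.mul
    · exact (hF.meas j).comp (hel.comp ((measurable_fst.comp measurable_snd).prodMk
        (measurable_fst.comp measurable_fst)))
    · exact (hF.meas j).comp (hel.comp
        ((((measurable_fst.comp measurable_snd).const_smul ρ).add
          ((measurable_snd.comp measurable_snd).const_smul sρ)).prodMk
        (((measurable_fst.comp measurable_fst).const_smul r).add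
          ((measurable_snd.comp measurable_fst).const_smul sr'))))
  have e2 : ∀ q : ((Unit → ℝ) × (Unit → ℝ)) × ((κ → ℝ) × (κ → ℝ)),
      (fun p : (κ ⊕ Unit → ℝ) × (κ ⊕ Unit → ℝ) => F p.1 j * F (Sum.elim
        (fun i => ρ * p.1 (Sum.inl i) + Real.sqrt (1 - ρ ^ 2) * p.2 (Sum.inl i))
        (fun _ => r * p.1 (Sum.inr ()) + Real.sqrt (1 - r ^ 2) * p.2 (Sum.inr ()))) j)
        (((Prod.map (fun p : (κ → ℝ) × (Unit → ℝ) => (Sum.elim p.1 p.2 : κ ⊕ Unit → ℝ))
          (fun p : (κ → ℝ) × (Unit → ℝ) => (Sum.elim p.1 p.2 : κ ⊕ Unit → ℝ))) ∘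
          fun q : ((Unit → ℝ) × (Unit → ℝ)) × ((κ → ℝ) × (κ → ℝ)) =>
            (((q.2.1, q.1.1), (q.2.2, q.1.2)) :
              ((κ → ℝ) × (Unit → ℝ)) × ((κ → ℝ) × (Unit → ℝ)))) q) =
      F (Sum.elim q.2.1 q.1.1) j *
        F (Sum.elim (ρ • q.2.1 + sρ • q.2.2) (r • q.1.1 + sr' • q.1.2)) j := by
    intro q
    have e3 : (Sum.elim (fun i => ρ * q.2.1 i + Real.sqrt (1 - ρ ^ 2) * q.2.2 i)
        (fun _ => r * q.1.1 () + Real.sqrt (1 - r ^ 2) * q.1.2 ()) : κ ⊕ Unit → ℝ) =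
        Sum.elim (ρ • q.2.1 + sρ • q.2.2) (r • q.1.1 + sr' • q.1.2) := by
      rw [hsρ, hsr]
      funext i
      rcases i with i | i
      · rfl
      · rfl
    rw [← e3]
    rfl
  rw [← e1]
  have e4 : ∫ q, F (Sum.elim q.2.1 q.1.1) j *
        F (Sum.elim (ρ • q.2.1 + sρ • q.2.2) (r • q.1.1 + sr' • q.1.2)) j
        ∂(((gam Unit).prod (gam Unit)).prod ((gam κ).prod (gam κ))) =
      ∫ y, sg r (fib ρ F j y) (fib ρ F j y) ∂(gam κ) := by
    rw [integral_prod _ (oub_int hH ⟨1, fun q => by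
      rw [abs_mul]
      exact mul_le_one₀ (hFa _ j) (abs_nonneg _) (hFa _ j)⟩)]
    have e5 : ∀ s : (Unit → ℝ) × (Unit → ℝ), ∫ t : (κ → ℝ) × (κ → ℝ),
        F (Sum.elim t.1 s.1) j * F (Sum.elim (ρ • t.1 + sρ • t.2) (r • s.1 + sr' • s.2)) j
          ∂((gam κ).prod (gam κ)) =
        ∫ y, fib ρ F j y s.1 * fib ρ F j y (r • s.1 + sr' • s.2) ∂(gam κ) := by
      intro s
      have e6 := D6x_sg (hBm s.1) (hBm (r • s.1 + sr' • s.2)) ρ hρ hρ1
      simp only [sg] at e6
      rw [← hsρ] at e6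
      exact e6
    simp only [e5]
    rw [integral_integral_swap]
    · rw [hsr]
      rfl
    · apply oub_int
      · apply Measurable.mul
        · exact (hfm j).comp (measurable_snd.prodMk (measurable_fst.comp measurable_fst))
        · exact (hfm j).comp (measurable_snd.prodMk
            (((measurable_fst.comp measurable_fst).const_smul r).add
              ((measurable_snd.comp measurable_fst).const_smul sr')))
      · refine ⟨1, fun q => ?_⟩
        change |fib ρ F j q.2 q.1.1 * fib ρ F j q.2 (r • q.1.1 + sr' • q.1.2)| ≤ 1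
        rw [abs_mul]
        exact mul_le_one₀ (hfa _ _ _) (abs_nonneg _) (hfa _ _ _)
  rw [← e4]
  exact integral_congr_ae (Filter.Eventually.of_forall e2)

end Pool.TC
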