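import Pool.Agent.TC.St
import Pool.Agent.Helper65.PT.Law
import Pool.Agent.Helper65.PT.Oub
import Pool.Agent.Helper65.PT.Oul

/-! Module D6y of project TC: monotonicity, convexity and the bound at `0` for the interpolation `sr`. -/

set_option autoImplicit false

open MeasureTheory ProbabilityTheory Pool.H65.PS Pool.H65.PT

namespace Pool.TC

private theorem D6y_int {κ : Type} [Fintype κ] {G : (κ → ℝ) × (Unit → ℝ) → ℝ}
    (hG : Measurable G) (h0 : ∀ p, 0 ≤ G p ∧ G p ≤ 1) (r : ℝ) :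
    Integrable (fun y : κ → ℝ => sg r (fun u => G (y, u)) (fun u => G (y, u))) (gam κ) := by
  have hm : Measurable fun q : (κ → ℝ) × ((Unit → ℝ) × (Unit → ℝ)) =>
      G (q.1, q.2.1) * G (q.1, r • q.2.1 + Real.sqrt (1 - r ^ 2) • q.2.2) := by
    have h1 : Measurable fun q : (κ → ℝ) × ((Unit → ℝ) × (Unit → ℝ)) => (q.1, q.2.1) :=
      measurable_fst.prodMk (measurable_fst.comp measurable_snd)
    have h2 : Measurable fun q : (κ → ℝ) × ((Unit → ℝ) × (Unit → ℝ)) =>
        (q.1, r • q.2.1 + Real.sqrt (1 - r ^ 2) • q.2.2) :=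
      measurable_fst.prodMk ((oub_jm r (Real.sqrt (1 - r ^ 2))).comp measurable_snd)
    exact (hG.comp h1).mul (hG.comp h2)
  have hs : Measurable (fun y : κ → ℝ => sg r (fun u => G (y, u)) (fun u => G (y, u))) :=
    (hm.stronglyMeasurable.integral_prod_right' (ν := (gam Unit).prod (gam Unit))).measurable
  refine oub_int hs ⟨1, fun y => ?_⟩
  have h1 := norm_integral_le_of_norm_le_const (μ := (gam Unit).prod (gam Unit))
    (f := fun p : (Unit → ℝ) × (Unit → ℝ) =>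
      G (y, p.1) * G (y, r • p.1 + Real.sqrt (1 - r ^ 2) • p.2)) (C := 1)
    (Filter.Eventually.of_forall fun p => by
      rw [Real.norm_eq_abs, abs_mul, abs_of_nonneg (h0 _).1, abs_of_nonneg (h0 _).1]
      exact mul_le_one₀ (h0 _).2 (h0 _).1 (h0 _).2)
  rw [probReal_univ, mul_one, Real.norm_eq_abs] at h1
  exact h1

private theorem D6y_mid {h : (Unit → ℝ) → ℝ} (hh : Bm h) (a b : ℝ) (ha : 0 ≤ a) (ha1 : a ≤ 1)
    (hb : 0 ≤ b) (hb1 : b ≤ 1) :
    2 * sg (a * b) h h ≤ sg (a ^ 2) h h + sg (b ^ 2) h h := by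
  have hA := OU_bm hh a
  have hB := OU_bm hh b
  have e1 : ∀ c : ℝ, 0 ≤ c → c ≤ 1 → sg (c ^ 2) h h = ∫ x, OU c h x * OU c h x ∂(gam Unit) := by
    intro c hc hc1
    have h1 := sg_OU hh hh c 1 hc hc1 zero_le_one le_rfl
    rw [mul_one] at h1
    rw [← h1, sg_one (OU_bm hh c) (OU_bm hh c)]
  have e2 : sg (a * b) h h = ∫ x, OU a h x * OU b h x ∂(gam Unit) := by
    have h1 : ∀ x, OU (a * b) h x = OU a (OU b h) x := fun x => (OU_comp hh a b ha ha1 hb hb1 x).symm
    rw [sg_eq_OU hh hh (a * b)]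
    have h2 : ∫ x, h x * OU (a * b) h x ∂(gam Unit) = ∫ x, h x * OU a (OU b h) x ∂(gam Unit) :=
      integral_congr_ae (Filter.Eventually.of_forall fun x => by simp only [h1])
    rw [h2, ← sg_eq_OU hh hB a, sg_symm hh hB a (by rw [abs_of_nonneg ha]; exact ha1),
      sg_eq_OU hB hh a]
    exact integral_congr_ae (Filter.Eventually.of_forall fun x => mul_comm _ _)
  rw [e1 a ha ha1, e1 b hb hb1, e2, ← integral_const_mul, ← integral_add]
  · refine integral_mono ?_ ?_ fun x => ?_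
    · exact (oub_int (hA.meas.mul hB.meas) (oub_mul hA.bdd hB.bdd)).const_mul 2
    · exact (oub_int (hA.meas.mul hA.meas) (oub_mul hA.bdd hA.bdd)).add
        (oub_int (hB.meas.mul hB.meas) (oub_mul hB.bdd hB.bdd))
    · nlinarith [sq_nonneg (OU a h x - OU b h x)]
  · exact oub_int (hA.meas.mul hA.meas) (oub_mul hA.bdd hA.bdd)
  · exact oub_int (hB.meas.mul hB.meas) (oub_mul hB.bdd hB.bdd)

private theorem D6y_lev {h : (Unit → ℝ) → ℝ} (hm : Measurable h) (h0 : ∀ u, 0 ≤ h u ∧ h u ≤ 1)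
    (r : ℝ) (hr : 0 ≤ r) (hr1 : r ≤ 1 / 4) :
    sg r h h ≤ sg 0 h h + 3 * r := by
  have hh : Bm h := ⟨hm, 1, fun u => by rw [abs_of_nonneg (h0 u).1]; exact (h0 u).2⟩
  have h1 := sg_level2 hh r hr hr1
  have h2 : sg (1 / 2) h h ≤ 1 := by
    refine (sg_mono hh (1 / 2) 1 (by norm_num) (by norm_num) le_rfl).trans ?_
    rw [sg_one hh hh]
    have h3 : ∫ x, h x * h x ∂(gam Unit) ≤ ∫ _x, (1 : ℝ) ∂(gam Unit) := by
      refine integral_mono (oub_int (hm.mul hm) (oub_mul hh.bdd hh.bdd)) (integrable_const _) ?_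
      intro x
      exact mul_le_one₀ (h0 x).2 (h0 x).1 (h0 x).2
    simpa using h3
  have h4 : ∑ i : Unit, mo h i ^ 2 ≤ 1 := by
    have hb := Ous_cs hh (fun _ : Unit => (1 : ℝ)) (by simp [dot])
    have e : ∫ y : Unit → ℝ, dot (fun _ : Unit => (1 : ℝ)) y * h y ∂(gam Unit) = mo h () := by
      unfold mo
      refine integral_congr_ae (Filter.Eventually.of_forall fun y => ?_)
      simp [dot, mul_comm]
    rw [e] at hb
    have hs : Measurable fun y : Unit → ℝ => h y ^ 2 := hm.pow_const 2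
    have h3 : ∫ x, h x ^ 2 ∂(gam Unit) ≤ ∫ _x, (1 : ℝ) ∂(gam Unit) := by
      refine integral_mono (oub_int hs ⟨1, fun x => ?_⟩) (integrable_const _) ?_
      · rw [abs_of_nonneg (sq_nonneg _)]
        exact pow_le_one₀ (h0 x).1 (h0 x).2
      · intro x
        exact pow_le_one₀ (h0 x).1 (h0 x).2
    have h5 : mo h () ^ 2 ≤ 1 := hb.trans (by simpa using h3)
    simpa using h5
  rw [sg_zero hh hh]
  nlinarith [mul_le_mul_of_nonneg_left h4 hr, mul_le_mul_of_nonneg_left h2 (by positivity : 0 ≤ 8 * r ^ 2)]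

theorem pD6y (hD6x : StD6x) : StD6y := by
  intro κ _ m ρ F h0 h1 hF
  obtain ⟨d1, d2, d3⟩ := hD6x κ m ρ F h0 h1 hF
  have hB : ∀ j y, Bm (fib ρ F j y) := fun j y => ⟨(d1 j).comp measurable_prodMk_left, 1, fun u => by
    rw [abs_of_nonneg (d2 j y u).1]; exact (d2 j y u).2⟩
  have hI : ∀ (j : Fin m) (r : ℝ),
      Integrable (fun y : κ → ℝ => sg r (fib ρ F j y) (fib ρ F j y)) (gam κ) := fun j r =>
    D6y_int (G := fun p => fib ρ F j p.1 p.2) (d1 j) (fun p => d2 j p.1 p.2) r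
  refine ⟨?_, ?_, (m : ℝ) * 3, ?_⟩
  · intro r r' hr hrr hr'
    rw [d3 r hr (hrr.trans hr'), d3 r' (hr.trans hrr) hr']
    exact Finset.sum_le_sum fun j _ => integral_mono (hI j r) (hI j r')
      fun y => sg_mono (hB j y) r r' hr hrr hr'
  · intro a b ha ha1 hb hb1
    rw [d3 (a * b) (mul_nonneg ha hb) (mul_le_one₀ ha1 hb hb1),
      d3 (a ^ 2) (sq_nonneg _) (pow_le_one₀ ha ha1), d3 (b ^ 2) (sq_nonneg _) (pow_le_one₀ hb hb1),
      Finset.mul_sum, ← Finset.sum_add_distrib]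
    refine Finset.sum_le_sum fun j _ => ?_
    rw [← integral_const_mul, ← integral_add (hI j _) (hI j _)]
    exact integral_mono ((hI j _).const_mul 2) ((hI j _).add (hI j _))
      fun y => D6y_mid (hB j y) a b ha ha1 hb hb1
  · intro r hr hr1
    rw [d3 r hr (by linarith), d3 0 le_rfl zero_le_one]
    have h2 : ∀ j : Fin m, ∫ y, sg r (fib ρ F j y) (fib ρ F j y) ∂(gam κ) ≤
        ∫ y, sg 0 (fib ρ F j y) (fib ρ F j y) ∂(gam κ) + 3 * r := by
      intro j
      have h3 : ∫ y, sg r (fib ρ F j y) (fib ρ F j y) ∂(gam κ) ≤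
          ∫ y, (sg 0 (fib ρ F j y) (fib ρ F j y) + 3 * r) ∂(gam κ) :=
        integral_mono (hI j r) ((hI j 0).add (integrable_const _))
          fun y => D6y_lev ((d1 j).comp measurable_prodMk_left) (d2 j y) r hr hr1
      rw [integral_add (hI j 0) (integrable_const _)] at h3
      simpa using h3
    refine (Finset.sum_le_sum fun j _ => h2 j).trans ?_
    rw [Finset.sum_add_distrib]
    simp [mul_assoc]

end Pool.TC
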