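import Pool.Agent.TC.Defs

/-! Project TC (MP_c6cf29_pr): statements of all modules, with proofs in words.
Module `X` proves the Prop `StX` (hypotheses: only the `St..` named in the docstring).
API on main: `Pool/Agent/Helper65/PT/*.lean` (Law, Oub, Ous, Oul, Cam, Pmo, Trf, Plm) and `PS`. -/

set_option autoImplicit false

open MeasureTheory ProbabilityTheory Pool.H65.PS Pool.H65.PT

namespace Pool.TC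

/-! ## Part D: dimension reduction -/

/-- D1 (existence of a maximiser). Maximising sequence `f^k`; in `L²(gam κ)` (separable, so the closed ball of the
dual is weakly sequentially compact: `WeakDual.isSeqCompact_closedBall`, Riesz `InnerProductSpace.toDual`) pass to a
subsequence with `f^k_j → g_j` weakly for every `j`. Testing with indicators: `g_j ≥ 0`, `∑ g_j = 1` a.e., `∫ g_j = 1/m`;
change `g` on a null set (e.g. to `Pi.single`/constant) to get `Pt`, `Bal`. For every `x`,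
`OU √ρ f^k_j x → OU √ρ g_j x` (`Ous_OU_eq`: it is `∫` against a function of `y` in `L²`; write
`∫ exp(..) f(σ y) dγ(y)` as `∫ f(z) M(x,z) dγ(z)`, or avoid densities: weak convergence of `f^k(r x + σ ·)` follows from
testing because the law of `r x + σ y` has an `L²` density); the functions are bounded by `1`, so
`sg ρ f f = ∫ (OU √ρ f)²` (`oub_sqrt`) converges by dominated convergence. For `ρ = 0` everything is constant. -/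
def StD1 : Prop := ∀ (κ : Type) [Fintype κ] (m : ℕ) (ρ : ℝ), 1 ≤ m → 0 ≤ ρ → ρ < 1 →
  ∃ F : (κ → ℝ) → Fin m → ℝ, Mx ρ F

/-- D2a. `St f = St F + 2 ∑ ∫ (f_j-F_j) OU ρ F_j + ∑ sg ρ (f_j-F_j) (f_j-F_j)` (`sg_eq_OU`, `sg_symm`, bilinearity),
the last term is `≥ 0` (`sg_self_nonneg`) and `St f ≤ St F`. -/
def StD2a : Prop := ∀ (κ : Type) [Fintype κ] (m : ℕ) (ρ : ℝ) (F : (κ → ℝ) → Fin m → ℝ), 0 ≤ ρ → ρ ≤ 1 →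
  Mx ρ F → ∀ f : (κ → ℝ) → Fin m → ℝ, Pt f → Bal f →
    ∫ x, ∑ j, f x j * OU ρ (fun y => F y j) x ∂(gam κ)
      ≤ ∫ x, ∑ j, F x j * OU ρ (fun y => F y j) x ∂(gam κ)

/-- Soft. `Ψ(c) = T ∫ lse((G+c)/T) - (1/m) ∑ c` on the hyperplane `∑ c = 0` is continuous and
`max c - B ≤ Ψ(c)`, `Ψ(0) ≤ B + T log m ≤ B + m`; so it has a minimiser on a compact set, at which `max c ≤ 2B+m`, hence
`|c_j| ≤ m (2B+m)`. Derivative in the direction `e_i - e_j` (under the integral) `= ∫ sm_i - ∫ sm_j = 0`, and `∑ ∫ sm_j = 1`. -/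
def StSoft : Prop := ∀ (κ : Type) [Fintype κ] (m : ℕ), 1 ≤ m → ∀ (G : Fin m → (κ → ℝ) → ℝ),
  (∀ j, Measurable (G j)) → ∀ B : ℝ, 0 ≤ B → (∀ j x, |G j x| ≤ B) → ∀ T : ℝ, 0 < T → T ≤ 1 →
  ∃ c : Fin m → ℝ, (∀ j, |c j| ≤ m * (2 * B + m)) ∧
    ∀ j, ∫ x, sm (fun k => (G k x + c k) / T) j ∂(gam κ) = 1 / (m : ℝ)

/-- D2b (multipliers; uses `StSoft`). For `T = 1/(n+1)` take `c^n` from `StSoft`, `g^n = sm(..)` is `Pt`, `Bal`, so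
`∫ ∑ F (G+c^n) ≥ ∫ ∑ g^n (G+c^n) ≥ ∫ max_j (G_j+c^n_j) - T log m` (for softmax weights `∑ sm_j a_j ≥ max a - T log m`).
A subsequence of `c^n` converges to `c`; in the limit `∫ ∑ F (G+c) ≥ ∫ max (G+c)`, so `∑_j F_j (G_j+c_j) = max (G+c)` a.e. -/
def StD2b : Prop := ∀ (κ : Type) [Fintype κ] (m : ℕ), 1 ≤ m → ∀ (G : Fin m → (κ → ℝ) → ℝ), (∀ j, Bm (G j)) →
  ∀ F : (κ → ℝ) → Fin m → ℝ, Pt F → Bal F →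
  (∀ f : (κ → ℝ) → Fin m → ℝ, Pt f → Bal f →
    ∫ x, ∑ j, f x j * G j x ∂(gam κ) ≤ ∫ x, ∑ j, F x j * G j x ∂(gam κ)) →
  ∃ c : Fin m → ℝ, ∀ᵐ x ∂(gam κ), ∀ j k, 0 < F x j → G k x + c k ≤ G j x + c j

/-- D3a. At `p` both `H_i(p), H_j(p)` are maximal (if `H_i(p) < H_k(p)` then near `p` `F_i = 0` a.e.), so
`H_i(p) = H_j(p)`. Given `ε` choose a ball `B` around `p` with `|H_i - H_j| ≤ ε` on `B`, `β = ∫_B F_i > 0`, `δ ≤ β/4`.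
If `L1 F G ≤ δ` then `∫_B G_i ≥ β/2`; put `G' = G + s 1_B G_i (e_j - e_i)`, `s = σ / ∫_B G_i ≤ 1`. `C = 2`.
(If `i = j` take `G' = G`.) -/
def StD3a : Prop := ∀ (κ : Type) [Fintype κ] (m : ℕ) (F : (κ → ℝ) → Fin m → ℝ) (H : Fin m → (κ → ℝ) → ℝ),
  Pt F → (∀ j, Bm (H j)) → (∀ j, Continuous (H j)) →
  (∀ᵐ x ∂(gam κ), ∀ j k, 0 < F x j → H k x ≤ H j x) → ∀ (i j : Fin m) (p : κ → ℝ),
  (∀ U : Set (κ → ℝ), IsOpen U → p ∈ U → 0 < ∫ x in U, F x i ∂(gam κ)) →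
  (∀ U : Set (κ → ℝ), IsOpen U → p ∈ U → 0 < ∫ x in U, F x j ∂(gam κ)) → Tr F H i j

/-- D3b (transitivity): apply the two hypotheses one after the other with `ε/2`, `δ = min δ₁ (δ₂/(1+C₁))`, `C = C₁+C₂`. -/
def StD3b : Prop := ∀ (κ : Type) [Fintype κ] (m : ℕ) (F : (κ → ℝ) → Fin m → ℝ) (H : Fin m → (κ → ℝ) → ℝ),
  Pt F → (∀ j, Bm (H j)) → ∀ i k j : Fin m, Tr F H i k → Tr F H k j → Tr F H i j

/-- D3c (uses `StD3a`, `StD3b`). `Ω_j = {p | every open U ∋ p has ∫_U F_j > 0}` is closed, nonempty (second countable,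
`∫ F_j > 0`), and `⋃ Ω_j` is everything (`∑ F_j = 1`, open sets have positive gaussian measure: `gam` is
`IsOpenPosMeasure`). `i ~ j` iff `Tr F H i j` and `Tr F H j i`; if `Ω_i ∩ Ω_j ≠ ∅` then `i ~ j` (D3a). If the class of `i`
is not everything then the union of `Ω_k` over the class and over the complement are disjoint nonempty closed sets covering the
connected space `κ → ℝ`. -/
def StD3c : Prop := ∀ (κ : Type) [Fintype κ] (m : ℕ) (F : (κ → ℝ) → Fin m → ℝ) (H : Fin m → (κ → ℝ) → ℝ),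
  Pt F → (∀ j, Bm (H j)) → (∀ j, Continuous (H j)) →
  (∀ᵐ x ∂(gam κ), ∀ j k, 0 < F x j → H k x ≤ H j x) → (∀ j, 0 < ∫ x, F x j ∂(gam κ)) →
  ∀ i j : Fin m, Tr F H i j

/-- D3d. Correct the defects one colour `j ≠ 0` after the other: if `df G j > 0` move that mass from `j` to `0`, otherwise from
`0` to `j` (`m-1` applications with smaller `ε`, `δ`; the distance to `F` stays small). `∑ df = 0` gives `df G' 0 = 0`. -/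
def StD3d : Prop := ∀ (κ : Type) [Fintype κ] (m : ℕ) (F : (κ → ℝ) → Fin m → ℝ) (H : Fin m → (κ → ℝ) → ℝ),
  1 ≤ m → Pt F → (∀ j, Bm (H j)) → (∀ i j : Fin m, Tr F H i j) →
  ∃ C : ℝ, 0 ≤ C ∧ ∀ ε : ℝ, 0 < ε → ∃ R δ : ℝ, 0 < R ∧ 0 < δ ∧
    ∀ G : (κ → ℝ) → Fin m → ℝ, Pt G → L1 F G ≤ δ → (∀ j, |df G j| ≤ δ) →
      ∃ G' : (κ → ℝ) → Fin m → ℝ, Pt G' ∧ Bal G' ∧ (∀ x, R < ‖x‖ → G' x = G x) ∧
        L1 G G' ≤ C * ∑ j, |df G j| ∧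
        -(ε * ∑ j, |df G j|) ≤ ∫ x, ∑ k, (G' x k - G x k) * H k x ∂(gam κ)

/-- D4a. `Ous_OU_eq` writes `OU ρ g x = ∫ exp(dot v y - |v|²/2) g(σ y) dγ(y)`, `v = (ρ/σ) x` bounded. Split at `|y| ≤ K`:
outside, the exponential has small integral; inside it is bounded and `∫_{|y| ≤ K} |g(σ y)| dγ(y) ≤ C ∫ |g| dγ`
(density of `σ y`: change of variables coordinatewise), or use the law of `ρ x + σ y` and absolute continuity uniformly in `x`.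
Alternative: Cauchy-Schwarz and `∫ g(σ y)² e^{...}`. -/
def StD4a : Prop := ∀ (κ : Type) [Fintype κ] (ρ R : ℝ), 0 ≤ ρ → ρ < 1 → ∀ ε : ℝ, 0 < ε →
  ∃ δ : ℝ, 0 < δ ∧ ∀ g : (κ → ℝ) → ℝ, Measurable g → (∀ x, |g x| ≤ 1) → ∫ x, |g x| ∂(gam κ) ≤ δ →
    ∀ x, ‖x‖ ≤ R → |OU ρ g x| ≤ ε

/-- D4 (uses D2a, D2b, D3c, D3d, D4a). `c` from D2b (with D2a), `H_j = OU ρ F_j + c_j` (bounded, `OU_continuous`). For `G`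
near `F` take `G'` from D3d: `St F ≥ St G' ≥ St G + 2 ∑ ∫ (G'_j-G_j) OU ρ G_j`, and
`∑ ∫ (G'-G) OU ρ G = ∑ ∫ (G'-G) H - ∑ c_j (df G'_j - df G_j) + ∑ ∫ (G'-G) OU ρ (G-F)`, `df G' = 0`, the last term is at most
`L1 G G' * sup_{‖x‖ ≤ R} |OU ρ (G_j-F_j)|` (D4a). -/
def StD4 : Prop := ∀ (κ : Type) [Fintype κ] (m : ℕ) (ρ : ℝ) (F : (κ → ℝ) → Fin m → ℝ),
  1 ≤ m → 0 ≤ ρ → ρ < 1 → Mx ρ F → ∃ c : Fin m → ℝ, ∀ ε : ℝ, 0 < ε → ∃ δ : ℝ, 0 < δ ∧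
    ∀ G : (κ → ℝ) → Fin m → ℝ, Pt G → L1 F G ≤ δ →
      St ρ G ≤ St ρ F - 2 * ∑ j, c j * df G j + ε * ∑ j, |df G j|

/-- D5. Continuous functions with compact support are dense in `L¹(gam)` and in `L²(gam)`; for continuous bounded `g` use
dominated convergence; the law of `a u + h` has a density with respect to `gaussianReal 0 1` which is bounded in `L²` for `a`
near `1`, `|h| ≤ 1`. (Alternatively: reduce to indicators of closed sets / use `Measure` convergence in total variation of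
`gaussianReal h a²` to `gaussianReal 0 1`: `∫ |F_j(y,au+h) - g(y,au+h)| ≤ ∫ |F_j - g| d(law) `.) -/
def StD5 : Prop := ∀ (κ : Type) [Fintype κ] (m : ℕ) (F : (κ ⊕ Unit → ℝ) → Fin m → ℝ), Pt F →
  ∀ η : ℝ, 0 < η → ∃ δ : ℝ, 0 < δ ∧ ∀ a h : ℝ, |a - 1| ≤ δ → |h| ≤ δ → L1 F (shf a h F) ≤ η

/-- D6x (fibres). Law: `gam (κ ⊕ Unit)` is the product (`Law_sum`). In the first coordinates
`E F(Y,·) F(ρY+σY',·) = E [OU √ρ F(·,u)](Y) [OU √ρ F(·,u')](Y)`: for fixed `u,u'` this is `sg ρ f h = ∫ OU √ρ f OU √ρ h`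
(`sg_OU` with `r = √ρ`, and `sg_one`). Fubini. Measurability: `StronglyMeasurable.integral_prod_right`-type. -/
def StD6x : Prop := ∀ (κ : Type) [Fintype κ] (m : ℕ) (ρ : ℝ) (F : (κ ⊕ Unit → ℝ) → Fin m → ℝ), 0 ≤ ρ → ρ ≤ 1 → Pt F →
  (∀ j, Measurable (fun p : (κ → ℝ) × (Unit → ℝ) => fib ρ F j p.1 p.2)) ∧
  (∀ j y u, 0 ≤ fib ρ F j y u ∧ fib ρ F j y u ≤ 1) ∧
  ∀ r : ℝ, 0 ≤ r → r ≤ 1 → sr ρ r F = ∑ j, ∫ y, sg r (fib ρ F j y) (fib ρ F j y) ∂(gam κ)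

/-- D6y (uses D6x). Fibrewise: `sg_mono`; `2 sg (ab) h h ≤ sg a² h h + sg b² h h` because `sg (ab) h h = ∫ OU a h · OU b h`
and `sg a² h h = ∫ (OU a h)²` (`sg_OU`, `sg_eq_OU`, `OU_comp`); `sg_level2` (with `κ = Unit`):
`sg r h h ≤ (∫ h)² + r (mo)² + 8 r² ≤ sg 0 h h + 3 r` for `0 ≤ h ≤ 1`, `r ≤ 1/4` (`(∫ h u)² ≤ ∫ h² ≤ 1`). -/
def StD6y : Prop := ∀ (κ : Type) [Fintype κ] (m : ℕ) (ρ : ℝ) (F : (κ ⊕ Unit → ℝ) → Fin m → ℝ), 0 ≤ ρ → ρ ≤ 1 → Pt F →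
  (∀ r r' : ℝ, 0 ≤ r → r ≤ r' → r' ≤ 1 → sr ρ r F ≤ sr ρ r' F) ∧
  (∀ a b : ℝ, 0 ≤ a → a ≤ 1 → 0 ≤ b → b ≤ 1 → 2 * sr ρ (a * b) F ≤ sr ρ (a ^ 2) F + sr ρ (b ^ 2) F) ∧
  ∃ C : ℝ, ∀ r : ℝ, 0 ≤ r → r ≤ 1 / 4 → sr ρ r F ≤ sr ρ 0 F + C * r

/-- D6z (uses D6x). `sr ρ ρ F = St ρ F` by unfolding; `sr ρ 0 F = ∑ ∫_y (∫_u fib)²` (`sg_zero`) and
`∫_u fib ρ F j y u = OU √ρ (marg F · j) y` (Fubini), `oub_sqrt`. `marg F` is `Pt`, and `Bal` if `F` is. -/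
def StD6z : Prop := ∀ (κ : Type) [Fintype κ] (m : ℕ) (ρ : ℝ) (F : (κ ⊕ Unit → ℝ) → Fin m → ℝ), 0 ≤ ρ → ρ ≤ 1 → Pt F →
  sr ρ ρ F = St ρ F ∧ sr ρ 0 F = St ρ (marg F) ∧ Pt (marg F) ∧ (Bal F → Bal (marg F))

/-- D7a. For independent standard `X, Y, ξ`, `a = √(1-t²)`, the pair
`(a X_u + tξ, a(ρX_u+σY_u) + tξ)` is a standard pair with correlation `ρ + t²(1-ρ)` (all jointly independent of the first
coordinates): `map_lin_eq` for two linear images of a standard Gaussian vector with the same covariance. -/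
def StD7a : Prop := ∀ (κ : Type) [Fintype κ] (m : ℕ) (ρ t : ℝ) (F : (κ ⊕ Unit → ℝ) → Fin m → ℝ), Pt F →
  0 ≤ ρ → ρ ≤ 1 → 0 ≤ t → t ≤ 1 →
  ∫ ξ, St ρ (shf (Real.sqrt (1 - t ^ 2)) (t * ξ) F) ∂(gaussianReal 0 1) = sr ρ (ρ + t ^ 2 * (1 - ρ)) F

/-- D7b. `(y, a u + t ξ)` has law `gam` when `(y,u)` and `ξ` are independent (`a² + t² = 1`). -/
def StD7b : Prop := ∀ (κ : Type) [Fintype κ] (m : ℕ) (t : ℝ) (F : (κ ⊕ Unit → ℝ) → Fin m → ℝ), Pt F →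
  0 ≤ t → t ≤ 1 → ∀ j, ∫ ξ, df (shf (Real.sqrt (1 - t ^ 2)) (t * ξ) F) j ∂(gaussianReal 0 1) = df F j

/-- D7c. `A(u) = ∫ F_j(y,u) dγ(y)` on `Unit → ℝ`; `∫ shf .. = OU t A ξ`; `∫ (OU t A - ∫A)² = sg t² A A - (∫A)²`
(`sg_OU`, `integral_OU`) `≤ t² (mo A)² + 8 t⁴ sg (1/2) A A ≤ 8 t⁴` (`sg_level2`, `mo A = mo F_j (inr ()) = 0`); Cauchy-Schwarz. -/
def StD7c : Prop := ∀ (κ : Type) [Fintype κ] (m : ℕ) (t : ℝ) (F : (κ ⊕ Unit → ℝ) → Fin m → ℝ), Pt F → Bal F →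
  0 ≤ t → t ≤ 1 / 2 → ∀ j, mo (fun x => F x j) (Sum.inr ()) = 0 →
  ∫ ξ, |df (shf (Real.sqrt (1 - t ^ 2)) (t * ξ) F) j| ∂(gaussianReal 0 1) ≤ 3 * t ^ 2

/-- D8a (real analysis). Suppose `s 0 < s ρ`. Choose `r0 ∈ (0,ρ)` with `s r0 < s ρ`, `L = log(ρ/r0)`, `Δ = s ρ - s r0`.
`ψ(u) = s(e^u)` on `u ≤ 0` is nondecreasing and `2ψ((u+v)/2) ≤ ψ u + ψ v`. For `h = log(ρ'/ρ)`, `ρ' = ρ+t²(1-ρ) ≤ 1`, `h ≤ L`,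
`K = ⌈L/h⌉`: the increments `ψ(u+h)-ψ(u) ≥ ψ(u)-ψ(u-h) ≥ ...` (u = log ρ) so `K (ψ(u+h)-ψ(u)) ≥ ψ(u)-ψ(u-Kh) ≥ Δ`, hence
`s ρ' - s ρ ≥ Δ h/(2L) ≥ Δ t²(1-ρ)/(2L)` (`log(ρ'/ρ) ≥ (ρ'-ρ)/ρ'`). Contradiction for small `ε`. -/
def StD8a : Prop := ∀ (s : ℝ → ℝ) (ρ C : ℝ), 0 < ρ → ρ < 1 →
  (∀ r r' : ℝ, 0 ≤ r → r ≤ r' → r' ≤ 1 → s r ≤ s r') →
  (∀ a b : ℝ, 0 ≤ a → a ≤ 1 → 0 ≤ b → b ≤ 1 → 2 * s (a * b) ≤ s (a ^ 2) + s (b ^ 2)) →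
  (∀ r : ℝ, 0 ≤ r → r ≤ 1 / 4 → s r ≤ s 0 + C * r) →
  (∀ ε : ℝ, 0 < ε → ∃ t0 : ℝ, 0 < t0 ∧ ∀ t : ℝ, 0 < t → t ≤ t0 → s (ρ + t ^ 2 * (1 - ρ)) ≤ s ρ + ε * t ^ 2) →
  s ρ ≤ s 0

/-- D8 (uses D4, D5, D6y, D6z, D7a, D7b, D7c, D8a). Apply D8a to `s r = sr ρ r F`. Given `ε`: `c` from D4, `δ` for
`ε/(6m)`, and D5. For `t` small and `|ξ| ≤ t^{-1/2}` the function `G^ξ = shf √(1-t²) (tξ) F` has `L1 F G^ξ ≤ δ`, so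
`St G^ξ ≤ St F - 2∑ c_j df + (ε/6m) ∑|df|`; for all other `ξ` `St G^ξ ≤ 1 ≤ St F - 2∑ c_j df + 1 + 4∑|c_j|`, and
`P(|ξ| > t^{-1/2}) ≤ t³ E ξ⁶ = 15 t³`. Integrate in `ξ`: D7a gives the left side, D7b `E df = 0`, D7c `E|df| ≤ 3t²`. -/
def StD8 : Prop := ∀ (κ : Type) [Fintype κ] (m : ℕ) (ρ : ℝ) (F : (κ ⊕ Unit → ℝ) → Fin m → ℝ), 1 ≤ m → 0 < ρ → ρ < 1 →
  Mx ρ F → (∀ j, mo (fun x => F x j) (Sum.inr ()) = 0) → St ρ F ≤ St ρ (marg F)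

/-- D9. The `m` vectors `mo F_j ∈ ℝ^κ` have sum `0` (`∑ F_j = 1`), so they span a space of dimension `≤ m-1 < n+1` and there is a
unit vector `v` orthogonal to all. Complete to an orthonormal basis, last vector `v`; `F' x = F (∑ x_i b_i)`. Law_mp
(orthonormal rows preserve `gam`) gives `Pt, Bal, St F' = St F`, every competitor `f'` comes from a competitor of `F`, and
`mo F'_j (inr ()) = ⟨mo F_j, v⟩ = 0`. -/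
def StD9 : Prop := ∀ (n m : ℕ) (ρ : ℝ) (κ : Type) [Fintype κ], Fintype.card κ = n + 1 → 1 ≤ m → m ≤ n + 1 →
  0 ≤ ρ → ρ ≤ 1 → ∀ F : (κ → ℝ) → Fin m → ℝ, Mx ρ F → ∃ F' : (Fin n ⊕ Unit → ℝ) → Fin m → ℝ,
    Mx ρ F' ∧ St ρ F' = St ρ F ∧ ∀ j, mo (fun x => F' x j) (Sum.inr ()) = 0

/-- D10 (uses D1, D6z, D8, D9). Induction on `card κ`. If `card κ ≤ m-1`: injection `ι : κ → Fin (m-1)`, `g x = f (x ∘ ι)`.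
Otherwise D1, D9, D8: `St f ≤ St F' ≤ St (marg F')` and `marg F'` lives on `Fin n`. -/
def StD10 : Prop := ∀ (m : ℕ) (ρ : ℝ), 2 ≤ m → 0 < ρ → ρ < 1 → ∀ (κ : Type) [Fintype κ] (f : (κ → ℝ) → Fin m → ℝ),
  Pt f → Bal f → ∃ g : (Fin (m - 1) → ℝ) → Fin m → ℝ, Pt g ∧ Bal g ∧ St ρ f ≤ St ρ g

/-! ## Part P: the plane -/

/-- P0a. Polar coordinates (`integral_comp_polarCoord_symm` / `lintegral` version) and the Lebesgue density of `gam (Fin 2)`. -/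
def StP0a : Prop := IsProbabilityMeasure cm ∧ IsProbabilityMeasure rm ∧
  Measure.map (fun p : ℝ × ℝ => pt2 p.1 p.2) (rm.prod cm) = gam (Fin 2)

/-- P0b (Mehler). For fixed `x` the law of `ρ x + σ y` has density
`q^{-1} exp(-(ρ²(|x|²+|z|²) - 2ρ x·z)/(2q))` with respect to `gam (Fin 2)` (`q = 1-ρ²`), coordinatewise:
`gaussianReal (ρ x_i) q` against `gaussianReal 0 1`. -/
def StP0b : Prop := ∀ (ρ : ℝ) (f h : (Fin 2 → ℝ) → ℝ), 0 ≤ ρ → ρ < 1 → Bm f → Bm h →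
  Integrable (fun p : (Fin 2 → ℝ) × (Fin 2 → ℝ) => f p.1 * h p.2 * ((1 - ρ ^ 2)⁻¹ *
    Real.exp (-(ρ ^ 2 * (dot p.1 p.1 + dot p.2 p.2) - 2 * ρ * dot p.1 p.2) / (2 * (1 - ρ ^ 2)))))
    ((gam (Fin 2)).prod (gam (Fin 2))) ∧
  sg ρ f h = ∫ x, ∫ z, f x * h z * ((1 - ρ ^ 2)⁻¹ *
    Real.exp (-(ρ ^ 2 * (dot x x + dot z z) - 2 * ρ * dot x z) / (2 * (1 - ρ ^ 2)))) ∂(gam (Fin 2)) ∂(gam (Fin 2))

/-- P0c (uses P0a, P0b): `dot (pt2 s θ) (pt2 t φ) = s t cos(θ-φ)`, Fubini. -/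
def StP0c : Prop := ∀ (ρ : ℝ) (f h : (Fin 2 → ℝ) → ℝ), 0 ≤ ρ → ρ < 1 → Bm f → Bm h →
  Integrable (fun p : ℝ × ℝ => kap ρ p.1 p.2 *
    Qb (bb ρ p.1 p.2) (fun θ => f (pt2 p.1 θ)) (fun φ => h (pt2 p.2 φ))) (rm.prod rm) ∧
  sg ρ f h = ∫ s, ∫ t, kap ρ s t * Qb (bb ρ s t) (fun θ => f (pt2 s θ)) (fun φ => h (pt2 t φ)) ∂rm ∂rm

/-- P0d. `kap ρ s t I0 (bb ρ s t) drm(t)` has integral 1: it is `∫∫ q^{-1} exp(..) dcm drm` = total mass of the law of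
`ρ(s,0) + σ y` in polar coordinates (P0a), i.e. the Mehler density integrates to 1; or: series
`I0(b) = ∑ (b/2)^{2k}/k!²` and gaussian moments. Integrability on the product follows (everything is nonnegative). -/
def StP0d : Prop := ∀ ρ : ℝ, 0 ≤ ρ → ρ < 1 →
  Integrable (fun p : ℝ × ℝ => kap ρ p.1 p.2 * I0 (bb ρ p.1 p.2)) (rm.prod rm) ∧
  ∀ s : ℝ, 0 < s → Integrable (fun t => kap ρ s t * I0 (bb ρ s t)) rm ∧ ∫ t, kap ρ s t * I0 (bb ρ s t) ∂rm = 1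

/-- P1 (positive definiteness). For bounded measurable `w` (here `w = u - v`): with `x_θ = (cos θ, sin θ)`,
`exp(b cos(θ-φ)) = ∑_k b^k/k! (cos θ cos φ + sin θ sin φ)^k` and each term is a sum of products `g(θ) g(φ)` with nonnegative
coefficients, so `Qb b w w ≥ 0` for `b ≥ 0`. Put `w = w0 + a`, `a = ∫ w`: `Qb b w0 1 = 0` because
`∫ exp(b cos(θ-φ)) dcm(φ) = I0 b` for every `θ` (periodicity), so `Qb b w w = Qb b w0 w0 + a² I0 b ≥ a² I0 b`. Expand `w = u-v`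
(`Qb` is symmetric). -/
def StP1 : Prop := ∀ (b : ℝ) (u v : ℝ → ℝ), 0 ≤ b → Measurable u → Measurable v → (∀ θ, |u θ| ≤ 1) → (∀ θ, |v θ| ≤ 1) →
  Qb b u v ≤ (Qb b u u + Qb b v v) / 2 - I0 b / 2 * ((∫ θ, u θ ∂cm) - ∫ θ, v θ ∂cm) ^ 2

/-- P2 (Riesz inequality for one function, short proof). `r(φ) = ∫ u(θ) u(θ+φ) dcm(θ)`, `D = α - r`, `α = ∫ u`.
For `a,b,c ∈ [0,1]`: `b - ab - bc + ac ≥ 0`; with `a = u(θ), b = u(θ+y), c = u(θ+x)` and shift invariance this is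
`D(x) ≤ D(y) + D(x-y)`. `D` is even, `2π`-periodic, `0 ≤ D ≤ μ := min(α,1-α)`, `∫_0^π D = π(α-α²)`.
Averaging over `y ∈ (0,x)`: `x D(x) ≤ 2 E(x)`, `E(x) = ∫_0^x D`, so `E(w)/w²` is nonincreasing. Hence with `w1 = 2πμ ≤ π`:
for `w ≥ w1` `E(w) ≥ π(α-α²) - (π-w) μ`, in particular `E(w1) ≥ w1²/(4π)`, and for `w ≤ w1` `E(w) ≥ (w/w1)² E(w1) ≥ w²/(4π)`.
Finally `Bw w u = (1/2π)∫_{-w}^{w} r = (1/2π)(2wα - 2E(w))` (substitution `φ = θ + ψ`, `cos w < cos ψ ⟺ |ψ| < w` in `(-π,π)`), which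
is `≤ an (w/2π) α` in each case. -/
def StP2 : Prop := ∀ (w : ℝ) (u : ℝ → ℝ), 0 ≤ w → w ≤ Real.pi → Cf u →
  Bw w u ≤ an (w / (2 * Real.pi)) (∫ θ, u θ ∂cm)

/-- P3. `ν > 1/3`: `∑ an = ∑ [α_j² - (α_j-ν)_+² + (ν-1+α_j)_+²]`-type rewriting gives `∑ an ν α_j ≤ ∑ α_j²` (as `ν-1+α ≤ α-ν`),
and `3 an ν (1/3) = 1/3`. `ν ≤ 1/3`: `∑ an - 3 an ν (1/3) = ∑ (ν-α_j)_+² + ∑ (ν-1+α_j)_+²`, and
`(ν-α)_+ ≤ 3ν (1/3-α)_+`, `(ν-1+α)_+ ≤ 3ν (α-2/3)_+`; finally with `e_j = α_j - 1/3`, `∑ e = 0`, `e ≥ -1/3`: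
`∑ (-e)_+² + ∑ (e-1/3)_+² ≤ (2/3) ∑ e²` (one negative: `p² ≤ (2/3)(p²+p²/2)`; two negative `p,r`:
`(1/3)(p²+r²) + (p+r-1/3)_+² ≤ (2/3)(p+r)²`). -/
def StP3 : Prop := ∀ (ν : ℝ) (α : Fin 3 → ℝ), 0 ≤ ν → ν ≤ 1 / 2 → (∀ j, 0 ≤ α j) → ∑ j, α j = 1 →
  ∑ j, an ν (α j) ≤ 3 * an ν (1 / 3) + ee ν * ∑ j, (α j - 1 / 3) ^ 2

/-- P4a (bathtub). Choose `θ0` with `∫ u cos(θ-θ0) = √(A²+B²)`; for every `λ`,
`∫ u cos(θ-θ0) ≤ λ α + ∫ (cos - λ)_+ dcm`; `λ = cos(πα)` gives `sin(πα)/π`. -/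
def StP4a : Prop := ∀ u : ℝ → ℝ, Cf u →
  (∫ θ, u θ * Real.cos θ ∂cm) ^ 2 + (∫ θ, u θ * Real.sin θ ∂cm) ^ 2
    ≤ (Real.sin (Real.pi * ∫ θ, u θ ∂cm) / Real.pi) ^ 2

/-- P4b. With `A+B+C = π`, `A` smallest, `δ = B-C`: `9/4 - ∑ sin² = 1/4 + cos²A - cos A cos δ
≥ (cos A - 1/2)² + (1 - cos δ)/2 ≥ (9/4π²)(A-π/3)² + δ²/π²` (concavity of `cos` on `[0,π/3]`; `1-cos δ ≥ 2δ²/π²` for `|δ| ≤ π`) and
`(3/2) ∑ (α_j-1/3)² = (9/4π²)(A-π/3)² + (3/4π²) δ²`. -/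
def StP4b : Prop := ∀ α : Fin 3 → ℝ, (∀ j, 0 ≤ α j) → ∑ j, α j = 1 →
  ∑ j, Real.sin (Real.pi * α j) ^ 2 ≤ 9 / 4 - 3 / 2 * ∑ j, (α j - 1 / 3) ^ 2

/-- P5a (layer cake). For `x = cos(θ-φ)`:
`e^{bx} - b e^{-b} x = (e^{-b} + b e^{-b}) + ∫_0^π b sin w (e^{b cos w} - e^{-b}) 1{cos w < x} dw` (substitute `y = cos w`);
`cos(θ-φ) = cos θ cos φ + sin θ sin φ`; Fubini. -/
def StP5a : Prop := ∀ (b : ℝ) (u : ℝ → ℝ), 0 ≤ b → Cf u →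
  Qb b u u = b * Real.exp (-b) * ((∫ θ, u θ * Real.cos θ ∂cm) ^ 2 + (∫ θ, u θ * Real.sin θ ∂cm) ^ 2)
    + (Real.exp (-b) + b * Real.exp (-b)) * (∫ θ, u θ ∂cm) ^ 2
    + ∫ w in (0 : ℝ)..Real.pi, b * Real.sin w * (Real.exp (b * Real.cos w) - Real.exp (-b)) * Bw w u

/-- P5b. `K(w) = e^{b cos w} - b e^{-b} cos w`, `-K' = b sin w (e^{b cos w} - e^{-b})`; split at `2π/3` (`ee = 6ν² = 3w²/2π²` below,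
`1` above), integrate by parts: `K(2π/3)/3 + (3/π²) ∫_0^{2π/3} w K`, and `∫_0^{2π/3} w cos w = π/√3 - 3/2`. -/
def StP5b : Prop := ∀ b : ℝ, 0 ≤ b →
  Real.exp (-b) + b * Real.exp (-b)
    + (∫ w in (0 : ℝ)..Real.pi, b * Real.sin w * (Real.exp (b * Real.cos w) - Real.exp (-b)) * ee (w / (2 * Real.pi)))
    - 3 / (2 * Real.pi ^ 2) * (b * Real.exp (-b)) = Lb b

/-- P5c (the sectors). `sec j θ = 1` iff `θ - 2πj/3` is within `π/3` of `2πℤ` (strictly). -/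
def StP5c : Prop := ∀ j : Fin 3, Cf (sec j) ∧ ∫ θ, sec j θ ∂cm = 1 / 3 ∧
  (∫ θ, sec j θ * Real.cos θ ∂cm) ^ 2 + (∫ θ, sec j θ * Real.sin θ ∂cm) ^ 2 = 3 / (4 * Real.pi ^ 2) ∧
  ∀ w : ℝ, 0 ≤ w → w ≤ Real.pi → Bw w (sec j) = an (w / (2 * Real.pi)) (1 / 3)

/-- P5 (circle inequality; uses P2, P3, P4a, P4b, P5a, P5b, P5c). Sum P5a over the three colours; P2+P3 in the layer term (the
weight `b sin w (e^{b cos w} - e^{-b})` is `≥ 0`), P4a+P4b in the first term (`(1/π²)(9/4 - (3/2)∑e²)`),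
`∑ α_j² = 1/3 + ∑ e_j²`; P5c evaluates the same expression for the sectors, P5b collects the coefficient of `∑ e_j²`.
(measurability in `w` of `Bw w u`: it is monotone in `w` on `[0,π]`.) -/
def StP5 : Prop := ∀ (b : ℝ) (u : Fin 3 → ℝ → ℝ), 0 ≤ b → (∀ j, Cf (u j)) → (∀ θ, ∑ j, u j θ = 1) →
  ∑ j, Qb b (u j) (u j) ≤ Sgb b + Lb b * ∑ j, ((∫ θ, u j θ ∂cm) - 1 / 3) ^ 2

/-- P6a. `n` odd, `r(x) = e^x - ∑_{k≤n} x^k/k!`: `r ≥ 0`, `r` increasing on `x ≥ 0`, decreasing on `x ≤ 0`, `r(-x) ≤ r(x)` for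
`x ≥ 0`. Claim `(1/π)∫_0^π r(b cos w) dw - r(-b/2)/3 - (3/π²)∫_0^{2π/3} w r(b cos w) dw ≥ 0`: on `(0,π/3)` the density
`1/π - 3w/π² ≥ 0` and `r ≥ r(b/2)`, on `(π/3,2π/3)` it is `≤ 0` and `r ≤ r(b/2)`, total mass on `(0,2π/3)` is `0`; on
`(2π/3,π)` `r ≥ r(-b/2)`. The polynomial part gives the moments `wk k` (`wk 0 = 0`). -/
def StP6a : Prop := ∀ (n : ℕ) (b : ℝ), Odd n → 0 ≤ b →
  ∑ k ∈ Finset.range (n + 1), wk k * b ^ k / (k.factorial : ℝ)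
    ≤ I0 b - Real.exp (-b / 2) / 3
      - 3 / Real.pi ^ 2 * ∫ w in (0 : ℝ)..(2 * Real.pi / 3), w * Real.exp (b * Real.cos w)

/-- P6b. Exact values: `w0 = 0`, `w1 = 1/6 - √3/π + 9/(2π²)`, `w2 = 1/12 + √3/(4π) + 9/(16π²)`,
`w3 = 1/24 - 3√3/(4π) + 27/(8π²)`, `w4 = 5/48 + 7√3/(32π) + 153/(256π²)`, `w5 = 1/96 - 49√3/(80π) + 2259/(800π²)`. -/
def StP6b : Prop := wk 0 = 0 ∧ 7128 / 100000 ≤ wk 1 ∧ 27815 / 100000 ≤ wk 2 ∧ -(2988 / 100000) ≤ wk 3 ∧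
  2853 / 10000 ≤ wk 4 ∧ -(412 / 10000) ≤ wk 5 ∧ 8069 / 100000 ≤ c3 ∧ c3 ≤ 807 / 10000

/-- P6 (uses P6a with `n = 5` and `n = 1`, P6b). `c3 b e^{-b} ≥ c3 b (1-b+b²/2-b³/6+b⁴/24-b⁵/120)`, resp. `≥ 0`. -/
def StP6 : Prop := ∀ b : ℝ, 0 ≤ b → p5 b ≤ I0 b - Lb b ∧ 712 / 10000 * b ≤ I0 b - Lb b

/-- P7 (assembly; uses P0c, P0d, P1, P5, P6). `St ρ f = ∑_j ∫∫ kap Qb(f_j(s·), f_j(t·))` (P0c); P1 and P5 (for the diagonal terms, at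
radius `s` and at radius `t`, same `b = bb ρ s t ≥ 0`) give pointwise
`∑_j Qb ≤ Sgb b - (I0 b - Lb b)/2 (∑ e_j(s)² + ∑ e_j(t)²) + I0 b ∑ e_j(s) e_j(t)`. Integrate (`0 ≤ I0 - Lb ≤ 2 I0`, `|Qb| ≤ I0`). -/
def StP7 : Prop := ∀ (ρ : ℝ) (f : (Fin 2 → ℝ) → Fin 3 → ℝ), 0 ≤ ρ → ρ < 1 → Pt f →
  St ρ f ≤ Ss ρ + ∑ j, (Sr ρ (fun s => al f j s - 1 / 3) - ∫ s, Wr ρ s * (al f j s - 1 / 3) ^ 2 ∂rm)

/-- P8a (uses P6, P0d for integrability). With `q = 1-ρ²`, `R = ρ s/√q`, `t = √q r`: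
`∫ kap ρ s t (bb ρ s t)^k drm(t) = e^{-R²/2} R^k ∫_0^∞ r^{k+1} e^{-r²/2} dr`, moments `√(π/2), 2, 3√(π/2), 8, 15√(π/2), 48` for
`k = 1..6`, and `√(π/2) ≥ 1.2533`. -/
def StP8a : Prop := ∀ ρ s : ℝ, 0 < ρ → ρ < 1 → 0 < s →
  Real.exp (-(ρ * s / Real.sqrt (1 - ρ ^ 2)) ^ 2 / 2) * P5 (ρ * s / Real.sqrt (1 - ρ ^ 2)) ≤ Wr ρ s ∧
  Real.exp (-(ρ * s / Real.sqrt (1 - ρ ^ 2)) ^ 2 / 2) * (892 / 10000 * (ρ * s / Real.sqrt (1 - ρ ^ 2))) ≤ Wr ρ s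

/-- P8e (polynomials). `R e1 R = 5.27 - 3.2 R + 0.2 R⁵ > 0`; on `(0, 2.4]` `e1 R * P5 R ≥ 1` (minimum `1.0029` at `0`), for `R ≥ 2.4`
`e1 R * 0.0892 R ≥ 1`. -/
def StP8e : Prop := ∀ R : ℝ, 0 < R → 0 < e1 R ∧ (1 ≤ e1 R * P5 R ∨ 1 ≤ e1 R * (892 / 10000 * R))

/-- P8d (scaling; polynomial inequality). `E(R) = e^{R²/2} e1(R)`, `θ ∈ (0,1]`:
`9 θ² E(θR) ≤ (8+θ²) E(R)`. Use `e^{-(1-θ²)R²/2} ≤ 1/(1+(1-θ²)R²/2)`; the polynomial difference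
`(8+θ²)(1+(1-θ²)R²/2)(5.27 - 3.2R + 0.2R⁵) - 9θ(5.27 - 3.2θR + 0.2θ⁵R⁵)` is `(1-θ)` times a positive polynomial. -/
def StP8d : Prop := ∀ θ R : ℝ, 0 < θ → θ ≤ 1 → 0 < R → 9 * θ ^ 2 * EE (θ * R) ≤ (8 + θ ^ 2) * EE R

/-- P8b1 (series). For `ρ = 1/3`: `kap I0 = ∑_k γ_k φ_k(s) φ_k(t)`, `γ_k = (9/8)(9/64)^k/k!²`, `φ_k(s) = (s²/2)^k e^{-s²/16}`
(`I0 b = ∑ (b/2)^{2k}/k!²`, `bb = (3/8) s t`). With `∫ e = 0` and Cauchy-Schwarz for the weight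
`w(s) = EE(s/√8)`: `(∫ φ_k e)² = (∫ (φ_k-c_k) e)² ≤ ∫ (φ_k-c_k)² w · ∫ e²/w`, `c_0 = 19/20`, `c_1 = 19/50`, `c_k = 0` otherwise.
The hypothesis `hT` is P8b2. -/
def StP8b1 : Prop := (∑' k : ℕ, (9 / 8) * (9 / 64 : ℝ) ^ k / ((k.factorial : ℝ) ^ 2) *
    ∫ s, ((s ^ 2 / 2) ^ k * Real.exp (-(s ^ 2) / 16) - (if k = 0 then 19 / 20 else if k = 1 then 19 / 50 else 0)) ^ 2
      * EE (s / Real.sqrt 8) ∂rm ≤ 1) →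
  (Summable fun k : ℕ => (9 / 8) * (9 / 64 : ℝ) ^ k / ((k.factorial : ℝ) ^ 2) *
    ∫ s, ((s ^ 2 / 2) ^ k * Real.exp (-(s ^ 2) / 16) - (if k = 0 then 19 / 20 else if k = 1 then 19 / 50 else 0)) ^ 2
      * EE (s / Real.sqrt 8) ∂rm) →
  ∀ e : ℝ → ℝ, Measurable e → (∃ B, ∀ s, |e s| ≤ B) → ∫ s, e s ∂rm = 0 →
    Sr (1 / 3) e ≤ ∫ s, e s ^ 2 / EE (s / Real.sqrt 8) ∂rm

/-- P8b2 (numbers). `∫ (s²/2)^p e^{-c s²/2} drm = Γ(p+1)/(1+c)^{p+1}`; `EE(s/√8) = e^{s²/16} (10.54 τ^{-1/2} - 3.2 + τ²/80)`,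
`τ = s²/2`. `∫ φ_k² w = 10.54 Γ(2k+1/2) (8/9)^{2k+1/2} - 3.2 (2k)! (8/9)^{2k+1} + (2k+2)! (8/9)^{2k+3}/80`,
`∫ φ_k w = 10.54 Γ(k+1/2) - 3.2 k! + (k+2)!/80`, `∫ w = 10.54 √π √(8/7) - 3.2 (8/7) + (8/7)³/40`. The sum is `0.95008`
(total of the `φ_k²` terms `17.8673`; `Γ(2k+1/2) = √π (4k)!/(16^k (2k)!)`, the terms
`(4k)!/(144^k (2k)! k!²)` = `1, .08333, .02026, .00619, .0021, .00075, ..` have ratios `≤ 4/9`). -/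
def StP8b2 : Prop := (Summable fun k : ℕ => (9 / 8) * (9 / 64 : ℝ) ^ k / ((k.factorial : ℝ) ^ 2) *
    ∫ s, ((s ^ 2 / 2) ^ k * Real.exp (-(s ^ 2) / 16) - (if k = 0 then 19 / 20 else if k = 1 then 19 / 50 else 0)) ^ 2
      * EE (s / Real.sqrt 8) ∂rm) ∧
  (∑' k : ℕ, (9 / 8) * (9 / 64 : ℝ) ^ k / ((k.factorial : ℝ) ^ 2) *
    ∫ s, ((s ^ 2 / 2) ^ k * Real.exp (-(s ^ 2) / 16) - (if k = 0 then 19 / 20 else if k = 1 then 19 / 50 else 0)) ^ 2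
      * EE (s / Real.sqrt 8) ∂rm) ≤ 1

/-- P8c1 (spectral gap). `g = OU √ρ₁ h`: `sg ρ h h = sg θ g g`, `θ = ρ/ρ₁`, `∫ g² = sg ρ₁ h h`, `∫ g = 0`, `mo g = 0` (`sg_OU`, `mo_OU`).
Cauchy-Schwarz: `(sg θ g g)² ≤ sg θ² g g · ∫ g²`; iterate: `sg θ g g ≤ (sg θ^{2^n} g g)^{2^{-n}} (∫g²)^{1-2^{-n}}` and
`sg_level2`: `sg r g g ≤ 8 r² ∫ g²` for `r ≤ 1/4`. Let `n → ∞`: `sg θ g g ≤ θ² ∫ g²`. -/
def StP8c1 : Prop := ∀ (κ : Type) [Fintype κ] (h : (κ → ℝ) → ℝ) (ρ ρ₁ : ℝ), Bm h → ∫ x, h x ∂(gam κ) = 0 →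
  (∀ i, mo h i = 0) → 0 ≤ ρ → ρ ≤ ρ₁ → 0 < ρ₁ → ρ₁ ≤ 1 → sg ρ h h ≤ (ρ / ρ₁) ^ 2 * sg ρ₁ h h

/-- P8c (uses P0a, P0c, P8c1). `h x = e (√(x₀²+x₁²))`: `sg ρ h h = Sr ρ e` (P0c: `Qb b 1 1 = I0 b` by periodicity), `∫ h = ∫ e = 0`,
`mo h i = 0` by symmetry (polar coordinates). -/
def StP8c : Prop := ∀ (e : ℝ → ℝ) (ρ : ℝ), Measurable e → (∃ B, ∀ s, |e s| ≤ B) → ∫ s, e s ∂rm = 0 →
  0 < ρ → ρ ≤ 1 / 3 → Sr ρ e ≤ 9 * ρ ^ 2 * Sr (1 / 3) e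

/-- P8 (radial inequality; uses P8a, P8b1, P8b2, P8c, P8d, P8e). `1 ≤ EE R · Wr ρ s` with `R = ρ s/√(1-ρ²)` (P8a, P8e), and P8d with
`θ = √8 ρ/√(1-ρ²)` at `s/√8`: `9ρ² EE(R) ≤ EE(s/√8)` (`9ρ² = 9θ²/(8+θ²)`). So
`Sr ρ e ≤ 9ρ² Sr (1/3) e ≤ 9ρ² ∫ e²/EE(s/√8) ≤ ∫ Wr e²`. -/
def StP8 : Prop := ∀ (e : ℝ → ℝ) (ρ : ℝ), Measurable e → (∃ B, ∀ s, |e s| ≤ B) → ∫ s, e s ∂rm = 0 →
  0 < ρ → ρ ≤ 1 / 3 → Sr ρ e ≤ ∫ s, Wr ρ s * e s ^ 2 ∂rm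

/-- P9 (uses P0c). `A y = (√(2/3) ⟨y, n_k⟩)_k`, `n_k = (cos 2πk/3, sin 2πk/3)`, is an isometry of the plane onto `1^⊥`; `Fin 3`
gaussian = `A y + z (1,1,1)/√3` (`Law_mp`), `cellF j` is invariant under adding constants and positive scaling, so
`sg ρ (cellF j) (cellF j)` on `Fin 3` is `sg ρ g_j g_j` on `Fin 2` with `g_j y = cellF j (A y)`, and `g_j (pt2 s θ) = sec j θ`
for `s > 0`. -/
def StP9 : Prop := ∀ ρ : ℝ, 0 ≤ ρ → ρ < 1 → Lam 3 ρ = Ss ρ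

/-- final Gaussian statement (uses D10, P7, P8, P9, P0a). `ρ = 0`: `sg_zero` on both sides. `ρ > 0`: D10 with `m = 3`, then P7, P8
(`∫ al f j drm = ∫ f_j = 1/3` by P0a), P9. -/
def StG : Prop := ∀ (ρ : ℝ), 0 ≤ ρ → ρ ≤ 1 / 3 → ∀ (κ : Type) [Fintype κ] (f : (κ → ℝ) → Fin 3 → ℝ), Pt f → Bal f →
  ∑ j, sg ρ (fun x => f x j) (fun x => f x j) ≤ Lam 3 ρ

end Pool.TC
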