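import Mathlib
import Pool.Agent.TC.St
import Pool.Agent.Helper65.PT.Law
import Pool.Agent.Helper65.PT.Oub

/-! Module D6z of project TC: the two ends of the interpolation. -/

set_option autoImplicit false

open MeasureTheory ProbabilityTheory Pool.H65.PS Pool.H65.PT

namespace Pool.TC

theorem pD6z (hD6x : StD6x) : StD6z := by
  intro κ _ m ρ F h0 h1 hF
  have fnn : ∀ x j, 0 ≤ F x j := fun x j => (hF.simp x).1 j
  have fsum : ∀ x, ∑ j, F x j = 1 := fun x => (hF.simp x).2
  have fle : ∀ x j, F x j ≤ 1 := by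
    intro x j
    rw [← fsum x]
    exact Finset.single_le_sum (fun i _ => fnn x i) (Finset.mem_univ j)
  have fab : ∀ x j, |F x j| ≤ 1 := fun x j => by rw [abs_of_nonneg (fnn x j)]; exact fle x j
  have elm : Measurable (fun p : (κ → ℝ) × (Unit → ℝ) => (Sum.elim p.1 p.2 : κ ⊕ Unit → ℝ)) :=
    (Law_sum_symm κ Unit).measurable
  have fm : ∀ j, Measurable (fun p : (κ → ℝ) × (Unit → ℝ) => F (Sum.elim p.1 p.2) j) := fun j =>
    (hF.meas j).comp elm
  have fi : ∀ j y, Integrable (fun u : Unit → ℝ => F (Sum.elim y u) j) (gam Unit) := fun j y =>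
    oub_int ((fm j).comp measurable_prodMk_left) ⟨1, fun u => fab _ j⟩
  have mm : ∀ j, Measurable (fun y : κ → ℝ => marg F y j) := fun j =>
    ((fm j).stronglyMeasurable.integral_prod_right' (ν := gam Unit)).measurable
  have mnn : ∀ y j, 0 ≤ marg F y j := fun y j => integral_nonneg fun u => fnn _ j
  have msum : ∀ y : κ → ℝ, ∑ j, marg F y j = 1 := by
    intro y
    unfold marg
    rw [← integral_finsetSum _ (fun j _ => fi j y)]
    simp only [fsum]
    simp
  have mle : ∀ y j, marg F y j ≤ 1 := by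
    intro y j
    rw [← msum y]
    exact Finset.single_le_sum (fun i _ => mnn y i) (Finset.mem_univ j)
  have mB : ∀ j, Bm (fun y : κ → ℝ => marg F y j) := fun j =>
    ⟨mm j, 1, fun y => by rw [abs_of_nonneg (mnn y j)]; exact mle y j⟩
  obtain ⟨d1, d2, d3⟩ := hD6x κ m ρ F h0 h1 hF
  refine ⟨?_, ?_, ⟨mm, fun y => ⟨mnn y, msum y⟩⟩, ?_⟩
  · unfold sr St sg
    refine Finset.sum_congr rfl fun j _ => ?_
    refine integral_congr_ae (Filter.Eventually.of_forall fun p => ?_)
    have e : (Sum.elim (fun i => ρ * p.1 (Sum.inl i) + Real.sqrt (1 - ρ ^ 2) * p.2 (Sum.inl i))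
      (fun _ => ρ * p.1 (Sum.inr ()) + Real.sqrt (1 - ρ ^ 2) * p.2 (Sum.inr ())) : κ ⊕ Unit → ℝ) =
      ρ • p.1 + Real.sqrt (1 - ρ ^ 2) • p.2 := by
      funext x
      rcases x with x | x <;> simp
    simp only [e]
  · rw [d3 0 le_rfl zero_le_one, St]
    refine Finset.sum_congr rfl fun j _ => ?_
    rw [oub_sqrt (mB j) ρ h0 h1]
    refine integral_congr_ae (Filter.Eventually.of_forall fun y => ?_)
    have hfB : Bm (fib ρ F j y) := ⟨(d1 j).comp measurable_prodMk_left, 1, fun u => by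
      rw [abs_of_nonneg (d2 j y u).1]; exact (d2 j y u).2⟩
    have e : ∫ u, fib ρ F j y u ∂(gam Unit) = OU (Real.sqrt ρ) (fun z : κ → ℝ => marg F z j) y := by
      unfold fib OU marg
      rw [integral_integral_swap]
      have hm : Measurable (fun p : (Unit → ℝ) × (κ → ℝ) =>
          F (Sum.elim (Real.sqrt ρ • y + Real.sqrt (1 - Real.sqrt ρ ^ 2) • p.2) p.1) j) := by
        have h2 : Measurable (fun p : (Unit → ℝ) × (κ → ℝ) =>
            (Real.sqrt ρ • y + Real.sqrt (1 - Real.sqrt ρ ^ 2) • p.2, p.1)) :=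
          ((oub_am (Real.sqrt ρ • y) (Real.sqrt (1 - Real.sqrt ρ ^ 2))).comp
            measurable_snd).prodMk measurable_fst
        exact (fm j).comp h2
      exact oub_int hm ⟨1, fun p => fab _ j⟩
    simp only
    rw [sg_zero hfB hfB, e, sq]
  · intro hB j
    have hi : Integrable (fun p : (κ → ℝ) × (Unit → ℝ) => F (Sum.elim p.1 p.2) j)
        ((gam κ).prod (gam Unit)) := oub_int (fm j) ⟨1, fun p => fab _ j⟩
    have e1 : ∫ y, marg F y j ∂(gam κ) = ∫ x, F x j ∂(gam (κ ⊕ Unit)) := by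
      rw [← Law_integral_comp (Law_sum_symm κ Unit) (hF.meas j), integral_prod _ hi]
      rfl
    rw [e1]
    exact hB j

end Pool.TC
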