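import Pool.Agent.TC.St
import Pool.Agent.Helper65.PT.Law

/-! Module D7a of project TC (MP_c6cf29_pr): averaging the noise stability over shifts of the last coordinate. -/

set_option autoImplicit false

open MeasureTheory ProbabilityTheory Pool.H65.PS Pool.H65.PT

namespace Pool.TC

section

variable {κ : Type} [Fintype κ] {m : ℕ}

/-- `(ξ, p)` as one gaussian vector -/
private lemma D7a_T1 : MeasurePreserving
    (fun q : ℝ × ((κ ⊕ Unit → ℝ) × (κ ⊕ Unit → ℝ)) =>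
      (Sum.elim (fun _ : Unit => q.1) (Sum.elim q.2.1 q.2.2) :
        Unit ⊕ ((κ ⊕ Unit) ⊕ (κ ⊕ Unit)) → ℝ))
    ((gaussianReal 0 1).prod ((gam (κ ⊕ Unit)).prod (gam (κ ⊕ Unit))))
    (gam (Unit ⊕ ((κ ⊕ Unit) ⊕ (κ ⊕ Unit)))) := by
  have h2 : MeasurePreserving (fun x : ℝ => fun _ : Unit => x) (gaussianReal 0 1) (gam Unit) :=
    (measurePreserving_funUnique (gaussianReal 0 1) Unit).symm
  exact (Law_sum_symm Unit ((κ ⊕ Unit) ⊕ (κ ⊕ Unit))).comp
    (h2.prod (Law_sum_symm (κ ⊕ Unit) (κ ⊕ Unit)))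

open Classical in
/-- coefficients on the left -/
private noncomputable def D7a_W (ρ σ a t : ℝ) :
    Unit ⊕ ((κ ⊕ Unit) ⊕ (κ ⊕ Unit)) → (κ ⊕ Unit) ⊕ (κ ⊕ Unit) → ℝ
  | Sum.inl _, Sum.inl (Sum.inl _) => 0
  | Sum.inl _, Sum.inl (Sum.inr _) => t
  | Sum.inl _, Sum.inr (Sum.inl _) => 0
  | Sum.inl _, Sum.inr (Sum.inr _) => t
  | Sum.inr (Sum.inl (Sum.inl b)), Sum.inl (Sum.inl c) => if c = b then 1 else 0
  | Sum.inr (Sum.inl (Sum.inl _)), Sum.inl (Sum.inr _) => 0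
  | Sum.inr (Sum.inl (Sum.inl b)), Sum.inr (Sum.inl c) => if c = b then ρ else 0
  | Sum.inr (Sum.inl (Sum.inl _)), Sum.inr (Sum.inr _) => 0
  | Sum.inr (Sum.inl (Sum.inr _)), Sum.inl (Sum.inl _) => 0
  | Sum.inr (Sum.inl (Sum.inr _)), Sum.inl (Sum.inr _) => a
  | Sum.inr (Sum.inl (Sum.inr _)), Sum.inr (Sum.inl _) => 0
  | Sum.inr (Sum.inl (Sum.inr _)), Sum.inr (Sum.inr _) => a * ρ
  | Sum.inr (Sum.inr (Sum.inl _)), Sum.inl _ => 0
  | Sum.inr (Sum.inr (Sum.inl b)), Sum.inr (Sum.inl c) => if c = b then σ else 0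
  | Sum.inr (Sum.inr (Sum.inl _)), Sum.inr (Sum.inr _) => 0
  | Sum.inr (Sum.inr (Sum.inr _)), Sum.inl _ => 0
  | Sum.inr (Sum.inr (Sum.inr _)), Sum.inr (Sum.inl _) => 0
  | Sum.inr (Sum.inr (Sum.inr _)), Sum.inr (Sum.inr _) => a * σ

open Classical in
/-- coefficients on the right -/
private noncomputable def D7a_V (ρ σ r τ : ℝ) :
    (κ ⊕ Unit) ⊕ (κ ⊕ Unit) → (κ ⊕ Unit) ⊕ (κ ⊕ Unit) → ℝ
  | Sum.inl (Sum.inl b), Sum.inl (Sum.inl c) => if c = b then 1 else 0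
  | Sum.inl (Sum.inl _), Sum.inl (Sum.inr _) => 0
  | Sum.inl (Sum.inl b), Sum.inr (Sum.inl c) => if c = b then ρ else 0
  | Sum.inl (Sum.inl _), Sum.inr (Sum.inr _) => 0
  | Sum.inl (Sum.inr _), Sum.inl (Sum.inl _) => 0
  | Sum.inl (Sum.inr _), Sum.inl (Sum.inr _) => 1
  | Sum.inl (Sum.inr _), Sum.inr (Sum.inl _) => 0
  | Sum.inl (Sum.inr _), Sum.inr (Sum.inr _) => r
  | Sum.inr (Sum.inl _), Sum.inl _ => 0
  | Sum.inr (Sum.inl b), Sum.inr (Sum.inl c) => if c = b then σ else 0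
  | Sum.inr (Sum.inl _), Sum.inr (Sum.inr _) => 0
  | Sum.inr (Sum.inr _), Sum.inl _ => 0
  | Sum.inr (Sum.inr _), Sum.inr (Sum.inl _) => 0
  | Sum.inr (Sum.inr _), Sum.inr (Sum.inr _) => τ

/-- equal covariances -/
private lemma D7a_cov (ρ σ a t r τ : ℝ) (hσ : σ ^ 2 = 1 - ρ ^ 2) (ha : a ^ 2 = 1 - t ^ 2)
    (hτ : τ ^ 2 = 1 - r ^ 2) (hr : r = ρ + t ^ 2 * (1 - ρ)) (j k : (κ ⊕ Unit) ⊕ (κ ⊕ Unit)) :
    ∑ i, D7a_W (κ := κ) ρ σ a t i j * D7a_W (κ := κ) ρ σ a t i k =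
      ∑ i, D7a_V (κ := κ) ρ σ r τ i j * D7a_V (κ := κ) ρ σ r τ i k := by
  have h1 : t * t + a * a = 1 := by linarith [ha, sq t, sq a]
  have h2 : t * t + a * (a * ρ) = r := by
    rw [hr]
    have : a * (a * ρ) = a ^ 2 * ρ := by ring
    rw [this, ha]
    ring
  have h3 : t * t + a * ρ * (a * ρ) + a * σ * (a * σ) = r * r + τ * τ := by
    have e1 : a * ρ * (a * ρ) = a ^ 2 * ρ ^ 2 := by ring
    have e2 : a * σ * (a * σ) = a ^ 2 * σ ^ 2 := by ring
    have e3 : τ * τ = τ ^ 2 := by ring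
    rw [e1, e2, e3, hσ, ha, hτ]
    ring
  rcases j with (j | j) | (j | j) <;> rcases k with (k | k) | (k | k) <;>
    simp only [Fintype.sum_sum_type, D7a_W, D7a_V, Finset.univ_unique, Finset.sum_singleton,
      mul_zero, zero_mul, Finset.sum_const_zero, add_zero, zero_add, mul_one, one_mul] <;>
    nlinarith [h1, h2, h3]

private lemma D7a_L1 (ρ σ a t ξ : ℝ) (x y : κ ⊕ Unit → ℝ) :
    (fun i => lin (D7a_W (κ := κ) ρ σ a t) (Sum.elim (fun _ : Unit => ξ) (Sum.elim x y)) (Sum.inl i))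
      = Sum.elim (fun i => x (Sum.inl i)) (fun _ => a * x (Sum.inr ()) + t * ξ) := by
  classical
  funext i
  rw [Law_lin_apply]
  rcases i with i | i
  · simp only [Fintype.sum_sum_type, D7a_W, Sum.elim_inl, Sum.elim_inr, Finset.univ_unique,
      Finset.sum_singleton, mul_zero, Finset.sum_const_zero, add_zero, zero_add, mul_ite, mul_one,
      Finset.sum_ite_eq, Finset.mem_univ, if_true]
  · simp only [Fintype.sum_sum_type, D7a_W, Sum.elim_inl, Sum.elim_inr, Finset.univ_unique,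
      Finset.sum_singleton, mul_zero, Finset.sum_const_zero, add_zero, zero_add]
    ring

private lemma D7a_L2 (ρ σ a t ξ : ℝ) (x y : κ ⊕ Unit → ℝ) :
    (fun i => lin (D7a_W (κ := κ) ρ σ a t) (Sum.elim (fun _ : Unit => ξ) (Sum.elim x y)) (Sum.inr i))
      = Sum.elim (fun i => (ρ • x + σ • y) (Sum.inl i))
        (fun _ => a * (ρ • x + σ • y) (Sum.inr ()) + t * ξ) := by
  classical
  funext i
  rw [Law_lin_apply]
  rcases i with i | i
  · simp only [Fintype.sum_sum_type, D7a_W, Sum.elim_inl, Sum.elim_inr, Finset.univ_unique,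
      Finset.sum_singleton, mul_zero, Finset.sum_const_zero, add_zero, zero_add, mul_ite, mul_one,
      Finset.sum_ite_eq, Finset.mem_univ, if_true, Pi.add_apply, Pi.smul_apply, smul_eq_mul]
    ring
  · simp only [Fintype.sum_sum_type, D7a_W, Sum.elim_inl, Sum.elim_inr, Finset.univ_unique,
      Finset.sum_singleton, mul_zero, Finset.sum_const_zero, add_zero, zero_add, Pi.add_apply,
      Pi.smul_apply, smul_eq_mul]
    ring

private lemma D7a_R1 (ρ σ r τ : ℝ) (x y : κ ⊕ Unit → ℝ) :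
    (fun i => lin (D7a_V (κ := κ) ρ σ r τ) (Sum.elim x y) (Sum.inl i)) = x := by
  classical
  funext i
  rw [Law_lin_apply]
  rcases i with i | i
  · simp only [Fintype.sum_sum_type, D7a_V, Sum.elim_inl, Sum.elim_inr, Finset.univ_unique,
      Finset.sum_singleton, mul_zero, Finset.sum_const_zero, add_zero, zero_add, mul_ite, mul_one,
      Finset.sum_ite_eq, Finset.mem_univ, if_true]
  · simp only [Fintype.sum_sum_type, D7a_V, Sum.elim_inl, Sum.elim_inr, Finset.univ_unique,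
      Finset.sum_singleton, mul_zero, Finset.sum_const_zero, add_zero, zero_add, mul_one]

private lemma D7a_R2 (ρ σ r τ : ℝ) (x y : κ ⊕ Unit → ℝ) :
    (fun i => lin (D7a_V (κ := κ) ρ σ r τ) (Sum.elim x y) (Sum.inr i)) =
      Sum.elim (fun i => ρ * x (Sum.inl i) + σ * y (Sum.inl i))
        (fun _ => r * x (Sum.inr ()) + τ * y (Sum.inr ())) := by
  classical
  funext i
  rw [Law_lin_apply]
  rcases i with i | i
  · simp only [Fintype.sum_sum_type, D7a_V, Sum.elim_inl, Sum.elim_inr, Finset.univ_unique,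
      Finset.sum_singleton, mul_zero, Finset.sum_const_zero, add_zero, zero_add, mul_ite, mul_one,
      Finset.sum_ite_eq, Finset.mem_univ, if_true]
    ring
  · simp only [Fintype.sum_sum_type, D7a_V, Sum.elim_inl, Sum.elim_inr, Finset.univ_unique,
      Finset.sum_singleton, mul_zero, Finset.sum_const_zero, add_zero, zero_add, mul_one]
    ring

private lemma D7a_abs {F : (κ → ℝ) → Fin m → ℝ} (hF : Pt F) (x : κ → ℝ) (j : Fin m) :
    |F x j| ≤ 1 := by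
  have h1 : F x j ≤ 1 := by
    rw [← (hF.simp x).2]
    exact Finset.single_le_sum (fun k _ => (hF.simp x).1 k) (Finset.mem_univ j)
  rw [abs_of_nonneg ((hF.simp x).1 j)]
  exact h1

private lemma D7a_int {α : Type} [MeasurableSpace α] (μ : Measure α) [IsProbabilityMeasure μ]
    {f : α → ℝ} (hm : Measurable f) {B : ℝ} (hB : ∀ x, |f x| ≤ B) : Integrable f μ :=
  Integrable.of_bound hm.aestronglyMeasurable B
    (Filter.Eventually.of_forall fun x => by rw [Real.norm_eq_abs]; exact hB x)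

end

theorem pD7a : StD7a := by
  intro κ _ m ρ t F hF h0 h1 ht0 ht1
  set σ : ℝ := Real.sqrt (1 - ρ ^ 2) with hσd
  set a : ℝ := Real.sqrt (1 - t ^ 2) with had
  set r : ℝ := ρ + t ^ 2 * (1 - ρ) with hrd
  set τ : ℝ := Real.sqrt (1 - r ^ 2) with hτd
  have ht2 : t ^ 2 ≤ 1 := pow_le_one₀ ht0 ht1
  have hr0 : 0 ≤ r := by
    rw [hrd]
    have := mul_nonneg (sq_nonneg t) (sub_nonneg.2 h1)
    linarith
  have hr1 : r ≤ 1 := by
    rw [hrd]
    nlinarith [mul_nonneg (sub_nonneg.2 ht2) (sub_nonneg.2 h1)]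
  have hσ : σ ^ 2 = 1 - ρ ^ 2 := Real.sq_sqrt (by
    have := pow_le_one₀ h0 h1 (n := 2)
    linarith)
  have ha : a ^ 2 = 1 - t ^ 2 := Real.sq_sqrt (by linarith)
  have hτ : τ ^ 2 = 1 - r ^ 2 := Real.sq_sqrt (by
    have := pow_le_one₀ hr0 hr1 (n := 2)
    linarith)
  set Ψ : ((κ ⊕ Unit) ⊕ (κ ⊕ Unit) → ℝ) → ℝ :=
    fun E => ∑ j, F (fun i => E (Sum.inl i)) j * F (fun i => E (Sum.inr i)) j with hΨ
  have hΨm : Measurable Ψ := by
    refine Finset.measurable_fun_sum _ fun j _ => ?_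
    exact ((hF.meas j).comp (by fun_prop)).mul ((hF.meas j).comp (by fun_prop))
  have hΨb : ∀ E, |Ψ E| ≤ m := by
    intro E
    refine (Finset.abs_sum_le_sum_abs _ _).trans ?_
    have h2 : ∀ j ∈ (Finset.univ : Finset (Fin m)),
        |F (fun i => E (Sum.inl i)) j * F (fun i => E (Sum.inr i)) j| ≤ 1 := by
      intro j _
      rw [abs_mul]
      exact mul_le_one₀ (D7a_abs hF _ j) (abs_nonneg _) (D7a_abs hF _ j)
    refine (Finset.sum_le_sum h2).trans ?_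
    simp
  have hmap := map_lin_eq (D7a_W (κ := κ) ρ σ a t) (D7a_V (κ := κ) ρ σ r τ)
    (D7a_cov ρ σ a t r τ hσ ha hτ hrd)
  have hLW : Measurable (lin (D7a_W (κ := κ) ρ σ a t)) := (Exl_continuous_lin _).measurable
  have hLV : Measurable (lin (D7a_V (κ := κ) ρ σ r τ)) := (Exl_continuous_lin _).measurable
  -- the common value
  have hmid : ∫ g, Ψ (lin (D7a_W (κ := κ) ρ σ a t) g) ∂(gam (Unit ⊕ ((κ ⊕ Unit) ⊕ (κ ⊕ Unit)))) =
      ∫ g, Ψ (lin (D7a_V (κ := κ) ρ σ r τ) g) ∂(gam ((κ ⊕ Unit) ⊕ (κ ⊕ Unit))) := by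
    rw [← integral_map hLW.aemeasurable hΨm.aestronglyMeasurable, hmap,
      integral_map hLV.aemeasurable hΨm.aestronglyMeasurable]
  -- the right side
  have hR : sr ρ r F = ∫ g, Ψ (lin (D7a_V (κ := κ) ρ σ r τ) g) ∂(gam ((κ ⊕ Unit) ⊕ (κ ⊕ Unit))) := by
    rw [← Law_integral_comp (Law_sum_symm (κ ⊕ Unit) (κ ⊕ Unit))
      (F := fun g => Ψ (lin (D7a_V (κ := κ) ρ σ r τ) g)) (hΨm.comp hLV)]
    have h3 : ∀ p : (κ ⊕ Unit → ℝ) × (κ ⊕ Unit → ℝ),
        Ψ (lin (D7a_V (κ := κ) ρ σ r τ) (Sum.elim p.1 p.2)) = ∑ j, F p.1 j * F (Sum.elim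
          (fun i => ρ * p.1 (Sum.inl i) + σ * p.2 (Sum.inl i))
          (fun _ => r * p.1 (Sum.inr ()) + τ * p.2 (Sum.inr ()))) j := by
      intro p
      show ∑ j, F (fun i => lin (D7a_V (κ := κ) ρ σ r τ) (Sum.elim p.1 p.2) (Sum.inl i)) j *
        F (fun i => lin (D7a_V (κ := κ) ρ σ r τ) (Sum.elim p.1 p.2) (Sum.inr i)) j = _
      rw [D7a_R1, D7a_R2]
    simp only [h3]
    rw [integral_finset_sum]
    · rfl
    · intro j _
      refine D7a_int _ (B := 1) ?_ fun p => ?_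
      · refine ((hF.meas j).comp measurable_fst).mul ((hF.meas j).comp ?_)
        refine measurable_pi_iff.2 fun i => ?_
        have hx : ∀ i, Measurable (fun p : (κ ⊕ Unit → ℝ) × (κ ⊕ Unit → ℝ) => p.1 i) :=
          fun i => (measurable_pi_apply i).comp measurable_fst
        have hy : ∀ i, Measurable (fun p : (κ ⊕ Unit → ℝ) × (κ ⊕ Unit → ℝ) => p.2 i) :=
          fun i => (measurable_pi_apply i).comp measurable_snd
        rcases i with i | i
        · exact ((hx (Sum.inl i)).const_mul ρ).add ((hy (Sum.inl i)).const_mul σ)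
        · exact ((hx (Sum.inr ())).const_mul r).add ((hy (Sum.inr ())).const_mul τ)
      · rw [abs_mul]
        exact mul_le_one₀ (D7a_abs hF _ j) (abs_nonneg _) (D7a_abs hF _ j)
  -- the left side
  have hT := D7a_T1 (κ := κ)
  have hPm : Measurable (fun q : ℝ × ((κ ⊕ Unit → ℝ) × (κ ⊕ Unit → ℝ)) =>
      Ψ (lin (D7a_W (κ := κ) ρ σ a t) (Sum.elim (fun _ : Unit => q.1) (Sum.elim q.2.1 q.2.2)))) :=
    (hΨm.comp hLW).comp hT.measurable
  have hPt : ∀ (ξ : ℝ) (p : (κ ⊕ Unit → ℝ) × (κ ⊕ Unit → ℝ)),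
      Ψ (lin (D7a_W (κ := κ) ρ σ a t) (Sum.elim (fun _ : Unit => ξ) (Sum.elim p.1 p.2))) =
        ∑ j, shf a (t * ξ) F p.1 j * shf a (t * ξ) F (ρ • p.1 + σ • p.2) j := by
    intro ξ p
    show ∑ j, F (fun i => lin (D7a_W (κ := κ) ρ σ a t)
        (Sum.elim (fun _ : Unit => ξ) (Sum.elim p.1 p.2)) (Sum.inl i)) j *
      F (fun i => lin (D7a_W (κ := κ) ρ σ a t)
        (Sum.elim (fun _ : Unit => ξ) (Sum.elim p.1 p.2)) (Sum.inr i)) j = _
    rw [D7a_L1, D7a_L2]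
    rfl
  have hshm : ∀ (ξ : ℝ) (j : Fin m), Measurable (fun x => shf a (t * ξ) F x j) := by
    intro ξ j
    refine (hF.meas j).comp (measurable_pi_iff.2 fun i => ?_)
    have hx : ∀ i, Measurable (fun x : κ ⊕ Unit → ℝ => x i) := fun i => measurable_pi_apply i
    rcases i with i | i
    · exact hx (Sum.inl i)
    · exact ((hx (Sum.inr ())).const_mul a).add_const _
  have hL : ∀ ξ : ℝ, St ρ (shf a (t * ξ) F) = ∫ p : (κ ⊕ Unit → ℝ) × (κ ⊕ Unit → ℝ),
      Ψ (lin (D7a_W (κ := κ) ρ σ a t) (Sum.elim (fun _ : Unit => ξ) (Sum.elim p.1 p.2)))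
        ∂((gam (κ ⊕ Unit)).prod (gam (κ ⊕ Unit))) := by
    intro ξ
    simp only [hPt]
    rw [integral_finset_sum]
    · rfl
    · intro j _
      refine D7a_int _ (B := 1) ?_ fun p => ?_
      · exact ((hshm ξ j).comp measurable_fst).mul ((hshm ξ j).comp (by fun_prop))
      · rw [abs_mul]
        exact mul_le_one₀ (D7a_abs hF _ j) (abs_nonneg _) (D7a_abs hF _ j)
  simp only [hL]
  rw [hR, ← hmid, ← Law_integral_comp hT (F := fun g => Ψ (lin (D7a_W (κ := κ) ρ σ a t) g))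
    (hΨm.comp hLW), integral_prod _ (D7a_int _ hPm (B := m) fun q => hΨb _)]

end Pool.TC

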