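import Pool.Agent.TC.St
import Pool.Agent.Helper65.PT.Law

/-! Project TC, module D7b: the volumes of the shifted partition, averaged. -/

set_option autoImplicit false

open MeasureTheory ProbabilityTheory Pool.H65.PS Pool.H65.PT

namespace Pool.TC

section D7b

set_option linter.unusedSectionVars false

variable {κ : Type} [Fintype κ] {m : ℕ}

open Classical in
/-- `(y, a u + t ξ)` has law `gam` -/
theorem D7b_mp (a t : ℝ) (h : a ^ 2 + t ^ 2 = 1) :
    MeasurePreserving (fun p : (κ ⊕ Unit → ℝ) × ℝ =>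
      (Sum.elim (fun i => p.1 (Sum.inl i)) (fun _ => a * p.1 (Sum.inr ()) + t * p.2) :
        κ ⊕ Unit → ℝ))
      ((gam (κ ⊕ Unit)).prod (gaussianReal 0 1)) (gam (κ ⊕ Unit)) := by
  let W : (κ ⊕ Unit) ⊕ Unit → κ ⊕ Unit → ℝ := fun i j => match i, j with
    | Sum.inl (Sum.inl b), Sum.inl c => if c = b then 1 else 0
    | Sum.inl (Sum.inl _), Sum.inr _ => 0
    | Sum.inl (Sum.inr _), Sum.inl _ => 0
    | Sum.inl (Sum.inr _), Sum.inr _ => a
    | Sum.inr _, Sum.inl _ => 0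
    | Sum.inr _, Sum.inr _ => t
  have hW : MeasurePreserving (lin W) (gam ((κ ⊕ Unit) ⊕ Unit)) (gam (κ ⊕ Unit)) := by
    apply Law_mp
    intro j k
    rw [Fintype.sum_sum_type, Fintype.sum_sum_type]
    rcases j with j | j <;> rcases k with k | k
    · simp only [W, Finset.univ_unique, Finset.sum_singleton, mul_zero, add_zero, mul_ite,
        mul_one, Finset.sum_ite_eq, Finset.mem_univ, if_true, Sum.inl.injEq]
    · simp [W]
    · simp [W]
    · simp only [W, Finset.univ_unique, Finset.sum_singleton, mul_zero, Finset.sum_const_zero,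
        zero_add]
      rw [if_pos (by simp)]
      linarith [h, sq a, sq t]
  have h1 : MeasurePreserving (fun p : (κ ⊕ Unit → ℝ) × ℝ => (p.1, fun _ : Unit => p.2))
      ((gam (κ ⊕ Unit)).prod (gaussianReal 0 1)) ((gam (κ ⊕ Unit)).prod (gam Unit)) := by
    have h2 : MeasurePreserving (fun x : ℝ => fun _ : Unit => x) (gaussianReal 0 1) (gam Unit) :=
      (measurePreserving_funUnique (gaussianReal 0 1) Unit).symm
    exact (MeasurePreserving.id _).prod h2
  have h3 := (hW.comp (Law_sum_symm (κ ⊕ Unit) Unit)).comp h1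
  have e : (lin W ∘ (fun p : (κ ⊕ Unit → ℝ) × (Unit → ℝ) =>
      (Sum.elim p.1 p.2 : (κ ⊕ Unit) ⊕ Unit → ℝ))) ∘
        (fun p : (κ ⊕ Unit → ℝ) × ℝ => (p.1, fun _ : Unit => p.2)) =
      (fun p : (κ ⊕ Unit → ℝ) × ℝ =>
      (Sum.elim (fun i => p.1 (Sum.inl i)) (fun _ => a * p.1 (Sum.inr ()) + t * p.2) :
        κ ⊕ Unit → ℝ)) := by
    funext p
    funext i
    simp only [Function.comp, Law_lin_apply]
    rw [Fintype.sum_sum_type, Fintype.sum_sum_type]
    rcases i with i | i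
    · simp [W]
    · simp only [W, Sum.elim_inl, Sum.elim_inr, Finset.univ_unique, Finset.sum_singleton,
        mul_zero, Finset.sum_const_zero, zero_add]
      ring_nf
  rw [e] at h3
  exact h3

theorem D7b_bdd {F : (κ → ℝ) → Fin m → ℝ} (hF : Pt F) (x : κ → ℝ) (j : Fin m) :
    ‖F x j‖ ≤ 1 := by
  have h0 := (hF.simp x).1
  have h1 := (hF.simp x).2
  rw [Real.norm_eq_abs, abs_of_nonneg (h0 j), ← h1]
  exact Finset.single_le_sum (f := fun k => F x k) (fun k _ => h0 k) (Finset.mem_univ j)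

end D7b

theorem pD7b : StD7b := by
  intro κ _ m t F hF ht ht1 j
  have h2 : Real.sqrt (1 - t ^ 2) ^ 2 + t ^ 2 = 1 := by
    rw [Real.sq_sqrt (by nlinarith)]
    ring
  have hmp := D7b_mp (κ := κ) (Real.sqrt (1 - t ^ 2)) t h2
  set Ψ : (κ ⊕ Unit → ℝ) × ℝ → (κ ⊕ Unit → ℝ) := fun p =>
      (Sum.elim (fun i => p.1 (Sum.inl i))
        (fun _ => Real.sqrt (1 - t ^ 2) * p.1 (Sum.inr ()) + t * p.2)) with hΨ
  have hint : Integrable (fun p => F (Ψ p) j) ((gam (κ ⊕ Unit)).prod (gaussianReal 0 1)) :=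
    Integrable.of_bound ((hF.meas j).comp hmp.measurable).aestronglyMeasurable 1
      (Filter.Eventually.of_forall fun p => D7b_bdd hF _ j)
  have h3 : ∫ ξ, ∫ x, F (Ψ (x, ξ)) j ∂(gam (κ ⊕ Unit)) ∂(gaussianReal 0 1) =
      ∫ x, F x j ∂(gam (κ ⊕ Unit)) := by
    rw [← integral_prod_symm _ hint]
    exact Law_integral_comp hmp (hF.meas j)
  have h4 : ∀ ξ : ℝ, df (shf (Real.sqrt (1 - t ^ 2)) (t * ξ) F) j =
      ∫ x, F (Ψ (x, ξ)) j ∂(gam (κ ⊕ Unit)) - 1 / (m : ℝ) := fun ξ => rfl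
  simp only [h4]
  rw [integral_sub hint.integral_prod_right (integrable_const _), h3]
  simp [df]

end Pool.TC
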