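import Pool.Agent.TC.St
import Pool.Agent.Helper65.PT.Oul

/-! Module D7c of project TC (MP_c6cf29_pr): the volume defects of the shifted function. -/

set_option autoImplicit false

open MeasureTheory ProbabilityTheory Pool.H65.PS Pool.H65.PT

namespace Pool.TC

section

variable {κ : Type} [Fintype κ] {m : ℕ}

omit [Fintype κ] in
private lemma D7c_abs {F : (κ → ℝ) → Fin m → ℝ} (hF : Pt F) (x : κ → ℝ) (j : Fin m) :
    |F x j| ≤ 1 := by
  rw [abs_of_nonneg ((hF.simp x).1 j), ← (hF.simp x).2]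
  exact Finset.single_le_sum (fun k _ => (hF.simp x).1 k) (Finset.mem_univ j)

/-- average over the first coordinates -/
private noncomputable def D7c_A (F : (κ ⊕ Unit → ℝ) → Fin m → ℝ) (j : Fin m) (u : Unit → ℝ) : ℝ :=
  ∫ y : κ → ℝ, F (Sum.elim y u) j ∂(gam κ)

private lemma D7c_A_abs {F : (κ ⊕ Unit → ℝ) → Fin m → ℝ} (hF : Pt F) (j : Fin m)
    (u : Unit → ℝ) : |D7c_A F j u| ≤ 1 := by
  have h1 := norm_integral_le_of_norm_le_const (μ := gam κ)
    (f := fun y : κ → ℝ => F (Sum.elim y u) j) (C := 1)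
    (Filter.Eventually.of_forall fun y => by rw [Real.norm_eq_abs]; exact D7c_abs hF _ j)
  rw [Real.norm_eq_abs] at h1
  simpa [D7c_A] using h1

private lemma D7c_bm {F : (κ ⊕ Unit → ℝ) → Fin m → ℝ} (hF : Pt F) (j : Fin m) :
    Bm (D7c_A F j) := by
  refine ⟨?_, 1, D7c_A_abs hF j⟩
  have h1 : StronglyMeasurable (Function.uncurry fun (u : Unit → ℝ) (y : κ → ℝ) =>
      F (Sum.elim y u) j) :=
    ((hF.meas j).comp ((Law_sum_symm κ Unit).measurable.comp measurable_swap)).stronglyMeasurable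
  exact (h1.integral_prod_right (ν := gam κ)).measurable

private lemma D7c_fub {g : (κ ⊕ Unit → ℝ) → ℝ} (hm : Measurable g)
    (hg : Integrable g (gam (κ ⊕ Unit))) :
    ∫ x, g x ∂(gam (κ ⊕ Unit)) = ∫ u, ∫ y, g (Sum.elim y u) ∂(gam κ) ∂(gam Unit) := by
  have h := Law_sum_symm κ Unit
  rw [← oub_map h hm, integral_prod_symm]
  exact (h.integrable_comp hm.aestronglyMeasurable).2 hg

private lemma D7c_mean {F : (κ ⊕ Unit → ℝ) → Fin m → ℝ} (hF : Pt F) (j : Fin m) :
    ∫ u, D7c_A F j u ∂(gam Unit) = ∫ x, F x j ∂(gam (κ ⊕ Unit)) :=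
  (D7c_fub (hF.meas j) (oub_int (hF.meas j) ⟨1, fun x => D7c_abs hF x j⟩)).symm

private lemma D7c_mo {F : (κ ⊕ Unit → ℝ) → Fin m → ℝ} (hF : Pt F) (j : Fin m) :
    mo (D7c_A F j) () = mo (fun x => F x j) (Sum.inr ()) := by
  have hm : Measurable (fun x : κ ⊕ Unit → ℝ => F x j * x (Sum.inr ())) :=
    (hF.meas j).mul (measurable_pi_apply _)
  have hi : Integrable (fun x : κ ⊕ Unit → ℝ => x (Sum.inr ())) (gam (κ ⊕ Unit)) := by
    refine integrable_gam _ 1 1 (continuous_apply _) fun g => ?_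
    have h1 := norm_le_pi_norm g (Sum.inr ())
    rw [Real.norm_eq_abs] at h1
    rw [pow_one]
    linarith
  have hg : Integrable (fun x : κ ⊕ Unit → ℝ => F x j * x (Sum.inr ())) (gam (κ ⊕ Unit)) := by
    refine hi.abs.mono hm.aestronglyMeasurable (Filter.Eventually.of_forall fun x => ?_)
    rw [Real.norm_eq_abs, Real.norm_eq_abs, abs_mul, abs_abs]
    exact mul_le_of_le_one_left (abs_nonneg _) (D7c_abs hF x j)
  unfold mo
  rw [D7c_fub hm hg]
  refine integral_congr_ae (Filter.Eventually.of_forall fun u => ?_)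
  simp only [Sum.elim_inr]
  rw [integral_mul_const]
  rfl

private lemma D7c_df {F : (κ ⊕ Unit → ℝ) → Fin m → ℝ} (hF : Pt F) (j : Fin m) (t ξ : ℝ) :
    df (shf (Real.sqrt (1 - t ^ 2)) (t * ξ) F) j
      = OU t (D7c_A F j) (fun _ => ξ) - 1 / (m : ℝ) := by
  unfold df shf OU
  have hm : Measurable (fun x : κ ⊕ Unit → ℝ => F (Sum.elim (fun i => x (Sum.inl i))
      (fun _ => Real.sqrt (1 - t ^ 2) * x (Sum.inr ()) + t * ξ)) j) := by
    refine (hF.meas j).comp (measurable_pi_lambda _ fun i => ?_)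
    rcases i with i | i
    · exact measurable_pi_apply _
    · exact ((measurable_pi_apply _).const_mul _).add_const _
  rw [D7c_fub hm (oub_int hm ⟨1, fun x => D7c_abs hF _ j⟩)]
  congr 1
  refine integral_congr_ae (Filter.Eventually.of_forall fun u => ?_)
  simp only [Sum.elim_inl, Sum.elim_inr, D7c_A]
  have h1 : (fun _ : Unit => Real.sqrt (1 - t ^ 2) * u () + t * ξ)
      = t • (fun _ : Unit => ξ) + Real.sqrt (1 - t ^ 2) • u := by
    funext i
    simp only [Pi.add_apply, Pi.smul_apply, smul_eq_mul]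
    ring
  rw [h1]

end

theorem pD7c : StD7c := by
  intro κ _ m t F hF hB ht ht1 j hmo
  have hA := D7c_bm hF j
  have hat : |t| ≤ 1 := by rw [abs_of_nonneg ht]; linarith
  set c : ℝ := 1 / (m : ℝ) with hc
  have hmean : ∫ u, D7c_A F j u ∂(gam Unit) = c := (D7c_mean hF j).trans (hB j)
  have hO := OU_bm hA t
  have hgm : Measurable (fun u : Unit → ℝ => |OU t (D7c_A F j) u - c|) :=
    (hO.meas.sub_const c).abs
  obtain ⟨B, hBd⟩ := hO.bdd
  have hgb : ∃ B', ∀ u : Unit → ℝ, |(|OU t (D7c_A F j) u - c|)| ≤ B' := by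
    refine ⟨B + |c|, fun u => ?_⟩
    rw [abs_abs]
    exact (abs_sub _ _).trans (add_le_add (hBd u) le_rfl)
  have h1 : ∫ ξ, |df (shf (Real.sqrt (1 - t ^ 2)) (t * ξ) F) j| ∂(gaussianReal 0 1)
      = ∫ u, |OU t (D7c_A F j) u - c| ∂(gam Unit) := by
    have hmp : MeasurePreserving (MeasurableEquiv.funUnique Unit ℝ) (gam Unit)
      (gaussianReal 0 1) := measurePreserving_funUnique (gaussianReal 0 1) Unit
    have hm1 : Measurable (fun ξ : ℝ => |OU t (D7c_A F j) (fun _ => ξ) - c|) :=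
      hgm.comp (measurable_pi_lambda _ fun _ => measurable_id)
    simp_rw [D7c_df hF j t]
    rw [← oub_map hmp hm1]
    rfl
  rw [h1]
  have h2 := oub_sq_le (μ := gam Unit) hgm hgb
  have h3 : ∫ u, |OU t (D7c_A F j) u - c| ^ 2 ∂(gam Unit)
      = sg (t ^ 2) (D7c_A F j) (D7c_A F j) - c ^ 2 := by
    rw [oub_sqrt hA (t ^ 2) (sq_nonneg t) (by nlinarith), Real.sqrt_sq ht]
    have hi1 : Integrable (fun u : Unit → ℝ => OU t (D7c_A F j) u ^ 2) (gam Unit) := by
      have := oub_int (μ := gam Unit) (hO.meas.mul hO.meas) (oub_mul hO.bdd hO.bdd)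
      refine this.congr (Filter.Eventually.of_forall fun x => ?_)
      simp only [Pi.mul_apply]
      ring
    have hi2 : Integrable (fun u : Unit → ℝ => OU t (D7c_A F j) u) (gam Unit) :=
      oub_int hO.meas hO.bdd
    have h4 : ∀ u : Unit → ℝ, |OU t (D7c_A F j) u - c| ^ 2
        = (OU t (D7c_A F j) u ^ 2 - 2 * c * OU t (D7c_A F j) u) + c ^ 2 := by
      intro u
      rw [sq_abs]
      ring
    simp_rw [h4]
    have hi3 : Integrable (fun u : Unit → ℝ => OU t (D7c_A F j) u ^ 2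
        - 2 * c * OU t (D7c_A F j) u) (gam Unit) := hi1.sub (hi2.const_mul _)
    rw [integral_add hi3 (integrable_const _), integral_sub hi1 (hi2.const_mul _),
      integral_const_mul, integral_OU hA t hat, hmean,
      integral_const, probReal_univ, one_smul]
    ring
  have h5 := sg_level2 hA (t ^ 2) (sq_nonneg t) (by nlinarith)
  have h6 : sg (1 / 2) (D7c_A F j) (D7c_A F j) ≤ 1 := by
    unfold sg
    have h7 := norm_integral_le_of_norm_le_const (μ := (gam Unit).prod (gam Unit))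
      (f := fun p : (Unit → ℝ) × (Unit → ℝ) => D7c_A F j p.1 *
        D7c_A F j ((1 / 2 : ℝ) • p.1 + Real.sqrt (1 - (1 / 2) ^ 2) • p.2)) (C := 1)
      (Filter.Eventually.of_forall fun p => by
        rw [Real.norm_eq_abs, abs_mul]
        exact mul_le_one₀ (D7c_A_abs hF j _) (abs_nonneg _) (D7c_A_abs hF j _))
    rw [probReal_univ, mul_one, Real.norm_eq_abs] at h7
    exact (le_abs_self _).trans h7
  have h8 : ∑ i : Unit, mo (D7c_A F j) i ^ 2 = 0 := by
    rw [Fintype.sum_unique]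
    have h9 : mo (D7c_A F j) (default : Unit) = 0 := (D7c_mo hF j).trans hmo
    rw [h9]
    ring
  rw [h8, hmean] at h5
  have h10 : (∫ u, |OU t (D7c_A F j) u - c| ∂(gam Unit)) ^ 2 ≤ (3 * t ^ 2) ^ 2 := by
    refine h2.trans ?_
    rw [h3]
    nlinarith [sq_nonneg (t ^ 2)]
  exact (le_abs_self _).trans (abs_le_of_sq_le_sq h10 (by positivity))
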