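import Pool.Agent.TC.St

set_option autoImplicit false

open MeasureTheory ProbabilityTheory Pool.H65.PS Pool.H65.PT

namespace Pool.TC

private theorem D8a_step (s : ℝ → ℝ)
    (hc : ∀ a b : ℝ, 0 ≤ a → a ≤ 1 → 0 ≤ b → b ≤ 1 → 2 * s (a * b) ≤ s (a ^ 2) + s (b ^ 2))
    (x q : ℝ) (hx : 0 < x) (hq : 1 ≤ q) (hx1 : x * q ≤ 1) :
    s x - s (x / q) ≤ s (x * q) - s x := by
  have hq0 : 0 < q := by linarith
  have hxq : 0 < x / q := div_pos hx hq0
  have hxq' : 0 < x * q := mul_pos hx hq0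
  have hle : x / q ≤ 1 := by
    have h1 : x / q ≤ x := div_le_self hx.le hq
    have h2 : x ≤ x * q := le_mul_of_one_le_right hx.le hq
    linarith
  have h := hc (Real.sqrt (x * q)) (Real.sqrt (x / q)) (Real.sqrt_nonneg _)
    (Real.sqrt_le_iff.2 ⟨by norm_num, by linarith⟩) (Real.sqrt_nonneg _)
    (Real.sqrt_le_iff.2 ⟨by norm_num, by linarith⟩)
  rw [Real.sq_sqrt hxq'.le, Real.sq_sqrt hxq.le, ← Real.sqrt_mul hxq'.le] at h
  have e : x * q * (x / q) = x * x := by field_simp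
  rw [e, Real.sqrt_mul_self hx.le] at h
  linarith

private theorem D8a_incr (s : ℝ → ℝ)
    (hc : ∀ a b : ℝ, 0 ≤ a → a ≤ 1 → 0 ≤ b → b ≤ 1 → 2 * s (a * b) ≤ s (a ^ 2) + s (b ^ 2))
    (x q : ℝ) (hx : 0 < x) (hq : 1 ≤ q) (hx1 : x * q ≤ 1) (k : ℕ) :
    s (x / q ^ k) - s (x / q ^ (k + 1)) ≤ s (x * q) - s x := by
  have hq0 : 0 < q := by linarith
  induction k with
  | zero =>
    have h := D8a_step s hc x q hx hq hx1
    simpa using h
  | succ k ih =>
    have hqk : 0 < q ^ (k + 1) := pow_pos hq0 _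
    have hqk1 : 1 ≤ q ^ k := one_le_pow₀ hq
    have hy : 0 < x / q ^ (k + 1) := div_pos hx hqk
    have e1 : x / q ^ (k + 1) * q = x / q ^ k := by
      rw [pow_succ]; field_simp
    have e2 : x / q ^ (k + 1) / q = x / q ^ (k + 1 + 1) := by
      rw [div_div, ← pow_succ]
    have h1 : x / q ^ k ≤ 1 := by
      have h2 : x / q ^ k ≤ x := div_le_self hx.le hqk1
      have h3 : x ≤ x * q := le_mul_of_one_le_right hx.le hq
      linarith
    have h := D8a_step s hc (x / q ^ (k + 1)) q hy hq (by rw [e1]; exact h1)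
    rw [e1, e2] at h
    linarith

private theorem D8a_sum (s : ℝ → ℝ)
    (hc : ∀ a b : ℝ, 0 ≤ a → a ≤ 1 → 0 ≤ b → b ≤ 1 → 2 * s (a * b) ≤ s (a ^ 2) + s (b ^ 2))
    (x q : ℝ) (hx : 0 < x) (hq : 1 ≤ q) (hx1 : x * q ≤ 1) (k : ℕ) :
    s x - s (x / q ^ k) ≤ k * (s (x * q) - s x) := by
  induction k with
  | zero => simp
  | succ k ih =>
    have h := D8a_incr s hc x q hx hq hx1 k
    push_cast
    linarith

theorem pD8a : StD8a := by
  intro s ρ C hρ hρ1 hm hc hl hd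
  by_contra hcon
  have hlt : s 0 < s ρ := not_le.1 hcon
  -- the point r0
  obtain ⟨r0, hr0, hr0ρ, hsr0⟩ : ∃ r0 : ℝ, 0 < r0 ∧ r0 < ρ ∧ s r0 < s ρ := by
    have hC : 0 < |C| + 1 := by positivity
    have hD : 0 < (s ρ - s 0) / (2 * (|C| + 1)) := by
      apply div_pos <;> linarith
    refine ⟨min (ρ / 2) (min (1 / 4) ((s ρ - s 0) / (2 * (|C| + 1)))), ?_, ?_, ?_⟩
    · exact lt_min (by linarith) (lt_min (by norm_num) hD)
    · exact lt_of_le_of_lt (min_le_left _ _) (by linarith)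
    · obtain ⟨r, hr⟩ : ∃ r, r = min (ρ / 2) (min (1 / 4) ((s ρ - s 0) / (2 * (|C| + 1)))) := ⟨_, rfl⟩
      rw [← hr]
      have h0 : 0 < r := by
        rw [hr]; exact lt_min (by linarith) (lt_min (by norm_num) hD)
      have h1 : r ≤ 1 / 4 := by
        rw [hr]; exact le_trans (min_le_right _ _) (min_le_left _ _)
      have h2 : r ≤ (s ρ - s 0) / (2 * (|C| + 1)) := by
        rw [hr]; exact le_trans (min_le_right _ _) (min_le_right _ _)
      have h3 := hl r h0.le h1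
      have h4 : C * r ≤ |C| * r := mul_le_mul_of_nonneg_right (le_abs_self C) h0.le
      have h5 : r * (2 * (|C| + 1)) ≤ s ρ - s 0 := by
        rwa [le_div_iff₀ (by positivity)] at h2
      have h6 : 0 ≤ |C| * r := by positivity
      nlinarith
  have hD : 0 < s ρ - s r0 := by linarith
  obtain ⟨L, hL⟩ : ∃ L, L = Real.log (ρ / r0) := ⟨_, rfl⟩
  have hLpos : 0 < L := by
    rw [hL]; apply Real.log_pos; rw [one_lt_div hr0]; exact hr0ρ
  have hε : 0 < (s ρ - s r0) * (1 - ρ) / (4 * L) := by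
    apply div_pos
    · exact mul_pos hD (by linarith)
    · linarith
  obtain ⟨t0, ht0, ht⟩ := hd _ hε
  obtain ⟨t, htdef⟩ : ∃ t, t = min t0 (min 1 (L * ρ)) := ⟨_, rfl⟩
  have hLρ : 0 < L * ρ := mul_pos hLpos hρ
  have htpos : 0 < t := by rw [htdef]; exact lt_min ht0 (lt_min one_pos hLρ)
  have htt0 : t ≤ t0 := by rw [htdef]; exact min_le_left _ _
  have ht1 : t ≤ 1 := by rw [htdef]; exact le_trans (min_le_right _ _) (min_le_left _ _)
  have htL : t ≤ L * ρ := by rw [htdef]; exact le_trans (min_le_right _ _) (min_le_right _ _)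
  have hkey := ht t htpos htt0
  have ht2 : 0 < t ^ 2 := by positivity
  have ht2t : t ^ 2 ≤ t := by nlinarith
  have ht21 : t ^ 2 ≤ 1 := by linarith
  have hρ1' : 0 < 1 - ρ := by linarith
  -- the ratio q
  obtain ⟨q, hq⟩ : ∃ q, q = (ρ + t ^ 2 * (1 - ρ)) / ρ := ⟨_, rfl⟩
  have hρq : ρ * q = ρ + t ^ 2 * (1 - ρ) := by rw [hq]; field_simp
  have hinc : 0 < t ^ 2 * (1 - ρ) := mul_pos ht2 hρ1'
  have hq1 : 1 < q := by
    rw [hq, one_lt_div hρ]; linarith
  have hρq1 : ρ * q ≤ 1 := by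
    rw [hρq]; nlinarith
  have hq0 : 0 < q := by linarith
  -- log q
  obtain ⟨h, hh⟩ : ∃ h, h = Real.log q := ⟨_, rfl⟩
  have hhpos : 0 < h := by rw [hh]; exact Real.log_pos hq1
  have hlow : t ^ 2 * (1 - ρ) ≤ h := by
    have h1 := Real.one_sub_inv_le_log_of_pos hq0
    rw [← hh] at h1
    have h2 : 1 - q⁻¹ = t ^ 2 * (1 - ρ) / (ρ * q) := by
      have h3 : t ^ 2 * (1 - ρ) = ρ * q - ρ := by rw [hρq]; ring
      rw [h3]; field_simp
    rw [h2] at h1
    have h4 : t ^ 2 * (1 - ρ) ≤ t ^ 2 * (1 - ρ) / (ρ * q) := by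
      rw [le_div_iff₀ (mul_pos hρ hq0)]
      nlinarith
    linarith
  have hhigh : h ≤ L := by
    have h1 := Real.log_le_sub_one_of_pos hq0
    rw [← hh] at h1
    have h2 : q - 1 = t ^ 2 * (1 - ρ) / ρ := by rw [hq]; field_simp; ring
    have h3 : t ^ 2 * (1 - ρ) / ρ ≤ L := by
      rw [div_le_iff₀ hρ]
      nlinarith
    linarith
  -- the number of steps
  obtain ⟨K, hK⟩ : ∃ K : ℕ, K = ⌈L / h⌉₊ := ⟨_, rfl⟩
  have hK1 : L / h ≤ K := by rw [hK]; exact Nat.le_ceil _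
  have hK2 : (K : ℝ) ≤ 2 * L / h := by
    have h1 : (K : ℝ) < L / h + 1 := by rw [hK]; exact Nat.ceil_lt_add_one (by positivity)
    have h2 : 1 ≤ L / h := by rw [one_le_div hhpos]; exact hhigh
    have h3 : 2 * L / h = L / h + L / h := by ring
    linarith
  have hqK : ρ / q ^ K ≤ r0 := by
    have h1 : L ≤ K * h := by rwa [div_le_iff₀ hhpos] at hK1
    have h2 : Real.log (ρ / r0) ≤ Real.log (q ^ K) := by
      rw [Real.log_pow, ← hh, ← hL]; exact h1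
    have h3 : ρ / r0 ≤ q ^ K := (Real.log_le_log_iff (div_pos hρ hr0) (pow_pos hq0 _)).1 h2
    rw [div_le_iff₀ (pow_pos hq0 _)]
    rw [div_le_iff₀ hr0] at h3
    linarith
  have hsum := D8a_sum s hc ρ q hρ hq1.le hρq1 K
  have hmon : s (ρ / q ^ K) ≤ s r0 :=
    hm _ _ (div_nonneg hρ.le (pow_pos hq0 _).le) hqK (by linarith)
  rw [hρq] at hsum
  -- the contradiction
  obtain ⟨D0, hD0⟩ : ∃ D0, D0 = s (ρ + t ^ 2 * (1 - ρ)) - s ρ := ⟨_, rfl⟩
  rw [← hD0] at hsum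
  have hD0le : D0 ≤ (s ρ - s r0) * (1 - ρ) / (4 * L) * t ^ 2 := by rw [hD0]; linarith
  have h1 : s ρ - s r0 ≤ K * D0 := by linarith
  have hD0pos : 0 < D0 := by
    by_contra hneg
    have h2 : (K : ℝ) * D0 ≤ 0 := mul_nonpos_of_nonneg_of_nonpos (Nat.cast_nonneg K) (not_lt.1 hneg)
    linarith
  have h2 : (K : ℝ) * D0 ≤ 2 * L / h * D0 := mul_le_mul_of_nonneg_right hK2 hD0pos.le
  have h3 : (s ρ - s r0) * h ≤ 2 * L * D0 := by
    have h4 : s ρ - s r0 ≤ 2 * L / h * D0 := by linarith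
    have h5 := mul_le_mul_of_nonneg_right h4 hhpos.le
    have h6 : 2 * L / h * D0 * h = 2 * L * D0 := by field_simp
    linarith
  have h4 : (s ρ - s r0) * (t ^ 2 * (1 - ρ)) ≤ (s ρ - s r0) * h :=
    mul_le_mul_of_nonneg_left hlow hD.le
  have h5 : 2 * L * D0 ≤ 2 * L * ((s ρ - s r0) * (1 - ρ) / (4 * L) * t ^ 2) :=
    mul_le_mul_of_nonneg_left hD0le (by linarith)
  have h6 : 2 * L * ((s ρ - s r0) * (1 - ρ) / (4 * L) * t ^ 2) =
      (s ρ - s r0) * (t ^ 2 * (1 - ρ)) / 2 := by field_simp; ring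
  have h7 : 0 < (s ρ - s r0) * (t ^ 2 * (1 - ρ)) := mul_pos hD hinc
  linarith

end Pool.TC
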