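import Mathlib
import Pool.Agent.TC.St
import Pool.Agent.Helper65.PT.Law
import Pool.Agent.Helper65.PT.Oub

set_option autoImplicit false

open MeasureTheory ProbabilityTheory Pool.H65.PS Pool.H65.PT

namespace Pool.TC

section D9

variable {κ κ' : Type} [Fintype κ] [Fintype κ'] {m : ℕ}

theorem D9_lin_lin (W : κ → κ' → ℝ) (a b : ℝ) (x y : κ → ℝ) :
    lin W (a • x + b • y) = a • lin W x + b • lin W y := by
  funext j
  simp only [Pi.add_apply, Pi.smul_apply, smul_eq_mul, Law_lin_apply]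
  rw [Finset.mul_sum, Finset.mul_sum, ← Finset.sum_add_distrib]
  exact Finset.sum_congr rfl (fun i _ => by ring)

theorem D9_sg (W : κ → κ' → ℝ) (hW : MeasurePreserving (lin W) (gam κ) (gam κ')) (ρ : ℝ)
    (f h : (κ' → ℝ) → ℝ) (hf : Measurable f) (hh : Measurable h) :
    sg ρ (fun x => f (lin W x)) (fun x => h (lin W x)) = sg ρ f h := by
  unfold sg
  simp_rw [D9_lin_lin]
  have h0 := hW.prod hW
  exact Law_integral_comp h0
    (F := fun p : (κ' → ℝ) × (κ' → ℝ) => f p.1 * h (ρ • p.1 + Real.sqrt (1 - ρ ^ 2) • p.2))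
    ((hf.comp measurable_fst).mul (hh.comp (by fun_prop)))

theorem D9_pt (W : κ → κ' → ℝ) (hW : MeasurePreserving (lin W) (gam κ) (gam κ'))
    (F : (κ' → ℝ) → Fin m → ℝ) (hF : Pt F) : Pt (fun x => F (lin W x)) :=
  ⟨fun j => (hF.meas j).comp hW.measurable, fun x => hF.simp _⟩

theorem D9_bal (W : κ → κ' → ℝ) (hW : MeasurePreserving (lin W) (gam κ) (gam κ'))
    (F : (κ' → ℝ) → Fin m → ℝ) (hF : Pt F) (hB : Bal F) : Bal (fun x => F (lin W x)) := by
  intro j
  have h := Law_integral_comp hW (F := fun y => F y j) (hF.meas j)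
  rw [← hB j]
  exact h

theorem D9_St (W : κ → κ' → ℝ) (hW : MeasurePreserving (lin W) (gam κ) (gam κ')) (ρ : ℝ)
    (F : (κ' → ℝ) → Fin m → ℝ) (hF : Pt F) :
    St ρ (fun x => F (lin W x)) = St ρ F := by
  unfold St
  exact Finset.sum_congr rfl (fun j _ => D9_sg W hW ρ _ _ (hF.meas j) (hF.meas j))

theorem D9_le {F : (κ → ℝ) → Fin m → ℝ} (hF : Pt F) (j : Fin m) (x : κ → ℝ) :
    0 ≤ F x j ∧ F x j ≤ 1 := by
  have h := hF.simp x
  refine ⟨h.1 j, ?_⟩
  rw [← h.2]
  exact Finset.single_le_sum (f := fun k => F x k) (fun k _ => h.1 k) (Finset.mem_univ j)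

theorem D9_int {F : (κ → ℝ) → Fin m → ℝ} (hF : Pt F) (j : Fin m) (i : κ) :
    Integrable (fun x : κ → ℝ => F x j * x i) (gam κ) := by
  refine (oub_coord i).bdd_mul (hF.meas j).aestronglyMeasurable (c := 1) ?_
  refine Filter.Eventually.of_forall (fun x => ?_)
  rw [Real.norm_eq_abs, abs_le]
  have h := D9_le hF j x
  constructor <;> linarith [h.1, h.2]

theorem D9_mo_sum {F : (κ → ℝ) → Fin m → ℝ} (hF : Pt F) (i : κ) :
    ∑ j, mo (fun x => F x j) i = 0 := by
  unfold mo
  rw [← integral_finsetSum _ (fun j _ => D9_int hF j i)]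
  rw [← oub_coord_int i]
  refine integral_congr_ae (Filter.Eventually.of_forall (fun x => ?_))
  show ∑ j, F x j * x i = x i
  rw [← Finset.sum_mul, (hF.simp x).2, one_mul]

/-- a nonzero vector orthogonal to all first moments -/
theorem D9_vec {n : ℕ} (hκ : Fintype.card κ = n + 1) (hm : 1 ≤ m) (hmn : m ≤ n + 1)
    {F : (κ → ℝ) → Fin m → ℝ} (hF : Pt F) :
    ∃ v : κ → ℝ, v ≠ 0 ∧ ∀ j, ∑ i, mo (fun x => F x j) i * v i = 0 := by
  obtain ⟨k, rfl⟩ : ∃ k, m = k + 1 := ⟨m - 1, by omega⟩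
  let T : (κ → ℝ) →ₗ[ℝ] (Fin k → ℝ) :=
    LinearMap.pi (fun j : Fin k => ∑ i, (mo (fun x => F x j.castSucc) i) • LinearMap.proj i)
  have hT : ∀ v j, T v j = ∑ i, mo (fun x => F x (Fin.castSucc j)) i * v i := by
    intro v j
    simp [T]
  have hker : LinearMap.ker T ≠ ⊥ := by
    apply LinearMap.ker_ne_bot_of_finrank_lt
    rw [Module.finrank_fintype_fun_eq_card, Module.finrank_fintype_fun_eq_card, hκ,
      Fintype.card_fin]
    omega
  obtain ⟨v, hv, hv0⟩ := (Submodule.ne_bot_iff _).1 hker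
  refine ⟨v, hv0, ?_⟩
  have hc : ∀ j : Fin k, ∑ i, mo (fun x => F x (Fin.castSucc j)) i * v i = 0 := by
    intro j
    rw [← hT, LinearMap.mem_ker.1 hv]
    rfl
  have hsum : ∑ j : Fin (k + 1), ∑ i, mo (fun x => F x j) i * v i = 0 := by
    rw [Finset.sum_comm]
    refine Finset.sum_eq_zero (fun i _ => ?_)
    rw [← Finset.sum_mul, D9_mo_sum hF, zero_mul]
  intro j
  induction j using Fin.lastCases with
  | last =>
    rw [Fin.sum_univ_castSucc, Finset.sum_eq_zero (fun j _ => hc j), zero_add] at hsum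
    exact hsum
  | cast j => exact hc j

/-- an orthonormal matrix whose last row is orthogonal to the moments -/
theorem D9_mat {n : ℕ} (hκ : Fintype.card κ = n + 1) (hm : 1 ≤ m) (hmn : m ≤ n + 1)
    {F : (κ → ℝ) → Fin m → ℝ} (hF : Pt F) :
    ∃ W : Fin n ⊕ Unit → κ → ℝ,
      (∀ a a', ∑ i, W a i * W a' i = if a = a' then 1 else 0) ∧
      (∀ i i', ∑ a, W a i * W a i' = by classical exact if i = i' then 1 else 0) ∧
      ∀ j, ∑ i, mo (fun x => F x j) i * W (Sum.inr ()) i = 0 := by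
  classical
  obtain ⟨v, hv0, hv⟩ := D9_vec hκ hm hmn hF
  set u : EuclideanSpace ℝ κ := WithLp.toLp 2 v with hu
  have hu0 : u ≠ 0 := by
    intro h
    apply hv0
    have := congrArg (WithLp.ofLp) h
    simpa [hu] using this
  have hnu : ‖u‖ ≠ 0 := norm_ne_zero_iff.2 hu0
  set e : EuclideanSpace ℝ κ := ‖u‖⁻¹ • u with he
  have hne : ‖e‖ = 1 := by
    rw [he, norm_smul, norm_inv, norm_norm, inv_mul_cancel₀ hnu]
  have hcard : Module.finrank ℝ (EuclideanSpace ℝ κ) = Fintype.card (Fin n ⊕ Unit) := by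
    rw [finrank_euclideanSpace, hκ, Fintype.card_sum, Fintype.card_fin, Fintype.card_unit]
  have hon : Orthonormal ℝ (({Sum.inr ()} : Set (Fin n ⊕ Unit)).domRestrict
      (fun _ : Fin n ⊕ Unit => e)) := by
    rw [orthonormal_iff_ite]
    intro a b
    have hab : a = b := Subsingleton.elim _ _
    rw [if_pos hab]
    show inner ℝ e e = 1
    rw [real_inner_self_eq_norm_sq, hne, one_pow]
  obtain ⟨b, hb⟩ := hon.exists_orthonormalBasis_extension_of_card_eq hcard
  have hbe : b (Sum.inr ()) = e := hb _ (Set.mem_singleton _)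
  refine ⟨fun a i => b a i, ?_, ?_, ?_⟩
  · intro a a'
    have h := (orthonormal_iff_ite.1 b.orthonormal) a' a
    rw [EuclideanSpace.inner_eq_star_dotProduct] at h
    simp only [dotProduct, star_trivial] at h
    rw [show (if a = a' then (1 : ℝ) else 0) = if a' = a then 1 else 0 by
      simp only [eq_comm], ← h]
  · intro i i'
    have h := b.sum_inner_mul_inner (EuclideanSpace.single i (1 : ℝ))
      (EuclideanSpace.single i' (1 : ℝ))
    have h1 : ∀ a, inner ℝ (EuclideanSpace.single i (1 : ℝ)) (b a) = b a i := by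
      intro a
      rw [EuclideanSpace.inner_single_left]
      simp
    have h2 : ∀ a, inner ℝ (b a) (EuclideanSpace.single i' (1 : ℝ)) = b a i' := by
      intro a
      rw [EuclideanSpace.inner_single_right]
      simp
    simp only [h1, h2] at h
    rw [h, EuclideanSpace.inner_single_left]
    simp [eq_comm]
  · intro j
    have h3 : ∀ i, b (Sum.inr ()) i = ‖u‖⁻¹ * v i := by
      intro i
      rw [hbe, he]
      rfl
    simp only [h3]
    have h4 := hv j
    calc ∑ i, mo (fun x => F x j) i * (‖u‖⁻¹ * v i)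
        = ‖u‖⁻¹ * ∑ i, mo (fun x => F x j) i * v i := by
          rw [Finset.mul_sum]
          exact Finset.sum_congr rfl (fun i _ => by ring)
      _ = 0 := by rw [h4, mul_zero]

end D9

theorem pD9 : StD9 := by
  classical
  intro n m ρ κ _ hκ hm hmn hρ0 hρ1 F hF
  obtain ⟨W, h1, h2, h3⟩ := D9_mat hκ hm hmn hF.pt
  have hW : MeasurePreserving (lin W) (gam (Fin n ⊕ Unit)) (gam κ) := by
    apply Law_mp
    intro j k
    rw [h2 j k]
  set V : κ → Fin n ⊕ Unit → ℝ := fun i a => W a i with hV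
  have hVp : MeasurePreserving (lin V) (gam κ) (gam (Fin n ⊕ Unit)) := by
    apply Law_mp
    intro a a'
    have := h1 a a'
    rw [hV]
    rw [this]
    by_cases hjk : a = a'
    · simp [hjk]
    · simp [hjk]
  have hinv : ∀ (x : Fin n ⊕ Unit → ℝ) (a : Fin n ⊕ Unit), ∑ i, lin W x i * W a i = x a := by
    intro x a
    simp only [Law_lin_apply]
    calc ∑ i, (∑ a', x a' * W a' i) * W a i = ∑ i, ∑ a', x a' * (W a' i * W a i) := by
          refine Finset.sum_congr rfl (fun i _ => ?_)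
          rw [Finset.sum_mul]
          exact Finset.sum_congr rfl (fun a' _ => by ring)
      _ = ∑ a', x a' * ∑ i, W a' i * W a i := by
          rw [Finset.sum_comm]
          exact Finset.sum_congr rfl (fun a' _ => by rw [Finset.mul_sum])
      _ = x a := by
          simp only [h1]
          simp
  refine ⟨fun x => F (lin W x), ⟨D9_pt W hW F hF.pt, D9_bal W hW F hF.pt hF.bal, ?_⟩,
    D9_St W hW ρ F hF.pt, ?_⟩
  · intro f' hf' hb'
    have h4 := hF.max (fun y => f' (lin V y)) (D9_pt V hVp f' hf') (D9_bal V hVp f' hf' hb')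
    rw [D9_St V hVp ρ f' hf'] at h4
    rw [D9_St W hW ρ F hF.pt]
    exact h4
  · intro j
    unfold mo
    have e1 : ∀ x : Fin n ⊕ Unit → ℝ, F (lin W x) j * x (Sum.inr ()) =
        (fun y : κ → ℝ => ∑ i, F y j * y i * W (Sum.inr ()) i) (lin W x) := by
      intro x
      show F (lin W x) j * x (Sum.inr ()) = ∑ i, F (lin W x) j * lin W x i * W (Sum.inr ()) i
      rw [← hinv x (Sum.inr ()), Finset.mul_sum]
      exact Finset.sum_congr rfl (fun i _ => by ring)
    have hmeas : Measurable (fun y : κ → ℝ => ∑ i, F y j * y i * W (Sum.inr ()) i) := by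
      apply Finset.measurable_sum
      intro i _
      exact ((hF.pt.meas j).mul (measurable_pi_apply i)).mul_const _
    calc ∫ x, F (lin W x) j * x (Sum.inr ()) ∂(gam (Fin n ⊕ Unit))
        = ∫ x, (fun y : κ → ℝ => ∑ i, F y j * y i * W (Sum.inr ()) i) (lin W x)
            ∂(gam (Fin n ⊕ Unit)) := integral_congr_ae (Filter.Eventually.of_forall e1)
      _ = ∫ y, ∑ i, F y j * y i * W (Sum.inr ()) i ∂(gam κ) := Law_integral_comp hW hmeas
      _ = ∑ i, ∫ y, F y j * y i * W (Sum.inr ()) i ∂(gam κ) :=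
          integral_finsetSum _ (fun i _ => (D9_int hF.pt j i).mul_const _)
      _ = ∑ i, mo (fun x => F x j) i * W (Sum.inr ()) i := by
          refine Finset.sum_congr rfl (fun i _ => ?_)
          rw [integral_mul_const]
          rfl
      _ = 0 := h3 j

end Pool.TC
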