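import Pool.Agent.TC.St
import Pool.Agent.Helper65.PT.Oub
import Pool.Agent.Helper65.PT.Pmo

set_option autoImplicit false

open MeasureTheory ProbabilityTheory Pool.H65.PS Pool.H65.PT

namespace Pool.TC

/-- `pt2` is jointly measurable. -/
private theorem G_pt2_meas : Measurable (fun p : ℝ × ℝ => pt2 p.1 p.2) := by
  have h : Continuous (fun p : ℝ × ℝ => pt2 p.1 p.2) := by
    refine continuous_pi fun i => ?_
    fin_cases i
    · show Continuous (fun p : ℝ × ℝ => p.1 * Real.cos p.2)
      fun_prop
    · show Continuous (fun p : ℝ × ℝ => p.1 * Real.sin p.2)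
      fun_prop
  exact h.measurable

private theorem G_bm {κ : Type} [Fintype κ] {m : ℕ} {f : (κ → ℝ) → Fin m → ℝ} (hf : Pt f) (j : Fin m) :
    Bm (fun x => f x j) := by
  refine ⟨hf.meas j, 1, fun x => ?_⟩
  have h := hf.simp x
  have h0 := h.1 j
  have h1 : f x j ≤ ∑ k, f x k :=
    Finset.single_le_sum (f := fun k => f x k) (fun k _ => h.1 k) (Finset.mem_univ j)
  rw [h.2] at h1
  rw [abs_of_nonneg h0]
  exact h1

/-- module G. -/
theorem pG (hD10 : StD10) (hP7 : StP7) (hP8 : StP8) (hP9 : StP9) (hP0a : StP0a) : StG := by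
  intro ρ h0 h1 κ _ f hf hb
  obtain ⟨pcm, prm, hmap⟩ := hP0a
  rcases h0.eq_or_lt with h | hpos
  · -- ρ = 0
    subst h
    have e1 : ∀ j : Fin 3, sg 0 (fun x => f x j) (fun x => f x j) = 1 / 9 := by
      intro j
      rw [sg_zero (G_bm hf j) (G_bm hf j), hb j]
      norm_num
    have e2 : ∀ j : Fin 3, sg 0 (cellF j) (cellF j) = 1 / 9 := by
      intro j
      have hbm : Bm (cellF j : (Fin 3 → ℝ) → ℝ) := by
        refine ⟨cellF_measurable j, 1, fun x => ?_⟩
        rw [abs_of_nonneg (cellF_nonneg j x)]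
        exact cellF_le_one j x
      rw [sg_zero hbm hbm, cellF_mean (by norm_num) j]
      norm_num
    unfold Lam
    rw [Finset.sum_congr rfl fun j _ => e1 j, Finset.sum_congr rfl fun j _ => e2 j]
  · obtain ⟨g, hg, hgb, hle⟩ := hD10 3 ρ (by norm_num) hpos (by linarith) κ f hf hb
    have hg' : Pt (κ := Fin 2) g := hg
    have hgb' : Bal (κ := Fin 2) g := hgb
    have hle' : St ρ f ≤ St (κ := Fin 2) ρ g := hle
    have h7 := hP7 ρ g hpos.le (by linarith) hg'
    have h8 : ∀ j : Fin 3, Sr ρ (fun s => al g j s - 1 / 3)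
        ≤ ∫ s, Wr ρ s * (al g j s - 1 / 3) ^ 2 ∂rm := by
      intro j
      have hbm := G_bm hg' j
      have hm2 : Measurable (fun p : ℝ × ℝ => g (pt2 p.1 p.2) j) := hbm.meas.comp G_pt2_meas
      have hal : Measurable (fun s => al g j s) := by
        have := (hm2.stronglyMeasurable).integral_prod_right' (ν := cm)
        exact this.measurable
      have hnn : ∀ x, 0 ≤ g x j := fun x => (hg'.simp x).1 j
      have hl1 : ∀ x, g x j ≤ 1 := by
        intro x
        have hs := hg'.simp x
        have h1 : g x j ≤ ∑ k, g x k :=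
          Finset.single_le_sum (f := fun k => g x k) (fun k _ => hs.1 k) (Finset.mem_univ j)
        rwa [hs.2] at h1
      have hint : Integrable (fun p : ℝ × ℝ => g (pt2 p.1 p.2) j) (rm.prod cm) := by
        refine Integrable.of_bound hm2.aestronglyMeasurable 1 (ae_of_all _ fun p => ?_)
        rw [Real.norm_eq_abs, abs_of_nonneg (hnn _)]
        exact hl1 _
      have hbd : ∀ s, |al g j s| ≤ 1 := by
        intro s
        have : ‖∫ θ, g (pt2 s θ) j ∂cm‖ ≤ 1 * cm.real Set.univ :=
          norm_integral_le_of_norm_le_const (ae_of_all _ fun θ => by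
            rw [Real.norm_eq_abs, abs_of_nonneg (hnn _)]
            exact hl1 _)
        have h2 : cm.real Set.univ = 1 := by simp
        rw [h2, mul_one] at this
        exact this
      have hali : Integrable (fun s => al g j s) rm := by
        refine Integrable.of_bound hal.aestronglyMeasurable 1 (ae_of_all _ fun s => ?_)
        exact hbd s
      have hmean : ∫ s, al g j s ∂rm = 1 / 3 := by
        have h1 : ∫ s, al g j s ∂rm = ∫ p : ℝ × ℝ, g (pt2 p.1 p.2) j ∂(rm.prod cm) := by
          rw [integral_prod _ hint]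
          rfl
        have h2 : ∫ p : ℝ × ℝ, g (pt2 p.1 p.2) j ∂(rm.prod cm) = ∫ x, g x j ∂(gam (Fin 2)) := by
          rw [← hmap, integral_map G_pt2_meas.aemeasurable hbm.meas.aestronglyMeasurable]
        rw [h1, h2]
        have h3 := hgb' j
        rw [h3]
        norm_num
      refine hP8 (fun s => al g j s - 1 / 3) ρ (hal.sub_const _) ⟨2, fun s => ?_⟩ ?_ hpos h1
      · have := hbd s
        rw [abs_le] at this ⊢
        constructor <;> linarith [this.1, this.2]
      · rw [integral_sub hali (integrable_const _), hmean]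
        simp
    have hsum : ∑ j : Fin 3, (Sr ρ (fun s => al g j s - 1 / 3)
        - ∫ s, Wr ρ s * (al g j s - 1 / 3) ^ 2 ∂rm) ≤ 0 :=
      Finset.sum_nonpos fun j _ => sub_nonpos.2 (h8 j)
    have h9 := hP9 ρ hpos.le (by linarith)
    rw [h9]
    have hle2 : St ρ f ≤ Ss ρ := by
      refine hle'.trans (h7.trans ?_)
      linarith
    exact hle2

end Pool.TC
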