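import Pool.Agent.TC.St

/-! Project TC, module P0a: polar coordinates for the Gaussian measure of the plane. -/

set_option autoImplicit false

open MeasureTheory ProbabilityTheory Pool.H65.PS Pool.H65.PT

namespace Pool.TC

private theorem P0a_cm : IsProbabilityMeasure cm := by
  refine ⟨?_⟩
  have hpi := Real.pi_pos
  unfold cm
  rw [Measure.smul_apply, Measure.restrict_apply_univ, Real.volume_Ioc, smul_eq_mul,
    ← ENNReal.ofReal_mul (by positivity)]
  have h1 : (2 * Real.pi)⁻¹ * (Real.pi - -Real.pi) = 1 := by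
    field_simp
    ring
  rw [h1, ENNReal.ofReal_one]

private theorem P0a_meas : Measurable (fun p : ℝ × ℝ => pt2 p.1 p.2) := by
  rw [measurable_pi_iff]
  intro i
  fin_cases i
  · change Measurable (fun p : ℝ × ℝ => p.1 * Real.cos p.2)
    exact measurable_fst.mul (Real.measurable_cos.comp measurable_snd)
  · change Measurable (fun p : ℝ × ℝ => p.1 * Real.sin p.2)
    exact measurable_fst.mul (Real.measurable_sin.comp measurable_snd)

private theorem P0a_dens (r θ : ℝ) (hr : 0 < r) :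
    ENNReal.ofReal r * (gaussianPDF 0 1 (r * Real.cos θ) * gaussianPDF 0 1 (r * Real.sin θ))
      = ENNReal.ofReal (r * Real.exp (-(r ^ 2) / 2)) * ENNReal.ofReal (2 * Real.pi)⁻¹ := by
  have hpi := Real.pi_pos
  rw [gaussianPDF_def, ← ENNReal.ofReal_mul (gaussianPDFReal_nonneg _ _ _),
    ← ENNReal.ofReal_mul hr.le, ← ENNReal.ofReal_mul (by positivity)]
  congr 1
  simp only [gaussianPDFReal_def, NNReal.coe_one, mul_one, sub_zero]
  have h1 : (Real.sqrt (2 * Real.pi))⁻¹ * Real.exp (-(r * Real.cos θ) ^ 2 / 2) *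
      ((Real.sqrt (2 * Real.pi))⁻¹ * Real.exp (-(r * Real.sin θ) ^ 2 / 2)) =
      (2 * Real.pi)⁻¹ * Real.exp (-(r ^ 2) / 2) := by
    have h2 : (Real.sqrt (2 * Real.pi))⁻¹ * (Real.sqrt (2 * Real.pi))⁻¹ = (2 * Real.pi)⁻¹ := by
      rw [← mul_inv, Real.mul_self_sqrt (by positivity)]
    have h3 : Real.exp (-(r * Real.cos θ) ^ 2 / 2) * Real.exp (-(r * Real.sin θ) ^ 2 / 2) =
        Real.exp (-(r ^ 2) / 2) := by
      rw [← Real.exp_add]
      congr 1
      have h4 := Real.sin_sq_add_cos_sq θ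
      have h5 : -(r * Real.cos θ) ^ 2 / 2 + -(r * Real.sin θ) ^ 2 / 2 =
          -(r ^ 2 * (Real.sin θ ^ 2 + Real.cos θ ^ 2)) / 2 := by ring
      rw [h5, h4, mul_one]
    calc _ = ((Real.sqrt (2 * Real.pi))⁻¹ * (Real.sqrt (2 * Real.pi))⁻¹) *
        (Real.exp (-(r * Real.cos θ) ^ 2 / 2) * Real.exp (-(r * Real.sin θ) ^ 2 / 2)) := by ring
      _ = _ := by rw [h2, h3]
  rw [h1]
  ring

private theorem P0a_prod : rm.prod cm =
    ((volume : Measure (ℝ × ℝ)).restrict polarCoord.target).withDensity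
      (fun p => ENNReal.ofReal (p.1 * Real.exp (-(p.1 ^ 2) / 2)) *
        ENNReal.ofReal (2 * Real.pi)⁻¹) := by
  have h1 : Measurable (fun s : ℝ => ENNReal.ofReal (s * Real.exp (-(s ^ 2) / 2))) := by
    fun_prop
  unfold rm cm
  rw [← withDensity_const, prod_withDensity h1 measurable_const]
  have h2 : (volume : Measure ℝ).restrict (Set.Ioc (-Real.pi) Real.pi) =
      (volume : Measure ℝ).restrict (Set.Ioo (-Real.pi) Real.pi) :=
    Measure.restrict_congr_set Ioo_ae_eq_Ioc.symm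
  rw [h2, Measure.prod_restrict]
  rfl

private theorem P0a_gam (S : Set (Fin 2 → ℝ)) (hS : MeasurableSet S) :
    gam (Fin 2) S = ∫⁻ p : ℝ × ℝ, ((MeasurableEquiv.finTwoArrow.symm ⁻¹' S).indicator
      (fun z : ℝ × ℝ => gaussianPDF 0 1 z.1 * gaussianPDF 0 1 z.2) p) := by
  have h1 := (measurePreserving_finTwoArrow (gaussianReal 0 1)).symm
  have h2 : gam (Fin 2) S =
      ((gaussianReal 0 1).prod (gaussianReal 0 1)) (MeasurableEquiv.finTwoArrow.symm ⁻¹' S) := by
    rw [h1.measure_preimage hS.nullMeasurableSet]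
    rfl
  have hS' : MeasurableSet (MeasurableEquiv.finTwoArrow.symm ⁻¹' S : Set (ℝ × ℝ)) :=
    h1.measurable hS
  rw [h2, gaussianReal_of_var_ne_zero 0 one_ne_zero, prod_withDensity
    (measurable_gaussianPDF _ _) (measurable_gaussianPDF _ _), withDensity_apply _ hS',
    lintegral_indicator hS']
  rfl

theorem pP0a : StP0a := by
  have hcm := P0a_cm
  have hmap : Measure.map (fun p : ℝ × ℝ => pt2 p.1 p.2) (rm.prod cm) = gam (Fin 2) := by
    ext S hS
    have hT : MeasurableSet ((fun p : ℝ × ℝ => pt2 p.1 p.2) ⁻¹' S) := P0a_meas hS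
    rw [Measure.map_apply P0a_meas hS, P0a_prod, withDensity_apply _ hT, P0a_gam S hS,
      ← lintegral_comp_polarCoord_symm, ← lintegral_indicator hT]
    refine setLIntegral_congr_fun polarCoord.open_target.measurableSet fun p hp => ?_
    have hr : 0 < p.1 := hp.1
    have h1 : (polarCoord.symm p ∈ (MeasurableEquiv.finTwoArrow.symm ⁻¹' S : Set (ℝ × ℝ))) ↔
        p ∈ ((fun p : ℝ × ℝ => pt2 p.1 p.2) ⁻¹' S) := Iff.rfl
    by_cases h2 : p ∈ ((fun p : ℝ × ℝ => pt2 p.1 p.2) ⁻¹' S)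
    · rw [Set.indicator_of_mem h2]
      simp only [Set.indicator_of_mem (h1.2 h2)]
      exact (P0a_dens p.1 p.2 hr).symm
    · rw [Set.indicator_of_notMem h2]
      simp only [Set.indicator_of_notMem (fun h => h2 (h1.1 h))]
      simp
  refine ⟨hcm, ⟨?_⟩, hmap⟩
  have h1 : (rm.prod cm) Set.univ = 1 := by
    have h2 : Measure.map (fun p : ℝ × ℝ => pt2 p.1 p.2) (rm.prod cm) Set.univ = 1 := by
      rw [hmap]
      exact measure_univ
    rwa [Measure.map_apply P0a_meas MeasurableSet.univ] at h2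
  have h3 : (rm.prod cm) Set.univ = rm Set.univ * cm Set.univ := by
    rw [← Set.univ_prod_univ, Measure.prod_prod]
  rw [h3, hcm.measure_univ, mul_one] at h1
  exact h1

end Pool.TC
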