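import Pool.Agent.TC.St
import Pool.Agent.Helper65.PT.Oub

/-! Module P0b of project TC: Mehler kernel in the plane. -/

set_option autoImplicit false

open MeasureTheory ProbabilityTheory Pool.H65.PS Pool.H65.PT

namespace Pool.TC

/-- one-dimensional Mehler kernel. -/
private noncomputable def P0b_k (ρ x z : ℝ) : ℝ :=
  (Real.sqrt (1 - ρ ^ 2))⁻¹ * Real.exp (-(ρ ^ 2 * (x * x + z * z) - 2 * ρ * (x * z)) / (2 * (1 - ρ ^ 2)))

private theorem P0b_k_nonneg (ρ x z : ℝ) : 0 ≤ P0b_k ρ x z := by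
  unfold P0b_k; positivity

private theorem P0b_one (ρ x : ℝ) (hq : 0 < 1 - ρ ^ 2) :
    (gaussianReal 0 1).map (fun y => ρ * x + Real.sqrt (1 - ρ ^ 2) * y)
    = (gaussianReal 0 1).withDensity (fun z => ENNReal.ofReal (P0b_k ρ x z)) := by
  have hs : 0 < Real.sqrt (1 - ρ ^ 2) := Real.sqrt_pos.2 hq
  have h1 : (gaussianReal 0 1).map (fun y => ρ * x + Real.sqrt (1 - ρ ^ 2) * y)
      = ((gaussianReal 0 1).map (Real.sqrt (1 - ρ ^ 2) * ·)).map (ρ * x + ·) := by
    rw [Measure.map_map (by fun_prop) (by fun_prop)]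
    rfl
  rw [h1, gaussianReal_map_const_mul, gaussianReal_map_const_add]
  have hv : (NNReal.mk (Real.sqrt (1 - ρ ^ 2) ^ 2) (sq_nonneg _) * 1 : NNReal) ≠ 0 := by
    rw [mul_one]
    intro h
    have := congrArg NNReal.toReal h
    simp only [NNReal.coe_mk, NNReal.coe_zero] at this
    nlinarith
  rw [gaussianReal_of_var_ne_zero _ hv, gaussianReal_of_var_ne_zero _ one_ne_zero,
    ← withDensity_mul _ (measurable_gaussianPDF _ _) (by unfold P0b_k; fun_prop)]
  congr 1
  funext t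
  simp only [Pi.mul_apply, gaussianPDF]
  rw [← ENNReal.ofReal_mul (gaussianPDFReal_nonneg _ _ _)]
  congr 1
  simp only [gaussianPDFReal_def, P0b_k]
  have e1 : Real.sqrt (1 - ρ ^ 2) ^ 2 = 1 - ρ ^ 2 := Real.sq_sqrt hq.le
  have e2 : Real.sqrt (2 * Real.pi * (1 - ρ ^ 2)) = Real.sqrt (2 * Real.pi) * Real.sqrt (1 - ρ ^ 2) :=
    Real.sqrt_mul (by positivity) _
  simp only [mul_one, NNReal.coe_mk, NNReal.coe_one, e1, e2, mul_zero, zero_add, sub_zero]
  rw [mul_inv]
  have e3 : Real.exp (-(t - ρ * x) ^ 2 / (2 * (1 - ρ ^ 2)))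
      = Real.exp (-t ^ 2 / 2) * Real.exp (-(ρ ^ 2 * (x * x + t * t) - 2 * ρ * (x * t)) / (2 * (1 - ρ ^ 2))) := by
    rw [← Real.exp_add]
    congr 1
    field_simp
    ring
  rw [e3]
  ring

private theorem P0b_int (ρ x : ℝ) (hq : 0 < 1 - ρ ^ 2) : Integrable (P0b_k ρ x) (gaussianReal 0 1) := by
  refine ⟨by unfold P0b_k; fun_prop, ?_⟩
  have h : (gaussianReal 0 1).map (fun y => ρ * x + Real.sqrt (1 - ρ ^ 2) * y) Set.univ
      = (gaussianReal 0 1).withDensity (fun z => ENNReal.ofReal (P0b_k ρ x z)) Set.univ := by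
    rw [P0b_one ρ x hq]
  rw [Measure.map_apply (by fun_prop) MeasurableSet.univ, withDensity_apply _ MeasurableSet.univ,
    Measure.restrict_univ] at h
  have h2 : ∫⁻ z, ENNReal.ofReal (P0b_k ρ x z) ∂(gaussianReal 0 1) < ⊤ := by
    rw [← h]
    simp
  rw [hasFiniteIntegral_iff_ofReal (Filter.Eventually.of_forall fun z => P0b_k_nonneg ρ x z)]
  exact h2

private theorem P0b_map {κ : Type} [Fintype κ] (ρ : ℝ) (hq : 0 < 1 - ρ ^ 2) (x : κ → ℝ) :
    (gam κ).map (fun y => ρ • x + Real.sqrt (1 - ρ ^ 2) • y)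
      = (gam κ).withDensity (fun z => ENNReal.ofReal (∏ i, P0b_k ρ (x i) (z i))) := by
  have hp : ∀ i, IsProbabilityMeasure ((gaussianReal 0 1).map
      (fun t => ρ * x i + Real.sqrt (1 - ρ ^ 2) * t)) := fun i =>
    Measure.isProbabilityMeasure_map (by fun_prop)
  have h1 : (gam κ).map (fun y => ρ • x + Real.sqrt (1 - ρ ^ 2) • y)
      = Measure.pi (fun i => (gaussianReal 0 1).map
        (fun t => ρ * x i + Real.sqrt (1 - ρ ^ 2) * t)) := by
    unfold gam
    exact Measure.pi_map_pi (μ := fun _ : κ => gaussianReal 0 1)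
      (f := fun i t => ρ * x i + Real.sqrt (1 - ρ ^ 2) * t) (fun i => by fun_prop)
  rw [h1]
  refine Measure.pi_eq fun s hs => ?_
  rw [withDensity_apply _ (MeasurableSet.univ_pi hs), ← lintegral_indicator (MeasurableSet.univ_pi hs)]
  have e1 : ∀ z : κ → ℝ, (Set.univ.pi s).indicator
      (fun z => ENNReal.ofReal (∏ i, P0b_k ρ (x i) (z i))) z
      = ENNReal.ofReal (∏ i, (s i).indicator (fun t => P0b_k ρ (x i) t) (z i)) := by
    intro z
    by_cases hx : z ∈ Set.univ.pi s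
    · rw [Set.indicator_of_mem hx]
      have : ∀ i, (s i).indicator (fun t => P0b_k ρ (x i) t) (z i) = P0b_k ρ (x i) (z i) := fun i =>
        Set.indicator_of_mem (hx i (Set.mem_univ i)) _
      simp_rw [this]
    · rw [Set.indicator_of_notMem hx]
      have : ∃ i, z i ∉ s i := by
        by_contra hc
        push Not at hc
        exact hx (fun i _ => hc i)
      obtain ⟨i, hi⟩ := this
      rw [Finset.prod_eq_zero (Finset.mem_univ i) (Set.indicator_of_notMem hi _)]
      simp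
  simp_rw [e1]
  have hint : ∀ i, Integrable ((s i).indicator (fun t => P0b_k ρ (x i) t))
      (gaussianReal 0 1) := fun i => (P0b_int ρ (x i) hq).indicator (hs i)
  have hnn : ∀ i t, 0 ≤ (s i).indicator (fun t => P0b_k ρ (x i) t) t :=
    fun i t => Set.indicator_nonneg (fun _ _ => P0b_k_nonneg _ _ _) t
  unfold gam
  rw [← ofReal_integral_eq_lintegral_ofReal (Integrable.fintype_prod hint)
    (Filter.Eventually.of_forall fun x => Finset.prod_nonneg fun i _ => hnn i (x i)),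
    integral_fintype_prod_eq_prod, ENNReal.ofReal_prod_of_nonneg
      (fun i _ => integral_nonneg (hnn i))]
  refine Finset.prod_congr rfl fun i _ => ?_
  rw [P0b_one ρ (x i) hq, withDensity_apply _ (hs i), ofReal_integral_eq_lintegral_ofReal (hint i)
    (Filter.Eventually.of_forall (hnn i)), ← lintegral_indicator (hs i)]
  refine lintegral_congr fun t => ?_
  by_cases ht : t ∈ s i
  · simp [ht]
  · simp [ht]

private theorem P0b_K {ρ : ℝ} (hq : 0 < 1 - ρ ^ 2) (x z : Fin 2 → ℝ) :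
    ∏ i, P0b_k ρ (x i) (z i) = (1 - ρ ^ 2)⁻¹ *
      Real.exp (-(ρ ^ 2 * (dot x x + dot z z) - 2 * ρ * dot x z) / (2 * (1 - ρ ^ 2))) := by
  rw [Fin.prod_univ_two]
  unfold P0b_k dot
  simp only [Fin.sum_univ_two]
  have e1 : (Real.sqrt (1 - ρ ^ 2))⁻¹ * (Real.sqrt (1 - ρ ^ 2))⁻¹ = (1 - ρ ^ 2)⁻¹ := by
    rw [← mul_inv, Real.mul_self_sqrt hq.le]
  rw [← e1]
  have e2 : Real.exp (-(ρ ^ 2 * (x 0 * x 0 + x 1 * x 1 + (z 0 * z 0 + z 1 * z 1))
        - 2 * ρ * (x 0 * z 0 + x 1 * z 1)) / (2 * (1 - ρ ^ 2)))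
      = Real.exp (-(ρ ^ 2 * (x 0 * x 0 + z 0 * z 0) - 2 * ρ * (x 0 * z 0)) / (2 * (1 - ρ ^ 2)))
        * Real.exp (-(ρ ^ 2 * (x 1 * x 1 + z 1 * z 1) - 2 * ρ * (x 1 * z 1)) / (2 * (1 - ρ ^ 2))) := by
    rw [← Real.exp_add]
    congr 1
    ring
  rw [e2]
  ring

private theorem P0b_gen {κ : Type} [Fintype κ] (ρ : ℝ) (K : (κ → ℝ) → (κ → ℝ) → ℝ)
    (hKm : Measurable (fun p : (κ → ℝ) × (κ → ℝ) => K p.1 p.2)) (hK0 : ∀ x z, 0 ≤ K x z)
    (hmap : ∀ x : κ → ℝ, (gam κ).map (fun y => ρ • x + Real.sqrt (1 - ρ ^ 2) • y)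
      = (gam κ).withDensity (fun z => ENNReal.ofReal (K x z))) (f h : (κ → ℝ) → ℝ)
    (hf : Bm f) (hh : Bm h) :
    Integrable (fun p : (κ → ℝ) × (κ → ℝ) => f p.1 * h p.2 * K p.1 p.2) ((gam κ).prod (gam κ)) ∧
    sg ρ f h = ∫ x, ∫ z, f x * h z * K x z ∂(gam κ) ∂(gam κ) := by
  obtain ⟨A, hA⟩ := hf.bdd
  obtain ⟨B, hB⟩ := hh.bdd
  have hKx : ∀ x, Measurable (K x) := fun x => hKm.comp (measurable_const.prodMk measurable_id)
  have haff : ∀ x : κ → ℝ, Measurable (fun y : κ → ℝ => ρ • x + Real.sqrt (1 - ρ ^ 2) • y) :=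
    fun x => oub_am (ρ • x) (Real.sqrt (1 - ρ ^ 2))
  have hKi : ∀ x, Integrable (K x) (gam κ) ∧ ∫ z, K x z ∂(gam κ) = 1 := by
    intro x
    have e : (gam κ).map (fun y => ρ • x + Real.sqrt (1 - ρ ^ 2) • y) Set.univ
      = (gam κ).withDensity (fun z => ENNReal.ofReal (K x z)) Set.univ := by rw [hmap x]
    rw [Measure.map_apply (haff x) MeasurableSet.univ, withDensity_apply _ MeasurableSet.univ,
      Measure.restrict_univ, Set.preimage_univ, measure_univ] at e
    have hi : Integrable (K x) (gam κ) := by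
      refine ⟨(hKx x).aestronglyMeasurable, ?_⟩
      rw [hasFiniteIntegral_iff_ofReal (Filter.Eventually.of_forall fun z => hK0 x z), ← e]
      simp
    refine ⟨hi, ?_⟩
    rw [integral_eq_lintegral_of_nonneg_ae (Filter.Eventually.of_forall fun z => hK0 x z)
      (hKx x).aestronglyMeasurable, ← e]
    simp
  have hint : ∀ (g : (κ → ℝ) → ℝ), Measurable g → ∀ x,
      ∫ y, g (ρ • x + Real.sqrt (1 - ρ ^ 2) • y) ∂(gam κ) = ∫ z, g z * K x z ∂(gam κ) := by
    intro g hg x
    have e := integral_map (μ := gam κ) (φ := fun y => ρ • x + Real.sqrt (1 - ρ ^ 2) • y)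
      (f := g) (haff x).aemeasurable hg.aestronglyMeasurable
    rw [← e, hmap x, integral_withDensity_eq_integral_toReal_smul (hKx x).ennreal_ofReal
      (Filter.Eventually.of_forall fun x => ENNReal.ofReal_lt_top)]
    refine integral_congr_ae (Filter.Eventually.of_forall fun z => ?_)
    simp only [smul_eq_mul]
    rw [ENNReal.toReal_ofReal (hK0 x z), mul_comm]
  have hb : ∀ x z, |f x * h z * K x z| ≤ A * B * K x z := by
    intro x z
    rw [abs_mul, abs_mul, abs_of_nonneg (hK0 x z)]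
    exact mul_le_mul_of_nonneg_right (mul_le_mul (hA x) (hB z) (abs_nonneg _)
      ((abs_nonneg _).trans (hA x))) (hK0 x z)
  have hm : Measurable (fun p : (κ → ℝ) × (κ → ℝ) => f p.1 * h p.2 * K p.1 p.2) :=
    ((hf.meas.comp measurable_fst).mul (hh.meas.comp measurable_snd)).mul hKm
  have hxi : ∀ x, Integrable (fun z => f x * h z * K x z) (gam κ) := fun x =>
    ((hKi x).1.const_mul (A * B)).mono' (hm.comp (measurable_const.prodMk measurable_id)).aestronglyMeasurable
      (Filter.Eventually.of_forall fun z => by rw [Real.norm_eq_abs]; exact hb x z)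
  refine ⟨?_, ?_⟩
  · rw [integrable_prod_iff hm.aestronglyMeasurable]
    refine ⟨Filter.Eventually.of_forall fun x => hxi x, ?_⟩
    refine Integrable.of_bound (C := A * B) ?_ (Filter.Eventually.of_forall fun x => ?_)
    · exact (hm.norm.stronglyMeasurable.integral_prod_right (ν := gam κ)).aestronglyMeasurable
    · rw [Real.norm_eq_abs, abs_of_nonneg (integral_nonneg fun z => norm_nonneg _)]
      have e : ∫ z, A * B * K x z ∂(gam κ) = A * B := by
        rw [integral_const_mul, (hKi x).2, mul_one]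
      rw [← e]
      refine integral_mono_of_nonneg (Filter.Eventually.of_forall fun z => norm_nonneg _)
        ((hKi x).1.const_mul _) (Filter.Eventually.of_forall fun z => ?_)
      simp only [Real.norm_eq_abs]
      exact hb x z
  · rw [sg_eq_OU hf hh ρ]
    refine integral_congr_ae (Filter.Eventually.of_forall fun x => ?_)
    simp only [OU]
    rw [hint h hh.meas x, ← integral_const_mul]
    refine integral_congr_ae (Filter.Eventually.of_forall fun z => ?_)
    simp only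
    ring

theorem pP0b : StP0b := by
  intro ρ f h h0 h1 hf hh
  have hq : 0 < 1 - ρ ^ 2 := by nlinarith
  refine P0b_gen ρ (fun x z => (1 - ρ ^ 2)⁻¹ *
      Real.exp (-(ρ ^ 2 * (dot x x + dot z z) - 2 * ρ * dot x z) / (2 * (1 - ρ ^ 2)))) ?_ ?_ ?_
      f h hf hh
  · simp only [dot]
    fun_prop
  · intro x z
    have := inv_pos.2 hq
    positivity
  · intro x
    rw [P0b_map ρ hq x]
    congr 1
    funext z
    rw [P0b_K hq x z]

end Pool.TC
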