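import Pool.Agent.TC.St

/-! TC module P0c: the noise stability of the plane in polar coordinates. -/

set_option autoImplicit false

open MeasureTheory ProbabilityTheory Pool.H65.PS Pool.H65.PT

namespace Pool.TC

private theorem P0c_mp {A B C D : Type} [MeasurableSpace A] [MeasurableSpace B] [MeasurableSpace C]
    [MeasurableSpace D] (a : Measure A) (b : Measure B) (c : Measure C) (d : Measure D)
    [SFinite a] [SFinite b] [SFinite c] [SFinite d] :
    MeasurePreserving (fun p : (A × B) × (C × D) => ((p.1.1, p.2.1), (p.1.2, p.2.2)))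
      ((a.prod b).prod (c.prod d)) ((a.prod c).prod (b.prod d)) := by
  have h1 := measurePreserving_prodAssoc a b (c.prod d)
  have h2 := (measurePreserving_prodAssoc b c d).symm
  have h3 : MeasurePreserving (Prod.map Prod.swap id) ((b.prod c).prod d) ((c.prod b).prod d) :=
    MeasurePreserving.prod (Measure.measurePreserving_swap (μ := b) (ν := c)) (MeasurePreserving.id d)
  have h4 := measurePreserving_prodAssoc c b d
  have h5 := MeasurePreserving.prod (MeasurePreserving.id a) (h4.comp (h3.comp h2))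
  have h6 := (measurePreserving_prodAssoc a c (b.prod d)).symm
  exact h6.comp (h5.comp h1)

private theorem P0c_pt2 : Measurable (fun p : ℝ × ℝ => pt2 p.1 p.2) := by
  rw [measurable_pi_iff]
  intro i
  fin_cases i
  · show Measurable (fun p : ℝ × ℝ => p.1 * Real.cos p.2)
    exact measurable_fst.mul (Real.measurable_cos.comp measurable_snd)
  · show Measurable (fun p : ℝ × ℝ => p.1 * Real.sin p.2)
    exact measurable_fst.mul (Real.measurable_sin.comp measurable_snd)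

private theorem P0c_dot (s θ t φ : ℝ) : dot (pt2 s θ) (pt2 t φ) = s * t * Real.cos (θ - φ) := by
  unfold dot pt2
  rw [Fin.sum_univ_two, Real.cos_sub]
  simp only [Matrix.cons_val_zero, Matrix.cons_val_one]
  ring

private theorem P0c_form (ρ s t θ φ u v : ℝ) (h0 : 0 ≤ ρ) (h1 : ρ < 1) :
    u * v * ((1 - ρ ^ 2)⁻¹ * Real.exp (-(ρ ^ 2 * (dot (pt2 s θ) (pt2 s θ) +
      dot (pt2 t φ) (pt2 t φ)) - 2 * ρ * dot (pt2 s θ) (pt2 t φ)) / (2 * (1 - ρ ^ 2)))) =
    kap ρ s t * (u * v * Real.exp (bb ρ s t * Real.cos (θ - φ))) := by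
  have hq : 1 - ρ ^ 2 ≠ 0 := by nlinarith
  rw [P0c_dot, P0c_dot, P0c_dot, sub_self, sub_self, Real.cos_zero]
  unfold kap bb
  have he : -(ρ ^ 2 * (s * s * 1 + t * t * 1) - 2 * ρ * (s * t * Real.cos (θ - φ))) /
      (2 * (1 - ρ ^ 2)) = -(ρ ^ 2 * (s ^ 2 + t ^ 2)) / (2 * (1 - ρ ^ 2)) +
      ρ * s * t / (1 - ρ ^ 2) * Real.cos (θ - φ) := by
    field_simp
    ring
  rw [he, Real.exp_add]
  ring

private theorem P0c_int (b : ℝ) (u v : ℝ → ℝ) [IsProbabilityMeasure cm] (hu : Measurable u)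
    (hv : Measurable v) (hub : ∃ B, ∀ x, |u x| ≤ B) (hvb : ∃ B, ∀ x, |v x| ≤ B) :
    Integrable (fun q : ℝ × ℝ => u q.1 * v q.2 * Real.exp (b * Real.cos (q.1 - q.2)))
      (cm.prod cm) := by
  obtain ⟨B, hB⟩ := hub
  obtain ⟨B', hB'⟩ := hvb
  have hm : Measurable (fun q : ℝ × ℝ => u q.1 * v q.2 * Real.exp (b * Real.cos (q.1 - q.2))) := by
    refine ((hu.comp measurable_fst).mul (hv.comp measurable_snd)).mul ?_
    exact Real.measurable_exp.comp ((Real.measurable_cos.comp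
      (measurable_fst.sub measurable_snd)).const_mul b)
  refine Integrable.of_bound hm.aestronglyMeasurable (B * B' * Real.exp |b|) ?_
  refine Filter.Eventually.of_forall fun q => ?_
  have h0 : 0 ≤ B := (abs_nonneg _).trans (hB 0)
  rw [norm_mul, norm_mul, Real.norm_eq_abs, Real.norm_eq_abs, Real.norm_eq_abs, Real.abs_exp]
  refine mul_le_mul (mul_le_mul (hB _) (hB' _) (abs_nonneg _) h0) ?_ (Real.exp_pos _).le
    (mul_nonneg h0 ((abs_nonneg _).trans (hB' 0)))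
  refine Real.exp_le_exp.2 ((le_abs_self _).trans ?_)
  rw [abs_mul]
  exact mul_le_of_le_one_right (abs_nonneg _) (Real.abs_cos_le_one _)

theorem pP0c (hP0a : StP0a) (hP0b : StP0b) : StP0c := by
  obtain ⟨hcm, hrm, hmap⟩ := hP0a
  intro ρ f h h0 h1 hf hh
  obtain ⟨hint, hval⟩ := hP0b ρ f h h0 h1 hf hh
  have hΦ := P0c_pt2
  have hT := P0c_mp rm rm cm cm
  have hmm : Measure.map (Prod.map (fun p : ℝ × ℝ => pt2 p.1 p.2) (fun p : ℝ × ℝ => pt2 p.1 p.2))
      ((rm.prod cm).prod (rm.prod cm)) = (gam (Fin 2)).prod (gam (Fin 2)) := by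
    rw [← Measure.map_prod_map _ _ hΦ hΦ, hmap]
  have hTT := Measure.map_map (hΦ.prodMap hΦ) hT.measurable
    (μ := (rm.prod rm).prod (cm.prod cm))
  rw [hT.map_eq, hmm] at hTT
  have hmeas := (hΦ.prodMap hΦ).comp hT.measurable
  have hint2 := hint
  rw [hTT] at hint2
  have hi := (integrable_map_measure hint2.aestronglyMeasurable hmeas.aemeasurable).1 hint2
  have hform : ((fun p : (Fin 2 → ℝ) × (Fin 2 → ℝ) => f p.1 * h p.2 * ((1 - ρ ^ 2)⁻¹ *
      Real.exp (-(ρ ^ 2 * (dot p.1 p.1 + dot p.2 p.2) - 2 * ρ * dot p.1 p.2) /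
        (2 * (1 - ρ ^ 2))))) ∘ (Prod.map (fun p : ℝ × ℝ => pt2 p.1 p.2)
        (fun p : ℝ × ℝ => pt2 p.1 p.2) ∘ fun p : (ℝ × ℝ) × (ℝ × ℝ) =>
          ((p.1.1, p.2.1), (p.1.2, p.2.2)))) =
      fun p : (ℝ × ℝ) × (ℝ × ℝ) => kap ρ p.1.1 p.1.2 * (f (pt2 p.1.1 p.2.1) *
        h (pt2 p.1.2 p.2.2) * Real.exp (bb ρ p.1.1 p.1.2 * Real.cos (p.2.1 - p.2.2))) := by
    funext p
    exact P0c_form ρ p.1.1 p.1.2 p.2.1 p.2.2 _ _ h0 h1
  rw [hform] at hi
  have hinner : ∀ p : ℝ × ℝ, ∫ q : ℝ × ℝ, kap ρ p.1 p.2 * (f (pt2 p.1 q.1) *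
        h (pt2 p.2 q.2) * Real.exp (bb ρ p.1 p.2 * Real.cos (q.1 - q.2))) ∂(cm.prod cm) =
      kap ρ p.1 p.2 * Qb (bb ρ p.1 p.2) (fun θ => f (pt2 p.1 θ)) (fun φ => h (pt2 p.2 φ)) := by
    intro p
    rw [integral_const_mul]
    congr 1
    refine integral_prod _ (P0c_int (bb ρ p.1 p.2) (fun θ => f (pt2 p.1 θ))
      (fun φ => h (pt2 p.2 φ)) ?_ ?_ ?_ ?_)
    · exact hf.meas.comp (hΦ.comp measurable_prodMk_left)
    · exact hh.meas.comp (hΦ.comp measurable_prodMk_left)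
    · obtain ⟨B, hB⟩ := hf.bdd
      exact ⟨B, fun x => hB _⟩
    · obtain ⟨B, hB⟩ := hh.bdd
      exact ⟨B, fun x => hB _⟩
  have hres : Integrable (fun p : ℝ × ℝ => kap ρ p.1 p.2 *
      Qb (bb ρ p.1 p.2) (fun θ => f (pt2 p.1 θ)) (fun φ => h (pt2 p.2 φ))) (rm.prod rm) := by
    refine (hi.integral_prod_left).congr (Filter.Eventually.of_forall fun p => ?_)
    exact hinner p
  refine ⟨hres, ?_⟩
  rw [hval, ← integral_prod _ hres]
  have e1 := integral_prod _ hint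
  have e2 := integral_map hmeas.aemeasurable hint2.aestronglyMeasurable
  rw [← hTT] at e2
  refine e1.symm.trans (e2.trans ?_)
  have e3 : (∫ x : (ℝ × ℝ) × (ℝ × ℝ), ((fun p : (Fin 2 → ℝ) × (Fin 2 → ℝ) =>
      f p.1 * h p.2 * ((1 - ρ ^ 2)⁻¹ *
      Real.exp (-(ρ ^ 2 * (dot p.1 p.1 + dot p.2 p.2) - 2 * ρ * dot p.1 p.2) /
        (2 * (1 - ρ ^ 2))))) ∘ (Prod.map (fun p : ℝ × ℝ => pt2 p.1 p.2)
        (fun p : ℝ × ℝ => pt2 p.1 p.2) ∘ fun p : (ℝ × ℝ) × (ℝ × ℝ) =>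
          ((p.1.1, p.2.1), (p.1.2, p.2.2)))) x ∂((rm.prod rm).prod (cm.prod cm))) =
      ∫ p : ℝ × ℝ, kap ρ p.1 p.2 *
      Qb (bb ρ p.1 p.2) (fun θ => f (pt2 p.1 θ)) (fun φ => h (pt2 p.2 φ)) ∂(rm.prod rm) := by
    rw [hform, integral_prod _ hi]
    exact integral_congr_ae (Filter.Eventually.of_forall fun p => hinner p)
  exact e3

end Pool.TC
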