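import Pool.Agent.TC.St

/-! Project TC, module P0d. -/

set_option autoImplicit false

open MeasureTheory ProbabilityTheory Pool.H65.PS Pool.H65.PT

namespace Pool.TC

private theorem P0d_cm_fin : IsFiniteMeasure cm := by
  unfold cm
  exact Measure.smul_finite _ ENNReal.ofReal_ne_top

private theorem P0d_I0_meas : Measurable I0 := by
  have := P0d_cm_fin
  have h : StronglyMeasurable (fun b : ℝ => ∫ θ, Real.exp (b * Real.cos θ) ∂cm) :=
    StronglyMeasurable.integral_prod_right'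
      (f := fun p : ℝ × ℝ => Real.exp (p.1 * Real.cos p.2))
      (by fun_prop : Continuous (fun p : ℝ × ℝ => Real.exp (p.1 * Real.cos p.2))).stronglyMeasurable
  exact h.measurable

private theorem P0d_I0_nonneg (b : ℝ) : 0 ≤ I0 b := integral_nonneg fun _ => (Real.exp_pos _).le

private theorem P0d_I0 (b : ℝ) : ENNReal.ofReal (I0 b) = ENNReal.ofReal (2 * Real.pi)⁻¹ *
    ∫⁻ θ in Set.Ioo (-Real.pi) Real.pi, ENNReal.ofReal (Real.exp (b * Real.cos θ)) := by
  have := P0d_cm_fin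
  unfold I0
  rw [ofReal_integral_eq_lintegral_ofReal]
  · unfold cm
    rw [lintegral_smul_measure, smul_eq_mul, Measure.restrict_congr_set Ioo_ae_eq_Ioc]
  · refine Integrable.of_bound (by fun_prop : Continuous fun θ : ℝ =>
      Real.exp (b * Real.cos θ)).aestronglyMeasurable (Real.exp |b|)
      (Filter.Eventually.of_forall fun θ => ?_)
    rw [Real.norm_eq_abs, abs_of_pos (Real.exp_pos _)]
    apply Real.exp_le_exp.2
    calc b * Real.cos θ ≤ |b * Real.cos θ| := le_abs_self _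
      _ = |b| * |Real.cos θ| := abs_mul _ _
      _ ≤ |b| * 1 := mul_le_mul_of_nonneg_left (Real.abs_cos_le_one θ) (abs_nonneg b)
      _ = |b| := mul_one _
  · exact Filter.Eventually.of_forall fun θ => (Real.exp_pos _).le

private theorem P0d_kap_nonneg {ρ s t : ℝ} (h0 : 0 ≤ ρ) (h1 : ρ < 1) : 0 ≤ kap ρ s t := by
  unfold kap
  have : 0 < 1 - ρ ^ 2 := by nlinarith
  positivity

private theorem P0d_kap_meas (ρ s : ℝ) : Measurable (fun t => kap ρ s t) := by
  unfold kap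
  fun_prop

private theorem P0d_polar (μ : ℝ) (v : NNReal) (hv : v ≠ 0) :
    ∫⁻ p in Set.Ioi (0 : ℝ) ×ˢ Set.Ioo (-Real.pi) Real.pi, ENNReal.ofReal p.1 *
      (gaussianPDF μ v (p.1 * Real.cos p.2) * gaussianPDF 0 v (p.1 * Real.sin p.2)) = 1 := by
  have h := lintegral_comp_polarCoord_symm
    (fun z : ℝ × ℝ => gaussianPDF μ v z.1 * gaussianPDF 0 v z.2)
  simp only [polarCoord_symm_apply, smul_eq_mul] at h
  rw [polarCoord_target] at h
  rw [h, Measure.volume_eq_prod, lintegral_prod_mul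
    (measurable_gaussianPDF μ v).aemeasurable (measurable_gaussianPDF 0 v).aemeasurable,
    lintegral_gaussianPDF_eq_one μ hv, lintegral_gaussianPDF_eq_one 0 hv, one_mul]

private theorem P0d_point (ρ s t θ : ℝ) (h0 : 0 ≤ ρ) (h1 : ρ < 1) (ht : 0 < t) (v : NNReal)
    (hv : (v : ℝ) = 1 - ρ ^ 2) :
    ENNReal.ofReal t * (gaussianPDF (ρ * s) v (t * Real.cos θ) * gaussianPDF 0 v (t * Real.sin θ)) =
      ENNReal.ofReal (t * Real.exp (-(t ^ 2) / 2)) * (ENNReal.ofReal (kap ρ s t) *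
        (ENNReal.ofReal (2 * Real.pi)⁻¹ * ENNReal.ofReal (Real.exp (bb ρ s t * Real.cos θ)))) := by
  have hq : 0 < 1 - ρ ^ 2 := by nlinarith
  have hpi := Real.pi_pos
  unfold gaussianPDF
  rw [← ENNReal.ofReal_mul (gaussianPDFReal_nonneg _ _ _), ← ENNReal.ofReal_mul ht.le,
    ← ENNReal.ofReal_mul (by positivity), ← ENNReal.ofReal_mul (P0d_kap_nonneg h0 h1),
    ← ENNReal.ofReal_mul (by positivity)]
  congr 1
  unfold gaussianPDFReal kap bb
  rw [hv]
  have e1 : (Real.sqrt (2 * Real.pi * (1 - ρ ^ 2)))⁻¹ * (Real.sqrt (2 * Real.pi * (1 - ρ ^ 2)))⁻¹ =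
      (2 * Real.pi)⁻¹ * (1 - ρ ^ 2)⁻¹ := by
    rw [← mul_inv, Real.mul_self_sqrt (by positivity), mul_inv]
  have e2 : Real.exp (-(t * Real.cos θ - ρ * s) ^ 2 / (2 * (1 - ρ ^ 2))) *
      Real.exp (-(t * Real.sin θ - 0) ^ 2 / (2 * (1 - ρ ^ 2))) =
      Real.exp (-(t ^ 2) / 2) * (Real.exp (-(ρ ^ 2 * (s ^ 2 + t ^ 2)) / (2 * (1 - ρ ^ 2))) *
        Real.exp (ρ * s * t / (1 - ρ ^ 2) * Real.cos θ)) := by
    rw [← Real.exp_add, ← Real.exp_add, ← Real.exp_add]
    congr 1
    have h3 := Real.sin_sq_add_cos_sq θ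
    have h4 : Real.sin θ ^ 2 = 1 - Real.cos θ ^ 2 := by linarith
    field_simp
    rw [sub_zero, mul_pow t (Real.sin θ), h4]
    ring
  calc t * ((Real.sqrt (2 * Real.pi * (1 - ρ ^ 2)))⁻¹ *
        Real.exp (-(t * Real.cos θ - ρ * s) ^ 2 / (2 * (1 - ρ ^ 2))) *
        ((Real.sqrt (2 * Real.pi * (1 - ρ ^ 2)))⁻¹ *
        Real.exp (-(t * Real.sin θ - 0) ^ 2 / (2 * (1 - ρ ^ 2)))))
      = t * ((Real.sqrt (2 * Real.pi * (1 - ρ ^ 2)))⁻¹ *
        (Real.sqrt (2 * Real.pi * (1 - ρ ^ 2)))⁻¹) *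
        (Real.exp (-(t * Real.cos θ - ρ * s) ^ 2 / (2 * (1 - ρ ^ 2))) *
        Real.exp (-(t * Real.sin θ - 0) ^ 2 / (2 * (1 - ρ ^ 2)))) := by ring
    _ = _ := by
      rw [e1, e2]
      ring

private theorem P0d_L (ρ s : ℝ) (h0 : 0 ≤ ρ) (h1 : ρ < 1) :
    ∫⁻ t, ENNReal.ofReal (kap ρ s t * I0 (bb ρ s t)) ∂rm = 1 := by
  have hq : 0 < 1 - ρ ^ 2 := by nlinarith
  let v : NNReal := ⟨1 - ρ ^ 2, hq.le⟩
  have hv : (v : ℝ) = 1 - ρ ^ 2 := rfl
  have hv0 : v ≠ 0 := by
    intro h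
    rw [h] at hv
    simp only [NNReal.coe_zero] at hv
    linarith
  have hm1 : Measurable (fun t => ENNReal.ofReal (kap ρ s t * I0 (bb ρ s t))) := by
    refine ENNReal.measurable_ofReal.comp ((P0d_kap_meas ρ s).mul (P0d_I0_meas.comp ?_))
    unfold bb
    fun_prop
  unfold rm
  rw [lintegral_withDensity_eq_lintegral_mul _ (by fun_prop) hm1, ← P0d_polar (ρ * s) v hv0,
    Measure.volume_eq_prod, ← Measure.prod_restrict, lintegral_prod]
  · refine setLIntegral_congr_fun measurableSet_Ioi fun t ht => ?_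
    simp only [Pi.mul_apply]
    rw [ENNReal.ofReal_mul (P0d_kap_nonneg h0 h1), P0d_I0,
      ← lintegral_const_mul _ (by fun_prop), ← lintegral_const_mul _ (by fun_prop),
      ← lintegral_const_mul _ (by fun_prop)]
    refine lintegral_congr fun θ => ?_
    exact (P0d_point ρ s t θ h0 h1 ht v hv).symm
  · refine Measurable.aemeasurable ?_
    have m1 := (measurable_gaussianPDF (ρ * s) v).comp
      (by fun_prop : Measurable fun p : ℝ × ℝ => p.1 * Real.cos p.2)
    have m2 := (measurable_gaussianPDF 0 v).comp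
      (by fun_prop : Measurable fun p : ℝ × ℝ => p.1 * Real.sin p.2)
    exact (ENNReal.measurable_ofReal.comp measurable_fst).mul (m1.mul m2)

private theorem P0d_rm : IsProbabilityMeasure rm := by
  refine ⟨?_⟩
  have h := P0d_L 0 0 le_rfl one_pos
  have h1 : ∀ t, kap 0 0 t * I0 (bb 0 0 t) = 1 := by
    intro t
    have h2 : I0 0 = 1 := by
      have h3 := P0d_I0 0
      simp only [zero_mul, Real.exp_zero, ENNReal.ofReal_one, lintegral_one,
        Measure.restrict_apply_univ, Real.volume_Ioo] at h3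
      rw [← ENNReal.ofReal_mul (by positivity), ENNReal.ofReal_eq_ofReal_iff
        (P0d_I0_nonneg 0) (mul_nonneg (by positivity) (by linarith [Real.pi_pos]))] at h3
      rw [h3]
      have := Real.pi_pos
      field_simp
      ring
    simp [kap, bb, h2]
  simp only [h1, ENNReal.ofReal_one, lintegral_one] at h
  exact h

private theorem P0d_one (ρ s : ℝ) (h0 : 0 ≤ ρ) (h1 : ρ < 1) :
    Integrable (fun t => kap ρ s t * I0 (bb ρ s t)) rm ∧
      ∫ t, kap ρ s t * I0 (bb ρ s t) ∂rm = 1 := by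
  have hL := P0d_L ρ s h0 h1
  have hm : Measurable (fun t => kap ρ s t * I0 (bb ρ s t)) := by
    refine (P0d_kap_meas ρ s).mul (P0d_I0_meas.comp ?_)
    unfold bb
    fun_prop
  have hnn : ∀ t, 0 ≤ kap ρ s t * I0 (bb ρ s t) := fun t =>
    mul_nonneg (P0d_kap_nonneg h0 h1) (P0d_I0_nonneg _)
  constructor
  · rw [← lintegral_ofReal_ne_top_iff_integrable hm.aestronglyMeasurable
      (Filter.Eventually.of_forall hnn), hL]
    exact ENNReal.one_ne_top
  · rw [integral_eq_lintegral_of_nonneg_ae (Filter.Eventually.of_forall hnn)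
      hm.aestronglyMeasurable, hL, ENNReal.toReal_one]

theorem pP0d : StP0d := by
  intro ρ h0 h1
  have hr := P0d_rm
  refine ⟨?_, fun s _ => P0d_one ρ s h0 h1⟩
  have hm : Measurable (fun p : ℝ × ℝ => kap ρ p.1 p.2 * I0 (bb ρ p.1 p.2)) := by
    refine Measurable.mul ?_ (P0d_I0_meas.comp ?_)
    · unfold kap
      fun_prop
    · unfold bb
      fun_prop
  rw [integrable_prod_iff hm.aestronglyMeasurable]
  refine ⟨Filter.Eventually.of_forall fun s => (P0d_one ρ s h0 h1).1, ?_⟩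
  have h2 : ∀ s : ℝ, ∫ t, ‖kap ρ s t * I0 (bb ρ s t)‖ ∂rm = 1 := by
    intro s
    rw [← (P0d_one ρ s h0 h1).2]
    refine integral_congr_ae (Filter.Eventually.of_forall fun t => ?_)
    simp only
    rw [Real.norm_eq_abs, abs_of_nonneg (mul_nonneg (P0d_kap_nonneg h0 h1) (P0d_I0_nonneg _))]
  simp only [h2]
  exact integrable_const _

end Pool.TC
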