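import Pool.Agent.TC.St

/-! Module P1 of project TC (MP_c6cf29_pr): positive definiteness of the kernel `exp (b cos (θ - φ))`. -/

set_option autoImplicit false

open MeasureTheory ProbabilityTheory Pool.H65.PS Pool.H65.PT Filter

namespace Pool.TC

theorem P1_cm_univ : cm Set.univ = 1 := by
  unfold cm
  have h2 : (0 : ℝ) < 2 * Real.pi := by positivity
  rw [Measure.smul_apply, Measure.restrict_apply MeasurableSet.univ, Set.univ_inter, Real.volume_Ioc,
    smul_eq_mul, ← ENNReal.ofReal_mul (by positivity)]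
  rw [show (2 * Real.pi)⁻¹ * (Real.pi - -Real.pi) = 1 by field_simp; ring]
  exact ENNReal.ofReal_one

instance P1_prob : IsProbabilityMeasure cm := ⟨P1_cm_univ⟩

/-- rotation invariance -/
theorem P1_rot (b θ : ℝ) : ∫ φ, Real.exp (b * Real.cos (θ - φ)) ∂cm = I0 b := by
  unfold I0 cm
  rw [integral_smul_measure, integral_smul_measure]
  congr 1
  have hpi : -Real.pi ≤ Real.pi := by linarith [Real.pi_pos]
  rw [← intervalIntegral.integral_of_le hpi, ← intervalIntegral.integral_of_le hpi]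
  rw [intervalIntegral.integral_comp_sub_left (fun x => Real.exp (b * Real.cos x)) θ]
  have hper : Function.Periodic (fun x => Real.exp (b * Real.cos x)) (2 * Real.pi) := by
    intro x
    simp only [Real.cos_add_two_pi]
  have h := hper.intervalIntegral_add_eq (θ - Real.pi) (-Real.pi)
  rw [show θ - Real.pi + 2 * Real.pi = θ - -Real.pi by ring, show -Real.pi + 2 * Real.pi = Real.pi by ring] at h
  exact h

/-- bounded measurable functions are integrable -/
theorem P1_integrable {f : ℝ × ℝ → ℝ} (hf : Measurable f) (C : ℝ) (h : ∀ p, |f p| ≤ C) :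
    Integrable f (cm.prod cm) :=
  (integrable_const C).mono' hf.aestronglyMeasurable (Filter.Eventually.of_forall fun p => by
    rw [Real.norm_eq_abs]
    exact h p)

theorem P1_integrable1 {f : ℝ → ℝ} (hf : Measurable f) (C : ℝ) (h : ∀ p, |f p| ≤ C) :
    Integrable f cm :=
  (integrable_const C).mono' hf.aestronglyMeasurable (Filter.Eventually.of_forall fun p => by
    rw [Real.norm_eq_abs]
    exact h p)

theorem P1_abs {b : ℝ} (hb : 0 ≤ b) {u v : ℝ → ℝ} {A B : ℝ} (hu : ∀ θ, |u θ| ≤ A) (hv : ∀ θ, |v θ| ≤ B) (p : ℝ × ℝ) :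
    |u p.1 * v p.2 * Real.exp (b * Real.cos (p.1 - p.2))| ≤ A * B * Real.exp b := by
  have hA : 0 ≤ A := (abs_nonneg _).trans (hu 0)
  rw [abs_mul, abs_mul, abs_of_pos (Real.exp_pos _)]
  refine mul_le_mul (mul_le_mul (hu _) (hv _) (abs_nonneg _) hA) ?_ (Real.exp_pos _).le
    (mul_nonneg hA ((abs_nonneg _).trans (hv 0)))
  refine Real.exp_le_exp.2 ?_
  nlinarith [Real.cos_le_one (p.1 - p.2)]

theorem P1_meas {b : ℝ} {u v : ℝ → ℝ} (hu : Measurable u) (hv : Measurable v) :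
    Measurable (fun p : ℝ × ℝ => u p.1 * v p.2 * Real.exp (b * Real.cos (p.1 - p.2))) := by
  have h1 : Measurable fun p : ℝ × ℝ => u p.1 := hu.comp measurable_fst
  have h2 : Measurable fun p : ℝ × ℝ => v p.2 := hv.comp measurable_snd
  have h3 : Measurable fun p : ℝ × ℝ => Real.exp (b * Real.cos (p.1 - p.2)) := by fun_prop
  exact (h1.mul h2).mul h3

theorem P1_int {b : ℝ} (hb : 0 ≤ b) {u v : ℝ → ℝ} (hu : Measurable u) (hv : Measurable v) {A B : ℝ}
    (hA : ∀ θ, |u θ| ≤ A) (hB : ∀ θ, |v θ| ≤ B) :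
    Integrable (fun p : ℝ × ℝ => u p.1 * v p.2 * Real.exp (b * Real.cos (p.1 - p.2))) (cm.prod cm) :=
  P1_integrable (P1_meas hu hv) _ (P1_abs hb hA hB)

/-- `Qb` as an integral over the product -/
theorem P1_Qb {b : ℝ} (hb : 0 ≤ b) {u v : ℝ → ℝ} (hu : Measurable u) (hv : Measurable v) {A B : ℝ}
    (hA : ∀ θ, |u θ| ≤ A) (hB : ∀ θ, |v θ| ≤ B) :
    Qb b u v = ∫ p : ℝ × ℝ, u p.1 * v p.2 * Real.exp (b * Real.cos (p.1 - p.2)) ∂(cm.prod cm) := by
  unfold Qb
  rw [integral_prod _ (P1_int hb hu hv hA hB)]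

/-- symmetry -/
theorem P1_symm {b : ℝ} (hb : 0 ≤ b) {u v : ℝ → ℝ} (hu : Measurable u) (hv : Measurable v) {A B : ℝ}
    (hA : ∀ θ, |u θ| ≤ A) (hB : ∀ θ, |v θ| ≤ B) : Qb b u v = Qb b v u := by
  rw [P1_Qb hb hu hv hA hB, P1_Qb hb hv hu hB hA, ← integral_prod_swap]
  refine integral_congr_ae (Filter.Eventually.of_forall fun p => ?_)
  simp only [Prod.fst_swap, Prod.snd_swap]
  rw [show p.2 - p.1 = -(p.1 - p.2) by ring, Real.cos_neg]
  ring

/-- positivity of the partial sums -/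
theorem P1_part {b : ℝ} (hb : 0 ≤ b) {w : ℝ → ℝ} (hw : Measurable w) {A : ℝ} (hA : ∀ θ, |w θ| ≤ A) (n : ℕ) :
    0 ≤ ∫ p : ℝ × ℝ, w p.1 * w p.2 * ∑ k ∈ Finset.range n, (b * Real.cos (p.1 - p.2)) ^ k / (k.factorial : ℝ)
      ∂(cm.prod cm) := by
  have hA0 : 0 ≤ A := (abs_nonneg _).trans (hA 0)
  have e1 : ∀ p : ℝ × ℝ, w p.1 * w p.2 * ∑ k ∈ Finset.range n, (b * Real.cos (p.1 - p.2)) ^ k / (k.factorial : ℝ) =
      ∑ k ∈ Finset.range n, ∑ j ∈ Finset.range (k + 1), (b ^ k / (k.factorial : ℝ) * (k.choose j : ℝ)) *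
        ((w p.1 * Real.cos p.1 ^ j * Real.sin p.1 ^ (k - j)) * (w p.2 * Real.cos p.2 ^ j * Real.sin p.2 ^ (k - j))) := by
    intro p
    rw [Finset.mul_sum]
    refine Finset.sum_congr rfl fun k _ => ?_
    rw [Real.cos_sub, mul_pow, add_pow, Finset.mul_sum, Finset.sum_div, Finset.mul_sum]
    refine Finset.sum_congr rfl fun j _ => ?_
    rw [mul_pow, mul_pow]
    ring
  have hm : ∀ k j : ℕ, Measurable fun x : ℝ => w x * Real.cos x ^ j * Real.sin x ^ (k - j) := by
    intro k j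
    exact (hw.mul (Real.measurable_cos.pow_const j)).mul (Real.measurable_sin.pow_const (k - j))
  have hbd : ∀ (k j : ℕ) (x : ℝ), |w x * Real.cos x ^ j * Real.sin x ^ (k - j)| ≤ A := by
    intro k j x
    rw [abs_mul, abs_mul, abs_pow, abs_pow]
    have h1 : |Real.cos x| ^ j ≤ 1 := pow_le_one₀ (abs_nonneg _) (Real.abs_cos_le_one x)
    have h2 : |Real.sin x| ^ (k - j) ≤ 1 := pow_le_one₀ (abs_nonneg _) (Real.abs_sin_le_one x)
    have h3 : |w x| * |Real.cos x| ^ j ≤ A * 1 := mul_le_mul (hA x) h1 (by positivity) hA0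
    have h4 := mul_le_mul h3 h2 (by positivity) (by positivity)
    linarith
  have hint : ∀ (k j : ℕ), Integrable (fun p : ℝ × ℝ => (b ^ k / (k.factorial : ℝ) * (k.choose j : ℝ)) *
        ((w p.1 * Real.cos p.1 ^ j * Real.sin p.1 ^ (k - j)) * (w p.2 * Real.cos p.2 ^ j * Real.sin p.2 ^ (k - j))))
        (cm.prod cm) := by
    intro k j
    exact ((P1_integrable1 (hm k j) A (hbd k j)).mul_prod (P1_integrable1 (hm k j) A (hbd k j))).const_mul _
  simp only [e1]
  rw [integral_finsetSum _ fun k _ => integrable_finsetSum _ fun j _ => hint k j]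
  refine Finset.sum_nonneg fun k _ => ?_
  rw [integral_finsetSum _ fun j _ => hint k j]
  refine Finset.sum_nonneg fun j _ => ?_
  rw [integral_const_mul]
  refine mul_nonneg (by positivity) ?_
  rw [integral_prod_mul (fun x => w x * Real.cos x ^ j * Real.sin x ^ (k - j))
    (fun x => w x * Real.cos x ^ j * Real.sin x ^ (k - j))]
  exact mul_self_nonneg _

/-- positive definiteness -/
theorem P1_pos {b : ℝ} (hb : 0 ≤ b) {w : ℝ → ℝ} (hw : Measurable w) {A : ℝ} (hA : ∀ θ, |w θ| ≤ A) :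
    0 ≤ Qb b w w := by
  have hA0 : 0 ≤ A := (abs_nonneg _).trans (hA 0)
  rw [P1_Qb hb hw hw hA hA]
  have ht : Tendsto (fun n : ℕ => ∫ p : ℝ × ℝ, w p.1 * w p.2 *
      ∑ k ∈ Finset.range n, (b * Real.cos (p.1 - p.2)) ^ k / (k.factorial : ℝ) ∂(cm.prod cm)) atTop
      (nhds (∫ p : ℝ × ℝ, w p.1 * w p.2 * Real.exp (b * Real.cos (p.1 - p.2)) ∂(cm.prod cm))) := by
    refine tendsto_integral_of_dominated_convergence (fun _ => A * A * Real.exp b) ?_ (integrable_const _) ?_ ?_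
    · intro n
      have h1 : Measurable fun p : ℝ × ℝ => w p.1 := hw.comp measurable_fst
      have h2 : Measurable fun p : ℝ × ℝ => w p.2 := hw.comp measurable_snd
      have h3 : Measurable fun p : ℝ × ℝ => ∑ k ∈ Finset.range n, (b * Real.cos (p.1 - p.2)) ^ k / (k.factorial : ℝ) := by
        fun_prop
      exact ((h1.mul h2).mul h3).aestronglyMeasurable
    · intro n
      refine Filter.Eventually.of_forall fun p => ?_
      rw [Real.norm_eq_abs, abs_mul, abs_mul]
      refine mul_le_mul (mul_le_mul (hA _) (hA _) (abs_nonneg _) hA0) ?_ (abs_nonneg _) (by positivity)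
      refine (Finset.abs_sum_le_sum_abs _ _).trans ?_
      have h1 : ∀ k ∈ Finset.range n, |(b * Real.cos (p.1 - p.2)) ^ k / (k.factorial : ℝ)| ≤ b ^ k / (k.factorial : ℝ) := by
        intro k _
        rw [abs_div, abs_pow, abs_mul, abs_of_nonneg hb, abs_of_nonneg (show (0 : ℝ) ≤ (k.factorial : ℝ) by positivity)]
        refine div_le_div_of_nonneg_right (pow_le_pow_left₀ (by positivity) ?_ k) (by positivity)
        have := Real.abs_cos_le_one (p.1 - p.2)
        nlinarith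
      exact (Finset.sum_le_sum h1).trans (Real.sum_le_exp_of_nonneg hb n)
    · refine Filter.Eventually.of_forall fun p => ?_
      refine Tendsto.const_mul _ ?_
      have h1 := (NormedSpace.expSeries_div_hasSum_exp (𝔸 := ℝ) (b * Real.cos (p.1 - p.2))).tendsto_sum_nat
      rw [← Real.exp_eq_exp_ℝ] at h1
      exact h1
  exact ge_of_tendsto' ht fun n => P1_part hb hw hA n

/-- constant second factor -/
theorem P1_const {b : ℝ} {w : ℝ → ℝ} (a : ℝ) :
    Qb b w (fun _ => a) = a * I0 b * ∫ θ, w θ ∂cm := by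
  unfold Qb
  have h1 : ∀ θ, ∫ φ, w θ * a * Real.exp (b * Real.cos (θ - φ)) ∂cm = w θ * a * I0 b := by
    intro θ
    rw [integral_const_mul, P1_rot]
  simp only [h1]
  rw [integral_mul_const, integral_mul_const]
  ring

/-- additivity -/
theorem P1_sub {b : ℝ} (hb : 0 ≤ b) {u v : ℝ → ℝ} (hu : Measurable u) (hv : Measurable v) {A B : ℝ}
    (hA : ∀ θ, |u θ| ≤ A) (hB : ∀ θ, |v θ| ≤ B) :
    Qb b (fun θ => u θ - v θ) (fun θ => u θ - v θ) = Qb b u u + Qb b v v - 2 * Qb b u v := by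
  have hAB : ∀ θ, |u θ - v θ| ≤ A + B := fun θ => (abs_sub _ _).trans (add_le_add (hA θ) (hB θ))
  rw [show 2 * Qb b u v = Qb b u v + Qb b v u by rw [P1_symm hb hv hu hB hA]; ring]
  have hm : Measurable (fun θ => u θ - v θ) := hu.sub hv
  rw [P1_Qb hb (u := fun θ => u θ - v θ) (v := fun θ => u θ - v θ) hm hm hAB hAB, P1_Qb hb hu hu hA hA, P1_Qb hb hv hv hB hB,
    P1_Qb hb hu hv hA hB, P1_Qb hb hv hu hB hA]
  have i12 : Integrable (fun p : ℝ × ℝ => u p.1 * u p.2 * Real.exp (b * Real.cos (p.1 - p.2)) +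
      v p.1 * v p.2 * Real.exp (b * Real.cos (p.1 - p.2))) (cm.prod cm) :=
    (P1_int hb hu hu hA hA).add (P1_int hb hv hv hB hB)
  have i34 : Integrable (fun p : ℝ × ℝ => u p.1 * v p.2 * Real.exp (b * Real.cos (p.1 - p.2)) +
      v p.1 * u p.2 * Real.exp (b * Real.cos (p.1 - p.2))) (cm.prod cm) :=
    (P1_int hb hu hv hA hB).add (P1_int hb hv hu hB hA)
  rw [← integral_add (P1_int hb hu hu hA hA) (P1_int hb hv hv hB hB),
    ← integral_add (P1_int hb hu hv hA hB) (P1_int hb hv hu hB hA), ← integral_sub i12 i34]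
  refine integral_congr_ae (Filter.Eventually.of_forall fun p => ?_)
  simp only
  ring

/-- P1 -/
theorem pP1 : StP1 := by
  intro b u v hb hu hv hA hB
  have hw : Measurable fun θ => u θ - v θ := hu.sub hv
  have hwA : ∀ θ, |u θ - v θ| ≤ 2 := fun θ => (abs_sub _ _).trans (by linarith [hA θ, hB θ])
  set a : ℝ := ∫ θ, (u θ - v θ) ∂cm with ha
  have h1 := P1_pos hb (w := fun θ => (u θ - v θ) - a) (hw.sub measurable_const) (A := 2 + |a|)
    (fun θ => (abs_sub _ _).trans (add_le_add (hwA θ) le_rfl))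
  rw [P1_sub hb (u := fun θ => u θ - v θ) (v := fun _ => a) hw measurable_const hwA (fun _ => le_rfl), P1_const, P1_const,
    P1_sub hb hu hv hA hB, ← ha] at h1
  have h2 : ∫ _θ : ℝ, a ∂cm = a := by
    rw [integral_const, probReal_univ, one_smul]
  rw [h2] at h1
  have h3 : (∫ θ, u θ ∂cm) - ∫ θ, v θ ∂cm = a := by
    rw [ha, integral_sub (P1_integrable1 hu 1 hA) (P1_integrable1 hv 1 hB)]
  rw [h3]
  nlinarith
end Pool.TC
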