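import Mathlib
import Pool.Agent.TC.St

/-! Module P2 of project TC. -/

set_option autoImplicit false

open MeasureTheory ProbabilityTheory Pool.H65.PS Pool.H65.PT

namespace Pool.TC

private theorem P2_cm (f : ℝ → ℝ) :
    ∫ θ, f θ ∂cm = (2 * Real.pi)⁻¹ * ∫ θ in (-Real.pi)..Real.pi, f θ := by
  have hpi := Real.pi_pos
  unfold cm
  rw [integral_smul_measure, ENNReal.toReal_ofReal (by positivity), smul_eq_mul,
    intervalIntegral.integral_of_le (by linarith)]

private theorem P2_prob : IsProbabilityMeasure cm := by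
  have hpi := Real.pi_pos
  refine ⟨?_⟩
  unfold cm
  rw [Measure.smul_apply, Measure.restrict_apply_univ, Real.volume_Ioc, smul_eq_mul,
    ← ENNReal.ofReal_mul (by positivity)]
  rw [show (2 * Real.pi)⁻¹ * (Real.pi - -Real.pi) = 1 by field_simp; ring]
  exact ENNReal.ofReal_one

private theorem P2_shift (f : ℝ → ℝ) (hf : Function.Periodic f (2 * Real.pi)) (a : ℝ) :
    ∫ θ, f (θ + a) ∂cm = ∫ θ, f θ ∂cm := by
  rw [P2_cm, P2_cm, intervalIntegral.integral_comp_add_right]
  congr 1
  have h := hf.intervalIntegral_add_eq (-Real.pi + a) (-Real.pi)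
  rw [show Real.pi + a = -Real.pi + a + 2 * Real.pi by ring, h]
  congr 1
  ring

private theorem P2_bint {f : ℝ → ℝ} (hf : Measurable f) {C : ℝ} (h : ∀ x, |f x| ≤ C) :
    Integrable f cm := by
  have := P2_prob
  exact Integrable.of_bound hf.aestronglyMeasurable C (Filter.Eventually.of_forall h)

private theorem P2_ii {f : ℝ → ℝ} (hf : Measurable f) {C : ℝ} (h : ∀ x, |f x| ≤ C) (a b : ℝ) :
    IntervalIntegrable f volume a b := by
  rw [intervalIntegrable_iff]
  have : IsFiniteMeasure (volume.restrict (Set.uIoc a b)) :=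
    ⟨by rw [Measure.restrict_apply_univ]; exact measure_Ioc_lt_top⟩
  exact Integrable.of_bound (μ := volume.restrict (Set.uIoc a b)) hf.aestronglyMeasurable C
    (Filter.Eventually.of_forall h)

section

variable {u : ℝ → ℝ}

/-- autocorrelation -/
private noncomputable def P2_r (u : ℝ → ℝ) (ψ : ℝ) : ℝ := ∫ θ, u θ * u (θ + ψ) ∂cm

private theorem P2_per (hu : Cf u) : Function.Periodic u (2 * Real.pi) := hu.per

private theorem P2_meas2 (hu : Cf u) : Measurable (fun p : ℝ × ℝ => u p.2 * u (p.2 + p.1)) :=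
  (hu.meas.comp measurable_snd).mul (hu.meas.comp (measurable_snd.add measurable_fst))

private theorem P2_rmeas (hu : Cf u) : Measurable (P2_r u) := by
  have := P2_prob
  unfold P2_r
  exact (StronglyMeasurable.integral_prod_right (ν := cm) (P2_meas2 hu).stronglyMeasurable).measurable

private theorem P2_abs (hu : Cf u) (θ : ℝ) : |u θ| ≤ 1 := by
  rw [abs_of_nonneg (hu.nn θ)]; exact hu.le θ

private theorem P2_uu (hu : Cf u) (ψ : ℝ) : Integrable (fun θ => u θ * u (θ + ψ)) cm :=
  P2_bint (C := 1) (hu.meas.mul (hu.meas.comp (measurable_id.add_const ψ))) fun θ => by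
    rw [abs_mul]
    exact mul_le_one₀ (P2_abs hu θ) (abs_nonneg _) (P2_abs hu _)

private theorem P2_ui (hu : Cf u) : Integrable u cm := P2_bint hu.meas (P2_abs hu)

private theorem P2_r0 (hu : Cf u) (ψ : ℝ) : 0 ≤ P2_r u ψ :=
  integral_nonneg fun θ => mul_nonneg (hu.nn θ) (hu.nn _)

private theorem P2_rle (hu : Cf u) (ψ : ℝ) : P2_r u ψ ≤ ∫ θ, u θ ∂cm :=
  integral_mono (P2_uu hu ψ) (P2_ui hu) fun θ =>
    mul_le_of_le_one_right (hu.nn θ) (hu.le _)

private theorem P2_int_shift (hu : Cf u) (ψ : ℝ) : ∫ θ, u (θ + ψ) ∂cm = ∫ θ, u θ ∂cm :=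
  P2_shift u (P2_per hu) ψ

private theorem P2_rge (hu : Cf u) (ψ : ℝ) :
    (∫ θ, u θ ∂cm) - P2_r u ψ ≤ 1 - ∫ θ, u θ ∂cm := by
  have := P2_prob
  have h1 : Integrable (fun θ => u (θ + ψ)) cm :=
    P2_bint (hu.meas.comp (measurable_id.add_const ψ)) fun θ => P2_abs hu _
  have h2 : ∫ θ, (u θ - u θ * u (θ + ψ)) ∂cm ≤ ∫ θ, (1 - u (θ + ψ)) ∂cm := by
    refine integral_mono ((P2_ui hu).sub (P2_uu hu ψ)) ((integrable_const 1).sub h1) fun θ => ?_
    have a1 := hu.le θ
    have a2 := hu.le (θ + ψ)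
    simp only
    nlinarith
  rw [integral_sub (P2_ui hu) (P2_uu hu ψ), integral_sub (integrable_const 1) h1, P2_int_shift hu,
    integral_const, probReal_univ, one_smul] at h2
  exact h2

private theorem P2_even (hu : Cf u) (ψ : ℝ) : P2_r u (-ψ) = P2_r u ψ := by
  unfold P2_r
  rw [← P2_shift (fun θ => u θ * u (θ + -ψ)) (fun θ => by
    show u (θ + 2 * Real.pi) * u (θ + 2 * Real.pi + -ψ) = u θ * u (θ + -ψ)
    rw [hu.per, show θ + 2 * Real.pi + -ψ = (θ + -ψ) + 2 * Real.pi by ring, hu.per]) ψ]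
  refine integral_congr_ae (Filter.Eventually.of_forall fun θ => ?_)
  simp only
  rw [show θ + ψ + -ψ = θ by ring, mul_comm]

private theorem P2_sub (hu : Cf u) (x y : ℝ) :
    P2_r u y + P2_r u (x - y) ≤ (∫ θ, u θ ∂cm) + P2_r u x := by
  have e1 : P2_r u (x - y) = ∫ θ, u (θ + y) * u (θ + x) ∂cm := by
    unfold P2_r
    rw [← P2_shift (fun θ => u θ * u (θ + (x - y))) (fun θ => by
      show u (θ + 2 * Real.pi) * u (θ + 2 * Real.pi + (x - y)) = u θ * u (θ + (x - y))
      rw [hu.per, show θ + 2 * Real.pi + (x - y) = (θ + (x - y)) + 2 * Real.pi by ring, hu.per]) y]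
    refine integral_congr_ae (Filter.Eventually.of_forall fun θ => ?_)
    simp only
    rw [show θ + y + (x - y) = θ + x by ring]
  have h3 : Integrable (fun θ => u (θ + y) * u (θ + x)) cm :=
    P2_bint (C := 1) ((hu.meas.comp (measurable_id.add_const y)).mul
      (hu.meas.comp (measurable_id.add_const x))) fun θ => by
      rw [abs_mul]
      exact mul_le_one₀ (P2_abs hu _) (abs_nonneg _) (P2_abs hu _)
  have h4 : Integrable (fun θ => u (θ + y)) cm :=
    P2_bint (hu.meas.comp (measurable_id.add_const y)) fun θ => P2_abs hu _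
  rw [e1, ← P2_int_shift hu y]
  unfold P2_r
  rw [← integral_add (P2_uu hu y) h3, ← integral_add h4 (P2_uu hu x)]
  refine integral_mono ((P2_uu hu y).add h3) (h4.add (P2_uu hu x)) fun θ => ?_
  simp only
  have a1 := hu.nn θ
  have a2 := hu.le θ
  have b1 := hu.nn (θ + y)
  have b2 := hu.le (θ + y)
  have c1 := hu.nn (θ + x)
  have c2 := hu.le (θ + x)
  nlinarith [mul_nonneg (mul_nonneg b1 (sub_nonneg.2 a2)) (sub_nonneg.2 c2),
    mul_nonneg (mul_nonneg a1 c1) (sub_nonneg.2 b2)]

private theorem P2_total (hu : Cf u) : ∫ ψ, P2_r u ψ ∂cm = (∫ θ, u θ ∂cm) ^ 2 := by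
  have := P2_prob
  unfold P2_r
  rw [integral_integral_swap]
  · have : ∀ θ, ∫ ψ, u θ * u (θ + ψ) ∂cm = u θ * ∫ θ, u θ ∂cm := by
      intro θ
      rw [integral_const_mul]
      congr 1
      rw [← P2_int_shift hu θ]
      refine integral_congr_ae (Filter.Eventually.of_forall fun ψ => ?_)
      simp only
      rw [add_comm]
    simp_rw [this]
    rw [integral_mul_const, sq]
  · refine Integrable.of_bound (μ := cm.prod cm) (P2_meas2 hu).aestronglyMeasurable 1
      (Filter.Eventually.of_forall fun p => ?_)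
    show ‖u p.2 * u (p.2 + p.1)‖ ≤ 1
    rw [Real.norm_eq_abs, abs_mul]
    exact mul_le_one₀ (P2_abs hu _) (abs_nonneg _) (P2_abs hu _)

private theorem P2_Bw (hu : Cf u) {w : ℝ} (hw0 : 0 ≤ w) (hw : w ≤ Real.pi) :
    Bw w u = Real.pi⁻¹ * ∫ ψ in (0 : ℝ)..w, P2_r u ψ := by
  have := P2_prob
  have hpi := Real.pi_pos
  have hcos : Measurable (fun ψ : ℝ => if Real.cos w < Real.cos ψ then (1 : ℝ) else 0) :=
    Measurable.ite (measurableSet_lt measurable_const Real.measurable_cos) measurable_const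
      measurable_const
  have h1 : Bw w u = ∫ ψ, (if Real.cos w < Real.cos ψ then (1 : ℝ) else 0) * P2_r u ψ ∂cm := by
    unfold Bw
    have e1 : ∀ θ, ∫ φ, u θ * u φ * (if Real.cos w < Real.cos (θ - φ) then (1 : ℝ) else 0) ∂cm
        = ∫ ψ, (if Real.cos w < Real.cos ψ then (1 : ℝ) else 0) * (u θ * u (θ + ψ)) ∂cm := by
      intro θ
      rw [← P2_shift (fun φ => u θ * u φ * (if Real.cos w < Real.cos (θ - φ) then (1 : ℝ) else 0))
        (fun φ => by
          show u θ * u (φ + 2 * Real.pi) *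
            (if Real.cos w < Real.cos (θ - (φ + 2 * Real.pi)) then (1 : ℝ) else 0) = _
          rw [hu.per, show θ - (φ + 2 * Real.pi) = (θ - φ) - 2 * Real.pi by ring,
            Real.cos_sub_two_pi]) θ]
      refine integral_congr_ae (Filter.Eventually.of_forall fun ψ => ?_)
      simp only
      rw [show θ - (ψ + θ) = -ψ by ring, Real.cos_neg, add_comm ψ θ]
      ring
    simp_rw [e1]
    rw [integral_integral_swap]
    · refine integral_congr_ae (Filter.Eventually.of_forall fun ψ => ?_)
      simp only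
      rw [integral_const_mul]
      rfl
    · have hm : Measurable (fun p : ℝ × ℝ => (if Real.cos w < Real.cos p.2 then (1 : ℝ) else 0) *
          (u p.1 * u (p.1 + p.2))) :=
        (hcos.comp measurable_snd).mul ((hu.meas.comp measurable_fst).mul
          (hu.meas.comp (measurable_fst.add measurable_snd)))
      refine Integrable.of_bound (μ := cm.prod cm) hm.aestronglyMeasurable 1
        (Filter.Eventually.of_forall fun p => ?_)
      show ‖(if Real.cos w < Real.cos p.2 then (1 : ℝ) else 0) * (u p.1 * u (p.1 + p.2))‖ ≤ 1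
      rw [Real.norm_eq_abs, abs_mul, abs_mul]
      refine mul_le_one₀ ?_ (by positivity) (mul_le_one₀ (P2_abs hu _) (abs_nonneg _) (P2_abs hu _))
      split_ifs <;> simp
  rw [h1, P2_cm, intervalIntegral.integral_of_le (by linarith)]
  have hsubs : Set.Ioo (-w) w ⊆ Set.Ioc (-Real.pi) Real.pi := fun x hx =>
    ⟨by linarith [hx.1], by linarith [hx.2]⟩
  have h2 : ∫ ψ in Set.Ioc (-Real.pi) Real.pi,
      (if Real.cos w < Real.cos ψ then (1 : ℝ) else 0) * P2_r u ψ =
      ∫ ψ in Set.Ioc (-Real.pi) Real.pi, (Set.Ioo (-w) w).indicator (P2_r u) ψ := by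
    refine setIntegral_congr_fun measurableSet_Ioc fun ψ hψ => ?_
    have habs : |ψ| ≤ Real.pi := abs_le.2 ⟨hψ.1.le, hψ.2⟩
    by_cases hlt : |ψ| < w
    · have h3 : Real.cos w < Real.cos ψ := by
        rw [← Real.cos_abs ψ]
        exact Real.cos_lt_cos_of_nonneg_of_le_pi (abs_nonneg _) hw hlt
      rw [if_pos h3, one_mul, Set.indicator_of_mem (show ψ ∈ Set.Ioo (-w) w from abs_lt.1 hlt)]
    · have h3 : ¬ Real.cos w < Real.cos ψ := by
        rw [← Real.cos_abs ψ, not_lt]
        exact Real.cos_le_cos_of_nonneg_of_le_pi hw0 habs (not_lt.1 hlt)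
      rw [if_neg h3, zero_mul,
        Set.indicator_of_notMem (show ψ ∉ Set.Ioo (-w) w from fun h => hlt (abs_lt.2 h))]
  rw [h2, setIntegral_indicator measurableSet_Ioo,
    Set.inter_eq_right.2 hsubs,
    ← integral_Ioc_eq_integral_Ioo, ← intervalIntegral.integral_of_le (by linarith)]
  have hii : ∀ a b, IntervalIntegrable (P2_r u) volume a b := fun a b =>
    P2_ii (P2_rmeas hu) (C := ∫ θ, u θ ∂cm) (fun ψ => by
      rw [abs_of_nonneg (P2_r0 hu ψ)]; exact P2_rle hu ψ) a b
  rw [← intervalIntegral.integral_add_adjacent_intervals (hii (-w) 0) (hii 0 w)]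
  have h4 : ∫ ψ in (-w)..0, P2_r u ψ = ∫ ψ in (0 : ℝ)..w, P2_r u ψ := by
    have := intervalIntegral.integral_comp_neg (f := P2_r u) (a := 0) (b := w)
    rw [neg_zero] at this
    rw [← this]
    exact intervalIntegral.integral_congr fun ψ _ => P2_even hu ψ
  rw [h4]
  field_simp
  ring

end

theorem pP2 : StP2 := by
  intro w u hw0 hw hu
  have hprob := P2_prob
  have hpi := Real.pi_pos
  set α : ℝ := ∫ θ, u θ ∂cm with hα
  set D : ℝ → ℝ := fun ψ => α - P2_r u ψ with hD
  have hDm : Measurable D := measurable_const.sub (P2_rmeas hu)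
  have hα0 : 0 ≤ α := integral_nonneg fun θ => hu.nn θ
  have hα1 : α ≤ 1 := by
    have : α ≤ ∫ _ : ℝ, (1 : ℝ) ∂cm := integral_mono (P2_ui hu) (integrable_const 1) fun θ => hu.le θ
    rwa [integral_const, probReal_univ, one_smul] at this
  have hD0 : ∀ ψ, 0 ≤ D ψ := fun ψ => sub_nonneg.2 (P2_rle hu ψ)
  have hDa : ∀ ψ, D ψ ≤ α := fun ψ => by
    have := P2_r0 hu ψ
    simp only [hD]; linarith
  have hDb : ∀ ψ, D ψ ≤ 1 - α := fun ψ => P2_rge hu ψ
  have hDabs : ∀ ψ, |D ψ| ≤ 1 := fun ψ => by
    rw [abs_of_nonneg (hD0 ψ)]; exact (hDa ψ).trans hα1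
  have hDi : ∀ a b, IntervalIntegrable D volume a b := fun a b => P2_ii hDm hDabs a b
  have hsub : ∀ x y, D x ≤ D y + D (x - y) := fun x y => by
    have := P2_sub hu x y
    simp only [hD]; linarith
  set E : ℝ → ℝ := fun x => ∫ t in (0 : ℝ)..x, D t with hE
  have hEc : Continuous E := intervalIntegral.continuous_primitive hDi 0
  have hEsub : ∀ a b, ∫ t in a..b, D t = E b - E a := fun a b => by
    simp only [hE]
    rw [intervalIntegral.integral_interval_sub_left (hDi 0 b) (hDi 0 a)]
  -- x D x ≤ 2 E x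
  have hxD : ∀ x, 0 ≤ x → x * D x ≤ 2 * E x := by
    intro x hx
    have hi2 : IntervalIntegrable (fun y => D (x - y)) volume 0 x :=
      P2_ii (hDm.comp (measurable_const.sub measurable_id)) (fun y => hDabs _) 0 x
    have h1 : ∫ _ in (0 : ℝ)..x, D x ≤ ∫ y in (0 : ℝ)..x, (D y + D (x - y)) :=
      intervalIntegral.integral_mono_on hx intervalIntegrable_const
        ((hDi 0 x).add hi2) fun y _ => hsub x y
    rw [intervalIntegral.integral_const, intervalIntegral.integral_add (hDi 0 x) hi2,
      intervalIntegral.integral_comp_sub_left, sub_self, sub_zero, smul_eq_mul] at h1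
    simp only [hE]
    linarith
  -- total
  have hEpi : E Real.pi = Real.pi * (α - α ^ 2) := by
    have h1 : ∫ ψ in (-Real.pi)..Real.pi, D ψ = 2 * Real.pi * (α - α ^ 2) := by
      have h2 : ∫ ψ, D ψ ∂cm = α - α ^ 2 := by
        simp only [hD]
        rw [integral_sub (integrable_const _) (P2_bint (P2_rmeas hu) (C := α) fun ψ => by
          rw [abs_of_nonneg (P2_r0 hu ψ)]; exact P2_rle hu ψ), P2_total hu, integral_const,
          probReal_univ, one_smul]
      rw [P2_cm] at h2
      rw [← h2]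
      field_simp
    have h3 : ∫ ψ in (-Real.pi)..0, D ψ = ∫ ψ in (0 : ℝ)..Real.pi, D ψ := by
      have := intervalIntegral.integral_comp_neg (f := D) (a := 0) (b := Real.pi)
      rw [neg_zero] at this
      rw [← this]
      refine intervalIntegral.integral_congr fun ψ _ => ?_
      simp only [hD]
      rw [P2_even hu]
    rw [← intervalIntegral.integral_add_adjacent_intervals (hDi (-Real.pi) 0) (hDi 0 Real.pi), h3]
      at h1
    simp only [hE]
    linarith
  set μ : ℝ := min α (1 - α) with hμ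
  have hμ0 : 0 ≤ μ := le_min hα0 (by linarith)
  have hDμ : ∀ ψ, D ψ ≤ μ := fun ψ => le_min (hDa ψ) (hDb ψ)
  have hμα : α - α ^ 2 = μ - μ ^ 2 := by
    rcases min_choice α (1 - α) with h | h
    · rw [hμ, h]
    · rw [hμ, h]; ring
  have hμ2 : μ ≤ 1 / 2 := by
    have h1 : μ ≤ α := min_le_left _ _
    have h2 : μ ≤ 1 - α := min_le_right _ _
    linarith
  -- large w
  have hbig : ∀ x, x ≤ Real.pi → Real.pi * (α - α ^ 2) - (Real.pi - x) * μ ≤ E x := by
    intro x hx
    have h1 : ∫ t in x..Real.pi, D t ≤ ∫ _ in x..Real.pi, μ :=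
      intervalIntegral.integral_mono_on hx (hDi _ _) intervalIntegrable_const
        fun y _ => hDμ y
    rw [intervalIntegral.integral_const, hEsub, hEpi, smul_eq_mul] at h1
    linarith
  have hw1 : (2 * Real.pi * μ) ^ 2 / (4 * Real.pi) ≤ E (2 * Real.pi * μ) := by
    have h1 := hbig (2 * Real.pi * μ) (by nlinarith)
    rw [hμα] at h1
    refine le_trans (le_of_eq ?_) h1
    field_simp
    ring
  -- small w
  have hsmall : w ≤ 2 * Real.pi * μ → w ^ 2 / (4 * Real.pi) ≤ E w := by
    intro hle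
    rcases hw0.eq_or_lt with h0 | h0
    · rw [← h0]; simp [hE]
    set w1 := 2 * Real.pi * μ with hw1d
    have hw1p : 0 < w1 := lt_of_lt_of_le h0 hle
    have hcont : ContinuousOn (fun s : ℝ => 2 / s * E s) (Set.Icc w w1) :=
      (continuousOn_const.div continuousOn_id fun x hx => (lt_of_lt_of_le h0 hx.1).ne').mul
        hEc.continuousOn
    set F : ℝ → ℝ := fun t => (∫ s in w..t, 2 / s * E s) + E w with hF
    have hii : ∀ t ∈ Set.Icc w w1, IntervalIntegrable (fun s : ℝ => 2 / s * E s) volume w t := by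
      intro t ht
      refine ContinuousOn.intervalIntegrable ?_
      rw [Set.uIcc_of_le ht.1]
      exact hcont.mono (Set.Icc_subset_Icc_right ht.2)
    have hEF : ∀ t ∈ Set.Icc w w1, E t ≤ F t := by
      intro t ht
      have h1 : ∫ s in w..t, D s ≤ ∫ s in w..t, 2 / s * E s := by
        refine intervalIntegral.integral_mono_on ht.1 (hDi _ _) (hii t ht) fun s hs => ?_
        have hs0 : 0 < s := lt_of_lt_of_le h0 hs.1
        have := hxD s hs0.le
        rw [div_mul_eq_mul_div, le_div_iff₀ hs0]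
        linarith
      rw [hEsub] at h1
      simp only [hF]
      linarith
    have hderiv : ∀ t ∈ Set.Ioo w w1, HasDerivAt F (2 / t * E t) t := by
      intro t ht
      have h1 : HasDerivAt (fun t => ∫ s in w..t, 2 / s * E s) (2 / t * E t) t := by
        refine intervalIntegral.integral_hasDerivAt_right (hii t ⟨ht.1.le, ht.2.le⟩) ?_ ?_
        · exact ContinuousOn.stronglyMeasurableAtFilter_nhdsWithin
            (hcont.mono Set.Ioo_subset_Icc_self) measurableSet_Ioo t |>.filter_mono (by
              rw [isOpen_Ioo.nhdsWithin_eq ht])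
        · exact hcont.continuousAt (Icc_mem_nhds ht.1 ht.2)
      exact h1.add_const _
    have hFc : ContinuousOn F (Set.Icc w w1) := by
      have h1 : ContinuousOn (fun t => ∫ s in w..t, 2 / s * E s) (Set.Icc w w1) := by
        have := intervalIntegral.continuousOn_primitive_interval
          (f := fun s : ℝ => 2 / s * E s) (a := w) (b := w1) (μ := volume)
          ((hcont.mono (by rw [Set.uIcc_of_le hle])).integrableOn_compact isCompact_uIcc)
        rwa [Set.uIcc_of_le hle] at this
      exact h1.add continuousOn_const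
    have hanti : AntitoneOn (fun t => F t / t ^ 2) (Set.Icc w w1) := by
      refine antitoneOn_of_deriv_nonpos (convex_Icc w w1) ?_ ?_ ?_
      · exact hFc.div (continuousOn_id.pow 2) fun x hx => by
          have : 0 < x := lt_of_lt_of_le h0 hx.1
          positivity
      · rw [interior_Icc]
        intro t ht
        have ht0 : 0 < t := h0.trans ht.1
        exact ((hderiv t ht).div (hasDerivAt_pow 2 t) (by positivity)).differentiableAt
          |>.differentiableWithinAt
      · rw [interior_Icc]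
        intro t ht
        have ht0 : 0 < t := h0.trans ht.1
        have h1 := (hderiv t ht).div (hasDerivAt_pow 2 t) (by positivity)
        have h2 : deriv (fun t => F t / t ^ 2) t = _ := h1.deriv
        rw [h2]
        have h3 := hEF t ⟨ht.1.le, ht.2.le⟩
        refine div_nonpos_of_nonpos_of_nonneg ?_ (by positivity)
        have h4 : 2 / t * E t * t ^ 2 - F t * (((2 : ℕ) : ℝ) * t ^ (2 - 1)) = 2 * t * (E t - F t) := by
          push_cast
          field_simp
        rw [h4]
        exact mul_nonpos_of_nonneg_of_nonpos (by positivity) (by linarith)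
    have h5 := hanti (Set.left_mem_Icc.2 hle) (Set.right_mem_Icc.2 hle) hle
    simp only at h5
    have hFw : F w = E w := by simp [hF]
    rw [hFw] at h5
    have h6 := hEF w1 (Set.right_mem_Icc.2 hle)
    rw [div_le_div_iff₀ (by positivity) (by positivity)] at h5
    have h7 : w1 ^ 2 / (4 * Real.pi) ≤ F w1 := hw1.trans h6
    rw [div_le_iff₀ (by positivity)] at h7 ⊢
    have h8 : w1 ^ 2 * w ^ 2 ≤ E w * (4 * Real.pi) * w1 ^ 2 := by
      calc w1 ^ 2 * w ^ 2 ≤ F w1 * (4 * Real.pi) * w ^ 2 :=
            mul_le_mul_of_nonneg_right h7 (by positivity)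
        _ = (4 * Real.pi) * (F w1 * w ^ 2) := by ring
        _ ≤ (4 * Real.pi) * (E w * w1 ^ 2) := mul_le_mul_of_nonneg_left h5 (by positivity)
        _ = E w * (4 * Real.pi) * w1 ^ 2 := by ring
    have h9 : 0 < w1 ^ 2 := by positivity
    nlinarith
  -- conclusion
  have hBw : Bw w u = Real.pi⁻¹ * (w * α - E w) := by
    rw [P2_Bw hu hw0 hw]
    congr 1
    have h1 : ∫ ψ in (0 : ℝ)..w, P2_r u ψ = ∫ ψ in (0 : ℝ)..w, (α - D ψ) := by
      refine intervalIntegral.integral_congr fun ψ _ => ?_
      simp only [hD]; ring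
    rw [h1, intervalIntegral.integral_sub intervalIntegrable_const (hDi 0 w),
      intervalIntegral.integral_const, sub_zero, smul_eq_mul]
  rw [hBw]
  have hν : w = 2 * Real.pi * (w / (2 * Real.pi)) := by field_simp
  set ν := w / (2 * Real.pi) with hνd
  have hsq1 : 0 ≤ (max (ν - α) 0) ^ 2 := sq_nonneg _
  have hsq2 : 0 ≤ (max (ν - (1 - α)) 0) ^ 2 := sq_nonneg _
  unfold an
  rcases le_total w (2 * Real.pi * μ) with hc | hc
  · have h1 := hsmall hc
    have h2 : Real.pi⁻¹ * (w * α - E w) ≤ Real.pi⁻¹ * (w * α - w ^ 2 / (4 * Real.pi)) :=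
      mul_le_mul_of_nonneg_left (by linarith) (by positivity)
    have h3 : Real.pi⁻¹ * (w * α - w ^ 2 / (4 * Real.pi)) = 2 * α * ν - ν ^ 2 := by
      rw [hν]
      field_simp
      ring
    linarith
  · have h1 := hbig w hw
    have h2 : Real.pi⁻¹ * (w * α - E w) ≤
        Real.pi⁻¹ * (w * α - (Real.pi * (α - α ^ 2) - (Real.pi - w) * μ)) :=
      mul_le_mul_of_nonneg_left (by linarith) (by positivity)
    have h3 : Real.pi⁻¹ * (w * α - (Real.pi * (α - α ^ 2) - (Real.pi - w) * μ)) =
        2 * α * ν - (α - α ^ 2) + (1 - 2 * ν) * μ := by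
      rw [hν]
      field_simp
      ring
    rcases min_choice α (1 - α) with h | h
    · have hμe : μ = α := by rw [hμ, h]
      have h4 : (ν - α) ^ 2 ≤ (max (ν - α) 0) ^ 2 := by
        have h5 : 0 ≤ ν - α := by
          rw [hμe, hν] at hc
          have := le_of_mul_le_mul_left hc (by positivity : (0 : ℝ) < 2 * Real.pi)
          linarith
        rw [max_eq_left h5]
      have h6 := h2.trans (le_of_eq h3)
      rw [hμe] at h6
      nlinarith [h6, h4, hsq1, hsq2]
    · have hμe : μ = 1 - α := by rw [hμ, h]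
      have h4 : (ν - (1 - α)) ^ 2 ≤ (max (ν - (1 - α)) 0) ^ 2 := by
        have h5 : 0 ≤ ν - (1 - α) := by
          rw [hμe, hν] at hc
          have := le_of_mul_le_mul_left hc (by positivity : (0 : ℝ) < 2 * Real.pi)
          linarith
        rw [max_eq_left h5]
      have h6 := h2.trans (le_of_eq h3)
      rw [hμe] at h6
      nlinarith [h6, h4, hsq1, hsq2]

end Pool.TC
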