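import Pool.Agent.TC.St

set_option autoImplicit false

open MeasureTheory ProbabilityTheory Pool.H65.PS Pool.H65.PT

namespace Pool.TC

private lemma P3_one_neg {x y z : ℝ} (h : x + y + z = 0) (hx : -(1 / 3) ≤ x) (hx0 : x ≤ 0)
    (hy : 0 ≤ y) (hz : 0 ≤ z) :
    (max (-x) 0) ^ 2 + (max (-y) 0) ^ 2 + (max (-z) 0) ^ 2 + ((max (x - 1 / 3) 0) ^ 2
      + (max (y - 1 / 3) 0) ^ 2 + (max (z - 1 / 3) 0) ^ 2) ≤ 2 / 3 * (x ^ 2 + y ^ 2 + z ^ 2) := by
  rw [max_eq_left (by linarith : (0 : ℝ) ≤ -x), max_eq_right (by linarith : -y ≤ 0),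
    max_eq_right (by linarith : -z ≤ 0), max_eq_right (by linarith : x - 1 / 3 ≤ 0),
    max_eq_right (by linarith : y - 1 / 3 ≤ 0), max_eq_right (by linarith : z - 1 / 3 ≤ 0)]
  have hx' : x = -(y + z) := by linarith
  subst hx'
  nlinarith [sq_nonneg (y - z)]

private lemma P3_two_neg {x y z : ℝ} (h : x + y + z = 0) (hx : -(1 / 3) ≤ x) (hy : -(1 / 3) ≤ y)
    (hx0 : x ≤ 0) (hy0 : y ≤ 0) :
    (max (-x) 0) ^ 2 + (max (-y) 0) ^ 2 + (max (-z) 0) ^ 2 + ((max (x - 1 / 3) 0) ^ 2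
      + (max (y - 1 / 3) 0) ^ 2 + (max (z - 1 / 3) 0) ^ 2) ≤ 2 / 3 * (x ^ 2 + y ^ 2 + z ^ 2) := by
  rw [max_eq_left (by linarith : (0 : ℝ) ≤ -x), max_eq_left (by linarith : (0 : ℝ) ≤ -y),
    max_eq_right (by linarith : -z ≤ 0), max_eq_right (by linarith : x - 1 / 3 ≤ 0),
    max_eq_right (by linarith : y - 1 / 3 ≤ 0)]
  have hz' : z = -(x + y) := by linarith
  subst hz'
  rcases le_total (-(x + y)) (1 / 3) with hc | hc
  · rw [max_eq_right (by linarith : -(x + y) - 1 / 3 ≤ 0)]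
    nlinarith [mul_nonneg (neg_nonneg.2 hx0) (neg_nonneg.2 hy0)]
  · rw [max_eq_left (by linarith : (0 : ℝ) ≤ -(x + y) - 1 / 3)]
    nlinarith [mul_nonneg (by linarith : (0 : ℝ) ≤ x + 1 / 3) (by linarith : (0 : ℝ) ≤ y + 1 / 3),
      mul_nonneg (by linarith : (0 : ℝ) ≤ -(x + y) - 1 / 3) (by linarith : (0 : ℝ) ≤ (x + y) + 2 / 3)]

private lemma P3_core {x y z : ℝ} (h : x + y + z = 0) (hx : -(1 / 3) ≤ x) (hy : -(1 / 3) ≤ y)
    (hz : -(1 / 3) ≤ z) :
    (max (-x) 0) ^ 2 + (max (-y) 0) ^ 2 + (max (-z) 0) ^ 2 + ((max (x - 1 / 3) 0) ^ 2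
      + (max (y - 1 / 3) 0) ^ 2 + (max (z - 1 / 3) 0) ^ 2) ≤ 2 / 3 * (x ^ 2 + y ^ 2 + z ^ 2) := by
  rcases le_total x 0 with h1 | h1 <;> rcases le_total y 0 with h2 | h2 <;>
    rcases le_total z 0 with h3 | h3
  · exact P3_two_neg h hx hy h1 h2
  · exact P3_two_neg h hx hy h1 h2
  · have := P3_two_neg (x := x) (y := z) (z := y) (by linarith) hx hz h1 h3
    linarith
  · exact P3_one_neg h hx h1 h2 h3
  · have := P3_two_neg (x := y) (y := z) (z := x) (by linarith) hy hz h2 h3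
    linarith
  · have := P3_one_neg (x := y) (y := x) (z := z) (by linarith) hy h2 h1 h3
    linarith
  · have := P3_one_neg (x := z) (y := x) (z := y) (by linarith) hz h3 h1 h2
    linarith
  · have hx0 : x = 0 := by linarith
    have hy0 : y = 0 := by linarith
    have hz0 : z = 0 := by linarith
    subst hx0; subst hy0; subst hz0
    norm_num

private lemma P3_a {ν α : ℝ} (h0 : 0 ≤ ν) (h1 : ν ≤ 1 / 3) (hα : 0 ≤ α) :
    (max (ν - α) 0) ^ 2 ≤ 9 * ν ^ 2 * (max (-(α - 1 / 3)) 0) ^ 2 := by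
  have hle : max (ν - α) 0 ≤ 3 * ν * max (-(α - 1 / 3)) 0 := by
    apply max_le
    · have : ν - α ≤ 3 * ν * (-(α - 1 / 3)) := by nlinarith
      exact this.trans (mul_le_mul_of_nonneg_left (le_max_left _ _) (by linarith))
    · exact mul_nonneg (by linarith) (le_max_right _ _)
  have h2 : 0 ≤ max (ν - α) 0 := le_max_right _ _
  calc (max (ν - α) 0) ^ 2 ≤ (3 * ν * max (-(α - 1 / 3)) 0) ^ 2 := pow_le_pow_left₀ h2 hle 2
    _ = _ := by ring

private lemma P3_b {ν α : ℝ} (h0 : 0 ≤ ν) (h1 : ν ≤ 1 / 3) (hα : α ≤ 1) :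
    (max (ν - (1 - α)) 0) ^ 2 ≤ 9 * ν ^ 2 * (max ((α - 1 / 3) - 1 / 3) 0) ^ 2 := by
  have hle : max (ν - (1 - α)) 0 ≤ 3 * ν * max ((α - 1 / 3) - 1 / 3) 0 := by
    apply max_le
    · have : ν - (1 - α) ≤ 3 * ν * ((α - 1 / 3) - 1 / 3) := by nlinarith
      exact this.trans (mul_le_mul_of_nonneg_left (le_max_left _ _) (by linarith))
    · exact mul_nonneg (by linarith) (le_max_right _ _)
  have h2 : 0 ≤ max (ν - (1 - α)) 0 := le_max_right _ _
  calc (max (ν - (1 - α)) 0) ^ 2 ≤ (3 * ν * max ((α - 1 / 3) - 1 / 3) 0) ^ 2 :=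
        pow_le_pow_left₀ h2 hle 2
    _ = _ := by ring

private lemma P3_c {ν α : ℝ} (h2 : ν ≤ 1 / 2) : an ν α ≤ α ^ 2 := by
  unfold an
  rcases le_total α ν with h | h
  · rw [max_eq_left (by linarith : (0 : ℝ) ≤ ν - α), max_eq_right (by linarith : ν - (1 - α) ≤ 0)]
    nlinarith
  · rw [max_eq_right (by linarith : ν - α ≤ 0)]
    rcases le_total (ν - (1 - α)) 0 with h3 | h3
    · rw [max_eq_right h3]
      nlinarith [sq_nonneg (α - ν)]
    · rw [max_eq_left h3]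
      nlinarith [mul_nonneg h3 h3, mul_nonneg h3 (by linarith : 0 ≤ (α - ν) - (ν - (1 - α))),
        mul_nonneg (by linarith : 0 ≤ α - ν) (by linarith : 0 ≤ (α - ν) - (ν - (1 - α)))]

theorem pP3 : StP3 := by
  intro ν α h0 h1 hα hs
  simp only [Fin.sum_univ_three] at hs ⊢
  have ha := hα 0
  have hb := hα 1
  have hc := hα 2
  generalize α 0 = a at *
  generalize α 1 = b at *
  generalize α 2 = c at *
  by_cases hν : ν ≤ 1 / 3
  · have hee : ee ν = 6 * ν ^ 2 := by simp only [ee, if_pos hν]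
    have h3 : 3 * an ν (1 / 3) = 2 * ν - 3 * ν ^ 2 := by
      unfold an
      rw [max_eq_right (by linarith : ν - 1 / 3 ≤ 0),
        max_eq_right (by linarith : ν - (1 - 1 / 3) ≤ 0)]
      ring
    rw [hee, h3]
    have hcore := P3_core (x := a - 1 / 3) (y := b - 1 / 3) (z := c - 1 / 3) (by linarith)
      (by linarith) (by linarith) (by linarith)
    have hcore' := mul_le_mul_of_nonneg_left hcore (by positivity : (0 : ℝ) ≤ 9 * ν ^ 2)
    have a1 := P3_a h0 hν ha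
    have a2 := P3_a h0 hν hb
    have a3 := P3_a h0 hν hc
    have b1 := P3_b h0 hν (by linarith : a ≤ 1)
    have b2 := P3_b h0 hν (by linarith : b ≤ 1)
    have b3 := P3_b h0 hν (by linarith : c ≤ 1)
    unfold an
    have hlin : 2 * a * ν + 2 * b * ν + 2 * c * ν = 2 * ν := by
      have : 2 * a * ν + 2 * b * ν + 2 * c * ν = 2 * ν * (a + b + c) := by ring
      rw [this, hs, mul_one]
    linarith
  · have hee : ee ν = 1 := by simp only [ee, if_neg hν]
    push Not at hν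
    have h3 : 3 * an ν (1 / 3) = 1 / 3 := by
      unfold an
      rw [max_eq_left (by linarith : (0 : ℝ) ≤ ν - 1 / 3),
        max_eq_right (by linarith : ν - (1 - 1 / 3) ≤ 0)]
      ring
    rw [hee, h3]
    have c1 := P3_c (α := a) h1
    have c2 := P3_c (α := b) h1
    have c3 := P3_c (α := c) h1
    nlinarith

end Pool.TC
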