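import Pool.Agent.TC.St

set_option autoImplicit false

open MeasureTheory ProbabilityTheory Pool.H65.PS Pool.H65.PT

namespace Pool.TC

private theorem P4a_fin : IsFiniteMeasure cm := by
  unfold cm
  exact Measure.smul_finite _ ENNReal.ofReal_ne_top

private theorem P4a_cm (f : ℝ → ℝ) : ∫ θ, f θ ∂cm =
    (2 * Real.pi)⁻¹ * ∫ θ in (-Real.pi)..Real.pi, f θ := by
  have hpi := Real.pi_pos
  unfold cm
  rw [integral_smul_measure, intervalIntegral.integral_of_le (by linarith),
    ENNReal.toReal_ofReal (by positivity), smul_eq_mul]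

private theorem P4a_int {f : ℝ → ℝ} (hf : Measurable f) (B : ℝ) (hB : ∀ x, |f x| ≤ B) :
    Integrable f cm := by
  have := P4a_fin
  exact Integrable.of_bound hf.aestronglyMeasurable B
    (Filter.Eventually.of_forall fun x => by rw [Real.norm_eq_abs]; exact hB x)

private theorem P4a_one : ∫ _θ, (1 : ℝ) ∂cm = 1 := by
  have hpi := Real.pi_pos
  rw [P4a_cm, intervalIntegral.integral_const, smul_eq_mul]
  field_simp
  ring

private theorem P4a_tri (α : ℝ) (h0 : 0 ≤ α) (h1 : α ≤ 1) :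
    ∫ θ in (-Real.pi)..Real.pi, max (Real.cos θ - Real.cos (Real.pi * α)) 0 =
      2 * Real.sin (Real.pi * α) - 2 * (Real.pi * α) * Real.cos (Real.pi * α) := by
  have hpi := Real.pi_pos
  obtain ⟨b, hb⟩ : ∃ b, b = Real.pi * α := ⟨_, rfl⟩
  have hb0 : 0 ≤ b := by rw [hb]; positivity
  have hb1 : b ≤ Real.pi := by
    rw [hb]
    calc Real.pi * α ≤ Real.pi * 1 := mul_le_mul_of_nonneg_left h1 hpi.le
      _ = Real.pi := mul_one _
  rw [← hb]
  have hc : Continuous fun θ : ℝ => max (Real.cos θ - Real.cos b) 0 := by fun_prop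
  rw [← intervalIntegral.integral_add_adjacent_intervals (a := -Real.pi) (b := -b)
    (c := Real.pi) (hc.intervalIntegrable _ _) (hc.intervalIntegrable _ _),
    ← intervalIntegral.integral_add_adjacent_intervals (a := -b) (b := b)
    (c := Real.pi) (hc.intervalIntegrable _ _) (hc.intervalIntegrable _ _)]
  have e1 : ∫ θ in (-Real.pi)..(-b), max (Real.cos θ - Real.cos b) 0 = 0 := by
    refine Eq.trans (intervalIntegral.integral_congr (g := fun _ => (0 : ℝ)) ?_) (by simp)
    intro θ hθ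
    rw [Set.uIcc_of_le (by linarith)] at hθ
    have h3 : Real.cos θ ≤ Real.cos b := by
      rw [← Real.cos_neg θ]
      exact Real.cos_le_cos_of_nonneg_of_le_pi hb0 (by linarith [hθ.1]) (by linarith [hθ.2])
    change max (Real.cos θ - Real.cos b) 0 = 0
    exact max_eq_right (by linarith)
  have e3 : ∫ θ in b..Real.pi, max (Real.cos θ - Real.cos b) 0 = 0 := by
    refine Eq.trans (intervalIntegral.integral_congr (g := fun _ => (0 : ℝ)) ?_) (by simp)
    intro θ hθ
    rw [Set.uIcc_of_le hb1] at hθ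
    have h3 : Real.cos θ ≤ Real.cos b :=
      Real.cos_le_cos_of_nonneg_of_le_pi hb0 hθ.2 hθ.1
    change max (Real.cos θ - Real.cos b) 0 = 0
    exact max_eq_right (by linarith)
  have e2 : ∫ θ in (-b)..b, max (Real.cos θ - Real.cos b) 0 =
      ∫ θ in (-b)..b, (Real.cos θ - Real.cos b) := by
    apply intervalIntegral.integral_congr
    intro θ hθ
    rw [Set.uIcc_of_le (by linarith)] at hθ
    have h3 : Real.cos b ≤ Real.cos θ := by
      rw [← Real.cos_abs θ]
      exact Real.cos_le_cos_of_nonneg_of_le_pi (abs_nonneg _) hb1 (abs_le.2 ⟨hθ.1, hθ.2⟩)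
    exact max_eq_left (by linarith)
  rw [e1, e2, e3, intervalIntegral.integral_sub (Real.continuous_cos.intervalIntegrable _ _)
    (continuous_const.intervalIntegrable _ _), integral_cos, intervalIntegral.integral_const,
    Real.sin_neg, smul_eq_mul]
  ring

theorem pP4a : StP4a := by
  intro u hu
  have hpi := Real.pi_pos
  obtain ⟨A, hA⟩ : ∃ A, A = ∫ θ, u θ * Real.cos θ ∂cm := ⟨_, rfl⟩
  obtain ⟨B, hB⟩ : ∃ B, B = ∫ θ, u θ * Real.sin θ ∂cm := ⟨_, rfl⟩
  obtain ⟨α, hα⟩ : ∃ α, α = ∫ θ, u θ ∂cm := ⟨_, rfl⟩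
  rw [← hA, ← hB, ← hα]
  have hua : ∀ θ, |u θ| ≤ 1 := fun θ => by rw [abs_of_nonneg (hu.nn θ)]; exact hu.le θ
  have hα0 : 0 ≤ α := by
    rw [hα]
    exact integral_nonneg fun θ => hu.nn θ
  have hα1 : α ≤ 1 := by
    rw [hα, ← P4a_one]
    exact integral_mono (P4a_int hu.meas 1 hua)
      (P4a_int measurable_const 1 fun _ => by rw [abs_one]) hu.le
  obtain ⟨θ0, R, hR0, hR1, hR2⟩ : ∃ θ0 R : ℝ, 0 ≤ R ∧ A = R * Real.cos θ0 ∧
      B = R * Real.sin θ0 := by
    refine ⟨Complex.arg ⟨A, B⟩, ‖(⟨A, B⟩ : ℂ)‖, norm_nonneg _, ?_, ?_⟩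
    · exact (Complex.norm_mul_cos_arg ⟨A, B⟩).symm
    · exact (Complex.norm_mul_sin_arg ⟨A, B⟩).symm
  have hmc : Measurable fun θ => u θ * Real.cos θ := hu.meas.mul Real.measurable_cos
  have hms : Measurable fun θ => u θ * Real.sin θ := hu.meas.mul Real.measurable_sin
  have hic : Integrable (fun θ => u θ * Real.cos θ) cm := by
    apply P4a_int hmc 1
    intro θ
    rw [abs_mul]
    exact mul_le_one₀ (hua θ) (abs_nonneg _) (Real.abs_cos_le_one θ)
  have his : Integrable (fun θ => u θ * Real.sin θ) cm := by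
    apply P4a_int hms 1
    intro θ
    rw [abs_mul]
    exact mul_le_one₀ (hua θ) (abs_nonneg _) (Real.abs_sin_le_one θ)
  have e1 : ∫ θ, u θ * Real.cos (θ - θ0) ∂cm = R := by
    have e2 : ∀ θ, u θ * Real.cos (θ - θ0) =
        (u θ * Real.cos θ) * Real.cos θ0 + (u θ * Real.sin θ) * Real.sin θ0 := by
      intro θ
      rw [Real.cos_sub]
      ring
    simp only [e2]
    rw [integral_add (hic.mul_const _) (his.mul_const _), integral_mul_const, integral_mul_const,
      ← hA, ← hB, hR1, hR2]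
    linear_combination R * Real.cos_sq_add_sin_sq θ0
  obtain ⟨l, hl⟩ : ∃ l, l = Real.cos (Real.pi * α) := ⟨_, rfl⟩
  have hl1 : |l| ≤ 1 := by rw [hl]; exact Real.abs_cos_le_one _
  have e3 : ∀ θ, u θ * Real.cos (θ - θ0) ≤ l * u θ + max (Real.cos (θ - θ0) - l) 0 := by
    intro θ
    have h1 : u θ * (Real.cos (θ - θ0) - l) ≤ max (Real.cos (θ - θ0) - l) 0 := by
      calc u θ * (Real.cos (θ - θ0) - l) ≤ u θ * max (Real.cos (θ - θ0) - l) 0 :=
            mul_le_mul_of_nonneg_left (le_max_left _ _) (hu.nn θ)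
        _ ≤ 1 * max (Real.cos (θ - θ0) - l) 0 :=
            mul_le_mul_of_nonneg_right (hu.le θ) (le_max_right _ _)
        _ = _ := one_mul _
    linarith
  have hmm : Measurable fun θ => max (Real.cos (θ - θ0) - l) 0 := by fun_prop
  have him : Integrable (fun θ => max (Real.cos (θ - θ0) - l) 0) cm := by
    apply P4a_int hmm 2
    intro θ
    have h1 := abs_le.1 (Real.abs_cos_le_one (θ - θ0))
    have h2 := abs_le.1 hl1
    rw [abs_of_nonneg (le_max_right _ _)]
    exact max_le (by linarith) (by norm_num)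
  have hiu : Integrable u cm := P4a_int hu.meas 1 hua
  have hiv : Integrable (fun θ => u θ * Real.cos (θ - θ0)) cm := by
    apply P4a_int (hu.meas.mul (by fun_prop)) 1
    intro θ
    change |u θ * Real.cos (θ - θ0)| ≤ 1
    rw [abs_mul]
    exact mul_le_one₀ (hua θ) (abs_nonneg _) (Real.abs_cos_le_one _)
  have e4 : R ≤ l * α + ∫ θ, max (Real.cos (θ - θ0) - l) 0 ∂cm := by
    rw [← e1, hα, ← integral_const_mul, ← integral_add (hiu.const_mul _) him]
    exact integral_mono hiv ((hiu.const_mul _).add him) e3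
  have e5 : ∫ θ, max (Real.cos (θ - θ0) - l) 0 ∂cm =
      Real.sin (Real.pi * α) / Real.pi - α * l := by
    have hper : Function.Periodic (fun θ : ℝ => max (Real.cos θ - l) 0) (2 * Real.pi) := by
      intro θ
      change max (Real.cos (θ + 2 * Real.pi) - l) 0 = max (Real.cos θ - l) 0
      rw [Real.cos_add_two_pi]
    have e6 := hper.intervalIntegral_add_eq (-Real.pi - θ0) (-Real.pi)
    have e7 : -Real.pi - θ0 + 2 * Real.pi = Real.pi - θ0 := by ring
    have e8 : -Real.pi + 2 * Real.pi = Real.pi := by ring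
    rw [e7, e8] at e6
    rw [P4a_cm, intervalIntegral.integral_comp_sub_right
      (fun θ => max (Real.cos θ - l) 0) θ0, e6, hl, P4a_tri α hα0 hα1]
    field_simp
  have e9 : R ≤ Real.sin (Real.pi * α) / Real.pi := by
    rw [e5] at e4
    linarith
  have e10 : A ^ 2 + B ^ 2 = R ^ 2 := by
    rw [hR1, hR2]
    linear_combination R ^ 2 * Real.cos_sq_add_sin_sq θ0
  rw [e10]
  exact pow_le_pow_left₀ hR0 e9 2

end Pool.TC
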