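import Pool.Agent.TC.St

set_option autoImplicit false

open MeasureTheory ProbabilityTheory Pool.H65.PS Pool.H65.PT

namespace Pool.TC

private lemma P4b_chord {A : ℝ} (h0 : 0 ≤ A) (h1 : A ≤ Real.pi / 3) :
    1 - 3 / (2 * Real.pi) * A ≤ Real.cos A := by
  have hpi := Real.pi_pos
  have hconc : ConcaveOn ℝ (Set.Icc (-(Real.pi / 2)) (Real.pi / 2)) Real.cos :=
    strictConcaveOn_cos_Icc.concaveOn
  have hm1 : (0 : ℝ) ∈ Set.Icc (-(Real.pi / 2)) (Real.pi / 2) := ⟨by linarith, by linarith⟩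
  have hm2 : (Real.pi / 3) ∈ Set.Icc (-(Real.pi / 2)) (Real.pi / 2) := ⟨by linarith, by linarith⟩
  set t : ℝ := A / (Real.pi / 3) with ht
  have ht0 : 0 ≤ t := by positivity
  have ht1 : t ≤ 1 := by rw [ht, div_le_one (by positivity)]; exact h1
  have h := hconc.2 hm1 hm2 (by linarith : (0 : ℝ) ≤ 1 - t) ht0 (by ring)
  simp only [smul_eq_mul, Real.cos_zero, Real.cos_pi_div_three] at h
  have hA : (1 - t) * 0 + t * (Real.pi / 3) = A := by
    rw [ht]; field_simp; ring
  rw [hA] at h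
  have ht' : t = 3 / Real.pi * A := by rw [ht]; field_simp
  rw [ht'] at h
  have : 1 - 3 / (2 * Real.pi) * A = (1 - 3 / Real.pi * A) * 1 + 3 / Real.pi * A * (1 / 2) := by
    field_simp; ring
  rw [this]; exact h

private lemma P4b_core {a b c : ℝ} (ha : 0 ≤ a) (hb : 0 ≤ b) (hc : 0 ≤ c) (hs : a + b + c = 1)
    (h3 : a ≤ 1 / 3) :
    Real.sin (Real.pi * a) ^ 2 + Real.sin (Real.pi * b) ^ 2 + Real.sin (Real.pi * c) ^ 2
      ≤ 9 / 4 - 3 / 2 * ((a - 1 / 3) ^ 2 + (b - 1 / 3) ^ 2 + (c - 1 / 3) ^ 2) := by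
  have hpi := Real.pi_pos
  set A := Real.pi * a with hA
  set D := Real.pi * (b - c) with hD
  have hA0 : 0 ≤ A := by positivity
  have hA1 : A ≤ Real.pi / 3 := by rw [hA]; nlinarith
  have hB : Real.pi * b = (Real.pi - A + D) / 2 := by
    rw [hA, hD]; have : a = 1 - b - c := by linarith
    rw [this]; ring
  have hC : Real.pi * c = (Real.pi - A - D) / 2 := by
    rw [hA, hD]; have : a = 1 - b - c := by linarith
    rw [this]; ring
  have e1 : Real.sin (Real.pi * b) ^ 2 = 1 / 2 + Real.cos (A - D) / 2 := by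
    rw [Real.sin_sq_eq_half_sub, hB]
    have : 2 * ((Real.pi - A + D) / 2) = Real.pi - (A - D) := by ring
    rw [this, Real.cos_pi_sub]; ring
  have e2 : Real.sin (Real.pi * c) ^ 2 = 1 / 2 + Real.cos (A + D) / 2 := by
    rw [Real.sin_sq_eq_half_sub, hC]
    have : 2 * ((Real.pi - A - D) / 2) = Real.pi - (A + D) := by ring
    rw [this, Real.cos_pi_sub]; ring
  have e3 : Real.sin A ^ 2 = 1 - Real.cos A ^ 2 := Real.sin_sq A
  have e4 : Real.cos (A - D) + Real.cos (A + D) = 2 * Real.cos A * Real.cos D := by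
    rw [Real.cos_sub, Real.cos_add]; ring
  have hchord := P4b_chord hA0 hA1
  have hch2 : 3 / 2 * (1 / 3 - a) ≤ Real.cos A - 1 / 2 := by
    have : 3 / (2 * Real.pi) * A = 3 / 2 * a := by rw [hA]; field_simp
    rw [this] at hchord; linarith
  have hch3 : (3 / 2 * (1 / 3 - a)) ^ 2 ≤ (Real.cos A - 1 / 2) ^ 2 :=
    pow_le_pow_left₀ (by linarith) hch2 2
  have hcA : 1 / 2 ≤ Real.cos A := by linarith
  have hDabs : |D| ≤ Real.pi := by
    rw [hD, abs_mul, abs_of_pos hpi]
    have : |b - c| ≤ 1 := by rw [abs_le]; constructor <;> linarith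
    nlinarith
  have hcos := Real.cos_le_one_sub_mul_cos_sq hDabs
  have hcos2 : Real.cos D ≤ 1 - 2 * (b - c) ^ 2 := by
    have : 2 / Real.pi ^ 2 * D ^ 2 = 2 * (b - c) ^ 2 := by rw [hD]; field_simp
    rw [this] at hcos; exact hcos
  have hcD1 : Real.cos D ≤ 1 := Real.cos_le_one D
  have hprod : 1 / 2 * (1 - Real.cos D) ≤ Real.cos A * (1 - Real.cos D) :=
    mul_le_mul_of_nonneg_right hcA (by linarith)
  rw [e1, e2, e3]
  have hbc : (b - 1 / 3) ^ 2 + (c - 1 / 3) ^ 2 = (a - 1 / 3) ^ 2 / 2 + (b - c) ^ 2 / 2 := by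
    have : a = 1 - b - c := by linarith
    rw [this]; ring
  nlinarith [sq_nonneg (b - c)]

theorem pP4b : StP4b := by
  intro α hα hs
  simp only [Fin.sum_univ_three] at hs ⊢
  have ha := hα 0
  have hb := hα 1
  have hc := hα 2
  generalize α 0 = a at *
  generalize α 1 = b at *
  generalize α 2 = c at *
  by_cases h1 : a ≤ 1 / 3
  · exact P4b_core ha hb hc hs h1
  · by_cases h2 : b ≤ 1 / 3
    · have := P4b_core hb ha hc (by linarith) h2
      linarith
    · push Not at h1 h2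
      have := P4b_core hc ha hb (by linarith) (by linarith)
      linarith

end Pool.TC
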