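import Pool.Agent.TC.M_P1

/-! Project TC, module P5: the circle inequality for three colours. -/

set_option autoImplicit false

open MeasureTheory ProbabilityTheory Pool.H65.PS Pool.H65.PT

namespace Pool.TC

section P5

/-- the weight -/
private noncomputable def P5_k (b w : ℝ) : ℝ :=
  b * Real.sin w * (Real.exp (b * Real.cos w) - Real.exp (-b))

private theorem P5_kc (b : ℝ) : Continuous (P5_k b) := by
  unfold P5_k
  fun_prop

private theorem P5_k0 (b : ℝ) (hb : 0 ≤ b) (w : ℝ) (h0 : 0 ≤ w) (h1 : w ≤ Real.pi) :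
    0 ≤ P5_k b w := by
  unfold P5_k
  have hs := Real.sin_nonneg_of_nonneg_of_le_pi h0 h1
  have h3 : Real.exp (-b) ≤ Real.exp (b * Real.cos w) := by
    apply Real.exp_le_exp.2
    have := mul_le_mul_of_nonneg_left (Real.neg_one_le_cos w) hb
    linarith
  exact mul_nonneg (mul_nonneg hb hs) (by linarith)

private theorem P5_uabs {u : ℝ → ℝ} (hu : Cf u) (θ : ℝ) : |u θ| ≤ 1 := by
  rw [abs_le]
  exact ⟨by linarith [hu.nn θ], hu.le θ⟩

private theorem P5_Bwm {u : ℝ → ℝ} (hu : Cf u) : Measurable (fun w => Bw w u) := by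
  have h1 : Measurable (fun p : (ℝ × ℝ) × ℝ =>
      u p.1.2 * u p.2 * (if Real.cos p.1.1 < Real.cos (p.1.2 - p.2) then (1 : ℝ) else 0)) := by
    have hu' := hu.meas
    refine Measurable.mul ?_ (Measurable.ite ?_ measurable_const measurable_const)
    · fun_prop
    · exact measurableSet_lt (by fun_prop) (by fun_prop)
  have h2 : Measurable (fun p : ℝ × ℝ => ∫ φ,
      u p.2 * u φ * (if Real.cos p.1 < Real.cos (p.2 - φ) then (1 : ℝ) else 0) ∂cm) :=
    (h1.stronglyMeasurable.integral_prod_right (ν := cm)).measurable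
  exact (h2.stronglyMeasurable.integral_prod_right (ν := cm)).measurable

private theorem P5_Bwb {u : ℝ → ℝ} (hu : Cf u) (w : ℝ) : |Bw w u| ≤ 1 := by
  unfold Bw
  have h : ∀ θ, ‖∫ φ, u θ * u φ * (if Real.cos w < Real.cos (θ - φ) then (1 : ℝ) else 0) ∂cm‖ ≤ 1 := by
    intro θ
    have := norm_integral_le_of_norm_le_const (μ := cm)
      (f := fun φ => u θ * u φ * (if Real.cos w < Real.cos (θ - φ) then (1 : ℝ) else 0)) (C := 1)
      (Filter.Eventually.of_forall fun φ => by
        rw [norm_mul, norm_mul, Real.norm_eq_abs, Real.norm_eq_abs]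
        have a := P5_uabs hu θ
        have b := P5_uabs hu φ
        have c : ‖(if Real.cos w < Real.cos (θ - φ) then (1 : ℝ) else 0)‖ ≤ 1 := by
          split_ifs <;> simp
        calc |u θ| * |u φ| * ‖(if Real.cos w < Real.cos (θ - φ) then (1 : ℝ) else 0)‖ ≤ 1 * 1 * 1 := by
              gcongr
          _ = 1 := by norm_num)
    simpa using this
  have := norm_integral_le_of_norm_le_const (μ := cm)
    (f := fun θ => ∫ φ, u θ * u φ * (if Real.cos w < Real.cos (θ - φ) then (1 : ℝ) else 0) ∂cm)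
    (C := 1) (Filter.Eventually.of_forall h)
  rw [← Real.norm_eq_abs]
  simpa using this

private theorem P5_ii {f : ℝ → ℝ} (hf : Measurable f) {C : ℝ} (h : ∀ x, |f x| ≤ C) (b : ℝ) :
    IntervalIntegrable (fun w => P5_k b w * f w) volume 0 Real.pi := by
  rw [intervalIntegrable_iff]
  have h1 : IntegrableOn (P5_k b) (Set.uIoc 0 Real.pi) volume := by
    rw [← intervalIntegrable_iff]
    exact (P5_kc b).intervalIntegrable _ _
  exact h1.mul_bdd (c := C) hf.aestronglyMeasurable (Filter.Eventually.of_forall fun x => by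
    rw [Real.norm_eq_abs]; exact h x)

theorem pP5 (hP2 : StP2) (hP3 : StP3) (hP4a : StP4a) (hP4b : StP4b) (hP5a : StP5a) (hP5b : StP5b)
    (hP5c : StP5c) : StP5 := by
  intro b u hb hu hsum
  have hpi := Real.pi_pos
  obtain ⟨α, hα⟩ : ∃ α : Fin 3 → ℝ, ∀ j, ∫ θ, u j θ ∂cm = α j := ⟨_, fun j => rfl⟩
  have hα0 : ∀ j, 0 ≤ α j := fun j => by
    rw [← hα j]
    exact integral_nonneg (hu j).nn
  have hα1 : ∑ j, α j = 1 := by
    have h1 : ∑ j, α j = ∫ θ, ∑ j, u j θ ∂cm := by
      rw [integral_finsetSum _ (fun j _ => P1_integrable1 (hu j).meas 1 (P5_uabs (hu j)))]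
      exact Finset.sum_congr rfl fun j _ => (hα j).symm
    rw [h1]
    simp [hsum]
  -- measurable bounded pieces
  have hBm := fun j => P5_Bwm (hu j)
  have hBb := fun j => P5_Bwb (hu j)
  have hanm : Measurable (fun w : ℝ => an (w / (2 * Real.pi)) (1 / 3)) := by
    unfold an
    fun_prop
  have heem : Measurable (fun w : ℝ => ee (w / (2 * Real.pi))) := by
    unfold ee
    refine Measurable.ite (measurableSet_le (by fun_prop) measurable_const) (by fun_prop)
      measurable_const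
  have heeb : ∀ w : ℝ, |ee (w / (2 * Real.pi))| ≤ 1 + 6 * (w / (2 * Real.pi)) ^ 2 := by
    intro w
    unfold ee
    split_ifs
    · rw [abs_of_nonneg (by positivity)]
      linarith
    · rw [abs_one]
      have : 0 ≤ 6 * (w / (2 * Real.pi)) ^ 2 := by positivity
      linarith
  -- integrability on the interval
  have hIB : ∀ j, IntervalIntegrable (fun w => P5_k b w * Bw w (u j)) volume 0 Real.pi := fun j =>
    P5_ii (hBm j) (hBb j) b
  have hIan : IntervalIntegrable (fun w => P5_k b w * an (w / (2 * Real.pi)) (1 / 3)) volume 0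
      Real.pi := by
    refine Continuous.intervalIntegrable ?_ _ _
    have h1 := P5_kc b
    unfold an
    fun_prop
  have hIee : IntervalIntegrable (fun w => P5_k b w * ee (w / (2 * Real.pi))) volume 0 Real.pi := by
    rw [intervalIntegrable_iff]
    have h1 : IntegrableOn (P5_k b) (Set.uIoc 0 Real.pi) volume := by
      rw [← intervalIntegrable_iff]
      exact (P5_kc b).intervalIntegrable _ _
    refine h1.mul_bdd (c := 7) heem.aestronglyMeasurable ?_
    rw [ae_restrict_iff' measurableSet_uIoc]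
    refine Filter.Eventually.of_forall fun w hw => ?_
    rw [Set.uIoc_of_le hpi.le] at hw
    rw [Real.norm_eq_abs]
    refine (heeb w).trans ?_
    have h3 : w / (2 * Real.pi) ≤ 1 := by
      rw [div_le_one (by positivity)]
      linarith [hw.2]
    have h4 : 0 ≤ w / (2 * Real.pi) := div_nonneg hw.1.le (by positivity)
    nlinarith
  -- formulas
  have hf : ∀ j, Qb b (u j) (u j) = b * Real.exp (-b) *
      ((∫ θ, u j θ * Real.cos θ ∂cm) ^ 2 + (∫ θ, u j θ * Real.sin θ ∂cm) ^ 2)
      + (Real.exp (-b) + b * Real.exp (-b)) * α j ^ 2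
      + ∫ w in (0 : ℝ)..Real.pi, P5_k b w * Bw w (u j) := by
    intro j
    rw [← hα j]
    exact hP5a b (u j) hb (hu j)
  have hsec : ∀ j, Qb b (sec j) (sec j) = b * Real.exp (-b) * (3 / (4 * Real.pi ^ 2))
      + (Real.exp (-b) + b * Real.exp (-b)) * (1 / 3) ^ 2
      + ∫ w in (0 : ℝ)..Real.pi, P5_k b w * an (w / (2 * Real.pi)) (1 / 3) := by
    intro j
    obtain ⟨h1, h2, h3, h4⟩ := hP5c j
    have h5 := hP5a b (sec j) hb h1
    rw [h2, h3] at h5
    rw [h5]
    congr 1
    refine intervalIntegral.integral_congr fun w hw => ?_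
    rw [Set.uIcc_of_le hpi.le] at hw
    rw [h4 w hw.1 hw.2]
    rfl
  -- layers
  have hlay : ∑ j, ∫ w in (0 : ℝ)..Real.pi, P5_k b w * Bw w (u j)
      ≤ 3 * (∫ w in (0 : ℝ)..Real.pi, P5_k b w * an (w / (2 * Real.pi)) (1 / 3))
        + (∫ w in (0 : ℝ)..Real.pi, P5_k b w * ee (w / (2 * Real.pi))) * ∑ j, (α j - 1 / 3) ^ 2 := by
    rw [← intervalIntegral.integral_finsetSum (fun j _ => hIB j),
      ← intervalIntegral.integral_const_mul, ← intervalIntegral.integral_mul_const,
      ← intervalIntegral.integral_add (hIan.const_mul 3) (hIee.mul_const _)]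
    refine intervalIntegral.integral_mono_on hpi.le ?_ ((hIan.const_mul 3).add (hIee.mul_const _)) ?_
    · have h := IntervalIntegrable.sum (Finset.univ : Finset (Fin 3)) (fun j _ => hIB j)
      have e : (fun w => ∑ j, P5_k b w * Bw w (u j))
          = ∑ j, (fun w => P5_k b w * Bw w (u j)) := by
        funext w
        rw [Finset.sum_apply]
      rw [e]
      exact h
    · intro w hw
      have hk := P5_k0 b hb w hw.1 hw.2
      have hν0 : 0 ≤ w / (2 * Real.pi) := div_nonneg hw.1 (by positivity)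
      have hν1 : w / (2 * Real.pi) ≤ 1 / 2 := by
        rw [div_le_iff₀ (by positivity)]
        linarith [hw.2]
      have h1 : ∑ j, Bw w (u j) ≤ ∑ j, an (w / (2 * Real.pi)) (α j) :=
        Finset.sum_le_sum fun j _ => by
          have := hP2 w (u j) hw.1 hw.2 (hu j)
          rw [hα j] at this
          exact this
      have h2 := hP3 (w / (2 * Real.pi)) α hν0 hν1 hα0 hα1
      have h3 := mul_le_mul_of_nonneg_left (h1.trans h2) hk
      rw [Finset.mul_sum] at h3
      calc ∑ j, P5_k b w * Bw w (u j)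
          ≤ P5_k b w * (3 * an (w / (2 * Real.pi)) (1 / 3)
            + ee (w / (2 * Real.pi)) * ∑ j, (α j - 1 / 3) ^ 2) := h3
        _ = _ := by ring
  -- first modes
  have hmode : ∑ j, ((∫ θ, u j θ * Real.cos θ ∂cm) ^ 2 + (∫ θ, u j θ * Real.sin θ ∂cm) ^ 2)
      ≤ (9 / 4 - 3 / 2 * ∑ j, (α j - 1 / 3) ^ 2) / Real.pi ^ 2 := by
    have h1 : ∑ j, ((∫ θ, u j θ * Real.cos θ ∂cm) ^ 2 + (∫ θ, u j θ * Real.sin θ ∂cm) ^ 2)
        ≤ ∑ j, Real.sin (Real.pi * α j) ^ 2 / Real.pi ^ 2 :=
      Finset.sum_le_sum fun j _ => by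
        have := hP4a (u j) (hu j)
        rw [hα j, div_pow] at this
        exact this
    refine h1.trans ?_
    rw [← Finset.sum_div]
    exact div_le_div_of_nonneg_right (hP4b α hα0 hα1) (by positivity)
  have hsq : ∑ j, α j ^ 2 = 1 / 3 + ∑ j, (α j - 1 / 3) ^ 2 := by
    simp only [Fin.sum_univ_three] at hα1 ⊢
    linear_combination (2 / 3 : ℝ) * hα1
  have hLb := hP5b b hb
  have hLb' : Real.exp (-b) + b * Real.exp (-b)
      + (∫ w in (0 : ℝ)..Real.pi, P5_k b w * ee (w / (2 * Real.pi)))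
      - 3 / (2 * Real.pi ^ 2) * (b * Real.exp (-b)) = Lb b := hLb
  unfold Sgb
  rw [Finset.sum_congr rfl (fun j _ => hf j), Finset.sum_congr rfl (fun j _ => hsec j)]
  rw [Finset.sum_congr rfl (fun j _ => show ((∫ θ, u j θ ∂cm) - 1 / 3) ^ 2 = (α j - 1 / 3) ^ 2 by
    rw [hα j])]
  rw [Finset.sum_add_distrib, Finset.sum_add_distrib, ← Finset.mul_sum, ← Finset.mul_sum, hsq,
    Finset.sum_const, Finset.card_univ, Fintype.card_fin, ← hLb']
  have hbe : 0 ≤ b * Real.exp (-b) := by positivity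
  have h6 := mul_le_mul_of_nonneg_left hmode hbe
  generalize ∑ j, (α j - 1 / 3) ^ 2 = E at *
  generalize (∫ w in (0 : ℝ)..Real.pi, P5_k b w * an (w / (2 * Real.pi)) (1 / 3)) = IA at *
  generalize (∫ w in (0 : ℝ)..Real.pi, P5_k b w * ee (w / (2 * Real.pi))) = IE at *
  generalize ∑ j, ∫ w in (0 : ℝ)..Real.pi, P5_k b w * Bw w (u j) = IB at *
  generalize ∑ j, ((∫ θ, u j θ * Real.cos θ ∂cm) ^ 2 + (∫ θ, u j θ * Real.sin θ ∂cm) ^ 2) = M at *
  generalize b * Real.exp (-b) = B at *
  generalize Real.exp (-b) = X at *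
  have e : (9 / 4 - 3 / 2 * E) / Real.pi ^ 2 = 3 * (3 / (4 * Real.pi ^ 2)) - 3 / (2 * Real.pi ^ 2) * E := by
    field_simp
    ring
  rw [e] at h6
  rw [nsmul_eq_mul]
  push_cast
  nlinarith [h6, hlay]

end P5

end Pool.TC
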