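import Pool.Agent.TC.St

/-! Project TC, module P5a: the layer cake formula. -/

set_option autoImplicit false

open MeasureTheory ProbabilityTheory Pool.H65.PS Pool.H65.PT

namespace Pool.TC

section P5a

private theorem P5a_fin : IsFiniteMeasure cm := by
  unfold cm
  exact Measure.smul_finite _ ENNReal.ofReal_ne_top

private theorem P5a_int {α : Type} [MeasurableSpace α] {μ : Measure α} [IsFiniteMeasure μ]
    {g : α → ℝ} (hm : Measurable g) (B : ℝ) (hb : ∀ x, |g x| ≤ B) : Integrable g μ :=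
  Integrable.of_bound hm.aestronglyMeasurable B (Filter.Eventually.of_forall fun x => by
    rw [Real.norm_eq_abs]; exact hb x)

/-- the weight -/
private noncomputable def P5a_k (b w : ℝ) : ℝ :=
  b * Real.sin w * (Real.exp (b * Real.cos w) - Real.exp (-b))

private theorem P5a_kc (b : ℝ) : Continuous (P5a_k b) := by
  unfold P5a_k
  fun_prop

private theorem P5a_kb (b : ℝ) (hb : 0 ≤ b) (w : ℝ) : |P5a_k b w| ≤ b * Real.exp b := by
  unfold P5a_k
  have h1 : |Real.sin w| ≤ 1 := Real.abs_sin_le_one w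
  have h2 : Real.exp (b * Real.cos w) ≤ Real.exp b := by
    apply Real.exp_le_exp.2
    have := mul_le_mul_of_nonneg_left (Real.cos_le_one w) hb
    linarith
  have h3 : Real.exp (-b) ≤ Real.exp (b * Real.cos w) := by
    apply Real.exp_le_exp.2
    have := mul_le_mul_of_nonneg_left (Real.neg_one_le_cos w) hb
    linarith
  have h4 : 0 < Real.exp (-b) := Real.exp_pos _
  have h5 : |Real.exp (b * Real.cos w) - Real.exp (-b)| ≤ Real.exp b := by
    rw [abs_of_nonneg (by linarith)]
    linarith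
  rw [abs_mul, abs_mul, abs_of_nonneg hb]
  calc b * |Real.sin w| * |Real.exp (b * Real.cos w) - Real.exp (-b)|
      ≤ (b * 1) * Real.exp b :=
        mul_le_mul (mul_le_mul_of_nonneg_left h1 hb) h5 (abs_nonneg _) (by linarith)
    _ = b * Real.exp b := by ring

private theorem P5a_layer (b x : ℝ) (h1 : -1 ≤ x) (h2 : x ≤ 1) :
    Real.exp (b * x) = b * Real.exp (-b) * x + (Real.exp (-b) + b * Real.exp (-b)) +
      ∫ w in (0 : ℝ)..Real.pi, P5a_k b w * (if Real.cos w < x then 1 else 0) := by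
  have hw0 : 0 ≤ Real.arccos x := Real.arccos_nonneg x
  have hw1 : Real.arccos x ≤ Real.pi := Real.arccos_le_pi x
  have hcos : Real.cos (Real.arccos x) = x := Real.cos_arccos h1 h2
  have e1 : ∫ w in (0 : ℝ)..Real.pi, P5a_k b w * (if Real.cos w < x then 1 else 0) =
      ∫ w in (Real.arccos x)..Real.pi, P5a_k b w := by
    rw [intervalIntegral.integral_of_le Real.pi_pos.le, intervalIntegral.integral_of_le hw1]
    have hsub : Set.Ioc (Real.arccos x) Real.pi ⊆ Set.Ioc 0 Real.pi :=
      Set.Ioc_subset_Ioc_left hw0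
    rw [← integral_indicator measurableSet_Ioc, ← integral_indicator measurableSet_Ioc]
    congr 1
    funext w
    by_cases hw : w ∈ Set.Ioc (Real.arccos x) Real.pi
    · rw [Set.indicator_of_mem hw, Set.indicator_of_mem (hsub hw)]
      have : Real.cos w < x := by
        rw [← hcos]
        exact Real.cos_lt_cos_of_nonneg_of_le_pi hw0 hw.2 hw.1
      rw [if_pos this, mul_one]
    · rw [Set.indicator_of_notMem hw]
      by_cases hw' : w ∈ Set.Ioc 0 Real.pi
      · rw [Set.indicator_of_mem hw']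
        have hle : w ≤ Real.arccos x := by
          by_contra hcon
          exact hw ⟨not_le.1 hcon, hw'.2⟩
        have : ¬ Real.cos w < x := by
          rw [not_lt, ← hcos]
          exact Real.cos_le_cos_of_nonneg_of_le_pi hw'.1.le hw1 hle
        rw [if_neg this, mul_zero]
      · rw [Set.indicator_of_notMem hw']
  have e2 : ∫ w in (Real.arccos x)..Real.pi, P5a_k b w =
      (-(Real.exp (b * Real.cos Real.pi) - b * Real.exp (-b) * Real.cos Real.pi)) -
      (-(Real.exp (b * Real.cos (Real.arccos x)) -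
        b * Real.exp (-b) * Real.cos (Real.arccos x))) := by
    refine intervalIntegral.integral_eq_sub_of_hasDerivAt
      (f := fun w => -(Real.exp (b * Real.cos w) - b * Real.exp (-b) * Real.cos w)) ?_
      ((P5a_kc b).intervalIntegrable _ _)
    intro w _
    have d1 : HasDerivAt (fun w => b * Real.cos w) (b * -Real.sin w) w :=
      (Real.hasDerivAt_cos w).const_mul b
    have d2 := d1.exp
    have d3 : HasDerivAt (fun w => b * Real.exp (-b) * Real.cos w)
        (b * Real.exp (-b) * -Real.sin w) w := (Real.hasDerivAt_cos w).const_mul _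
    have d4 := (d2.sub d3).neg
    refine d4.congr_deriv ?_
    unfold P5a_k
    ring
  rw [e1, e2, hcos, Real.cos_pi]
  have e3 : b * -1 = -b := by ring
  rw [e3]
  ring

theorem pP5a : StP5a := by
  intro b u hb hu
  have := P5a_fin
  have hub : ∀ θ, |u θ| ≤ 1 := fun θ => by
    rw [abs_of_nonneg (hu.nn θ)]
    exact hu.le θ
  have hcos1 : ∀ θ, |Real.cos θ| ≤ 1 := Real.abs_cos_le_one
  have hsin1 : ∀ θ, |Real.sin θ| ≤ 1 := Real.abs_sin_le_one
  have mul1 : ∀ x y : ℝ, |x| ≤ 1 → |y| ≤ 1 → |x * y| ≤ 1 := fun x y hx hy => by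
    rw [abs_mul]
    exact mul_le_one₀ hx (abs_nonneg _) hy
  set ν : Measure ℝ := volume.restrict (Set.Ioc 0 Real.pi) with hν
  have m1 : Measurable fun p : ℝ × ℝ => u p.1 := hu.meas.comp measurable_fst
  have m2 : Measurable fun p : ℝ × ℝ => u p.2 := hu.meas.comp measurable_snd
  have mc : Measurable fun p : ℝ × ℝ => Real.cos (p.1 - p.2) :=
    Real.measurable_cos.comp (measurable_fst.sub measurable_snd)
  -- integrability on the product
  have iC : Integrable (fun p : ℝ × ℝ => u p.1 * u p.2 * Real.cos (p.1 - p.2))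
      (cm.prod cm) := P5a_int ((m1.mul m2).mul mc) 1
        (fun p => mul1 _ _ (mul1 _ _ (hub _) (hub _)) (hcos1 _))
  have i1 : Integrable (fun p : ℝ × ℝ => u p.1 * u p.2) (cm.prod cm) :=
    P5a_int (m1.mul m2) 1 (fun p => mul1 _ _ (hub _) (hub _))
  have iCC : Integrable (fun p : ℝ × ℝ => (u p.1 * Real.cos p.1) * (u p.2 * Real.cos p.2))
      (cm.prod cm) := P5a_int ((m1.mul (Real.measurable_cos.comp measurable_fst)).mul
        (m2.mul (Real.measurable_cos.comp measurable_snd))) 1
        (fun p => mul1 _ _ (mul1 _ _ (hub _) (hcos1 _)) (mul1 _ _ (hub _) (hcos1 _)))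
  have iSS : Integrable (fun p : ℝ × ℝ => (u p.1 * Real.sin p.1) * (u p.2 * Real.sin p.2))
      (cm.prod cm) := P5a_int ((m1.mul (Real.measurable_sin.comp measurable_fst)).mul
        (m2.mul (Real.measurable_sin.comp measurable_snd))) 1
        (fun p => mul1 _ _ (mul1 _ _ (hub _) (hsin1 _)) (mul1 _ _ (hub _) (hsin1 _)))
  -- the triple integrand
  have mi : Measurable fun q : (ℝ × ℝ) × ℝ =>
      (if Real.cos q.2 < Real.cos (q.1.1 - q.1.2) then (1 : ℝ) else 0) := by
    refine Measurable.ite (measurableSet_lt (Real.measurable_cos.comp measurable_snd)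
      (mc.comp measurable_fst)) measurable_const measurable_const
  have hi : ∀ q : (ℝ × ℝ) × ℝ,
      |(if Real.cos q.2 < Real.cos (q.1.1 - q.1.2) then (1 : ℝ) else 0)| ≤ 1 := fun q => by
    split_ifs <;> simp
  have mT : Measurable fun q : (ℝ × ℝ) × ℝ => (u q.1.1 * u q.1.2) * (P5a_k b q.2 *
      (if Real.cos q.2 < Real.cos (q.1.1 - q.1.2) then (1 : ℝ) else 0)) :=
    ((m1.mul m2).comp measurable_fst).mul
      (((P5a_kc b).measurable.comp measurable_snd).mul mi)
  have hkb : 0 ≤ b * Real.exp b := mul_nonneg hb (Real.exp_pos _).le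
  have hT : ∀ q : (ℝ × ℝ) × ℝ, |(u q.1.1 * u q.1.2) * (P5a_k b q.2 *
      (if Real.cos q.2 < Real.cos (q.1.1 - q.1.2) then (1 : ℝ) else 0))| ≤ b * Real.exp b := by
    intro q
    rw [abs_mul (u q.1.1 * u q.1.2), abs_mul (P5a_k b q.2)]
    calc |u q.1.1 * u q.1.2| * (|P5a_k b q.2| *
          |(if Real.cos q.2 < Real.cos (q.1.1 - q.1.2) then (1 : ℝ) else 0)|)
        ≤ 1 * (b * Real.exp b * 1) := by
          refine mul_le_mul (mul1 _ _ (hub _) (hub _)) ?_
            (mul_nonneg (abs_nonneg _) (abs_nonneg _)) zero_le_one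
          exact mul_le_mul (P5a_kb b hb _) (hi q) (abs_nonneg _) hkb
      _ = b * Real.exp b := by ring
  have iT : Integrable (fun q : (ℝ × ℝ) × ℝ => (u q.1.1 * u q.1.2) * (P5a_k b q.2 *
      (if Real.cos q.2 < Real.cos (q.1.1 - q.1.2) then (1 : ℝ) else 0)))
      ((cm.prod cm).prod ν) := P5a_int mT _ hT
  have iT2 : Integrable (fun p : ℝ × ℝ => ∫ w, (u p.1 * u p.2) * (P5a_k b w *
      (if Real.cos w < Real.cos (p.1 - p.2) then (1 : ℝ) else 0)) ∂ν) (cm.prod cm) :=
    iT.integral_prod_left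
  -- pointwise formula
  have hpt : ∀ p : ℝ × ℝ, u p.1 * u p.2 * Real.exp (b * Real.cos (p.1 - p.2)) =
      b * Real.exp (-b) * (u p.1 * u p.2 * Real.cos (p.1 - p.2)) +
      (Real.exp (-b) + b * Real.exp (-b)) * (u p.1 * u p.2) +
      ∫ w, (u p.1 * u p.2) * (P5a_k b w *
      (if Real.cos w < Real.cos (p.1 - p.2) then (1 : ℝ) else 0)) ∂ν := by
    intro p
    rw [integral_const_mul]
    have := P5a_layer b (Real.cos (p.1 - p.2)) (Real.neg_one_le_cos _) (Real.cos_le_one _)
    rw [intervalIntegral.integral_of_le Real.pi_pos.le] at this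
    rw [this]
    ring
  have hexp : ∀ p : ℝ × ℝ, |u p.1 * u p.2 * Real.exp (b * Real.cos (p.1 - p.2))| ≤
      Real.exp b := by
    intro p
    rw [abs_mul, abs_of_pos (Real.exp_pos _)]
    have h2 : Real.exp (b * Real.cos (p.1 - p.2)) ≤ Real.exp b := by
      apply Real.exp_le_exp.2
      have := mul_le_mul_of_nonneg_left (Real.cos_le_one (p.1 - p.2)) hb
      linarith
    calc |u p.1 * u p.2| * Real.exp (b * Real.cos (p.1 - p.2)) ≤ 1 * Real.exp b :=
          mul_le_mul (mul1 _ _ (hub _) (hub _)) h2 (Real.exp_pos _).le zero_le_one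
      _ = Real.exp b := one_mul _
  have iE : Integrable (fun p : ℝ × ℝ => u p.1 * u p.2 *
      Real.exp (b * Real.cos (p.1 - p.2))) (cm.prod cm) :=
    P5a_int ((m1.mul m2).mul (Real.measurable_exp.comp (mc.const_mul b))) _ hexp
  have hQ : Qb b u u = ∫ p : ℝ × ℝ, u p.1 * u p.2 * Real.exp (b * Real.cos (p.1 - p.2))
      ∂(cm.prod cm) := by
    unfold Qb
    exact integral_integral (f := fun θ φ => u θ * u φ * Real.exp (b * Real.cos (θ - φ))) iE
  -- the three parts
  have hP1 : ∫ p : ℝ × ℝ, u p.1 * u p.2 * Real.cos (p.1 - p.2) ∂(cm.prod cm) =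
      (∫ θ, u θ * Real.cos θ ∂cm) ^ 2 + (∫ θ, u θ * Real.sin θ ∂cm) ^ 2 := by
    have e1 : ∫ p : ℝ × ℝ, u p.1 * u p.2 * Real.cos (p.1 - p.2) ∂(cm.prod cm) =
        ∫ p : ℝ × ℝ, (u p.1 * Real.cos p.1) * (u p.2 * Real.cos p.2) ∂(cm.prod cm) +
        ∫ p : ℝ × ℝ, (u p.1 * Real.sin p.1) * (u p.2 * Real.sin p.2) ∂(cm.prod cm) := by
      rw [← integral_add iCC iSS]
      refine integral_congr_ae (Filter.Eventually.of_forall fun p => ?_)
      simp only
      rw [Real.cos_sub]
      ring
    rw [e1, integral_prod_mul (fun θ => u θ * Real.cos θ) (fun θ => u θ * Real.cos θ),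
      integral_prod_mul (fun θ => u θ * Real.sin θ) (fun θ => u θ * Real.sin θ)]
    ring
  have hP2 : ∫ p : ℝ × ℝ, u p.1 * u p.2 ∂(cm.prod cm) = (∫ θ, u θ ∂cm) ^ 2 := by
    rw [integral_prod_mul (fun θ => u θ) (fun θ => u θ)]
    ring
  have hP3 : ∫ p : ℝ × ℝ, (∫ w, (u p.1 * u p.2) * (P5a_k b w *
      (if Real.cos w < Real.cos (p.1 - p.2) then (1 : ℝ) else 0)) ∂ν) ∂(cm.prod cm) =
      ∫ w in (0 : ℝ)..Real.pi, P5a_k b w * Bw w u := by
    rw [integral_integral_swap (f := fun (p : ℝ × ℝ) (w : ℝ) => (u p.1 * u p.2) * (P5a_k b w *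
      (if Real.cos w < Real.cos (p.1 - p.2) then (1 : ℝ) else 0))) iT,
      intervalIntegral.integral_of_le Real.pi_pos.le]
    refine integral_congr_ae (Filter.Eventually.of_forall fun w => ?_)
    simp only
    have iB : Integrable (fun p : ℝ × ℝ => u p.1 * u p.2 *
        (if Real.cos w < Real.cos (p.1 - p.2) then (1 : ℝ) else 0)) (cm.prod cm) := by
      refine P5a_int ((m1.mul m2).mul (Measurable.ite (measurableSet_lt measurable_const mc)
        measurable_const measurable_const)) 1 (fun p => mul1 _ _ (mul1 _ _ (hub _) (hub _)) ?_)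
      split_ifs <;> simp
    have hB : Bw w u = ∫ p : ℝ × ℝ, u p.1 * u p.2 *
        (if Real.cos w < Real.cos (p.1 - p.2) then (1 : ℝ) else 0) ∂(cm.prod cm) := by
      unfold Bw
      exact integral_integral (f := fun θ φ => u θ * u φ *
        (if Real.cos w < Real.cos (θ - φ) then (1 : ℝ) else 0)) iB
    rw [hB, ← integral_const_mul]
    refine integral_congr_ae (Filter.Eventually.of_forall fun p => ?_)
    simp only
    ring
  have i12 : Integrable (fun p : ℝ × ℝ => b * Real.exp (-b) *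
      (u p.1 * u p.2 * Real.cos (p.1 - p.2)) +
      (Real.exp (-b) + b * Real.exp (-b)) * (u p.1 * u p.2)) (cm.prod cm) :=
    (iC.const_mul _).add (i1.const_mul _)
  rw [hQ, integral_congr_ae (Filter.Eventually.of_forall hpt), integral_add i12 iT2,
    integral_add (iC.const_mul _) (i1.const_mul _), integral_const_mul, integral_const_mul,
    hP1, hP2, hP3]
  rfl

end P5a

end Pool.TC
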