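import Pool.Agent.TC.St

/-! Project TC, module P5b: the coefficient in the circle inequality. -/

set_option autoImplicit false

open MeasureTheory ProbabilityTheory Pool.H65.PS Pool.H65.PT

namespace Pool.TC

theorem P5b_ee_lo {w : ℝ} (h : w ≤ 2 * Real.pi / 3) :
    ee (w / (2 * Real.pi)) = 3 * w ^ 2 / (2 * Real.pi ^ 2) := by
  have hp := Real.pi_pos
  unfold ee
  rw [if_pos]
  · field_simp
    ring
  · rw [div_le_iff₀ (by positivity)]
    linarith

theorem P5b_ee_hi {w : ℝ} (h : 2 * Real.pi / 3 < w) : ee (w / (2 * Real.pi)) = 1 := by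
  have hp := Real.pi_pos
  unfold ee
  rw [if_neg]
  rw [not_le, lt_div_iff₀ (by positivity)]
  linarith

theorem P5b_K (b w : ℝ) :
    HasDerivAt (fun w => Real.exp (b * Real.cos w) - b * Real.exp (-b) * Real.cos w)
      (-(b * Real.sin w * (Real.exp (b * Real.cos w) - Real.exp (-b)))) w := by
  have h1 : HasDerivAt (fun w => b * Real.cos w) (b * (-Real.sin w)) w :=
    (Real.hasDerivAt_cos w).const_mul b
  have h2 := h1.exp.sub ((Real.hasDerivAt_cos w).const_mul (b * Real.exp (-b)))
  refine h2.congr_deriv ?_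
  ring

theorem P5b_cos : Real.cos (2 * Real.pi / 3) = -(1 / 2) := by
  have : 2 * Real.pi / 3 = Real.pi - Real.pi / 3 := by ring
  rw [this, Real.cos_pi_sub, Real.cos_pi_div_three]

theorem P5b_sin : Real.sin (2 * Real.pi / 3) = Real.sqrt 3 / 2 := by
  have : 2 * Real.pi / 3 = Real.pi - Real.pi / 3 := by ring
  rw [this, Real.sin_pi_sub, Real.sin_pi_div_three]

theorem P5b_wcos : ∫ w in (0 : ℝ)..(2 * Real.pi / 3), w * Real.cos w =
    Real.pi * Real.sqrt 3 / 3 - 3 / 2 := by
  have h : ∀ w ∈ Set.uIcc (0 : ℝ) (2 * Real.pi / 3),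
      HasDerivAt (fun w => w * Real.sin w + Real.cos w) (w * Real.cos w) w := by
    intro w _
    have h1 := ((hasDerivAt_id w).mul (Real.hasDerivAt_sin w)).add (Real.hasDerivAt_cos w)
    refine h1.congr_deriv ?_
    simp
  rw [intervalIntegral.integral_eq_sub_of_hasDerivAt h
    ((by fun_prop : Continuous fun w : ℝ => w * Real.cos w).intervalIntegrable _ _)]
  rw [P5b_sin, P5b_cos, Real.sin_zero, Real.cos_zero]
  ring

theorem pP5b : StP5b := by
  intro b hb
  have hp := Real.pi_pos
  set E := Real.exp (-b) with hE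
  set f : ℝ → ℝ := fun w => b * Real.sin w * (Real.exp (b * Real.cos w) - E) *
    ee (w / (2 * Real.pi)) with hf
  set g : ℝ → ℝ := fun w => b * Real.sin w * (Real.exp (b * Real.cos w) - E) with hg
  set K : ℝ → ℝ := fun w => Real.exp (b * Real.cos w) - b * E * Real.cos w with hK
  have hgc : Continuous g := by fun_prop
  have hKc : Continuous K := by fun_prop
  have hKd : ∀ w, HasDerivAt K (-(g w)) w := fun w => P5b_K b w
  have e1 : ∀ w ∈ Set.uIoc (0 : ℝ) (2 * Real.pi / 3), f w = g w * (3 * w ^ 2 / (2 * Real.pi ^ 2)) := by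
    intro w hw
    rw [Set.uIoc_of_le (by positivity)] at hw
    simp only [hf, hg]
    rw [P5b_ee_lo hw.2]
  have e2 : ∀ w ∈ Set.uIoc (2 * Real.pi / 3) Real.pi, f w = g w := by
    intro w hw
    rw [Set.uIoc_of_le (by linarith)] at hw
    simp only [hf, hg]
    rw [P5b_ee_hi hw.1, mul_one]
  have c1 : Continuous fun w : ℝ => g w * (3 * w ^ 2 / (2 * Real.pi ^ 2)) := by fun_prop
  have i1 : IntervalIntegrable f volume 0 (2 * Real.pi / 3) :=
    (c1.intervalIntegrable _ _).congr_ae
      ((ae_restrict_iff' measurableSet_uIoc).2 (Filter.Eventually.of_forall fun w hw =>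
        (e1 w hw).symm))
  have i2 : IntervalIntegrable f volume (2 * Real.pi / 3) Real.pi :=
    (hgc.intervalIntegrable _ _).congr_ae
      ((ae_restrict_iff' measurableSet_uIoc).2 (Filter.Eventually.of_forall fun w hw =>
        (e2 w hw).symm))
  have s1 : ∫ w in (0 : ℝ)..Real.pi, f w = (∫ w in (0 : ℝ)..(2 * Real.pi / 3), f w) +
      ∫ w in (2 * Real.pi / 3)..Real.pi, f w :=
    (intervalIntegral.integral_add_adjacent_intervals i1 i2).symm
  have s2 : ∫ w in (2 * Real.pi / 3)..Real.pi, f w = K (2 * Real.pi / 3) - K Real.pi := by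
    rw [intervalIntegral.integral_congr_ae (g := g) (Filter.Eventually.of_forall fun w hw => e2 w hw)]
    have h1 := intervalIntegral.integral_eq_sub_of_hasDerivAt (f := K) (f' := fun w => -(g w))
      (a := 2 * Real.pi / 3) (b := Real.pi) (fun w _ => hKd w)
      (hgc.neg.intervalIntegrable _ _)
    rw [intervalIntegral.integral_neg] at h1
    linarith
  have s3 : ∫ w in (0 : ℝ)..(2 * Real.pi / 3), f w = -(2 / 3) * K (2 * Real.pi / 3) +
      3 / Real.pi ^ 2 * ∫ w in (0 : ℝ)..(2 * Real.pi / 3), w * K w := by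
    rw [intervalIntegral.integral_congr_ae (g := fun w => g w * (3 * w ^ 2 / (2 * Real.pi ^ 2)))
      (Filter.Eventually.of_forall fun w hw => e1 w hw)]
    have h1 : ∀ w ∈ Set.uIcc (0 : ℝ) (2 * Real.pi / 3),
        HasDerivAt (fun w => -(K w) * (3 * w ^ 2 / (2 * Real.pi ^ 2)))
          (g w * (3 * w ^ 2 / (2 * Real.pi ^ 2)) - 3 / Real.pi ^ 2 * (w * K w)) w := by
      intro w _
      have h2 : HasDerivAt (fun w : ℝ => 3 * w ^ 2 / (2 * Real.pi ^ 2))
          (3 * (2 * w) / (2 * Real.pi ^ 2)) w := by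
        have h3 := ((hasDerivAt_pow 2 w).const_mul 3).div_const (2 * Real.pi ^ 2)
        refine h3.congr_deriv ?_
        simp
      refine ((hKd w).neg.mul h2).congr_deriv ?_
      rw [Pi.neg_apply]
      field_simp
      ring
    have h4 := intervalIntegral.integral_eq_sub_of_hasDerivAt h1
      ((by fun_prop : Continuous fun w : ℝ =>
        g w * (3 * w ^ 2 / (2 * Real.pi ^ 2)) - 3 / Real.pi ^ 2 * (w * K w)).intervalIntegrable _ _)
    rw [intervalIntegral.integral_sub (c1.intervalIntegrable _ _)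
      ((by fun_prop : Continuous fun w : ℝ => 3 / Real.pi ^ 2 * (w * K w)).intervalIntegrable _ _),
      intervalIntegral.integral_const_mul] at h4
    have h5 : -(K (2 * Real.pi / 3)) * (3 * (2 * Real.pi / 3) ^ 2 / (2 * Real.pi ^ 2)) -
        -(K 0) * (3 * (0 : ℝ) ^ 2 / (2 * Real.pi ^ 2)) = -(2 / 3) * K (2 * Real.pi / 3) := by
      field_simp
      ring
    rw [h5] at h4
    linarith
  have s4 : ∫ w in (0 : ℝ)..(2 * Real.pi / 3), w * K w =
      (∫ w in (0 : ℝ)..(2 * Real.pi / 3), w * Real.exp (b * Real.cos w)) -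
        b * E * (Real.pi * Real.sqrt 3 / 3 - 3 / 2) := by
    rw [← P5b_wcos, ← intervalIntegral.integral_const_mul, ← intervalIntegral.integral_sub
      ((by fun_prop : Continuous fun w : ℝ => w * Real.exp (b * Real.cos w)).intervalIntegrable _ _)
      ((by fun_prop : Continuous fun w : ℝ => b * E * (w * Real.cos w)).intervalIntegrable _ _)]
    refine intervalIntegral.integral_congr fun w _ => ?_
    simp only [hK]
    ring
  have k1 : K (2 * Real.pi / 3) = Real.exp (-b / 2) + b * E / 2 := by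
    simp only [hK]
    rw [P5b_cos]
    have : b * -(1 / 2) = -b / 2 := by ring
    rw [this]
    ring
  have k2 : K Real.pi = E + b * E := by
    simp only [hK]
    rw [Real.cos_pi]
    have : b * (-1) = -b := by ring
    rw [this]
    ring
  rw [s1, s2, s3, s4, k1, k2]
  unfold Lb c3
  rw [← hE]
  field_simp
  ring

end Pool.TC
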