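import Mathlib
import Pool.Agent.TC.St

/-! TC module P5c: the three sectors on the circle. -/

set_option autoImplicit false

open MeasureTheory ProbabilityTheory Pool.H65.PS Pool.H65.PT

namespace Pool.TC

/-- the basic sector -/
private noncomputable def P5c_S (θ : ℝ) : ℝ := if 1 / 2 < Real.cos θ then 1 else 0

private theorem P5c_cm (f : ℝ → ℝ) :
    ∫ θ, f θ ∂cm = (2 * Real.pi)⁻¹ * ∫ θ in Set.Ioc (-Real.pi) Real.pi, f θ := by
  rw [cm, integral_smul_measure, ENNReal.toReal_ofReal (by positivity), smul_eq_mul]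

private theorem P5c_cm' (f : ℝ → ℝ) :
    ∫ θ, f θ ∂cm = (2 * Real.pi)⁻¹ * ∫ θ in (-Real.pi)..Real.pi, f θ := by
  rw [P5c_cm, intervalIntegral.integral_of_le (by linarith [Real.pi_pos])]

private theorem P5c_shift (f : ℝ → ℝ) (hf : Function.Periodic f (2 * Real.pi)) (c : ℝ) :
    ∫ θ, f (θ - c) ∂cm = ∫ θ, f θ ∂cm := by
  rw [P5c_cm', P5c_cm', intervalIntegral.integral_comp_sub_right (fun θ => f θ) c]
  congr 1
  have h := hf.intervalIntegral_add_eq (-Real.pi - c) (-Real.pi)
  have e1 : -Real.pi - c + 2 * Real.pi = Real.pi - c := by ring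
  have e2 : -Real.pi + 2 * Real.pi = Real.pi := by ring
  rw [e1, e2] at h
  exact h

private theorem P5c_cos_iff (w x : ℝ) (hw : 0 ≤ w) (hw' : w ≤ Real.pi) (hx : |x| ≤ Real.pi) :
    Real.cos w < Real.cos x ↔ |x| < w := by
  rw [← Real.cos_abs x]
  exact Real.strictAntiOn_cos.lt_iff_gt ⟨hw, hw'⟩ ⟨abs_nonneg x, hx⟩

private theorem P5c_S_eq (θ : ℝ) (hθ : θ ∈ Set.Ioc (-Real.pi) Real.pi) :
    P5c_S θ = Set.indicator (Set.Ioo (-(Real.pi / 3)) (Real.pi / 3)) (fun _ => (1 : ℝ)) θ := by
  have h1 : |θ| ≤ Real.pi := abs_le.2 ⟨hθ.1.le, hθ.2⟩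
  have hp := Real.pi_pos
  have h2 := P5c_cos_iff (Real.pi / 3) θ (by positivity) (by linarith) h1
  rw [Real.cos_pi_div_three] at h2
  unfold P5c_S
  by_cases h : 1 / 2 < Real.cos θ
  · rw [if_pos h, Set.indicator_of_mem]
    exact abs_lt.1 (h2.1 h)
  · rw [if_neg h, Set.indicator_of_notMem]
    intro h3
    exact h (h2.2 (abs_lt.2 h3))

private theorem P5c_core (g : ℝ → ℝ) :
    ∫ θ, P5c_S θ * g θ ∂cm = (2 * Real.pi)⁻¹ * ∫ θ in (-(Real.pi / 3))..(Real.pi / 3), g θ := by
  have hp := Real.pi_pos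
  rw [P5c_cm]
  congr 1
  have h1 : ∫ θ in Set.Ioc (-Real.pi) Real.pi, P5c_S θ * g θ =
      ∫ θ in Set.Ioc (-Real.pi) Real.pi,
        Set.indicator (Set.Ioo (-(Real.pi / 3)) (Real.pi / 3)) g θ := by
    refine setIntegral_congr_fun measurableSet_Ioc fun θ hθ => ?_
    show P5c_S θ * g θ = _
    rw [P5c_S_eq θ hθ]
    by_cases h : θ ∈ Set.Ioo (-(Real.pi / 3)) (Real.pi / 3)
    · rw [Set.indicator_of_mem h, Set.indicator_of_mem h, one_mul]
    · rw [Set.indicator_of_notMem h, Set.indicator_of_notMem h, zero_mul]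
  have h2 : Set.Ioc (-Real.pi) Real.pi ∩ Set.Ioo (-(Real.pi / 3)) (Real.pi / 3) =
      Set.Ioo (-(Real.pi / 3)) (Real.pi / 3) := by
    apply Set.inter_eq_right.2
    intro x hx
    exact ⟨by linarith [hx.1], by linarith [hx.2]⟩
  rw [h1, setIntegral_indicator measurableSet_Ioo, h2,
    intervalIntegral.integral_of_le (by linarith), integral_Ioc_eq_integral_Ioo]

private theorem P5c_cos_third (θ : ℝ) :
    Real.cos (θ - 2 * Real.pi / 3) = -(Real.cos θ) / 2 + Real.sqrt 3 / 2 * Real.sin θ ∧
    Real.cos (θ + 2 * Real.pi / 3) = -(Real.cos θ) / 2 - Real.sqrt 3 / 2 * Real.sin θ := by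
  have e : 2 * Real.pi / 3 = Real.pi - Real.pi / 3 := by ring
  have hc : Real.cos (2 * Real.pi / 3) = -(1 / 2) := by
    rw [e, Real.cos_pi_sub, Real.cos_pi_div_three]
  have hs : Real.sin (2 * Real.pi / 3) = Real.sqrt 3 / 2 := by
    rw [e, Real.sin_pi_sub, Real.sin_pi_div_three]
  constructor
  · rw [Real.cos_sub, hc, hs]; ring
  · rw [Real.cos_add, hc, hs]; ring

private theorem P5c_pair (θ : ℝ) :
    (Real.cos (θ - 2 * Real.pi / 3) < Real.cos θ ∧ Real.cos (θ + 2 * Real.pi / 3) < Real.cos θ) ↔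
      1 / 2 < Real.cos θ := by
  obtain ⟨h1, h2⟩ := P5c_cos_third θ
  rw [h1, h2]
  have hsq := Real.sin_sq_add_cos_sq θ
  have h3 : Real.sqrt 3 * Real.sqrt 3 = 3 := Real.mul_self_sqrt (by norm_num)
  have h30 : 0 < Real.sqrt 3 := Real.sqrt_pos.2 (by norm_num)
  set s := Real.sin θ
  set c := Real.cos θ
  set q := Real.sqrt 3
  constructor
  · rintro ⟨ha, hb⟩
    have h4 : q * s < 3 * c := by linarith
    have h5 : -(q * s) < 3 * c := by linarith
    have hc0 : 0 < c := by linarith
    have h6 : (q * s) ^ 2 < (3 * c) ^ 2 := by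
      apply sq_lt_sq'
      · linarith
      · exact h4
    have h7 : (q * s) ^ 2 = 3 * s ^ 2 := by rw [mul_pow, sq q, h3]
    rw [h7] at h6
    have h8 : (1 / 2 : ℝ) ^ 2 < c ^ 2 := by nlinarith
    exact lt_of_pow_lt_pow_left₀ 2 hc0.le h8
  · intro hc
    have h7 : (q * s) ^ 2 = 3 * s ^ 2 := by rw [mul_pow, sq q, h3]
    have h6 : (q * s) ^ 2 < (3 * c) ^ 2 := by rw [h7]; nlinarith
    have h8 := abs_lt_of_sq_lt_sq h6 (by linarith)
    rw [abs_lt] at h8
    constructor <;> linarith [h8.1, h8.2]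

private theorem P5c_sec (j : Fin 3) (θ : ℝ) :
    sec j θ = P5c_S (θ - 2 * Real.pi * ((j : ℕ) : ℝ) / 3) := by
  unfold sec cellF P5c_S
  have key : (∀ l : Fin 3, l ≠ j → Real.cos (θ - 2 * Real.pi * ((l : ℕ) : ℝ) / 3) <
      Real.cos (θ - 2 * Real.pi * ((j : ℕ) : ℝ) / 3)) ↔
      1 / 2 < Real.cos (θ - 2 * Real.pi * ((j : ℕ) : ℝ) / 3) := by
    rw [← P5c_pair]
    have hper : ∀ x : ℝ, Real.cos (x - 4 * Real.pi / 3) = Real.cos (x + 2 * Real.pi / 3) := by
      intro x
      have : x + 2 * Real.pi / 3 = x - 4 * Real.pi / 3 + 2 * Real.pi := by ring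
      rw [this, Real.cos_add_two_pi]
    have hper' : ∀ x : ℝ, Real.cos (x + 4 * Real.pi / 3) = Real.cos (x - 2 * Real.pi / 3) := by
      intro x
      have : x + 4 * Real.pi / 3 = x - 2 * Real.pi / 3 + 2 * Real.pi := by ring
      rw [this, Real.cos_add_two_pi]
    fin_cases j
    · constructor
      · intro h
        have h1 := h 1 (by decide)
        have h2 := h 2 (by decide)
        refine ⟨?_, ?_⟩
        · convert h1 using 2 <;> (try simp) <;> (try ring)
        · rw [← hper]
          convert h2 using 2 <;> (try simp) <;> (try ring)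
      · rintro ⟨h1, h2⟩ l hl
        fin_cases l
        · exact absurd rfl hl
        · convert h1 using 2 <;> (try simp) <;> (try ring)
        · rw [← hper] at h2
          convert h2 using 2 <;> (try simp) <;> (try ring)
    · constructor
      · intro h
        have h0 := h 0 (by decide)
        have h2 := h 2 (by decide)
        refine ⟨?_, ?_⟩
        · convert h2 using 2 <;> (try simp) <;> (try ring)
        · convert h0 using 2 <;> (try simp) <;> (try ring)
      · rintro ⟨h1, h2⟩ l hl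
        fin_cases l
        · convert h2 using 2 <;> (try simp) <;> (try ring)
        · exact absurd rfl hl
        · convert h1 using 2 <;> (try simp) <;> (try ring)
    · constructor
      · intro h
        have h0 := h 0 (by decide)
        have h1 := h 1 (by decide)
        refine ⟨?_, ?_⟩
        · rw [← hper']
          convert h0 using 2 <;> (try simp) <;> (try ring)
        · convert h1 using 2 <;> (try simp) <;> (try ring)
      · rintro ⟨h1, h2⟩ l hl
        fin_cases l
        · rw [← hper'] at h1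
          convert h1 using 2 <;> (try simp) <;> (try ring)
        · convert h2 using 2 <;> (try simp) <;> (try ring)
        · exact absurd rfl hl
  by_cases h : 1 / 2 < Real.cos (θ - 2 * Real.pi * ((j : ℕ) : ℝ) / 3)
  · rw [if_pos h, if_pos (key.2 h)]
  · rw [if_neg h, if_neg (fun h' => h (key.1 h'))]

private theorem P5c_S_per : Function.Periodic P5c_S (2 * Real.pi) := by
  intro θ
  unfold P5c_S
  rw [Real.cos_add_two_pi]

private theorem P5c_S_meas : Measurable P5c_S :=
  Measurable.ite (measurableSet_lt measurable_const Real.measurable_cos) measurable_const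
    measurable_const

private theorem P5c_len (a w θ : ℝ) (ha : 0 < a) (ha' : 2 * a ≤ Real.pi) (hw : 0 ≤ w)
    (hw' : w ≤ Real.pi) (hθ : θ ∈ Set.Icc (-a) a) :
    ∫ φ in (-a)..a, (if Real.cos w < Real.cos (θ - φ) then (1 : ℝ) else 0) =
      min a (θ + w) + min a (w - θ) := by
  rw [intervalIntegral.integral_of_le (by linarith), integral_Ioc_eq_integral_Ioo]
  have h1 : ∫ φ in Set.Ioo (-a) a, (if Real.cos w < Real.cos (θ - φ) then (1 : ℝ) else 0) =
      ∫ φ in Set.Ioo (-a) a, Set.indicator (Set.Ioo (θ - w) (θ + w)) (fun _ => (1 : ℝ)) φ := by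
    refine setIntegral_congr_fun measurableSet_Ioo fun φ hφ => ?_
    have h2 : |θ - φ| ≤ Real.pi := by
      rw [abs_le]
      constructor <;> linarith [hθ.1, hθ.2, hφ.1, hφ.2]
    have h3 := P5c_cos_iff w (θ - φ) hw hw' h2
    show (if Real.cos w < Real.cos (θ - φ) then (1 : ℝ) else 0) = _
    by_cases h : Real.cos w < Real.cos (θ - φ)
    · rw [if_pos h, Set.indicator_of_mem]
      have := abs_lt.1 (h3.1 h)
      exact ⟨by linarith [this.2], by linarith [this.1]⟩
    · rw [if_neg h, Set.indicator_of_notMem]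
      intro h4
      exact h (h3.2 (abs_lt.2 ⟨by linarith [h4.2], by linarith [h4.1]⟩))
  rw [h1, setIntegral_indicator measurableSet_Ioo, Set.Ioo_inter_Ioo]
  simp only [integral_const, MeasurableSet.univ, measureReal_restrict_apply, Set.univ_inter,
    smul_eq_mul, mul_one]
  have h5 : max (-a) (θ - w) ≤ min a (θ + w) := by
    refine max_le (le_min (by linarith) ?_) (le_min ?_ (by linarith)) <;>
      linarith [hθ.1, hθ.2]
  have h6 : min a (w - θ) = -max (-a) (θ - w) := by
    rw [← min_neg_neg, neg_neg, neg_sub]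
  rw [h6]
  show volume.real (Set.Ioo (max (-a) (θ - w)) (min a (θ + w))) = _
  rw [Real.volume_real_Ioo_of_le h5]
  ring

private theorem P5c_area (a w : ℝ) (ha : 0 < a) (hw : 0 ≤ w) :
    ∫ θ in (-a)..a, (min a (θ + w) + min a (w - θ)) =
      if w ≤ 2 * a then 4 * a * w - w ^ 2 else 4 * a ^ 2 := by
  have hc1 : Continuous fun θ : ℝ => min a (θ + w) := by fun_prop
  have hc2 : Continuous fun θ : ℝ => min a (w - θ) := by fun_prop
  rw [intervalIntegral.integral_add (hc1.intervalIntegrable _ _) (hc2.intervalIntegrable _ _)]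
  have h1 : ∫ θ in (-a)..a, min a (w - θ) = ∫ θ in (-a)..a, min a (θ + w) := by
    have h := intervalIntegral.integral_comp_neg (a := -a) (b := a) (fun θ : ℝ => min a (θ + w))
    rw [neg_neg] at h
    rw [← h]
    congr 1
    funext θ
    congr 1
    ring
  rw [h1]
  by_cases hwa : w ≤ 2 * a
  · rw [if_pos hwa]
    have h2 := intervalIntegral.integral_add_adjacent_intervals
      (hc1.intervalIntegrable (μ := volume) (-a) (a - w))
      (hc1.intervalIntegrable (μ := volume) (a - w) a)
    rw [← h2]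
    have h3 : ∫ θ in (-a)..(a - w), min a (θ + w) = ∫ θ in (-a)..(a - w), (θ + w) := by
      refine intervalIntegral.integral_congr fun θ hθ => ?_
      rw [Set.uIcc_of_le (by linarith)] at hθ
      exact min_eq_right (by linarith [hθ.2])
    have h4 : ∫ θ in (a - w)..a, min a (θ + w) = ∫ θ in (a - w)..a, a := by
      refine intervalIntegral.integral_congr fun θ hθ => ?_
      rw [Set.uIcc_of_le (by linarith)] at hθ
      exact min_eq_left (by linarith [hθ.1])
    have h5 : ∫ θ in (-a)..(a - w), (θ + w) =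
        (∫ θ in (-a)..(a - w), θ) + ∫ θ in (-a)..(a - w), w :=
      intervalIntegral.integral_add
        ((continuous_id (X := ℝ)).intervalIntegrable (μ := volume) _ _)
        ((continuous_const (X := ℝ) (y := w)).intervalIntegrable (μ := volume) _ _)
    rw [h3, h4, h5]
    simp only [integral_id, intervalIntegral.integral_const, smul_eq_mul]
    ring
  · rw [if_neg hwa]
    have h3 : ∫ θ in (-a)..a, min a (θ + w) = ∫ θ in (-a)..a, a := by
      refine intervalIntegral.integral_congr fun θ hθ => ?_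
      rw [Set.uIcc_of_le (by linarith)] at hθ
      exact min_eq_left (by linarith [hθ.1])
    rw [h3]
    simp only [intervalIntegral.integral_const, smul_eq_mul]
    ring

private theorem P5c_an (w : ℝ) (hw' : w ≤ Real.pi) :
    (2 * Real.pi)⁻¹ * ((2 * Real.pi)⁻¹ * (if w ≤ 2 * (Real.pi / 3) then
      4 * (Real.pi / 3) * w - w ^ 2 else 4 * (Real.pi / 3) ^ 2)) = an (w / (2 * Real.pi)) (1 / 3) := by
  have hp := Real.pi_pos
  unfold an
  have h1 : max (w / (2 * Real.pi) - (1 - 1 / 3)) 0 = 0 := by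
    apply max_eq_right
    have : w / (2 * Real.pi) ≤ 1 / 2 := by
      rw [div_le_iff₀ (by positivity)]; linarith
    linarith
  rw [h1]
  by_cases h : w ≤ 2 * (Real.pi / 3)
  · rw [if_pos h]
    have h2 : max (w / (2 * Real.pi) - 1 / 3) 0 = 0 := by
      apply max_eq_right
      have : w / (2 * Real.pi) ≤ 1 / 3 := by
        rw [div_le_iff₀ (by positivity)]; linarith
      linarith
    rw [h2]
    field_simp
    ring
  · rw [if_neg h]
    have h2 : max (w / (2 * Real.pi) - 1 / 3) 0 = w / (2 * Real.pi) - 1 / 3 := by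
      apply max_eq_left
      have : 1 / 3 ≤ w / (2 * Real.pi) := by
        rw [le_div_iff₀ (by positivity)]; linarith
      linarith
    rw [h2]
    field_simp
    ring

theorem pP5c : StP5c := by
  intro j
  have hp := Real.pi_pos
  set c : ℝ := 2 * Real.pi * ((j : ℕ) : ℝ) / 3 with hc
  have hsec : ∀ θ, sec j θ = P5c_S (θ - c) := P5c_sec j
  have hS01 : ∀ θ, 0 ≤ P5c_S θ ∧ P5c_S θ ≤ 1 := by
    intro θ
    unfold P5c_S
    split_ifs <;> norm_num
  have hker : ∀ (w : ℝ) (x : ℝ), (if Real.cos w < Real.cos (x + 2 * Real.pi) then (1 : ℝ) else 0) =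
      if Real.cos w < Real.cos x then 1 else 0 := fun w x => by rw [Real.cos_add_two_pi]
  refine ⟨⟨?_, fun θ => by rw [hsec]; exact (hS01 _).1, fun θ => by rw [hsec]; exact (hS01 _).2, ?_⟩,
    ?_, ?_, ?_⟩
  · have : sec j = fun θ => P5c_S (θ - c) := funext hsec
    rw [this]
    exact P5c_S_meas.comp (measurable_id.sub_const c)
  · intro θ
    rw [hsec, hsec]
    have : θ + 2 * Real.pi - c = θ - c + 2 * Real.pi := by ring
    rw [this, P5c_S_per]
  · have h1 : ∫ θ, sec j θ ∂cm = ∫ θ, P5c_S (θ - c) ∂cm := by simp only [hsec]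
    rw [h1, P5c_shift _ P5c_S_per c]
    have h2 := P5c_core (fun _ => 1)
    simp only [mul_one] at h2
    rw [h2]
    simp only [intervalIntegral.integral_const, smul_eq_mul, mul_one]
    field_simp
    ring
  · -- first moments
    have hM : ∫ θ, P5c_S θ * Real.cos θ ∂cm = Real.sqrt 3 / (2 * Real.pi) := by
      rw [P5c_core Real.cos, integral_cos, Real.sin_neg, Real.sin_pi_div_three]
      field_simp
      ring
    have hN : ∫ θ, P5c_S θ * Real.sin θ ∂cm = 0 := by
      rw [P5c_core Real.sin, integral_sin, Real.cos_neg]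
      ring
    have hI : ∀ g : ℝ → ℝ, Continuous g → (∀ θ, |g θ| ≤ 1) → Integrable (fun θ => P5c_S θ * g θ) cm := by
      intro g hg hb
      have hfin : IsFiniteMeasure cm := by
        constructor
        rw [cm, Measure.smul_apply, Measure.restrict_apply MeasurableSet.univ, Set.univ_inter,
          Real.volume_Ioc, smul_eq_mul]
        exact ENNReal.mul_lt_top ENNReal.ofReal_lt_top ENNReal.ofReal_lt_top
      refine Integrable.of_bound (P5c_S_meas.mul hg.measurable).aestronglyMeasurable 1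
        (Filter.Eventually.of_forall fun θ => ?_)
      rw [norm_mul, Real.norm_eq_abs, Real.norm_eq_abs, abs_of_nonneg (hS01 θ).1]
      have := (hS01 θ).2
      have := (hS01 θ).1
      have := hb θ
      have := abs_nonneg (g θ)
      nlinarith
    have hIc := hI Real.cos Real.continuous_cos Real.abs_cos_le_one
    have hIs := hI Real.sin Real.continuous_sin Real.abs_sin_le_one
    have hA : ∫ θ, sec j θ * Real.cos θ ∂cm = Real.cos c * (Real.sqrt 3 / (2 * Real.pi)) := by
      have h1 : ∫ θ, sec j θ * Real.cos θ ∂cm =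
          ∫ θ, (fun x => P5c_S x * Real.cos (x + c)) (θ - c) ∂cm := by
        refine integral_congr_ae (Filter.Eventually.of_forall fun θ => ?_)
        show sec j θ * Real.cos θ = P5c_S (θ - c) * Real.cos (θ - c + c)
        rw [hsec, sub_add_cancel]
      rw [h1, P5c_shift (fun x => P5c_S x * Real.cos (x + c)) (fun θ => by
        show P5c_S (θ + 2 * Real.pi) * Real.cos (θ + 2 * Real.pi + c) = P5c_S θ * Real.cos (θ + c)
        rw [P5c_S_per, show θ + 2 * Real.pi + c = θ + c + 2 * Real.pi by ring,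
          Real.cos_add_two_pi]) c]
      have h2 : ∀ θ, P5c_S θ * Real.cos (θ + c) =
          Real.cos c * (P5c_S θ * Real.cos θ) - Real.sin c * (P5c_S θ * Real.sin θ) := fun θ => by
        rw [Real.cos_add]; ring
      simp only [h2]
      rw [integral_sub (hIc.const_mul _) (hIs.const_mul _), integral_const_mul,
        integral_const_mul, hM, hN]
      ring
    have hB : ∫ θ, sec j θ * Real.sin θ ∂cm = Real.sin c * (Real.sqrt 3 / (2 * Real.pi)) := by
      have h1 : ∫ θ, sec j θ * Real.sin θ ∂cm =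
          ∫ θ, (fun x => P5c_S x * Real.sin (x + c)) (θ - c) ∂cm := by
        refine integral_congr_ae (Filter.Eventually.of_forall fun θ => ?_)
        show sec j θ * Real.sin θ = P5c_S (θ - c) * Real.sin (θ - c + c)
        rw [hsec, sub_add_cancel]
      rw [h1, P5c_shift (fun x => P5c_S x * Real.sin (x + c)) (fun θ => by
        show P5c_S (θ + 2 * Real.pi) * Real.sin (θ + 2 * Real.pi + c) = P5c_S θ * Real.sin (θ + c)
        rw [P5c_S_per, show θ + 2 * Real.pi + c = θ + c + 2 * Real.pi by ring,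
          Real.sin_add_two_pi]) c]
      have h2 : ∀ θ, P5c_S θ * Real.sin (θ + c) =
          Real.cos c * (P5c_S θ * Real.sin θ) + Real.sin c * (P5c_S θ * Real.cos θ) := fun θ => by
        rw [Real.sin_add]; ring
      simp only [h2]
      rw [integral_add (hIs.const_mul _) (hIc.const_mul _), integral_const_mul,
        integral_const_mul, hM, hN]
      ring
    rw [hA, hB]
    have h3 : Real.sqrt 3 ^ 2 = 3 := Real.sq_sqrt (by norm_num)
    have h4 := Real.sin_sq_add_cos_sq c
    have h5 : (Real.cos c * (Real.sqrt 3 / (2 * Real.pi))) ^ 2 +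
        (Real.sin c * (Real.sqrt 3 / (2 * Real.pi))) ^ 2 =
        (Real.sin c ^ 2 + Real.cos c ^ 2) * (Real.sqrt 3 ^ 2 / (2 * Real.pi) ^ 2) := by
      rw [← div_pow]
      ring
    rw [h5, h4, h3]
    ring
  · intro w hw hw'
    unfold Bw
    set k : ℝ → ℝ := fun x => if Real.cos w < Real.cos x then (1 : ℝ) else 0 with hk
    have hkper : ∀ x, k (x + 2 * Real.pi) = k x := fun x => hker w x
    have hkper' : ∀ x, k (x - 2 * Real.pi) = k x := fun x => by
      have := hkper (x - 2 * Real.pi)
      rw [sub_add_cancel] at this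
      exact this.symm
    -- the inner integral
    set G : ℝ → ℝ := fun θ => ∫ φ, P5c_S θ * P5c_S φ * k (θ - φ) ∂cm with hG
    have hGper : Function.Periodic G (2 * Real.pi) := by
      intro θ
      rw [hG]
      show ∫ φ, P5c_S (θ + 2 * Real.pi) * P5c_S φ * k (θ + 2 * Real.pi - φ) ∂cm =
        ∫ φ, P5c_S θ * P5c_S φ * k (θ - φ) ∂cm
      refine integral_congr_ae (Filter.Eventually.of_forall fun φ => ?_)
      show P5c_S (θ + 2 * Real.pi) * P5c_S φ * k (θ + 2 * Real.pi - φ) =
        P5c_S θ * P5c_S φ * k (θ - φ)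
      rw [P5c_S_per, show θ + 2 * Real.pi - φ = θ - φ + 2 * Real.pi by ring, hkper]
    have h1 : ∀ θ, ∫ φ, sec j θ * sec j φ * k (θ - φ) ∂cm = G (θ - c) := by
      intro θ
      have h2 : ∫ φ, sec j θ * sec j φ * k (θ - φ) ∂cm =
          ∫ φ, (fun y => P5c_S (θ - c) * P5c_S y * k (θ - c - y)) (φ - c) ∂cm := by
        refine integral_congr_ae (Filter.Eventually.of_forall fun φ => ?_)
        show sec j θ * sec j φ * k (θ - φ) =
          P5c_S (θ - c) * P5c_S (φ - c) * k (θ - c - (φ - c))
        rw [hsec, hsec, sub_sub_sub_cancel_right]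
      rw [h2, P5c_shift (fun y => P5c_S (θ - c) * P5c_S y * k (θ - c - y)) (fun y => by
        show P5c_S (θ - c) * P5c_S (y + 2 * Real.pi) * k (θ - c - (y + 2 * Real.pi)) =
          P5c_S (θ - c) * P5c_S y * k (θ - c - y)
        rw [P5c_S_per, show θ - c - (y + 2 * Real.pi) = θ - c - y - 2 * Real.pi by ring, hkper']) c]
    have h3 : ∫ θ, ∫ φ, sec j θ * sec j φ * k (θ - φ) ∂cm ∂cm = ∫ θ, G θ ∂cm := by
      simp only [h1]
      exact P5c_shift G hGper c
    show ∫ θ, ∫ φ, sec j θ * sec j φ * k (θ - φ) ∂cm ∂cm = _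
    rw [h3]
    have h4 : ∀ θ, G θ = P5c_S θ * ((2 * Real.pi)⁻¹ *
        ∫ φ in (-(Real.pi / 3))..(Real.pi / 3), k (θ - φ)) := by
      intro θ
      rw [hG]
      show ∫ φ, P5c_S θ * P5c_S φ * k (θ - φ) ∂cm = _
      simp only [mul_assoc]
      rw [integral_const_mul, P5c_core (fun φ => k (θ - φ))]
    simp only [h4]
    rw [P5c_core (fun θ => (2 * Real.pi)⁻¹ *
      ∫ φ in (-(Real.pi / 3))..(Real.pi / 3), k (θ - φ))]
    rw [intervalIntegral.integral_const_mul]
    have h5 : ∫ θ in (-(Real.pi / 3))..(Real.pi / 3),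
        (∫ φ in (-(Real.pi / 3))..(Real.pi / 3), k (θ - φ)) =
        ∫ θ in (-(Real.pi / 3))..(Real.pi / 3), (min (Real.pi / 3) (θ + w) +
          min (Real.pi / 3) (w - θ)) := by
      refine intervalIntegral.integral_congr fun θ hθ => ?_
      rw [Set.uIcc_of_le (by linarith)] at hθ
      exact P5c_len (Real.pi / 3) w θ (by positivity) (by linarith) hw hw' hθ
    rw [h5, P5c_area (Real.pi / 3) w (by positivity) hw]
    exact P5c_an w hw'

end Pool.TC
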