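import Pool.Agent.TC.St

/-! TC module P6: the bounds for `I0 b - Lb b`. -/

set_option autoImplicit false

open MeasureTheory ProbabilityTheory Pool.H65.PS Pool.H65.PT

namespace Pool.TC

private theorem P6_exp (b : ℝ) (hb : 0 ≤ b) :
    1 - b + b ^ 2 / 2 - b ^ 3 / 6 + b ^ 4 / 24 - b ^ 5 / 120 ≤ Real.exp (-b) := by
  have hd : ∀ x : ℝ, HasDerivAt
      (fun x : ℝ => (1 - x + x ^ 2 / 2 - x ^ 3 / 6 + x ^ 4 / 24 - x ^ 5 / 120) * Real.exp x)
      (-(x ^ 5 / 120) * Real.exp x) x := by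
    intro x
    have h1 : HasDerivAt (fun x : ℝ => 1 - x + x ^ 2 / 2 - x ^ 3 / 6 + x ^ 4 / 24 - x ^ 5 / 120)
        (0 - 1 + (2 * x ^ (2 - 1)) / 2 - (3 * x ^ (3 - 1)) / 6 + (4 * x ^ (4 - 1)) / 24 -
          (5 * x ^ (5 - 1)) / 120) x := by
      have e2 : HasDerivAt (fun x : ℝ => x ^ 2) (2 * x ^ (2 - 1)) x := by
        simpa using hasDerivAt_pow 2 x
      have e3 : HasDerivAt (fun x : ℝ => x ^ 3) (3 * x ^ (3 - 1)) x := by
        simpa using hasDerivAt_pow 3 x
      have e4 : HasDerivAt (fun x : ℝ => x ^ 4) (4 * x ^ (4 - 1)) x := by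
        simpa using hasDerivAt_pow 4 x
      have e5 : HasDerivAt (fun x : ℝ => x ^ 5) (5 * x ^ (5 - 1)) x := by
        simpa using hasDerivAt_pow 5 x
      exact (((((hasDerivAt_const x (1 : ℝ)).sub (hasDerivAt_id x)).add (e2.div_const 2)).sub
        (e3.div_const 6)).add (e4.div_const 24)).sub (e5.div_const 120)
    have h2 := h1.mul (Real.hasDerivAt_exp x)
    have he : (0 - 1 + (2 * x ^ (2 - 1)) / 2 - (3 * x ^ (3 - 1)) / 6 + (4 * x ^ (4 - 1)) / 24 -
          (5 * x ^ (5 - 1)) / 120) * Real.exp x +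
        (1 - x + x ^ 2 / 2 - x ^ 3 / 6 + x ^ 4 / 24 - x ^ 5 / 120) * Real.exp x =
        -(x ^ 5 / 120) * Real.exp x := by
      norm_num
      ring
    rw [← he]
    exact h2
  have hanti : AntitoneOn
      (fun x : ℝ => (1 - x + x ^ 2 / 2 - x ^ 3 / 6 + x ^ 4 / 24 - x ^ 5 / 120) * Real.exp x)
      (Set.Ici 0) := by
    apply antitoneOn_of_deriv_nonpos (convex_Ici 0)
    · exact fun x _ => (hd x).continuousAt.continuousWithinAt
    · exact fun x _ => (hd x).differentiableAt.differentiableWithinAt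
    · intro x hx
      rw [interior_Ici] at hx
      have hx0 : (0 : ℝ) < x := hx
      rw [(hd x).deriv]
      have := Real.exp_pos x
      have h5 : 0 ≤ x ^ 5 / 120 := by positivity
      nlinarith
  have h := hanti (Set.mem_Ici.2 le_rfl) (Set.mem_Ici.2 hb) hb
  simp only at h
  have h1 : (1 - b + b ^ 2 / 2 - b ^ 3 / 6 + b ^ 4 / 24 - b ^ 5 / 120) * Real.exp b ≤ 1 := by
    refine h.trans (le_of_eq ?_)
    norm_num
  have h2 : Real.exp (-b) * Real.exp b = 1 := by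
    rw [← Real.exp_add]; simp
  have h3 := Real.exp_pos b
  exact le_of_mul_le_mul_right (h1.trans (le_of_eq h2.symm)) h3

theorem pP6 (hP6a : StP6a) (hP6b : StP6b) : StP6 := by
  intro b hb
  obtain ⟨w0, w1, w2, w3, w4, w5, c0, c1⟩ := hP6b
  have hL : I0 b - Lb b = (I0 b - Real.exp (-b / 2) / 3
      - 3 / Real.pi ^ 2 * ∫ w in (0 : ℝ)..(2 * Real.pi / 3), w * Real.exp (b * Real.cos w)) +
      c3 * b * Real.exp (-b) := by
    unfold Lb
    ring
  rw [hL]
  have hc : 0 ≤ c3 := by linarith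
  constructor
  · have h5 := hP6a 5 b (by decide) hb
    simp only [Finset.sum_range_succ, Finset.sum_range_zero, Nat.factorial] at h5
    norm_num at h5
    rw [w0] at h5
    have he : c3 * b * (1 - b + b ^ 2 / 2 - b ^ 3 / 6 + b ^ 4 / 24 - b ^ 5 / 120) ≤
        c3 * b * Real.exp (-b) :=
      mul_le_mul_of_nonneg_left (P6_exp b hb) (mul_nonneg hc hb)
    refine le_trans ?_ (add_le_add h5 he)
    unfold p5
    have b2 : 0 ≤ b ^ 2 := by positivity
    have b3 : 0 ≤ b ^ 3 := by positivity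
    have b4 : 0 ≤ b ^ 4 := by positivity
    have b5 : 0 ≤ b ^ 5 := by positivity
    have b6 : 0 ≤ b ^ 6 := by positivity
    have k1 : 0 ≤ (wk 1 + c3 - 1519 / 10000) * b := mul_nonneg (by linarith) hb
    have k2 : 0 ≤ (wk 2 / 2 - c3 - 583 / 10000) * b ^ 2 := mul_nonneg (by linarith) b2
    have k3 : 0 ≤ (wk 3 / 6 + c3 / 2 - 353 / 10000) * b ^ 3 := mul_nonneg (by linarith) b3
    have k4 : 0 ≤ (wk 4 / 24 - c3 / 6 + 16 / 10000) * b ^ 4 := mul_nonneg (by linarith) b4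
    have k5 : 0 ≤ (wk 5 / 120 + c3 / 24 - 3 / 1000) * b ^ 5 := mul_nonneg (by linarith) b5
    have k6 : 0 ≤ (-(c3 / 120) + 7 / 10000) * b ^ 6 := mul_nonneg (by linarith) b6
    nlinarith [k1, k2, k3, k4, k5, k6]
  · have h1 := hP6a 1 b (by decide) hb
    simp only [Finset.sum_range_succ, Finset.sum_range_zero, Nat.factorial] at h1
    norm_num at h1
    rw [w0] at h1
    have he : 0 ≤ c3 * b * Real.exp (-b) :=
      mul_nonneg (mul_nonneg hc hb) (Real.exp_pos _).le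
    have k1 : 0 ≤ (wk 1 - 712 / 10000) * b := mul_nonneg (by linarith) hb
    nlinarith [k1, he, h1]

end Pool.TC
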