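import Pool.Agent.TC.St

/-! Module P6a of project TC: the remainder of the exponential series on the circle. -/

set_option autoImplicit false

open MeasureTheory ProbabilityTheory Pool.H65.PS Pool.H65.PT

namespace Pool.TC

/-- Taylor polynomial of the exponential function. -/
private noncomputable def P6aT (n : ℕ) (x : ℝ) : ℝ :=
  ∑ k ∈ Finset.range (n + 1), x ^ k / (k.factorial : ℝ)

/-- remainder. -/
private noncomputable def P6aR (n : ℕ) (x : ℝ) : ℝ := Real.exp x - P6aT n x

private theorem P6aT_zero (x : ℝ) : P6aT 0 x = 1 := by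
  simp [P6aT]

private theorem P6aT_at_zero (n : ℕ) : P6aT n 0 = 1 := by
  unfold P6aT
  rw [Finset.sum_range_succ']
  simp

private theorem P6aR_at_zero (n : ℕ) : P6aR n 0 = 0 := by
  unfold P6aR
  rw [P6aT_at_zero, Real.exp_zero, sub_self]

private theorem P6aT_deriv (n : ℕ) (x : ℝ) : HasDerivAt (P6aT (n + 1)) (P6aT n x) x := by
  have h1 : P6aT (n + 1) = fun x : ℝ =>
      ∑ k ∈ Finset.range (n + 1), x ^ (k + 1) / ((k + 1).factorial : ℝ) + 1 := by
    funext y
    unfold P6aT
    rw [Finset.sum_range_succ']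
    simp
  rw [h1]
  unfold P6aT
  refine HasDerivAt.add_const _ ?_
  refine HasDerivAt.fun_sum fun k _ => ?_
  have h2 : ((k + 1).factorial : ℝ) ≠ 0 := by positivity
  have h3 := (hasDerivAt_pow (k + 1) x).div_const ((k + 1).factorial : ℝ)
  have h4 : ((k + 1 : ℕ) : ℝ) * x ^ (k + 1 - 1) / ((k + 1).factorial : ℝ) =
      x ^ k / (k.factorial : ℝ) := by
    rw [Nat.factorial_succ, Nat.add_sub_cancel]
    have h5 : (k.factorial : ℝ) ≠ 0 := by positivity
    have h6 : ((k + 1 : ℕ) : ℝ) ≠ 0 := by positivity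
    push_cast
    push_cast at h6
    field_simp
  rw [h4] at h3
  exact h3

private theorem P6aR_deriv (n : ℕ) (x : ℝ) : HasDerivAt (P6aR (n + 1)) (P6aR n x) x :=
  (Real.hasDerivAt_exp x).sub (P6aT_deriv n x)

private theorem P6aR_cont (n : ℕ) : Continuous (P6aR n) := by
  unfold P6aR P6aT
  fun_prop

private theorem P6aR_nonneg (n : ℕ) {x : ℝ} (hx : 0 ≤ x) : 0 ≤ P6aR n x := by
  unfold P6aR P6aT
  rw [sub_nonneg]
  exact Real.sum_le_exp_of_nonneg hx (n + 1)

private theorem P6aR_mono (n : ℕ) : MonotoneOn (P6aR (n + 1)) (Set.Ici 0) := by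
  refine monotoneOn_of_deriv_nonneg (convex_Ici 0) (P6aR_cont _).continuousOn
    (fun x _ => (P6aR_deriv n x).differentiableAt.differentiableWithinAt) fun x hx => ?_
  rw [interior_Ici] at hx
  rw [(P6aR_deriv n x).deriv]
  exact P6aR_nonneg n (le_of_lt hx)

/-- signs on the left of `0`. -/
private theorem P6aR_neg (n : ℕ) : ∀ x : ℝ, x ≤ 0 → 0 ≤ (-1 : ℝ) ^ (n + 1) * P6aR n x := by
  induction n with
  | zero =>
    intro x hx
    unfold P6aR
    rw [P6aT_zero]
    simp
    exact hx
  | succ n ih =>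
    intro x hx
    have h1 : AntitoneOn (fun y => (-1 : ℝ) ^ (n + 1 + 1) * P6aR (n + 1) y) (Set.Iic 0) := by
      refine antitoneOn_of_deriv_nonpos (convex_Iic 0)
        ((P6aR_cont _).const_smul ((-1 : ℝ) ^ (n + 1 + 1))).continuousOn
        (fun y _ => ((P6aR_deriv n y).const_mul _).differentiableAt.differentiableWithinAt)
        fun y hy => ?_
      rw [interior_Iic] at hy
      rw [((P6aR_deriv n y).const_mul ((-1 : ℝ) ^ (n + 1 + 1))).deriv]
      have := ih y (le_of_lt hy)
      rw [pow_succ]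
      linarith
    have h2 := h1 (Set.mem_Iic.2 hx) (Set.mem_Iic.2 (le_refl (0 : ℝ))) hx
    dsimp only at h2
    rw [P6aR_at_zero, mul_zero] at h2
    exact h2

/-- comparison of `r(-x)` and `r(x)`. -/
private theorem P6aR_sym (n : ℕ) : ∀ x : ℝ, 0 ≤ x → 0 ≤ P6aR n x + (-1 : ℝ) ^ n * P6aR n (-x) := by
  induction n with
  | zero =>
    intro x _
    unfold P6aR
    rw [P6aT_zero, P6aT_zero]
    have h1 := Real.add_one_le_exp x
    have h2 := Real.add_one_le_exp (-x)
    simp
    linarith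
  | succ n ih =>
    intro x hx
    have hd : ∀ y : ℝ, HasDerivAt (fun y => P6aR (n + 1) y + (-1 : ℝ) ^ (n + 1) * P6aR (n + 1) (-y))
        (P6aR n y + (-1 : ℝ) ^ n * P6aR n (-y)) y := by
      intro y
      have h1 : HasDerivAt (fun y => P6aR (n + 1) (-y)) (P6aR n (-y) * (-1)) y :=
        (P6aR_deriv n (-y)).comp y (hasDerivAt_neg y)
      have h2 := (P6aR_deriv n y).add (h1.const_mul ((-1 : ℝ) ^ (n + 1)))
      have h3 : P6aR n y + (-1 : ℝ) ^ (n + 1) * (P6aR n (-y) * (-1)) =
          P6aR n y + (-1 : ℝ) ^ n * P6aR n (-y) := by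
        rw [pow_succ]
        ring
      rw [h3] at h2
      exact h2
    have h1 : MonotoneOn (fun y => P6aR (n + 1) y + (-1 : ℝ) ^ (n + 1) * P6aR (n + 1) (-y))
        (Set.Ici 0) := by
      refine monotoneOn_of_deriv_nonneg (convex_Ici 0) (Continuous.continuousOn ?_)
        (fun y _ => (hd y).differentiableAt.differentiableWithinAt) fun y hy => ?_
      · exact (P6aR_cont _).add (continuous_const.mul ((P6aR_cont _).comp continuous_neg))
      · rw [interior_Ici] at hy
        rw [(hd y).deriv]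
        exact ih y (le_of_lt hy)
    have h2 := h1 (Set.mem_Ici.2 (le_refl (0 : ℝ))) (Set.mem_Ici.2 hx) hx
    dsimp only at h2
    rw [neg_zero, P6aR_at_zero, mul_zero, add_zero] at h2
    exact h2

/-- the functional. -/
private noncomputable def P6aL (g : ℝ → ℝ) : ℝ :=
  Real.pi⁻¹ * (∫ w in (0 : ℝ)..Real.pi, g (Real.cos w)) - g (-1 / 2) / 3
    - 3 / Real.pi ^ 2 * ∫ w in (0 : ℝ)..(2 * Real.pi / 3), w * g (Real.cos w)

private theorem P6a_cm (g : ℝ → ℝ) (hg : Continuous g) :
    ∫ θ, g (Real.cos θ) ∂cm = Real.pi⁻¹ * ∫ w in (0 : ℝ)..Real.pi, g (Real.cos w) := by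
  have hpi := Real.pi_pos
  have hc : Continuous fun w => g (Real.cos w) := hg.comp Real.continuous_cos
  rw [cm, integral_smul_measure, ENNReal.toReal_ofReal (by positivity), smul_eq_mul,
    ← intervalIntegral.integral_of_le (by linarith)]
  have h1 : ∫ w in (-Real.pi)..Real.pi, g (Real.cos w) =
      (∫ w in (-Real.pi)..0, g (Real.cos w)) + ∫ w in (0 : ℝ)..Real.pi, g (Real.cos w) :=
    (intervalIntegral.integral_add_adjacent_intervals (hc.intervalIntegrable _ _)
      (hc.intervalIntegrable _ _)).symm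
  have h2 : ∫ w in (-Real.pi)..0, g (Real.cos w) = ∫ w in (0 : ℝ)..Real.pi, g (Real.cos w) := by
    have h3 := intervalIntegral.integral_comp_neg (a := 0) (b := Real.pi)
      (fun w => g (Real.cos w))
    rw [neg_zero] at h3
    rw [← h3]
    simp only [Real.cos_neg]
  rw [h1, h2]
  field_simp
  ring

private theorem P6aL_nonneg (n : ℕ) (hn : Odd n) {b : ℝ} (hb : 0 ≤ b) :
    0 ≤ P6aL (fun x => P6aR n (b * x)) := by
  obtain ⟨m, hm⟩ := hn
  have hpi := Real.pi_pos
  have hmono : ∀ x y : ℝ, 0 ≤ x → x ≤ y → P6aR n x ≤ P6aR n y := by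
    intro x y hx hxy
    rw [hm]
    exact P6aR_mono (2 * m) (Set.mem_Ici.2 hx) (Set.mem_Ici.2 (hx.trans hxy)) hxy
  have hanti : ∀ x y : ℝ, y ≤ 0 → x ≤ y → P6aR n y ≤ P6aR n x := by
    intro x y hy hxy
    have h1 : AntitoneOn (P6aR (2 * m + 1)) (Set.Iic 0) := by
      refine antitoneOn_of_deriv_nonpos (convex_Iic 0) (P6aR_cont _).continuousOn
        (fun z _ => (P6aR_deriv (2 * m) z).differentiableAt.differentiableWithinAt) fun z hz => ?_
      rw [interior_Iic] at hz
      rw [(P6aR_deriv (2 * m) z).deriv]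
      have h2 := P6aR_neg (2 * m) z (le_of_lt hz)
      have h3 : (-1 : ℝ) ^ (2 * m + 1) = -1 := Odd.neg_one_pow ⟨m, rfl⟩
      rw [h3] at h2
      linarith
    rw [hm]
    exact h1 (Set.mem_Iic.2 (hxy.trans hy)) (Set.mem_Iic.2 hy) hxy
  have hsym : ∀ x : ℝ, 0 ≤ x → P6aR n (-x) ≤ P6aR n x := by
    intro x hx
    have h1 := P6aR_sym n x hx
    have h2 : (-1 : ℝ) ^ n = -1 := Odd.neg_one_pow ⟨m, hm⟩
    rw [h2] at h1
    linarith
  set f : ℝ → ℝ := fun w => P6aR n (b * Real.cos w) with hf
  have hfc : Continuous f := (P6aR_cont n).comp (continuous_const.mul Real.continuous_cos)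
  have hc1 : Real.cos (Real.pi / 3) = 1 / 2 := Real.cos_pi_div_three
  have hc2 : Real.cos (2 * Real.pi / 3) = -(1 / 2) := by
    have h : 2 * Real.pi / 3 = Real.pi - Real.pi / 3 := by ring
    rw [h, Real.cos_pi_sub, hc1]
  -- the part near `π`
  have h1 : Real.pi / 3 * P6aR n (b * (-1 / 2)) ≤ ∫ w in (2 * Real.pi / 3)..Real.pi, f w := by
    have h2 : ∫ w in (2 * Real.pi / 3)..Real.pi, P6aR n (b * (-1 / 2)) ≤
        ∫ w in (2 * Real.pi / 3)..Real.pi, f w := by
      refine intervalIntegral.integral_mono_on (by linarith)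
        (continuous_const.intervalIntegrable _ _) (hfc.intervalIntegrable _ _) fun w hw => ?_
      have h3 : Real.cos w ≤ -(1 / 2) := by
        rw [← hc2]
        exact Real.cos_le_cos_of_nonneg_of_le_pi (by positivity) hw.2 hw.1
      refine hanti _ _ ?_ ?_
      · nlinarith
      · have := mul_le_mul_of_nonneg_left h3 hb
        linarith
    rw [intervalIntegral.integral_const, smul_eq_mul] at h2
    have h3 : (Real.pi - 2 * Real.pi / 3) = Real.pi / 3 := by ring
    rw [h3] at h2
    exact h2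
  -- the part near `0`
  have h2 : 0 ≤ ∫ w in (0 : ℝ)..(2 * Real.pi / 3),
      (1 / Real.pi - 3 / Real.pi ^ 2 * w) * (f w - P6aR n (b * (1 / 2))) := by
    refine intervalIntegral.integral_nonneg (by positivity) fun w hw => ?_
    have e : 1 / Real.pi - 3 / Real.pi ^ 2 * w = 3 / Real.pi ^ 2 * (Real.pi / 3 - w) := by
      field_simp
    rw [e, mul_assoc]
    refine mul_nonneg (by positivity) ?_
    rcases le_total w (Real.pi / 3) with h3 | h3
    · refine mul_nonneg (by linarith) ?_
      have h4 : 1 / 2 ≤ Real.cos w := by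
        rw [← hc1]
        exact Real.cos_le_cos_of_nonneg_of_le_pi hw.1 (by linarith) h3
      rw [sub_nonneg]
      exact hmono _ _ (by positivity) (mul_le_mul_of_nonneg_left h4 hb)
    · refine mul_nonneg_of_nonpos_of_nonpos (by linarith) ?_
      have h4 : Real.cos w ≤ 1 / 2 := by
        rw [← hc1]
        exact Real.cos_le_cos_of_nonneg_of_le_pi (by positivity) (by linarith [hw.2]) h3
      have h5 : -(1 / 2) ≤ Real.cos w := by
        rw [← hc2]
        exact Real.cos_le_cos_of_nonneg_of_le_pi hw.1 (by linarith) hw.2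
      rw [sub_nonpos]
      rcases le_total 0 (Real.cos w) with h6 | h6
      · exact hmono _ _ (by positivity) (mul_le_mul_of_nonneg_left h4 hb)
      · have h7 : f w ≤ P6aR n (-(b * Real.cos w)) := by
          have h8 := hsym (-(b * Real.cos w)) (by nlinarith)
          rw [neg_neg] at h8
          exact h8
        refine h7.trans (hmono _ _ (by nlinarith) ?_)
        nlinarith
  have h3 : ∫ w in (0 : ℝ)..(2 * Real.pi / 3),
      (1 / Real.pi - 3 / Real.pi ^ 2 * w) * (f w - P6aR n (b * (1 / 2))) =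
      Real.pi⁻¹ * (∫ w in (0 : ℝ)..(2 * Real.pi / 3), f w) -
      3 / Real.pi ^ 2 * ∫ w in (0 : ℝ)..(2 * Real.pi / 3), w * f w := by
    have e : (fun w => (1 / Real.pi - 3 / Real.pi ^ 2 * w) * (f w - P6aR n (b * (1 / 2)))) =
        fun w => (Real.pi⁻¹ * f w - 3 / Real.pi ^ 2 * (w * f w)) -
          (Real.pi⁻¹ * P6aR n (b * (1 / 2)) - 3 / Real.pi ^ 2 * P6aR n (b * (1 / 2)) * w) := by
      funext w
      ring
    have i1 : IntervalIntegrable (fun w => Real.pi⁻¹ * f w) volume 0 (2 * Real.pi / 3) :=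
      (continuous_const.mul hfc).intervalIntegrable _ _
    have i2 : IntervalIntegrable (fun w => 3 / Real.pi ^ 2 * (w * f w)) volume 0
        (2 * Real.pi / 3) :=
      (continuous_const.mul (continuous_id.mul hfc)).intervalIntegrable _ _
    have i3 : IntervalIntegrable (fun _ : ℝ => Real.pi⁻¹ * P6aR n (b * (1 / 2))) volume 0
        (2 * Real.pi / 3) := continuous_const.intervalIntegrable _ _
    have i4 : IntervalIntegrable (fun w => 3 / Real.pi ^ 2 * P6aR n (b * (1 / 2)) * w) volume 0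
        (2 * Real.pi / 3) := (continuous_const.mul continuous_id).intervalIntegrable _ _
    have j3 : ∫ _w in (0 : ℝ)..(2 * Real.pi / 3), Real.pi⁻¹ * P6aR n (b * (1 / 2)) =
        (2 * Real.pi / 3 - 0) * (Real.pi⁻¹ * P6aR n (b * (1 / 2))) := by
      rw [intervalIntegral.integral_const, smul_eq_mul]
    have j4 : ∫ w in (0 : ℝ)..(2 * Real.pi / 3), 3 / Real.pi ^ 2 * P6aR n (b * (1 / 2)) * w =
        3 / Real.pi ^ 2 * P6aR n (b * (1 / 2)) * (((2 * Real.pi / 3) ^ 2 - 0 ^ 2) / 2) := by
      rw [intervalIntegral.integral_const_mul, integral_id]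
    rw [e, intervalIntegral.integral_sub (i1.sub i2) (i3.sub i4),
      intervalIntegral.integral_sub i1 i2, intervalIntegral.integral_sub i3 i4, j3, j4,
      intervalIntegral.integral_const_mul, intervalIntegral.integral_const_mul]
    have h4 : (2 * Real.pi / 3 - 0) * (Real.pi⁻¹ * P6aR n (b * (1 / 2))) -
        3 / Real.pi ^ 2 * P6aR n (b * (1 / 2)) * (((2 * Real.pi / 3) ^ 2 - 0 ^ 2) / 2) = 0 := by
      field_simp
      ring
    rw [h4, sub_zero]
  have h4 : ∫ w in (0 : ℝ)..Real.pi, f w = (∫ w in (0 : ℝ)..(2 * Real.pi / 3), f w) +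
      ∫ w in (2 * Real.pi / 3)..Real.pi, f w :=
    (intervalIntegral.integral_add_adjacent_intervals (hfc.intervalIntegrable _ _)
      (hfc.intervalIntegrable _ _)).symm
  rw [h3] at h2
  unfold P6aL
  show 0 ≤ Real.pi⁻¹ * (∫ w in (0 : ℝ)..Real.pi, f w) - P6aR n (b * (-1 / 2)) / 3 -
    3 / Real.pi ^ 2 * ∫ w in (0 : ℝ)..(2 * Real.pi / 3), w * f w
  rw [h4]
  have h5 := mul_le_mul_of_nonneg_left h1 (show 0 ≤ Real.pi⁻¹ by positivity)
  have h6 : Real.pi⁻¹ * (Real.pi / 3 * P6aR n (b * (-1 / 2))) = P6aR n (b * (-1 / 2)) / 3 := by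
    field_simp
  rw [h6] at h5
  rw [mul_add]
  linarith

theorem pP6a : StP6a := by
  intro n b hn hb
  have hpi := Real.pi_pos
  have h1 := P6aL_nonneg n hn hb
  have hw : ∀ k : ℕ, wk k = P6aL (fun x => x ^ k) := by
    intro k
    unfold wk P6aL
    rw [P6a_cm (fun x => x ^ k) (continuous_pow k)]
  have hI : I0 b - Real.exp (-b / 2) / 3
      - 3 / Real.pi ^ 2 * ∫ w in (0 : ℝ)..(2 * Real.pi / 3), w * Real.exp (b * Real.cos w) =
      P6aL (fun x => Real.exp (b * x)) := by
    unfold I0 P6aL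
    rw [P6a_cm (fun x => Real.exp (b * x)) (by fun_prop)]
    have e : b * (-1 / 2) = -b / 2 := by ring
    dsimp only
    rw [e]
  have hL : P6aL (fun x => P6aR n (b * x)) = P6aL (fun x => Real.exp (b * x)) -
      ∑ k ∈ Finset.range (n + 1), P6aL (fun x => x ^ k) * b ^ k / (k.factorial : ℝ) := by
    have hc1 : Continuous fun w : ℝ => Real.exp (b * Real.cos w) := by fun_prop
    have hc2 : ∀ k : ℕ, Continuous fun w : ℝ => b ^ k / (k.factorial : ℝ) * Real.cos w ^ k := by
      intro k
      fun_prop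
    have hc3 : ∀ k : ℕ, Continuous fun w : ℝ =>
        b ^ k / (k.factorial : ℝ) * (w * Real.cos w ^ k) := by
      intro k
      fun_prop
    have e1 : ∀ x : ℝ, P6aR n (b * x) = Real.exp (b * x) -
        ∑ k ∈ Finset.range (n + 1), b ^ k / (k.factorial : ℝ) * x ^ k := by
      intro x
      unfold P6aR P6aT
      congr 1
      refine Finset.sum_congr rfl fun k _ => ?_
      rw [mul_pow]
      ring
    have e2 : ∫ w in (0 : ℝ)..Real.pi, P6aR n (b * Real.cos w) =
        (∫ w in (0 : ℝ)..Real.pi, Real.exp (b * Real.cos w)) -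
        ∑ k ∈ Finset.range (n + 1), b ^ k / (k.factorial : ℝ) *
          ∫ w in (0 : ℝ)..Real.pi, Real.cos w ^ k := by
      simp_rw [e1]
      rw [intervalIntegral.integral_sub (hc1.intervalIntegrable _ _)
        ((continuous_finsetSum _ fun k _ => hc2 k).intervalIntegrable _ _),
        intervalIntegral.integral_finsetSum fun k _ => (hc2 k).intervalIntegrable _ _]
      congr 1
      exact Finset.sum_congr rfl fun k _ => intervalIntegral.integral_const_mul _ _
    have e3 : ∫ w in (0 : ℝ)..(2 * Real.pi / 3), w * P6aR n (b * Real.cos w) =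
        (∫ w in (0 : ℝ)..(2 * Real.pi / 3), w * Real.exp (b * Real.cos w)) -
        ∑ k ∈ Finset.range (n + 1), b ^ k / (k.factorial : ℝ) *
          ∫ w in (0 : ℝ)..(2 * Real.pi / 3), w * Real.cos w ^ k := by
      have e4 : (fun w : ℝ => w * P6aR n (b * Real.cos w)) = fun w =>
          w * Real.exp (b * Real.cos w) - ∑ k ∈ Finset.range (n + 1),
            b ^ k / (k.factorial : ℝ) * (w * Real.cos w ^ k) := by
        funext w
        rw [e1, mul_sub, Finset.mul_sum]
        congr 1
        refine Finset.sum_congr rfl fun k _ => ?_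
        ring
      have i1 : IntervalIntegrable (fun w : ℝ => w * Real.exp (b * Real.cos w)) volume 0
          (2 * Real.pi / 3) := (continuous_id.mul hc1).intervalIntegrable _ _
      rw [e4, intervalIntegral.integral_sub i1
        ((continuous_finsetSum _ fun k _ => hc3 k).intervalIntegrable _ _),
        intervalIntegral.integral_finsetSum fun k _ => (hc3 k).intervalIntegrable _ _]
      congr 1
      exact Finset.sum_congr rfl fun k _ => intervalIntegral.integral_const_mul _ _
    unfold P6aL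
    dsimp only
    rw [e2, e3, e1]
    have e5 : ∀ k ∈ Finset.range (n + 1),
        (Real.pi⁻¹ * (∫ w in (0 : ℝ)..Real.pi, Real.cos w ^ k) - (-1 / 2) ^ k / 3 -
          3 / Real.pi ^ 2 * ∫ w in (0 : ℝ)..(2 * Real.pi / 3), w * Real.cos w ^ k) * b ^ k /
          (k.factorial : ℝ) =
        Real.pi⁻¹ * (b ^ k / (k.factorial : ℝ) * ∫ w in (0 : ℝ)..Real.pi, Real.cos w ^ k) -
        b ^ k / (k.factorial : ℝ) * (-1 / 2) ^ k / 3 -
        3 / Real.pi ^ 2 * (b ^ k / (k.factorial : ℝ) *
          ∫ w in (0 : ℝ)..(2 * Real.pi / 3), w * Real.cos w ^ k) := by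
      intro k _
      ring
    rw [Finset.sum_congr rfl e5, Finset.sum_sub_distrib, Finset.sum_sub_distrib,
      ← Finset.mul_sum, ← Finset.mul_sum, ← Finset.sum_div]
    ring
  rw [hI]
  have h2 : ∑ k ∈ Finset.range (n + 1), wk k * b ^ k / (k.factorial : ℝ) =
      ∑ k ∈ Finset.range (n + 1), P6aL (fun x => x ^ k) * b ^ k / (k.factorial : ℝ) :=
    Finset.sum_congr rfl fun k _ => by rw [hw]
  rw [h2]
  rw [hL] at h1
  linarith

end Pool.TC
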