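import Mathlib
import Pool.Agent.TC.St

/-! Module P6b of project TC: the exact values of the moments `wk`. -/

set_option autoImplicit false

open MeasureTheory ProbabilityTheory Pool.H65.PS Pool.H65.PT

namespace Pool.TC

private theorem P6b_cm (f : ℝ → ℝ) :
    ∫ θ, f θ ∂cm = (2 * Real.pi)⁻¹ * ∫ θ in (-Real.pi)..Real.pi, f θ := by
  have hpi := Real.pi_pos
  rw [cm, integral_smul_measure, ENNReal.toReal_ofReal (by positivity),
    intervalIntegral.integral_of_le (by linarith), smul_eq_mul]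

private theorem P6b_rec (k : ℕ) :
    ∫ θ in (-Real.pi)..Real.pi, Real.cos θ ^ (k + 2) =
      ((k : ℝ) + 1) / (k + 2) * ∫ θ in (-Real.pi)..Real.pi, Real.cos θ ^ k := by
  rw [integral_cos_pow]
  simp

private theorem P6b_c0 : ∫ θ, Real.cos θ ^ 0 ∂cm = 1 := by
  have hpi := Real.pi_pos
  rw [P6b_cm]
  simp
  field_simp
  ring

private theorem P6b_i0 : ∫ θ in (-Real.pi)..Real.pi, Real.cos θ ^ 0 = 2 * Real.pi := by
  simp; ring

private theorem P6b_i1 : ∫ θ in (-Real.pi)..Real.pi, Real.cos θ ^ 1 = 0 := by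
  simp

private theorem P6b_c1 : ∫ θ, Real.cos θ ^ 1 ∂cm = 0 := by
  rw [P6b_cm, P6b_i1, mul_zero]

private theorem P6b_c2 : ∫ θ, Real.cos θ ^ 2 ∂cm = 1 / 2 := by
  have hpi := Real.pi_pos
  rw [P6b_cm, P6b_rec 0, P6b_i0]
  push_cast
  field_simp
  try ring

private theorem P6b_c3 : ∫ θ, Real.cos θ ^ 3 ∂cm = 0 := by
  rw [P6b_cm, P6b_rec 1, P6b_i1, mul_zero, mul_zero]

private theorem P6b_c4 : ∫ θ, Real.cos θ ^ 4 ∂cm = 3 / 8 := by
  have hpi := Real.pi_pos
  rw [P6b_cm, P6b_rec 2, P6b_rec 0, P6b_i0]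
  push_cast
  field_simp
  try ring

private theorem P6b_c5 : ∫ θ, Real.cos θ ^ 5 ∂cm = 0 := by
  rw [P6b_cm, P6b_rec 3, P6b_rec 1, P6b_i1, mul_zero, mul_zero,
    mul_zero]

private theorem P6b_cos : Real.cos (2 * Real.pi / 3) = -1 / 2 := by
  have : 2 * Real.pi / 3 = Real.pi - Real.pi / 3 := by ring
  rw [this, Real.cos_pi_sub, Real.cos_pi_div_three]; ring

private theorem P6b_sin : Real.sin (2 * Real.pi / 3) = Real.sqrt 3 / 2 := by
  have : 2 * Real.pi / 3 = Real.pi - Real.pi / 3 := by ring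
  rw [this, Real.sin_pi_sub, Real.sin_pi_div_three]

private theorem P6b_int (k : ℕ) (F : ℝ → ℝ)
    (hF : ∀ w, HasDerivAt F (w * Real.cos w ^ k) w) :
    ∫ w in (0 : ℝ)..(2 * Real.pi / 3), w * Real.cos w ^ k = F (2 * Real.pi / 3) - F 0 := by
  apply intervalIntegral.integral_eq_sub_of_hasDerivAt (fun w _ => hF w)
  apply Continuous.intervalIntegrable
  fun_prop

private theorem P6b_j0 : ∫ w in (0 : ℝ)..(2 * Real.pi / 3), w * Real.cos w ^ 0 =
    2 * Real.pi ^ 2 / 9 := by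
  rw [P6b_int 0 (fun w => w ^ 2 / 2)]
  · ring
  · intro w
    have h := ((hasDerivAt_id w).pow 2).div_const 2
    refine (h.congr_deriv ?_)
    simp

private theorem P6b_j1 : ∫ w in (0 : ℝ)..(2 * Real.pi / 3), w * Real.cos w ^ 1 =
    Real.pi * Real.sqrt 3 / 3 - 3 / 2 := by
  rw [P6b_int 1 (fun w => w * Real.sin w + Real.cos w)]
  · simp only [P6b_cos, P6b_sin, Real.sin_zero, Real.cos_zero]
    ring
  · intro w
    have hs := Real.hasDerivAt_sin w
    have hc := Real.hasDerivAt_cos w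
    have h := ((hasDerivAt_id w).mul hs).add hc
    refine (h.congr_deriv ?_)
    simp

private theorem P6b_j2 : ∫ w in (0 : ℝ)..(2 * Real.pi / 3), w * Real.cos w ^ 2 =
    Real.pi ^ 2 / 9 - Real.pi * Real.sqrt 3 / 12 - 3 / 16 := by
  rw [P6b_int 2 (fun w => w ^ 2 / 4 + w * (Real.sin w * Real.cos w) / 2 + Real.cos w ^ 2 / 4)]
  · simp only [P6b_cos, P6b_sin, Real.sin_zero, Real.cos_zero]
    ring
  · intro w
    have hs := Real.hasDerivAt_sin w
    have hc := Real.hasDerivAt_cos w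
    have h := ((((hasDerivAt_id w).pow 2).div_const 4).add
      (((hasDerivAt_id w).mul (hs.mul hc)).div_const 2)).add ((hc.pow 2).div_const 4)
    refine (h.congr_deriv ?_)
    simp only [id, Pi.mul_apply]
    have := Real.sin_sq_add_cos_sq w
    linear_combination (-(w / 2)) * this

private theorem P6b_j3 : ∫ w in (0 : ℝ)..(2 * Real.pi / 3), w * Real.cos w ^ 3 =
    Real.pi * Real.sqrt 3 / 4 - 9 / 8 := by
  have hq : Real.sqrt 3 ^ 2 = 3 := Real.sq_sqrt (by norm_num)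
  rw [P6b_int 3 (fun w => w * (Real.sin w - Real.sin w ^ 3 / 3) + 2 / 3 * Real.cos w
    + Real.cos w ^ 3 / 9)]
  · simp only [P6b_cos, P6b_sin, Real.sin_zero, Real.cos_zero]
    linear_combination (-(Real.pi * Real.sqrt 3 / 36)) * hq
  · intro w
    have hs := Real.hasDerivAt_sin w
    have hc := Real.hasDerivAt_cos w
    have h := (((hasDerivAt_id w).mul (hs.sub ((hs.pow 3).div_const 3))).add
      (hc.const_mul (2 / 3))).add ((hc.pow 3).div_const 9)
    refine (h.congr_deriv ?_)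
    simp only [id, Pi.sub_apply, Pi.pow_apply]
    have := Real.sin_sq_add_cos_sq w
    linear_combination (-(Real.sin w / 3 + w * Real.cos w)) * this

private theorem P6b_j4 : ∫ w in (0 : ℝ)..(2 * Real.pi / 3), w * Real.cos w ^ 4 =
    Real.pi ^ 2 / 12 - 7 * Real.pi * Real.sqrt 3 / 96 - 51 / 256 := by
  rw [P6b_int 4 (fun w => 3 / 16 * w ^ 2 + 3 / 8 * (w * (Real.sin w * Real.cos w))
    + 1 / 4 * (w * (Real.sin w * Real.cos w ^ 3)) + 3 / 16 * Real.cos w ^ 2
    + 1 / 16 * Real.cos w ^ 4)]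
  · simp only [P6b_cos, P6b_sin, Real.sin_zero, Real.cos_zero]
    ring
  · intro w
    have hs := Real.hasDerivAt_sin w
    have hc := Real.hasDerivAt_cos w
    have h := (((((hasDerivAt_id w).pow 2).const_mul (3 / 16)).add
      (((hasDerivAt_id w).mul (hs.mul hc)).const_mul (3 / 8))).add
      (((hasDerivAt_id w).mul (hs.mul (hc.pow 3))).const_mul (1 / 4))).add
      ((hc.pow 2).const_mul (3 / 16)) |>.add ((hc.pow 4).const_mul (1 / 16))
    refine (h.congr_deriv ?_)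
    simp only [id, Pi.mul_apply, Pi.pow_apply]
    have := Real.sin_sq_add_cos_sq w
    push_cast
    linear_combination (-(w * (3 / 8 + 3 / 4 * Real.cos w ^ 2))) * this

private theorem P6b_j5 : ∫ w in (0 : ℝ)..(2 * Real.pi / 3), w * Real.cos w ^ 5 =
    49 * Real.pi * Real.sqrt 3 / 240 - 753 / 800 := by
  have hq : Real.sqrt 3 ^ 2 = 3 := Real.sq_sqrt (by norm_num)
  rw [P6b_int 5 (fun w => w * (Real.sin w - 2 / 3 * Real.sin w ^ 3 + 1 / 5 * Real.sin w ^ 5)
    + 8 / 15 * Real.cos w + 4 / 45 * Real.cos w ^ 3 + 1 / 25 * Real.cos w ^ 5)]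
  · simp only [P6b_cos, P6b_sin, Real.sin_zero, Real.cos_zero]
    have h3 : Real.sqrt 3 ^ 3 = 3 * Real.sqrt 3 := by
      rw [pow_succ, hq]
    have h5 : Real.sqrt 3 ^ 5 = 9 * Real.sqrt 3 := by
      have : Real.sqrt 3 ^ 5 = (Real.sqrt 3 ^ 2) ^ 2 * Real.sqrt 3 := by ring
      rw [this, hq]; norm_num
    have e1 : (Real.sqrt 3 / 2) ^ 3 = 3 * Real.sqrt 3 / 8 := by rw [div_pow, h3]; norm_num
    have e2 : (Real.sqrt 3 / 2) ^ 5 = 9 * Real.sqrt 3 / 32 := by rw [div_pow, h5]; norm_num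
    rw [e1, e2]
    ring
  · intro w
    have hs := Real.hasDerivAt_sin w
    have hc := Real.hasDerivAt_cos w
    have h := ((((hasDerivAt_id w).mul ((hs.sub ((hs.pow 3).const_mul (2 / 3))).add
      ((hs.pow 5).const_mul (1 / 5)))).add (hc.const_mul (8 / 15))).add
      ((hc.pow 3).const_mul (4 / 45))).add ((hc.pow 5).const_mul (1 / 25))
    refine (h.congr_deriv ?_)
    simp only [id, Pi.sub_apply, Pi.add_apply, Pi.pow_apply]
    have := Real.sin_sq_add_cos_sq w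
    push_cast
    linear_combination (-(w * Real.cos w * (1 - Real.sin w ^ 2 + Real.cos w ^ 2))
      - Real.sin w * (4 / 15 + (1 - Real.sin w ^ 2 + Real.cos w ^ 2) / 5)) * this

theorem pP6b : StP6b := by
  have hpi := Real.pi_pos
  have hpi0 : Real.pi ≠ 0 := hpi.ne'
  set s := Real.sqrt 3 with hs
  set x := Real.pi⁻¹ with hx
  have hxp : Real.pi * x = 1 := mul_inv_cancel₀ hpi0
  have hx0 : 0 < x := by positivity
  have w0 : wk 0 = 0 := by
    rw [wk, P6b_c0, P6b_j0]; field_simp; ring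
  have w1 : wk 1 = 1 / 6 - s * x + 9 / 2 * x ^ 2 := by
    rw [wk, P6b_c1, P6b_j1, hx]; field_simp; ring
  have w2 : wk 2 = 1 / 12 + s * x / 4 + 9 / 16 * x ^ 2 := by
    rw [wk, P6b_c2, P6b_j2, hx]; field_simp; ring
  have w3 : wk 3 = 1 / 24 - 3 / 4 * (s * x) + 27 / 8 * x ^ 2 := by
    rw [wk, P6b_c3, P6b_j3, hx]; field_simp; ring
  have w4 : wk 4 = 5 / 48 + 7 / 32 * (s * x) + 153 / 256 * x ^ 2 := by
    rw [wk, P6b_c4, P6b_j4, hx]; field_simp; ring
  have w5 : wk 5 = 1 / 96 - 49 / 80 * (s * x) + 2259 / 800 * x ^ 2 := by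
    rw [wk, P6b_c5, P6b_j5, hx]; field_simp; ring
  have hc3 : c3 = s * x - 1 / 6 - 3 * x ^ 2 := by
    rw [c3, hx]; field_simp; ring
  have p1 := Real.pi_gt_d20
  have p2 := Real.pi_lt_d20
  have x1 : (0.318309886 : ℝ) < x := by
    by_contra h
    push Not at h
    nlinarith
  have x2 : x < 0.318309887 := by
    by_contra h
    push Not at h
    nlinarith
  have s0 : 0 ≤ s := Real.sqrt_nonneg 3
  have s2 : s ^ 2 = 3 := Real.sq_sqrt (by norm_num)
  have s3 : (1.732050807 : ℝ) < s := by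
    by_contra h
    push Not at h
    nlinarith
  have s4 : s < 1.732050808 := by
    by_contra h
    push Not at h
    nlinarith
  have m1 : (1.732050807 : ℝ) * 0.318309886 ≤ s * x :=
    mul_le_mul s3.le x1.le (by norm_num) s0
  have m2 : s * x ≤ 1.732050808 * 0.318309887 :=
    mul_le_mul s4.le x2.le hx0.le (by norm_num)
  have q1 : (0.318309886 : ℝ) ^ 2 ≤ x ^ 2 := pow_le_pow_left₀ (by norm_num) x1.le 2
  have q2 : x ^ 2 ≤ 0.318309887 ^ 2 := pow_le_pow_left₀ hx0.le x2.le 2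
  norm_num at m1 m2 q1 q2
  refine ⟨w0, ?_, ?_, ?_, ?_, ?_, ?_, ?_⟩
  · rw [w1]; linarith
  · rw [w2]; linarith
  · rw [w3]; linarith
  · rw [w4]; linarith
  · rw [w5]; linarith
  · rw [hc3]; linarith
  · rw [hc3]; linarith

end Pool.TC
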