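import Pool.Agent.TC.St

/-! TC module P8: the radial inequality. -/

set_option autoImplicit false

open MeasureTheory ProbabilityTheory Pool.H65.PS Pool.H65.PT

namespace Pool.TC

private instance P8_sf_rm : SFinite rm := by
  unfold rm
  infer_instance

private instance P8_fin_cm : IsFiniteMeasure cm := by
  unfold cm
  refine ⟨?_⟩
  rw [Measure.smul_apply, smul_eq_mul, Measure.restrict_apply_univ, Real.volume_Ioc]
  exact ENNReal.mul_lt_top ENNReal.ofReal_lt_top ENNReal.ofReal_lt_top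

private theorem P8_pos : ∀ᵐ s ∂rm, 0 < s := by
  unfold rm
  exact (withDensity_absolutelyContinuous _ _).ae_le (ae_restrict_mem measurableSet_Ioi)

private theorem P8_int : Integrable (fun s : ℝ => Real.exp (s ^ 2 / 8)) rm := by
  unfold rm
  rw [integrable_withDensity_iff (by fun_prop) (Filter.Eventually.of_forall fun x => ENNReal.ofReal_lt_top)]
  have h1 : Integrable (fun x : ℝ => x * Real.exp (-(3 / 8) * x ^ 2)) (volume.restrict (Set.Ioi 0)) :=
    (integrable_mul_exp_neg_mul_sq (by norm_num)).restrict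
  refine h1.congr ?_
  filter_upwards [ae_restrict_mem measurableSet_Ioi] with x hx
  have hx' : (0 : ℝ) < x := hx
  rw [ENNReal.toReal_ofReal (by positivity)]
  have h2 : Real.exp (x ^ 2 / 8) * (x * Real.exp (-(x ^ 2) / 2)) =
      x * (Real.exp (x ^ 2 / 8) * Real.exp (-(x ^ 2) / 2)) := by ring
  rw [h2, ← Real.exp_add]
  congr 2
  ring

private theorem P8_I0_meas : StronglyMeasurable I0 := by
  have h : StronglyMeasurable (Function.uncurry fun b θ : ℝ => Real.exp (b * Real.cos θ)) := by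
    apply Measurable.stronglyMeasurable
    show Measurable (fun p : ℝ × ℝ => Real.exp (p.1 * Real.cos p.2))
    fun_prop
  exact h.integral_prod_right

private theorem P8_Lb_meas : StronglyMeasurable Lb := by
  have hpi : (0 : ℝ) ≤ 2 * Real.pi / 3 := by positivity
  have h : StronglyMeasurable (Function.uncurry fun b w : ℝ => w * Real.exp (b * Real.cos w)) := by
    apply Measurable.stronglyMeasurable
    show Measurable (fun p : ℝ × ℝ => p.2 * Real.exp (p.1 * Real.cos p.2))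
    fun_prop
  have h2 : StronglyMeasurable fun b : ℝ =>
      ∫ w in (0 : ℝ)..(2 * Real.pi / 3), w * Real.exp (b * Real.cos w) := by
    have h3 : StronglyMeasurable fun b : ℝ =>
        ∫ w, w * Real.exp (b * Real.cos w) ∂(volume.restrict (Set.Ioc 0 (2 * Real.pi / 3))) :=
      h.integral_prod_right
    have h4 : (fun b : ℝ => ∫ w in (0 : ℝ)..(2 * Real.pi / 3), w * Real.exp (b * Real.cos w)) =
        fun b : ℝ => ∫ w, w * Real.exp (b * Real.cos w)
          ∂(volume.restrict (Set.Ioc 0 (2 * Real.pi / 3))) := by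
      funext b
      exact intervalIntegral.integral_of_le hpi
    rw [h4]
    exact h3
  have h5 : StronglyMeasurable fun b : ℝ => Real.exp (-b / 2) / 3 := by
    apply Measurable.stronglyMeasurable
    fun_prop
  have h6 : StronglyMeasurable fun b : ℝ => c3 * b * Real.exp (-b) := by
    apply Measurable.stronglyMeasurable
    fun_prop
  exact (h5.add (h2.const_mul _)).sub h6

private theorem P8_bound : ∃ K : ℝ, 0 ≤ K ∧ ∀ b : ℝ, 0 ≤ b → |I0 b - Lb b| ≤ K * Real.exp b := by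
  have hpi : (0 : ℝ) ≤ 2 * Real.pi / 3 := by positivity
  refine ⟨cm.real Set.univ + 1 / 3 + 3 / Real.pi ^ 2 * (2 * Real.pi / 3 * (2 * Real.pi / 3)) + |c3|,
    by positivity, fun b hb => ?_⟩
  have hE : 1 ≤ Real.exp b := Real.one_le_exp hb
  have h1 : |I0 b| ≤ cm.real Set.univ * Real.exp b := by
    have h := norm_integral_le_of_norm_le_const (μ := cm) (f := fun θ => Real.exp (b * Real.cos θ))
      (C := Real.exp b) (Filter.Eventually.of_forall fun θ => by
        rw [Real.norm_eq_abs, Real.abs_exp]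
        exact Real.exp_le_exp.2 (by nlinarith [Real.cos_le_one θ]))
    rw [mul_comm]
    exact h
  have h2 : |∫ w in (0 : ℝ)..(2 * Real.pi / 3), w * Real.exp (b * Real.cos w)| ≤
      (2 * Real.pi / 3 * (2 * Real.pi / 3)) * Real.exp b := by
    have h := intervalIntegral.norm_integral_le_of_norm_le_const (a := (0 : ℝ))
      (b := 2 * Real.pi / 3) (f := fun w => w * Real.exp (b * Real.cos w))
      (C := 2 * Real.pi / 3 * Real.exp b) (fun w hw => by
        rw [Set.uIoc_of_le hpi] at hw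
        rw [Real.norm_eq_abs, abs_mul, Real.abs_exp, abs_of_pos hw.1]
        exact mul_le_mul hw.2 (Real.exp_le_exp.2 (by nlinarith [Real.cos_le_one w]))
          (Real.exp_pos _).le hpi)
    rw [Real.norm_eq_abs, sub_zero, abs_of_nonneg hpi] at h
    calc _ ≤ _ := h
      _ = _ := by ring
  have h3 : |Real.exp (-b / 2) / 3| ≤ 1 / 3 * Real.exp b := by
    rw [abs_of_nonneg (by positivity)]
    have : Real.exp (-b / 2) ≤ Real.exp b := Real.exp_le_exp.2 (by linarith)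
    linarith
  have h4 : |c3 * b * Real.exp (-b)| ≤ |c3| * Real.exp b := by
    rw [mul_assoc, abs_mul]
    refine mul_le_mul_of_nonneg_left ?_ (abs_nonneg _)
    rw [abs_of_nonneg (by positivity)]
    have h5 : b ≤ Real.exp b := by linarith [Real.add_one_le_exp b]
    have h6 : Real.exp (-b) ≤ 1 := Real.exp_le_one_iff.2 (by linarith)
    nlinarith [Real.exp_pos (-b), Real.exp_pos b]
  have h5 : |3 / Real.pi ^ 2 * ∫ w in (0 : ℝ)..(2 * Real.pi / 3), w * Real.exp (b * Real.cos w)| ≤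
      3 / Real.pi ^ 2 * (2 * Real.pi / 3 * (2 * Real.pi / 3)) * Real.exp b := by
    rw [abs_mul, abs_of_nonneg (by positivity : (0 : ℝ) ≤ 3 / Real.pi ^ 2), mul_assoc]
    exact mul_le_mul_of_nonneg_left h2 (by positivity)
  have h6 : |Lb b| ≤ 1 / 3 * Real.exp b +
      3 / Real.pi ^ 2 * (2 * Real.pi / 3 * (2 * Real.pi / 3)) * Real.exp b + |c3| * Real.exp b := by
    unfold Lb
    exact (abs_sub _ _).trans (add_le_add ((abs_add_le _ _).trans (add_le_add h3 h5)) h4)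
  calc |I0 b - Lb b| ≤ |I0 b| + |Lb b| := abs_sub _ _
    _ ≤ _ := add_le_add h1 h6
    _ = _ := by ring

private theorem P8_kap (ρ s t : ℝ) (h0 : 0 < ρ) (h1 : ρ ≤ 1 / 3) :
    kap ρ s t * Real.exp (bb ρ s t) ≤ 9 / 8 * (Real.exp (s ^ 2 / 8) * Real.exp (t ^ 2 / 8)) := by
  have hq : 0 < 1 - ρ ^ 2 := by nlinarith
  unfold kap bb
  rw [mul_assoc, ← Real.exp_add, ← Real.exp_add]
  refine mul_le_mul ?_ (Real.exp_le_exp.2 ?_) (Real.exp_pos _).le (by norm_num)
  · rw [inv_le_comm₀ hq (by norm_num)]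
    nlinarith
  · have h2 : -(ρ ^ 2 * (s ^ 2 + t ^ 2)) / (2 * (1 - ρ ^ 2)) + ρ * s * t / (1 - ρ ^ 2) =
        (2 * ρ * s * t - ρ ^ 2 * (s ^ 2 + t ^ 2)) / (2 * (1 - ρ ^ 2)) := by
      field_simp
      ring
    rw [h2, div_le_iff₀ (by positivity)]
    have h3 : 2 * ρ * s * t ≤ ρ * (s ^ 2 + t ^ 2) := by nlinarith [sq_nonneg (s - t)]
    have h4 : 0 ≤ s ^ 2 + t ^ 2 := by positivity
    have h5 : 0 ≤ (1 - ρ) * (1 - 3 * ρ) := mul_nonneg (by linarith) (by linarith)
    nlinarith [mul_nonneg h4 h5]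

private theorem P8_Wr (ρ : ℝ) (h0 : 0 < ρ) (h1 : ρ ≤ 1 / 3) :
    StronglyMeasurable (Wr ρ) ∧ ∃ C : ℝ, 0 ≤ C ∧ ∀ᵐ s ∂rm, |Wr ρ s| ≤ C * Real.exp (s ^ 2 / 8) := by
  constructor
  · have hb : Measurable fun p : ℝ × ℝ => bb ρ p.1 p.2 := by
      unfold bb
      fun_prop
    have hk : Measurable fun p : ℝ × ℝ => kap ρ p.1 p.2 := by
      unfold kap
      fun_prop
    have h : StronglyMeasurable (Function.uncurry fun s t : ℝ =>
        kap ρ s t * (I0 (bb ρ s t) - Lb (bb ρ s t))) := by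
      show StronglyMeasurable fun p : ℝ × ℝ =>
        kap ρ p.1 p.2 * (I0 (bb ρ p.1 p.2) - Lb (bb ρ p.1 p.2))
      exact hk.stronglyMeasurable.mul ((P8_I0_meas.comp_measurable hb).sub
        (P8_Lb_meas.comp_measurable hb))
    exact h.integral_prod_right
  · obtain ⟨K, hK, hK'⟩ := P8_bound
    refine ⟨K * (9 / 8) * ∫ t, Real.exp (t ^ 2 / 8) ∂rm, ?_, ?_⟩
    · have : 0 ≤ ∫ t, Real.exp (t ^ 2 / 8) ∂rm := integral_nonneg fun t => (Real.exp_pos _).le
      positivity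
    · filter_upwards [P8_pos] with s hs
      have h := norm_integral_le_of_norm_le (μ := rm)
        (f := fun t => kap ρ s t * (I0 (bb ρ s t) - Lb (bb ρ s t)))
        (g := fun t => K * (9 / 8) * Real.exp (s ^ 2 / 8) * Real.exp (t ^ 2 / 8))
        (P8_int.const_mul _) (by
          filter_upwards [P8_pos] with t ht
          have hq : 0 < 1 - ρ ^ 2 := by nlinarith
          have hbb : 0 ≤ bb ρ s t := by
            unfold bb
            positivity
          have hkk : 0 ≤ kap ρ s t := by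
            unfold kap
            have := inv_pos.2 hq
            positivity
          rw [norm_mul, Real.norm_eq_abs, Real.norm_eq_abs, abs_of_nonneg hkk]
          calc kap ρ s t * |I0 (bb ρ s t) - Lb (bb ρ s t)|
              ≤ kap ρ s t * (K * Real.exp (bb ρ s t)) := mul_le_mul_of_nonneg_left (hK' _ hbb) hkk
            _ = K * (kap ρ s t * Real.exp (bb ρ s t)) := by ring
            _ ≤ K * (9 / 8 * (Real.exp (s ^ 2 / 8) * Real.exp (t ^ 2 / 8))) :=
                mul_le_mul_of_nonneg_left (P8_kap ρ s t h0 h1) hK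
            _ = _ := by ring)
      rw [integral_const_mul] at h
      calc |Wr ρ s| ≤ _ := h
        _ = _ := by ring

private theorem P8_EE (hP8e : StP8e) (R : ℝ) (hR : 0 < R) : 0 < EE R :=
  mul_pos (Real.exp_pos _) (hP8e R hR).1

private theorem P8_ptw (hP8a : StP8a) (hP8d : StP8d) (hP8e : StP8e) (ρ s : ℝ) (h0 : 0 < ρ)
    (h1 : ρ ≤ 1 / 3) (hs : 0 < s) : 9 * ρ ^ 2 / EE (s / Real.sqrt 8) ≤ Wr ρ s := by
  have hq : 0 < 1 - ρ ^ 2 := by nlinarith
  have hsq : 0 < Real.sqrt (1 - ρ ^ 2) := Real.sqrt_pos.2 hq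
  have hsq2 : Real.sqrt (1 - ρ ^ 2) ^ 2 = 1 - ρ ^ 2 := Real.sq_sqrt hq.le
  have h8 : 0 < Real.sqrt 8 := Real.sqrt_pos.2 (by norm_num)
  have h82 : Real.sqrt 8 ^ 2 = 8 := Real.sq_sqrt (by norm_num)
  have ha := hP8a ρ s h0 (by linarith) hs
  have hR : 0 < ρ * s / Real.sqrt (1 - ρ ^ 2) := by positivity
  have he := hP8e _ hR
  have hEE := P8_EE hP8e _ hR
  have hEE' := P8_EE hP8e (s / Real.sqrt 8) (by positivity)
  -- `1 ≤ EE R * Wr`
  have key : 1 ≤ EE (ρ * s / Real.sqrt (1 - ρ ^ 2)) * Wr ρ s := by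
    have hx : Real.exp ((ρ * s / Real.sqrt (1 - ρ ^ 2)) ^ 2 / 2) *
        Real.exp (-(ρ * s / Real.sqrt (1 - ρ ^ 2)) ^ 2 / 2) = 1 := by
      rw [← Real.exp_add, ← Real.exp_zero]
      congr 1
      ring
    rcases he.2 with h2 | h2
    · calc 1 ≤ e1 (ρ * s / Real.sqrt (1 - ρ ^ 2)) * P5 (ρ * s / Real.sqrt (1 - ρ ^ 2)) := h2
        _ = EE (ρ * s / Real.sqrt (1 - ρ ^ 2)) *
            (Real.exp (-(ρ * s / Real.sqrt (1 - ρ ^ 2)) ^ 2 / 2) *
              P5 (ρ * s / Real.sqrt (1 - ρ ^ 2))) := by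
            unfold EE
            linear_combination (-(e1 (ρ * s / Real.sqrt (1 - ρ ^ 2)) *
              P5 (ρ * s / Real.sqrt (1 - ρ ^ 2)))) * hx
        _ ≤ _ := mul_le_mul_of_nonneg_left ha.1 hEE.le
    · calc 1 ≤ e1 (ρ * s / Real.sqrt (1 - ρ ^ 2)) *
            (892 / 10000 * (ρ * s / Real.sqrt (1 - ρ ^ 2))) := h2
        _ = EE (ρ * s / Real.sqrt (1 - ρ ^ 2)) *
            (Real.exp (-(ρ * s / Real.sqrt (1 - ρ ^ 2)) ^ 2 / 2) *
              (892 / 10000 * (ρ * s / Real.sqrt (1 - ρ ^ 2)))) := by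
            unfold EE
            linear_combination (-(e1 (ρ * s / Real.sqrt (1 - ρ ^ 2)) *
              (892 / 10000 * (ρ * s / Real.sqrt (1 - ρ ^ 2))))) * hx
        _ ≤ _ := mul_le_mul_of_nonneg_left ha.2 hEE.le
  -- scaling
  have hθ : 0 < Real.sqrt 8 * ρ / Real.sqrt (1 - ρ ^ 2) := by positivity
  have hθ2 : (Real.sqrt 8 * ρ / Real.sqrt (1 - ρ ^ 2)) ^ 2 = 8 * ρ ^ 2 / (1 - ρ ^ 2) := by
    rw [div_pow, mul_pow, h82, hsq2]
  have hθ1 : Real.sqrt 8 * ρ / Real.sqrt (1 - ρ ^ 2) ≤ 1 := by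
    have : (Real.sqrt 8 * ρ / Real.sqrt (1 - ρ ^ 2)) ^ 2 ≤ 1 := by
      rw [hθ2, div_le_one hq]
      nlinarith
    nlinarith
  have hd := hP8d _ (s / Real.sqrt 8) hθ hθ1 (by positivity)
  have hprod : Real.sqrt 8 * ρ / Real.sqrt (1 - ρ ^ 2) * (s / Real.sqrt 8) =
      ρ * s / Real.sqrt (1 - ρ ^ 2) := by
    field_simp
  rw [hprod, hθ2] at hd
  have hd2 : 9 * ρ ^ 2 * EE (ρ * s / Real.sqrt (1 - ρ ^ 2)) ≤ EE (s / Real.sqrt 8) := by
    have h3 : 9 * (8 * ρ ^ 2 / (1 - ρ ^ 2)) * EE (ρ * s / Real.sqrt (1 - ρ ^ 2)) =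
        8 / (1 - ρ ^ 2) * (9 * ρ ^ 2 * EE (ρ * s / Real.sqrt (1 - ρ ^ 2))) := by ring
    have h4 : (8 + 8 * ρ ^ 2 / (1 - ρ ^ 2)) * EE (s / Real.sqrt 8) =
        8 / (1 - ρ ^ 2) * EE (s / Real.sqrt 8) := by
      congr 1
      field_simp
      ring
    rw [h3, h4] at hd
    exact le_of_mul_le_mul_left hd (by positivity)
  rw [div_le_iff₀ hEE']
  have hW : 0 < Wr ρ s := by
    by_contra hcon
    push Not at hcon
    nlinarith
  calc 9 * ρ ^ 2 = 9 * ρ ^ 2 * 1 := by ring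
    _ ≤ 9 * ρ ^ 2 * (EE (ρ * s / Real.sqrt (1 - ρ ^ 2)) * Wr ρ s) :=
        mul_le_mul_of_nonneg_left key (by positivity)
    _ = Wr ρ s * (9 * ρ ^ 2 * EE (ρ * s / Real.sqrt (1 - ρ ^ 2))) := by ring
    _ ≤ _ := mul_le_mul_of_nonneg_left hd2 hW.le

theorem pP8 (hP8a : StP8a) (hP8b1 : StP8b1) (hP8b2 : StP8b2) (hP8c : StP8c) (hP8d : StP8d)
    (hP8e : StP8e) : StP8 := by
  intro e ρ hem heb he0 h0 h1
  obtain ⟨hWm, C, hC, hWC⟩ := P8_Wr ρ h0 h1
  obtain ⟨B, hB⟩ := heb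
  have hint : Integrable (fun s => Wr ρ s * e s ^ 2) rm := by
    have hg : Integrable (fun s : ℝ => C * B ^ 2 * Real.exp (s ^ 2 / 8)) rm := P8_int.const_mul _
    refine hg.mono' ((hWm.mul (hem.pow_const 2).stronglyMeasurable).aestronglyMeasurable) ?_
    filter_upwards [hWC] with s hs
    rw [norm_mul, Real.norm_eq_abs, Real.norm_eq_abs, abs_pow]
    have h2 : |e s| ^ 2 ≤ B ^ 2 := pow_le_pow_left₀ (abs_nonneg _) (hB s) 2
    calc |Wr ρ s| * |e s| ^ 2 ≤ (C * Real.exp (s ^ 2 / 8)) * B ^ 2 :=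
          mul_le_mul hs h2 (by positivity) (by positivity)
      _ = _ := by ring
  have h3 := hP8c e ρ hem ⟨B, hB⟩ he0 h0 h1
  have h4 := hP8b1 hP8b2.2 hP8b2.1 e hem ⟨B, hB⟩ he0
  have h5 : ∫ s, 9 * ρ ^ 2 * (e s ^ 2 / EE (s / Real.sqrt 8)) ∂rm ≤
      ∫ s, Wr ρ s * e s ^ 2 ∂rm := by
    refine integral_mono_of_nonneg ?_ hint ?_
    · filter_upwards [P8_pos] with s hs
      have h8 : 0 < Real.sqrt 8 := Real.sqrt_pos.2 (by norm_num)
      have := P8_EE hP8e (s / Real.sqrt 8) (by positivity)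
      show (0 : ℝ) ≤ _
      positivity
    · filter_upwards [P8_pos] with s hs
      have h6 := P8_ptw hP8a hP8d hP8e ρ s h0 h1 hs
      calc 9 * ρ ^ 2 * (e s ^ 2 / EE (s / Real.sqrt 8)) =
            9 * ρ ^ 2 / EE (s / Real.sqrt 8) * e s ^ 2 := by ring
        _ ≤ _ := mul_le_mul_of_nonneg_right h6 (by positivity)
  rw [integral_const_mul] at h5
  calc Sr ρ e ≤ 9 * ρ ^ 2 * Sr (1 / 3) e := h3
    _ ≤ 9 * ρ ^ 2 * ∫ s, e s ^ 2 / EE (s / Real.sqrt 8) ∂rm :=
        mul_le_mul_of_nonneg_left h4 (by positivity)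
    _ ≤ _ := h5

end Pool.TC
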