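import Pool.Agent.TC.St

set_option autoImplicit false

open MeasureTheory ProbabilityTheory Pool.H65.PS Pool.H65.PT

namespace Pool.TC

private lemma P8a_meas : Measurable (fun s : ℝ => ENNReal.ofReal (s * Real.exp (-(s ^ 2) / 2))) := by
  fun_prop

private lemma P8a_rm (g : ℝ → ℝ) :
    ∫ t, g t ∂rm = ∫ t in Set.Ioi (0 : ℝ), (t * Real.exp (-(t ^ 2) / 2)) * g t := by
  unfold rm
  rw [integral_withDensity_eq_integral_toReal_smul P8a_meas
    (Filter.Eventually.of_forall fun x => ENNReal.ofReal_lt_top)]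
  refine setIntegral_congr_fun measurableSet_Ioi (fun t ht => ?_)
  have ht' : (0 : ℝ) < t := ht
  simp only [smul_eq_mul]
  rw [ENNReal.toReal_ofReal (by positivity)]

private lemma P8a_int (g : ℝ → ℝ) :
    Integrable g rm ↔ IntegrableOn (fun t => (t * Real.exp (-(t ^ 2) / 2)) * g t) (Set.Ioi 0) := by
  unfold rm
  rw [integrable_withDensity_iff_integrable_smul' P8a_meas
    (Filter.Eventually.of_forall fun x => ENNReal.ofReal_lt_top)]
  refine integrableOn_congr_fun (fun t ht => ?_) measurableSet_Ioi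
  have ht' : (0 : ℝ) < t := ht
  simp only [smul_eq_mul]
  rw [ENNReal.toReal_ofReal (by positivity)]

/-- moments of the radius. -/
private noncomputable def P8a_M (k : ℕ) : ℝ :=
  ∫ r in Set.Ioi (0 : ℝ), r ^ (k + 1) * Real.exp (-(r ^ 2) / 2)

private lemma P8a_M_eq (k : ℕ) :
    P8a_M k = 2 ^ ((k : ℝ) / 2) * Real.Gamma ((k : ℝ) / 2 + 1) := by
  unfold P8a_M
  have h := integral_rpow_mul_exp_neg_mul_rpow (p := 2) (q := (k : ℝ) + 1) (b := 1 / 2)
    (by norm_num) (by positivity |> fun (h : (0 : ℝ) < (k : ℝ) + 1) => by linarith) (by norm_num)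
  have e1 : ∫ r in Set.Ioi (0 : ℝ), r ^ (k + 1) * Real.exp (-(r ^ 2) / 2)
      = ∫ x in Set.Ioi (0 : ℝ), x ^ ((k : ℝ) + 1) * Real.exp (-(1 / 2) * x ^ (2 : ℝ)) := by
    refine setIntegral_congr_fun measurableSet_Ioi (fun t ht => ?_)
    have ht' : (0 : ℝ) < t := ht
    rw [Real.rpow_two]
    have : t ^ ((k : ℝ) + 1) = t ^ (k + 1) := by
      rw [← Real.rpow_natCast]; push_cast; rfl
    rw [this]
    congr 2
    ring
  rw [e1, h]
  have e2 : (1 / 2 : ℝ) ^ (-((k : ℝ) + 1 + 1) / 2) = 2 ^ ((k : ℝ) / 2) * 2 := by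
    have : (1 / 2 : ℝ) = 2⁻¹ := by norm_num
    rw [this, Real.inv_rpow (by norm_num), ← Real.rpow_neg (by norm_num)]
    have e3 : -(-((k : ℝ) + 1 + 1) / 2) = (k : ℝ) / 2 + 1 := by ring
    rw [e3, Real.rpow_add (by norm_num), Real.rpow_one]
  rw [e2]
  have e4 : ((k : ℝ) + 1 + 1) / 2 = (k : ℝ) / 2 + 1 := by ring
  rw [e4]
  ring

private lemma P8a_M_rec (k : ℕ) : P8a_M (k + 2) = ((k : ℝ) + 2) * P8a_M k := by
  rw [P8a_M_eq, P8a_M_eq]
  have e1 : ((k + 2 : ℕ) : ℝ) / 2 = (k : ℝ) / 2 + 1 := by push_cast; ring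
  rw [e1, Real.Gamma_add_one (by positivity), Real.rpow_add (by norm_num), Real.rpow_one]
  ring

private lemma P8a_M0 : P8a_M 0 = 1 := by
  rw [P8a_M_eq]; simp

private lemma P8a_M1 : 12533 / 10000 ≤ P8a_M 1 := by
  rw [P8a_M_eq]
  have e1 : ((1 : ℕ) : ℝ) / 2 + 1 = 1 / 2 + 1 := by norm_num
  have e2 : ((1 : ℕ) : ℝ) / 2 = 1 / 2 := by norm_num
  rw [e1, e2, Real.Gamma_add_one (by norm_num), Real.Gamma_one_half_eq, ← Real.sqrt_eq_rpow]
  have e3 : Real.sqrt 2 * (1 / 2 * Real.sqrt Real.pi) = Real.sqrt (Real.pi / 2) := by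
    have : Real.pi / 2 = 2 * (Real.pi * (1 / 2) ^ 2) := by ring
    rw [this, Real.sqrt_mul (by norm_num), Real.sqrt_mul Real.pi_pos.le,
      Real.sqrt_sq (by norm_num)]
    ring
  rw [e3]
  apply Real.le_sqrt_of_sq_le
  have := Real.pi_gt_d6
  norm_num at this ⊢
  linarith

private lemma P8a_intM (k : ℕ) {q : ℝ} (hq : 0 < q) :
    IntegrableOn (fun t : ℝ => t ^ (k + 1) * Real.exp (-(t ^ 2) / (2 * q))) (Set.Ioi 0) := by
  have h := integrableOn_rpow_mul_exp_neg_mul_sq (b := 1 / (2 * q)) (by positivity)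
    (s := (k : ℝ) + 1) (by positivity |> fun (h : (0 : ℝ) < (k : ℝ) + 1) => by linarith)
  refine h.congr_fun (fun t ht => ?_) measurableSet_Ioi
  have ht' : (0 : ℝ) < t := ht
  simp only
  have : t ^ ((k : ℝ) + 1) = t ^ (k + 1) := by
    rw [← Real.rpow_natCast]; push_cast; rfl
  rw [this]
  congr 2
  field_simp

private lemma P8a_valM (k : ℕ) {q : ℝ} (hq : 0 < q) :
    ∫ t in Set.Ioi (0 : ℝ), t ^ (k + 1) * Real.exp (-(t ^ 2) / (2 * q))
      = Real.sqrt q ^ (k + 2) * P8a_M k := by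
  have hs : 0 < Real.sqrt q := Real.sqrt_pos.2 hq
  have h := integral_comp_mul_left_Ioi (fun r : ℝ => r ^ (k + 1) * Real.exp (-(r ^ 2) / 2)) 0
    (b := (Real.sqrt q)⁻¹) (by positivity)
  rw [mul_zero, inv_inv] at h
  unfold P8a_M
  have e : ∫ t in Set.Ioi (0 : ℝ), t ^ (k + 1) * Real.exp (-(t ^ 2) / (2 * q))
      = ∫ x in Set.Ioi (0 : ℝ), Real.sqrt q ^ (k + 1) * (((Real.sqrt q)⁻¹ * x) ^ (k + 1)
        * Real.exp (-(((Real.sqrt q)⁻¹ * x) ^ 2) / 2)) := by
    refine setIntegral_congr_fun measurableSet_Ioi (fun t ht => ?_)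
    have e1 : Real.sqrt q ^ (k + 1) * (((Real.sqrt q)⁻¹ * t) ^ (k + 1)
        * Real.exp (-(((Real.sqrt q)⁻¹ * t) ^ 2) / 2))
        = (Real.sqrt q * ((Real.sqrt q)⁻¹ * t)) ^ (k + 1)
        * Real.exp (-(((Real.sqrt q)⁻¹ * t) ^ 2) / 2) := by
      rw [mul_pow (Real.sqrt q)]; ring
    rw [e1]
    have e2 : Real.sqrt q * ((Real.sqrt q)⁻¹ * t) = t := by
      rw [← mul_assoc, mul_inv_cancel₀ hs.ne', one_mul]
    have e3 : -(((Real.sqrt q)⁻¹ * t) ^ 2) / 2 = -(t ^ 2) / (2 * q) := by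
      rw [mul_pow, inv_pow, Real.sq_sqrt hq.le]
      field_simp
    rw [e2, e3]
  rw [e, integral_const_mul, h, smul_eq_mul]
  ring

/-- the moments of `bb` against `kap`. -/
private lemma P8a_mom {ρ s : ℝ} (h0 : 0 < ρ) (h1 : ρ < 1) (k : ℕ) :
    Integrable (fun t => kap ρ s t * bb ρ s t ^ k) rm ∧
    ∫ t, kap ρ s t * bb ρ s t ^ k ∂rm
      = Real.exp (-(ρ * s / Real.sqrt (1 - ρ ^ 2)) ^ 2 / 2)
        * (ρ * s / Real.sqrt (1 - ρ ^ 2)) ^ k * P8a_M k := by
  have hq : 0 < 1 - ρ ^ 2 := by nlinarith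
  set q := 1 - ρ ^ 2 with hqdef
  have hs : 0 < Real.sqrt q := Real.sqrt_pos.2 hq
  have hsq : Real.sqrt q ^ 2 = q := Real.sq_sqrt hq.le
  have key : ∀ t ∈ Set.Ioi (0 : ℝ), (t * Real.exp (-(t ^ 2) / 2)) * (kap ρ s t * bb ρ s t ^ k)
      = (q⁻¹ * Real.exp (-(ρ * s / Real.sqrt q) ^ 2 / 2) * (ρ * s / q) ^ k)
        * (t ^ (k + 1) * Real.exp (-(t ^ 2) / (2 * q))) := by
    intro t ht
    unfold kap bb
    rw [← hqdef]
    have e1 : Real.exp (-(t ^ 2) / 2) * Real.exp (-(ρ ^ 2 * (s ^ 2 + t ^ 2)) / (2 * q))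
        = Real.exp (-(ρ * s / Real.sqrt q) ^ 2 / 2) * Real.exp (-(t ^ 2) / (2 * q)) := by
      rw [← Real.exp_add, ← Real.exp_add]
      congr 1
      rw [div_pow, hsq]
      field_simp
      rw [hqdef]
      ring
    have e2 : (ρ * s * t / q) ^ k = (ρ * s / q) ^ k * t ^ k := by
      rw [← mul_pow]; congr 1; ring
    rw [e2]
    calc t * Real.exp (-(t ^ 2) / 2) * (q⁻¹ * Real.exp (-(ρ ^ 2 * (s ^ 2 + t ^ 2)) / (2 * q))
          * ((ρ * s / q) ^ k * t ^ k))
        = (Real.exp (-(t ^ 2) / 2) * Real.exp (-(ρ ^ 2 * (s ^ 2 + t ^ 2)) / (2 * q)))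
          * (q⁻¹ * (ρ * s / q) ^ k * t ^ (k + 1)) := by ring
      _ = _ := by rw [e1]; ring
  constructor
  · rw [P8a_int]
    refine IntegrableOn.congr_fun ?_ (fun t ht => (key t ht).symm) measurableSet_Ioi
    exact (P8a_intM k hq).const_mul _
  · rw [P8a_rm, setIntegral_congr_fun measurableSet_Ioi key, integral_const_mul, P8a_valM k hq]
    have e3 : ρ * s / q = (ρ * s / Real.sqrt q) / Real.sqrt q := by
      rw [div_div, ← pow_two, hsq]
    rw [e3, div_pow (ρ * s / Real.sqrt q)]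
    have e4 : q⁻¹ = (Real.sqrt q ^ 2)⁻¹ := by rw [hsq]
    rw [e4]
    field_simp
    ring

private lemma P8a_Lb_cont : Continuous Lb := by
  unfold Lb
  have h1 : Continuous fun b : ℝ => ∫ w in (0 : ℝ)..(2 * Real.pi / 3), w * Real.exp (b * Real.cos w) := by
    apply intervalIntegral.continuous_parametric_intervalIntegral_of_continuous'
    fun_prop
  fun_prop

private lemma P8a_c3 : c3 ≤ 1 := by
  unfold c3
  have hpi := Real.pi_gt_three
  have h3 : Real.sqrt 3 ≤ 2 := by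
    rw [Real.sqrt_le_left (by norm_num)]; norm_num
  have h4 : Real.sqrt 3 / Real.pi ≤ 1 := by
    rw [div_le_one (by linarith)]; linarith
  have h5 : 0 ≤ 3 / Real.pi ^ 2 := by positivity
  linarith

private lemma P8a_upper {b : ℝ} (hb : 0 ≤ b) : I0 b - Lb b ≤ I0 b + 1 := by
  have h1 : 0 ≤ ∫ w in (0 : ℝ)..(2 * Real.pi / 3), w * Real.exp (b * Real.cos w) := by
    apply intervalIntegral.integral_nonneg
    · have := Real.pi_pos; positivity
    · intro w hw
      exact mul_nonneg hw.1 (Real.exp_pos _).le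
  have h2 : b * Real.exp (-b) ≤ 1 := by
    have : b ≤ Real.exp b := by linarith [Real.add_one_le_exp b]
    rw [Real.exp_neg, ← div_eq_mul_inv, div_le_one (Real.exp_pos _)]
    exact this
  have h2' : 0 ≤ b * Real.exp (-b) := mul_nonneg hb (Real.exp_pos _).le
  have h3 : c3 * (b * Real.exp (-b)) ≤ 1 := by
    have := mul_le_mul_of_nonneg_right P8a_c3 h2'
    linarith
  have h4 : 0 ≤ Real.exp (-b / 2) := (Real.exp_pos _).le
  have h5 : 0 ≤ 3 / Real.pi ^ 2 * (∫ w in (0 : ℝ)..(2 * Real.pi / 3), w * Real.exp (b * Real.cos w)) :=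
    mul_nonneg (by positivity) h1
  unfold Lb
  have e : c3 * b * Real.exp (-b) = c3 * (b * Real.exp (-b)) := by ring
  rw [e]
  linarith

theorem pP8a (hP6 : StP6) (hP0d : StP0d) : StP8a := by
  intro ρ s h0 h1 hs
  set R := ρ * s / Real.sqrt (1 - ρ ^ 2) with hR
  have hq : 0 < 1 - ρ ^ 2 := by nlinarith
  have hR0 : 0 ≤ R := by rw [hR]; positivity
  have hbb : ∀ t ∈ Set.Ioi (0 : ℝ), 0 ≤ bb ρ s t := by
    intro t ht
    have ht' : (0 : ℝ) < t := ht
    unfold bb; positivity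
  have hkap : ∀ t, 0 ≤ kap ρ s t := by
    intro t
    unfold kap; positivity
  have hae : ∀ᵐ t ∂rm, t ∈ Set.Ioi (0 : ℝ) := by
    unfold rm
    apply (withDensity_absolutelyContinuous _ _)
    exact ae_restrict_mem measurableSet_Ioi
  have hI0 := (hP0d ρ h0.le h1).2 s hs
  have hmom := fun k => P8a_mom (s := s) h0 h1 k
  have hkapc : Continuous (fun t => kap ρ s t) := by unfold kap; fun_prop
  have hbbc : Continuous (fun t => bb ρ s t) := by unfold bb; fun_prop
  -- integrability of the weight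
  have hW : Integrable (fun t => kap ρ s t * (I0 (bb ρ s t) - Lb (bb ρ s t))) rm := by
    have hm : AEStronglyMeasurable (fun t => kap ρ s t * (I0 (bb ρ s t) - Lb (bb ρ s t))) rm := by
      have a1 := hI0.1.aestronglyMeasurable
      have a2 : AEStronglyMeasurable (fun t => kap ρ s t * Lb (bb ρ s t)) rm :=
        (hkapc.mul (P8a_Lb_cont.comp hbbc)).aestronglyMeasurable
      refine (a1.sub a2).congr (Filter.Eventually.of_forall fun t => ?_)
      simp only [Pi.sub_apply]; ring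
    have hk0 := (hmom 0).1
    simp only [pow_zero, mul_one] at hk0
    refine (hI0.1.add hk0).mono' hm ?_
    filter_upwards [hae] with t ht
    have b1 := (hP6 _ (hbb t ht)).2
    have b2 := P8a_upper (hbb t ht)
    have b3 : 0 ≤ I0 (bb ρ s t) - Lb (bb ρ s t) := by
      have := hbb t ht
      linarith [mul_nonneg (by norm_num : (0 : ℝ) ≤ 712 / 10000) this]
    rw [Real.norm_eq_abs, abs_of_nonneg (mul_nonneg (hkap t) b3)]
    have := mul_le_mul_of_nonneg_left b2 (hkap t)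
    simp only [Pi.add_apply]
    linarith
  have hE : 0 ≤ Real.exp (-R ^ 2 / 2) := (Real.exp_pos _).le
  have m1 := P8a_M1
  have m2 : P8a_M 2 = 2 := by
    have := P8a_M_rec 0; rw [P8a_M0] at this; norm_num at this; exact this
  have m3 : P8a_M 3 = 3 * P8a_M 1 := by
    have := P8a_M_rec 1; norm_num at this; rw [this]
  have m4 : P8a_M 4 = 8 := by
    have := P8a_M_rec 2; rw [m2] at this; norm_num at this; exact this
  have m5 : P8a_M 5 = 15 * P8a_M 1 := by
    have := P8a_M_rec 3; rw [m3] at this; norm_num at this; rw [this]; ring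
  have m6 : P8a_M 6 = 48 := by
    have := P8a_M_rec 4; rw [m4] at this; norm_num at this; exact this
  constructor
  · have hint : Integrable (fun t => kap ρ s t * p5 (bb ρ s t)) rm ∧
        ∫ t, kap ρ s t * p5 (bb ρ s t) ∂rm = Real.exp (-R ^ 2 / 2) * (1519 / 10000 * (R * P8a_M 1)
          + 583 / 10000 * (R ^ 2 * P8a_M 2) + 353 / 10000 * (R ^ 3 * P8a_M 3)
          - 16 / 10000 * (R ^ 4 * P8a_M 4) + 3 / 1000 * (R ^ 5 * P8a_M 5)
          - 7 / 10000 * (R ^ 6 * P8a_M 6)) := by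
      have e : (fun t => kap ρ s t * p5 (bb ρ s t)) = fun t =>
          1519 / 10000 * (kap ρ s t * bb ρ s t ^ 1) + 583 / 10000 * (kap ρ s t * bb ρ s t ^ 2)
          + 353 / 10000 * (kap ρ s t * bb ρ s t ^ 3) - 16 / 10000 * (kap ρ s t * bb ρ s t ^ 4)
          + 3 / 1000 * (kap ρ s t * bb ρ s t ^ 5) - 7 / 10000 * (kap ρ s t * bb ρ s t ^ 6) := by
        funext t; unfold p5; ring
      have i1 := (hmom 1).1.const_mul (1519 / 10000)
      have i2 := (hmom 2).1.const_mul (583 / 10000)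
      have i3 := (hmom 3).1.const_mul (353 / 10000)
      have i4 := (hmom 4).1.const_mul (16 / 10000)
      have i5 := (hmom 5).1.const_mul (3 / 1000)
      have i6 := (hmom 6).1.const_mul (7 / 10000)
      have i12 := i1.add i2
      have i123 := i12.add i3
      have i1234 := i123.sub i4
      have i12345 := i1234.add i5
      rw [e]
      refine ⟨i12345.sub i6, ?_⟩
      have s1 := integral_sub i12345 i6
      have s2 := integral_add i1234 i5
      have s3 := integral_sub i123 i4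
      have s4 := integral_add i12 i3
      have s5 := integral_add i1 i2
      simp only [Pi.add_apply, Pi.sub_apply, integral_const_mul, (hmom _).2, ← hR] at s1 s2 s3 s4 s5
      rw [s1, s2, s3, s4, s5]
      ring
    have hle : ∫ t, kap ρ s t * p5 (bb ρ s t) ∂rm ≤ Wr ρ s := by
      unfold Wr
      apply integral_mono_ae hint.1 hW
      filter_upwards [hae] with t ht
      exact mul_le_mul_of_nonneg_left (hP6 _ (hbb t ht)).1 (hkap t)
    refine le_trans ?_ hle
    rw [hint.2, m2, m3, m4, m5, m6]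
    apply mul_le_mul_of_nonneg_left _ hE
    unfold P5
    have t1 : 12533 / 10000 * R ≤ P8a_M 1 * R := mul_le_mul_of_nonneg_right m1 hR0
    have t3 : 12533 / 10000 * R ^ 3 ≤ P8a_M 1 * R ^ 3 := mul_le_mul_of_nonneg_right m1 (by positivity)
    have t5 : 12533 / 10000 * R ^ 5 ≤ P8a_M 1 * R ^ 5 := mul_le_mul_of_nonneg_right m1 (by positivity)
    have r3 : 0 ≤ R ^ 3 := by positivity
    have r5 : 0 ≤ R ^ 5 := by positivity
    nlinarith
  · have i1 := (hmom 1).1.const_mul (712 / 10000)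
    have hle : ∫ t, 712 / 10000 * (kap ρ s t * bb ρ s t ^ 1) ∂rm ≤ Wr ρ s := by
      unfold Wr
      apply integral_mono_ae i1 hW
      filter_upwards [hae] with t ht
      have := mul_le_mul_of_nonneg_left (hP6 _ (hbb t ht)).2 (hkap t)
      rw [pow_one]
      linarith
    refine le_trans ?_ hle
    rw [integral_const_mul, (hmom 1).2, ← hR, pow_one]
    have t1 : 12533 / 10000 * R ≤ P8a_M 1 * R := mul_le_mul_of_nonneg_right m1 hR0
    have t2 := mul_le_mul_of_nonneg_left t1 hE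
    have t4 : 0 ≤ Real.exp (-R ^ 2 / 2) * R := mul_nonneg hE hR0
    nlinarith

end Pool.TC
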