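import Pool.Agent.TC.St

/-! Project TC, module P8b1: the series of the kernel and the Cauchy-Schwarz step. -/

set_option autoImplicit false

open MeasureTheory ProbabilityTheory Pool.H65.PS Pool.H65.PT

namespace Pool.TC

private theorem P8b1_cm (f : ℝ → ℝ) :
    ∫ θ, f θ ∂cm = (2 * Real.pi)⁻¹ * ∫ θ in (-Real.pi)..Real.pi, f θ := by
  unfold cm
  rw [integral_smul_measure, intervalIntegral.integral_of_le (by linarith [Real.pi_pos]),
    ENNReal.toReal_ofReal (by have := Real.pi_pos; positivity), smul_eq_mul]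

private theorem P8b1_cm_univ : cm Set.univ = 1 := by
  unfold cm
  rw [Measure.smul_apply, Measure.restrict_apply MeasurableSet.univ, Set.univ_inter, Real.volume_Ioc,
    smul_eq_mul, ← ENNReal.ofReal_mul (by have := Real.pi_pos; positivity)]
  have : (2 * Real.pi)⁻¹ * (Real.pi - -Real.pi) = 1 := by
    have := Real.pi_pos
    field_simp
    ring
  rw [this, ENNReal.ofReal_one]

private instance P8b1_cm_prob : IsProbabilityMeasure cm := ⟨P8b1_cm_univ⟩

private theorem P8b1_odd (k : ℕ) : ∫ θ, Real.cos θ ^ (2 * k + 1) ∂cm = 0 := by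
  rw [P8b1_cm]
  induction k with
  | zero => simp
  | succ k ih =>
    have h1 : 2 * (k + 1) + 1 = (2 * k + 1) + 2 := by ring
    rw [h1, integral_cos_pow]
    have h2 : ∫ θ in (-Real.pi)..Real.pi, Real.cos θ ^ (2 * k + 1) = 0 := by
      have h3 : (2 * Real.pi)⁻¹ ≠ 0 := by
        have := Real.pi_pos
        positivity
      exact (mul_eq_zero.1 ih).resolve_left h3
    rw [h2]
    simp

private theorem P8b1_even (k : ℕ) : ∫ θ, Real.cos θ ^ (2 * k) ∂cm
    = ((2 * k).factorial : ℝ) / (4 ^ k * (k.factorial : ℝ) ^ 2) := by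
  rw [P8b1_cm]
  induction k with
  | zero =>
    have := Real.pi_pos
    simp
    field_simp
    ring
  | succ k ih =>
    have h1 : 2 * (k + 1) = 2 * k + 2 := by ring
    rw [h1, integral_cos_pow]
    simp only [Real.sin_pi, Real.sin_neg, mul_zero, neg_zero, sub_zero, zero_div, zero_add]
    have h2 : (2 * Real.pi)⁻¹ * ((((2 * k : ℕ) : ℝ) + 1) / (((2 * k : ℕ) : ℝ) + 2)
        * ∫ θ in (-Real.pi)..Real.pi, Real.cos θ ^ (2 * k))
        = (((2 * k : ℕ) : ℝ) + 1) / (((2 * k : ℕ) : ℝ) + 2)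
          * ((2 * Real.pi)⁻¹ * ∫ θ in (-Real.pi)..Real.pi, Real.cos θ ^ (2 * k)) := by ring
    rw [h2, ih]
    have h3 : ((2 * k + 2).factorial : ℝ) = (2 * k + 2) * ((2 * k + 1) * ((2 * k).factorial : ℝ)) := by
      rw [Nat.factorial_succ, Nat.factorial_succ]
      push_cast
      ring
    have h4 : ((k + 1).factorial : ℝ) = (k + 1) * (k.factorial : ℝ) := by
      rw [Nat.factorial_succ]
      push_cast
      ring
    rw [h3, h4]
    have h5 : (k.factorial : ℝ) ≠ 0 := by exact_mod_cast k.factorial_ne_zero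
    have h6 : (k : ℝ) + 1 ≠ 0 := by positivity
    push_cast
    field_simp
    ring

/-- the series of `I_0`. -/
private theorem P8b1_I0 (b : ℝ) :
    HasSum (fun k : ℕ => (b / 2) ^ (2 * k) / (k.factorial : ℝ) ^ 2) (I0 b) := by
  have hint : ∀ n : ℕ, Integrable (fun θ : ℝ => (b * Real.cos θ) ^ n / (n.factorial : ℝ)) cm := by
    intro n
    refine Integrable.mono' (integrable_const (|b| ^ n / (n.factorial : ℝ)))
      (Continuous.aestronglyMeasurable (by fun_prop)) (Filter.Eventually.of_forall fun θ => ?_)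
    rw [Real.norm_eq_abs, abs_div, abs_pow, abs_mul, Nat.abs_cast]
    have : |Real.cos θ| ≤ 1 := Real.abs_cos_le_one θ
    have h1 : |b| * |Real.cos θ| ≤ |b| := by nlinarith [abs_nonneg b]
    gcongr
  have hsum : Summable fun n : ℕ => ∫ θ, ‖(b * Real.cos θ) ^ n / (n.factorial : ℝ)‖ ∂cm := by
    refine Summable.of_nonneg_of_le (fun n => integral_nonneg fun θ => norm_nonneg _) (fun n => ?_)
      (Real.summable_pow_div_factorial |b|)
    calc ∫ θ, ‖(b * Real.cos θ) ^ n / (n.factorial : ℝ)‖ ∂cm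
        ≤ ∫ _, |b| ^ n / (n.factorial : ℝ) ∂cm := by
          refine integral_mono (hint n).norm (integrable_const _) fun θ => ?_
          simp only [Real.norm_eq_abs, abs_div, abs_pow, abs_mul, Nat.abs_cast]
          have : |Real.cos θ| ≤ 1 := Real.abs_cos_le_one θ
          have h1 : |b| * |Real.cos θ| ≤ |b| := by nlinarith [abs_nonneg b]
          gcongr
      _ = |b| ^ n / (n.factorial : ℝ) := by simp
  have h := hasSum_integral_of_summable_integral_norm hint hsum
  have hI : (∫ θ, ∑' n : ℕ, (b * Real.cos θ) ^ n / (n.factorial : ℝ) ∂cm) = I0 b := by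
    unfold I0
    refine integral_congr_ae (Filter.Eventually.of_forall fun θ => ?_)
    simp only
    rw [Real.exp_eq_exp_ℝ, NormedSpace.exp_eq_tsum_div]
  rw [hI] at h
  have hinj : Function.Injective (fun k : ℕ => 2 * k) := fun a c hac => by
    simp only at hac
    omega
  have hz : ∀ x ∉ Set.range (fun k : ℕ => 2 * k),
      ∫ θ, (b * Real.cos θ) ^ x / (x.factorial : ℝ) ∂cm = 0 := by
    intro x hx
    have hodd : ∃ k, x = 2 * k + 1 := by
      rcases Nat.even_or_odd' x with ⟨c, hc | hc⟩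
      · exact absurd ⟨c, hc.symm⟩ hx
      · exact ⟨c, hc⟩
    obtain ⟨k, rfl⟩ := hodd
    have : (fun θ : ℝ => (b * Real.cos θ) ^ (2 * k + 1) / ((2 * k + 1).factorial : ℝ))
        = fun θ => (b ^ (2 * k + 1) / ((2 * k + 1).factorial : ℝ)) * Real.cos θ ^ (2 * k + 1) := by
      funext θ
      rw [mul_pow]
      ring
    rw [this, integral_const_mul, P8b1_odd, mul_zero]
  have h2 := (hinj.hasSum_iff hz).2 h
  have h3 : (fun k : ℕ => (b / 2) ^ (2 * k) / (k.factorial : ℝ) ^ 2)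
      = (fun n : ℕ => ∫ θ, (b * Real.cos θ) ^ n / (n.factorial : ℝ) ∂cm) ∘ (fun k : ℕ => 2 * k) := by
    funext k
    have h4 : (fun θ : ℝ => (b * Real.cos θ) ^ (2 * k) / ((2 * k).factorial : ℝ))
        = fun θ => (b ^ (2 * k) / ((2 * k).factorial : ℝ)) * Real.cos θ ^ (2 * k) := by
      funext θ
      rw [mul_pow]
      ring
    simp only [Function.comp]
    rw [h4, integral_const_mul, P8b1_even]
    have h5 : (k.factorial : ℝ) ≠ 0 := by exact_mod_cast k.factorial_ne_zero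
    have h6 : ((2 * k).factorial : ℝ) ≠ 0 := by exact_mod_cast (2 * k).factorial_ne_zero
    have h7 : (b / 2) ^ (2 * k) = b ^ (2 * k) / 4 ^ k := by
      rw [div_pow, pow_mul (2 : ℝ)]
      norm_num
    rw [h7]
    field_simp
  rw [h3]
  exact h2

/-! ### the radial measure -/

private theorem P8b1_dm : Measurable (fun s : ℝ => ENNReal.ofReal (s * Real.exp (-(s ^ 2) / 2))) := by
  fun_prop

private theorem P8b1_rm (f : ℝ → ℝ) :
    ∫ s, f s ∂rm = ∫ s in Set.Ioi (0 : ℝ), s * Real.exp (-(s ^ 2) / 2) * f s := by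
  unfold rm
  rw [integral_withDensity_eq_integral_toReal_smul P8b1_dm
    (Filter.Eventually.of_forall fun _ => ENNReal.ofReal_lt_top)]
  refine setIntegral_congr_fun measurableSet_Ioi fun s hs => ?_
  have hs' : 0 < s := hs
  simp only [smul_eq_mul]
  rw [ENNReal.toReal_ofReal (by positivity)]

private theorem P8b1_rm_int {f : ℝ → ℝ}
    (h : IntegrableOn (fun s => s * Real.exp (-(s ^ 2) / 2) * f s) (Set.Ioi (0 : ℝ))) : Integrable f rm := by
  unfold rm
  rw [integrable_withDensity_iff_integrable_smul' P8b1_dm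
    (Filter.Eventually.of_forall fun _ => ENNReal.ofReal_lt_top)]
  refine h.congr ?_
  refine (ae_restrict_iff' measurableSet_Ioi).2 (Filter.Eventually.of_forall fun s hs => ?_)
  have hs' : 0 < s := hs
  simp only [smul_eq_mul]
  rw [ENNReal.toReal_ofReal (by positivity)]

private theorem P8b1_ae : ∀ᵐ s ∂rm, 0 < s := by
  unfold rm
  refine (withDensity_absolutelyContinuous _ _).ae_le ?_
  exact (ae_restrict_iff' measurableSet_Ioi).2 (Filter.Eventually.of_forall fun s hs => hs)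

private theorem P8b1_J (q : ℕ) {a : ℝ} (ha : 0 < a) :
    IntegrableOn (fun s : ℝ => s ^ q * Real.exp (-(a * s ^ 2))) (Set.Ioi 0) := by
  have h := integrableOn_rpow_mul_exp_neg_mul_sq ha (s := (q : ℝ)) (by
    have : (0 : ℝ) ≤ q := Nat.cast_nonneg q
    linarith)
  refine h.congr_fun (fun s _ => ?_) measurableSet_Ioi
  simp only [Real.rpow_natCast, neg_mul]

private theorem P8b1_pw (s : ℝ) (k : ℕ) : (s ^ 2 / 2) ^ k = (1 / 2) ^ k * s ^ (2 * k) := by
  rw [div_pow, pow_mul, one_div, inv_pow]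
  ring

private theorem P8b1_hs {f g : ℕ → ℝ} {a : ℝ} (h : HasSum g a) (e : ∀ k, f k = g k) : HasSum f a := by
  have h1 : f = g := funext e
  rw [h1]
  exact h

private theorem P8b1_phi_int (k : ℕ) :
    Integrable (fun s : ℝ => (s ^ 2 / 2) ^ k * Real.exp (-(s ^ 2) / 16)) rm := by
  refine P8b1_rm_int ?_
  have h := (P8b1_J (2 * k + 1) (a := 9 / 16) (by norm_num)).const_mul ((1 / 2 : ℝ) ^ k)
  refine IntegrableOn.congr_fun h (fun s _ => ?_) measurableSet_Ioi
  have h1 : Real.exp (-(9 / 16 * s ^ 2)) = Real.exp (-(s ^ 2) / 2) * Real.exp (-(s ^ 2) / 16) := by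
    rw [← Real.exp_add]
    congr 1
    ring
  rw [h1, P8b1_pw, pow_succ]
  ring

private theorem P8b1_phi_val (k : ℕ) :
    ∫ s, (s ^ 2 / 2) ^ k * Real.exp (-(s ^ 2) / 16) ∂rm = (k.factorial : ℝ) * (8 / 9) ^ (k + 1) := by
  rw [P8b1_rm]
  have h := integral_rpow_mul_exp_neg_mul_rpow (p := 2) (q := 2 * (k : ℝ) + 1) (b := 9 / 16)
    (by norm_num) (by
      have : (0 : ℝ) ≤ k := Nat.cast_nonneg k
      linarith) (by norm_num)
  have h1 : ∫ s in Set.Ioi (0 : ℝ), s * Real.exp (-(s ^ 2) / 2) * ((s ^ 2 / 2) ^ k * Real.exp (-(s ^ 2) / 16))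
      = ∫ s in Set.Ioi (0 : ℝ), (1 / 2 : ℝ) ^ k * (s ^ (2 * (k : ℝ) + 1) * Real.exp (-(9 / 16) * s ^ (2 : ℝ))) := by
    refine setIntegral_congr_fun measurableSet_Ioi fun s hs => ?_
    have hs' : 0 < s := hs
    have h2 : s ^ (2 * (k : ℝ) + 1) = s ^ (2 * k + 1) := by
      rw [← Real.rpow_natCast]
      congr 1
      push_cast
      ring
    have h3 : s ^ (2 : ℝ) = s ^ 2 := by
      rw [← Real.rpow_natCast]
      norm_num
    rw [h2, h3]
    have h1 : Real.exp (-(9 / 16) * s ^ 2) = Real.exp (-(s ^ 2) / 2) * Real.exp (-(s ^ 2) / 16) := by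
      rw [← Real.exp_add]
      congr 1
      ring
    rw [h1, P8b1_pw, pow_succ s (2 * k)]
    ring
  rw [h1, integral_const_mul, h]
  have h4 : (2 * (k : ℝ) + 1 + 1) / 2 = k + 1 := by ring
  have h5 : -(2 * (k : ℝ) + 1 + 1) / 2 = -((k : ℝ) + 1) := by ring
  rw [h4, Real.Gamma_nat_eq_factorial, h5, Real.rpow_neg (by norm_num)]
  have h6 : (9 / 16 : ℝ) ^ ((k : ℝ) + 1) = (9 / 16) ^ (k + 1) := by
    rw [← Real.rpow_natCast]
    push_cast
    rfl
  rw [h6, ← inv_pow]
  have h7 : ((9 / 16 : ℝ))⁻¹ = 2 * (8 / 9) := by norm_num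
  rw [h7, mul_pow, pow_succ (2 : ℝ) k]
  have h8 : (1 / 2 : ℝ) ^ k * 2 ^ k = 1 := by
    rw [← mul_pow]
    norm_num
  linear_combination ((8 / 9 : ℝ) ^ (k + 1) * (k.factorial : ℝ)) * h8

private theorem P8b1_one_int : Integrable (fun _ : ℝ => (1 : ℝ)) rm := by
  refine P8b1_rm_int ?_
  refine IntegrableOn.congr_fun (P8b1_J 1 (a := 1 / 2) (by norm_num)) (fun s _ => ?_) measurableSet_Ioi
  simp only [pow_one, mul_one]
  congr 2
  ring

/-! ### the weight -/

private theorem P8b1_e1 {R : ℝ} (hR : 0 < R) : 1 ≤ e1 R := by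
  unfold e1
  have h : 0 ≤ (R - 1432 / 1000) ^ 2 * (R ^ 3 + 2 * (1432 / 1000) * R ^ 2 + 3 * (1432 / 1000) ^ 2 * R
      + 4 * (1432 / 1000) ^ 3) := by positivity
  have h1 : 0 ≤ R ^ 5 / 5 - 21 / 5 * R + 527 / 100 := by nlinarith
  have h2 : 527 / 100 / R - 16 / 5 + R ^ 4 / 5 = 1 + (R ^ 5 / 5 - 21 / 5 * R + 527 / 100) / R := by
    field_simp
    ring
  rw [h2]
  have : 0 ≤ (R ^ 5 / 5 - 21 / 5 * R + 527 / 100) / R := by positivity
  linarith

private theorem P8b1_w {s : ℝ} (hs : 0 < s) : 1 ≤ EE (s / Real.sqrt 8) := by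
  unfold EE
  have h8 : 0 < Real.sqrt 8 := Real.sqrt_pos.2 (by norm_num)
  have h1 : 1 ≤ e1 (s / Real.sqrt 8) := P8b1_e1 (by positivity)
  have h2 : 1 ≤ Real.exp ((s / Real.sqrt 8) ^ 2 / 2) := Real.one_le_exp (by positivity)
  nlinarith

private theorem P8b1_w_meas : Measurable (fun s : ℝ => EE (s / Real.sqrt 8)) := by
  unfold EE e1
  fun_prop

private theorem P8b1_w_eq {s : ℝ} (hs : 0 < s) : s * EE (s / Real.sqrt 8)
    = Real.exp (s ^ 2 / 16) * (527 / 100 * Real.sqrt 8 - 16 / 5 * s + s ^ 5 / 320) := by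
  unfold EE e1
  have h8 : 0 < Real.sqrt 8 := Real.sqrt_pos.2 (by norm_num)
  have h82 : Real.sqrt 8 ^ 2 = 8 := Real.sq_sqrt (by norm_num)
  have h84 : Real.sqrt 8 ^ 4 = 64 := by
    have : Real.sqrt 8 ^ 4 = (Real.sqrt 8 ^ 2) ^ 2 := by ring
    rw [this, h82]
    norm_num
  rw [div_pow, div_pow, h82, h84]
  have h9 : s ^ 2 / 8 / 2 = s ^ 2 / 16 := by ring
  rw [h9]
  field_simp
  ring

private theorem P8b1_P (q : ℕ) {a : ℝ} (ha : 0 < a) :
    IntegrableOn (fun s : ℝ => (527 / 100 * Real.sqrt 8 - 16 / 5 * s + s ^ 5 / 320)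
      * (s ^ q * Real.exp (-(a * s ^ 2)))) (Set.Ioi 0) := by
  have h := (((P8b1_J q ha).const_mul (527 / 100 * Real.sqrt 8)).sub
    ((P8b1_J (q + 1) ha).const_mul (16 / 5))).add ((P8b1_J (q + 5) ha).const_mul (1 / 320))
  refine IntegrableOn.congr_fun h (fun s _ => ?_) measurableSet_Ioi
  simp only [Pi.add_apply, Pi.sub_apply]
  ring

private theorem P8b1_A_int (k : ℕ) (c : ℝ) :
    Integrable (fun s : ℝ => ((s ^ 2 / 2) ^ k * Real.exp (-(s ^ 2) / 16) - c) ^ 2 * EE (s / Real.sqrt 8)) rm := by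
  refine P8b1_rm_int ?_
  have h := (((P8b1_P (4 * k) (a := 9 / 16) (by norm_num)).const_mul ((1 / 4 : ℝ) ^ k)).sub
    ((P8b1_P (2 * k) (a := 1 / 2) (by norm_num)).const_mul (2 * c * (1 / 2) ^ k))).add
    ((P8b1_P 0 (a := 7 / 16) (by norm_num)).const_mul (c ^ 2))
  refine IntegrableOn.congr_fun h (fun s hs => ?_) measurableSet_Ioi
  have hs' : 0 < s := hs
  simp only [Pi.add_apply, Pi.sub_apply]
  have h1 : s * Real.exp (-(s ^ 2) / 2) * (((s ^ 2 / 2) ^ k * Real.exp (-(s ^ 2) / 16) - c) ^ 2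
      * EE (s / Real.sqrt 8)) = Real.exp (-(s ^ 2) / 2) * ((s ^ 2 / 2) ^ k * Real.exp (-(s ^ 2) / 16) - c) ^ 2
      * (s * EE (s / Real.sqrt 8)) := by ring
  rw [h1, P8b1_w_eq hs']
  have e1 : Real.exp (-(9 / 16 * s ^ 2)) = Real.exp (-(s ^ 2) / 2) * Real.exp (-(s ^ 2) / 16) ^ 2
      * Real.exp (s ^ 2 / 16) := by
    rw [← Real.exp_nat_mul, ← Real.exp_add, ← Real.exp_add]
    congr 1
    push_cast
    ring
  have e2 : Real.exp (-(1 / 2 * s ^ 2)) = Real.exp (-(s ^ 2) / 2) * Real.exp (-(s ^ 2) / 16)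
      * Real.exp (s ^ 2 / 16) := by
    rw [← Real.exp_add, ← Real.exp_add]
    congr 1
    ring
  have e3 : Real.exp (-(7 / 16 * s ^ 2)) = Real.exp (-(s ^ 2) / 2) * Real.exp (s ^ 2 / 16) := by
    rw [← Real.exp_add]
    congr 1
    ring
  rw [e1, e2, e3]
  have e4 : (s ^ 2 / 2) ^ k = (1 / 2) ^ k * s ^ (2 * k) := P8b1_pw s k
  have e5 : s ^ (4 * k) = s ^ (2 * k) * s ^ (2 * k) := by
    rw [← pow_add]
    congr 1
    ring
  have e6 : (1 / 4 : ℝ) ^ k = (1 / 2) ^ k * (1 / 2) ^ k := by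
    rw [← mul_pow]
    norm_num
  rw [e4, e5, e6]
  ring

/-- weighted Cauchy-Schwarz. -/
private theorem P8b1_cs (g e w : ℝ → ℝ) (hw : ∀ᵐ s ∂rm, 0 < w s)
    (h1 : Integrable (fun s => g s ^ 2 * w s) rm) (h2 : Integrable (fun s => e s ^ 2 / w s) rm)
    (h3 : Integrable (fun s => g s * e s) rm) :
    (∫ s, g s * e s ∂rm) ^ 2 ≤ (∫ s, g s ^ 2 * w s ∂rm) * ∫ s, e s ^ 2 / w s ∂rm := by
  have h := discrim_le_zero (a := ∫ s, g s ^ 2 * w s ∂rm) (b := 2 * ∫ s, g s * e s ∂rm)
    (c := ∫ s, e s ^ 2 / w s ∂rm) (fun x => by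
      have h4 : (∫ s, g s ^ 2 * w s ∂rm) * (x * x) + 2 * (∫ s, g s * e s ∂rm) * x + ∫ s, e s ^ 2 / w s ∂rm
          = ∫ s, ((x * x) * (g s ^ 2 * w s) + (2 * x) * (g s * e s)) + e s ^ 2 / w s ∂rm := by
        have e1 := integral_add ((h1.const_mul (x * x)).add (h3.const_mul (2 * x))) h2
        have e2 := integral_add (h1.const_mul (x * x)) (h3.const_mul (2 * x))
        simp only [Pi.add_apply] at e1
        rw [e1, e2, integral_const_mul, integral_const_mul]
        ring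
      rw [h4]
      refine integral_nonneg_of_ae ?_
      filter_upwards [hw] with s hs
      have h5 : (x * x) * (g s ^ 2 * w s) + (2 * x) * (g s * e s) + e s ^ 2 / w s
          = (x * g s * w s + e s) ^ 2 / w s := by
        field_simp
        ring
      simp only [Pi.zero_apply]
      rw [h5]
      positivity)
  unfold discrim at h
  nlinarith

theorem pP8b1 : StP8b1 := by
  intro hT hS e he hBd he0
  obtain ⟨B, hB⟩ := hBd
  have hB0 : 0 ≤ B := le_trans (abs_nonneg _) (hB 0)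
  set γ : ℕ → ℝ := fun k => (9 / 8) * (9 / 64 : ℝ) ^ k / ((k.factorial : ℝ) ^ 2) with hγ
  set φ : ℕ → ℝ → ℝ := fun k s => (s ^ 2 / 2) ^ k * Real.exp (-(s ^ 2) / 16) with hφ
  set c : ℕ → ℝ := fun k => if k = 0 then 19 / 20 else if k = 1 then 19 / 50 else 0 with hc
  have hγ0 : ∀ k, 0 ≤ γ k := fun k => by
    simp only [hγ]
    positivity
  have hφ0 : ∀ k s, 0 ≤ φ k s := fun k s => by
    simp only [hφ]
    positivity
  have hφi : ∀ k, Integrable (φ k) rm := fun k => P8b1_phi_int k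
  have hφe : ∀ k, Integrable (fun s => φ k s * e s) rm := fun k => by
    refine Integrable.mono' ((hφi k).mul_const B) ((hφi k).1.mul he.aestronglyMeasurable)
      (Filter.Eventually.of_forall fun s => ?_)
    rw [Real.norm_eq_abs, abs_mul, abs_of_nonneg (hφ0 k s)]
    exact mul_le_mul_of_nonneg_left (hB s) (hφ0 k s)
  set E : ℕ → ℝ := fun k => ∫ s, φ k s * e s ∂rm with hE
  set mm : ℕ → ℝ := fun k => (k.factorial : ℝ) * (8 / 9) ^ (k + 1) with hmm
  have hmv : ∀ k, ∫ s, φ k s ∂rm = mm k := fun k => P8b1_phi_val k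
  have hmm0 : ∀ k, 0 ≤ mm k := fun k => by
    simp only [hmm]
    positivity
  have hEB : ∀ k, |E k| ≤ B * mm k := fun k => by
    calc |E k| ≤ ∫ s, |φ k s * e s| ∂rm := abs_integral_le_integral_abs
      _ ≤ ∫ s, B * φ k s ∂rm := by
          refine integral_mono (hφe k).abs ((hφi k).const_mul B) fun s => ?_
          simp only
          rw [abs_mul, abs_of_nonneg (hφ0 k s), mul_comm]
          exact mul_le_mul_of_nonneg_right (hB s) (hφ0 k s)
      _ = B * mm k := by rw [integral_const_mul, hmv]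
  -- the kernel
  have hker : ∀ s t : ℝ, HasSum (fun k => γ k * (φ k s * φ k t)) (kap (1 / 3) s t * I0 (bb (1 / 3) s t)) := by
    intro s t
    have h := (P8b1_I0 (bb (1 / 3) s t)).mul_left (kap (1 / 3) s t)
    refine P8b1_hs h fun k => ?_
    have h1 : kap (1 / 3) s t = 9 / 8 * (Real.exp (-(s ^ 2) / 16) * Real.exp (-(t ^ 2) / 16)) := by
      unfold kap
      rw [← Real.exp_add]
      have h2 : -((1 / 3 : ℝ) ^ 2 * (s ^ 2 + t ^ 2)) / (2 * (1 - (1 / 3) ^ 2))
          = -(s ^ 2) / 16 + -(t ^ 2) / 16 := by ring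
      rw [h2]
      norm_num
    have h3 : bb (1 / 3) s t / 2 = 3 / 16 * (s * t) := by
      unfold bb
      ring
    have h4 : (3 / 16 * (s * t)) ^ (2 * k) = (9 / 64) ^ k * ((s ^ 2 / 2) ^ k * (t ^ 2 / 2) ^ k) := by
      rw [pow_mul, ← mul_pow, ← mul_pow]
      congr 1
      ring
    rw [h1, h3, h4]
    simp only [hγ, hφ]
    ring
  -- inner integral
  have hin : ∀ s : ℝ, HasSum (fun k => γ k * φ k s * e s * E k)
      (∫ t, kap (1 / 3) s t * I0 (bb (1 / 3) s t) * e s * e t ∂rm) := by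
    intro s
    have hi : ∀ k : ℕ, Integrable (fun t => γ k * φ k s * e s * (φ k t * e t)) rm :=
      fun k => (hφe k).const_mul _
    have hsum : Summable fun k : ℕ => ∫ t, ‖γ k * φ k s * e s * (φ k t * e t)‖ ∂rm := by
      have hbase : Summable fun k : ℕ => (B ^ 2 * Real.exp (-(s ^ 2) / 16)) * ((s ^ 2 / 16) ^ k / (k.factorial : ℝ)) :=
        (Real.summable_pow_div_factorial (s ^ 2 / 16)).mul_left _
      refine Summable.of_nonneg_of_le (fun k => integral_nonneg fun t => norm_nonneg _) (fun k => ?_) hbase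
      have hk : ∫ t, ‖γ k * φ k s * e s * (φ k t * e t)‖ ∂rm ≤ ∫ t, (γ k * φ k s * B * B) * φ k t ∂rm := by
        refine integral_mono (hi k).norm ((hφi k).const_mul _) fun t => ?_
        simp only [Real.norm_eq_abs, abs_mul, abs_of_nonneg (hφ0 k s), abs_of_nonneg (hφ0 k t),
          abs_of_nonneg (hγ0 k)]
        have h1 := hB s
        have h2 := hB t
        have h3 : |e s| * |e t| ≤ B * B := mul_le_mul h1 h2 (abs_nonneg _) hB0
        have h4 : 0 ≤ γ k * φ k s * φ k t := mul_nonneg (mul_nonneg (hγ0 k) (hφ0 k s)) (hφ0 k t)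
        nlinarith
      refine hk.trans ?_
      rw [integral_const_mul, hmv]
      simp only [hγ, hφ, hmm]
      have hf : (0 : ℝ) < (k.factorial : ℝ) := by exact_mod_cast k.factorial_pos
      have e1 : (9 / 8) * (9 / 64 : ℝ) ^ k / ((k.factorial : ℝ) ^ 2) * ((s ^ 2 / 2) ^ k * Real.exp (-(s ^ 2) / 16)) * B * B
          * ((k.factorial : ℝ) * (8 / 9) ^ (k + 1))
          = (B ^ 2 * Real.exp (-(s ^ 2) / 16)) * (((9 / 64 : ℝ) ^ k * (s ^ 2 / 2) ^ k * (8 / 9) ^ k) / (k.factorial : ℝ)) := by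
        rw [pow_succ (8 / 9 : ℝ) k]
        field_simp
      have e2 : (9 / 64 : ℝ) ^ k * (s ^ 2 / 2) ^ k * (8 / 9) ^ k = (s ^ 2 / 16) ^ k := by
        rw [← mul_pow, ← mul_pow]
        congr 1
        ring
      rw [e1, e2]
    have h := hasSum_integral_of_summable_integral_norm hi hsum
    have hI : (∫ t, ∑' k, γ k * φ k s * e s * (φ k t * e t) ∂rm)
        = ∫ t, kap (1 / 3) s t * I0 (bb (1 / 3) s t) * e s * e t ∂rm := by
      refine integral_congr_ae (Filter.Eventually.of_forall fun t => ?_)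
      simp only
      have h5 := (((hker s t).mul_right (e s)).mul_right (e t)).tsum_eq
      rw [← h5]
      refine tsum_congr fun k => ?_
      ring
    rw [hI] at h
    refine P8b1_hs h fun k => ?_
    rw [integral_const_mul]
  -- outer integral
  have hgm : Summable fun k : ℕ => γ k * (B * mm k) ^ 2 := by
    have hb : Summable fun k : ℕ => (B ^ 2 * (8 / 9)) * (1 / 9 : ℝ) ^ k :=
      (summable_geometric_of_lt_one (by norm_num) (by norm_num)).mul_left _
    refine hb.congr fun k => ?_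
    simp only [hγ, hmm]
    have hf : (0 : ℝ) < (k.factorial : ℝ) := by exact_mod_cast k.factorial_pos
    have e1 : (9 / 8) * (9 / 64 : ℝ) ^ k / ((k.factorial : ℝ) ^ 2) * (B * ((k.factorial : ℝ) * (8 / 9) ^ (k + 1))) ^ 2
        = B ^ 2 * (8 / 9) * ((9 / 64 : ℝ) ^ k * (8 / 9) ^ k * (8 / 9) ^ k) := by
      rw [pow_succ (8 / 9 : ℝ) k]
      field_simp
    rw [e1, ← mul_pow, ← mul_pow]
    norm_num
  have hout : HasSum (fun k => γ k * E k ^ 2) (Sr (1 / 3) e) := by
    have hi : ∀ k : ℕ, Integrable (fun s => γ k * φ k s * e s * E k) rm := fun k => by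
      have := (hφe k).const_mul (γ k * E k)
      refine this.congr (Filter.Eventually.of_forall fun s => ?_)
      simp only
      ring
    have hsum : Summable fun k : ℕ => ∫ s, ‖γ k * φ k s * e s * E k‖ ∂rm := by
      refine Summable.of_nonneg_of_le (fun k => integral_nonneg fun t => norm_nonneg _) (fun k => ?_) hgm
      have hk : ∫ s, ‖γ k * φ k s * e s * E k‖ ∂rm ≤ ∫ s, (γ k * B * (B * mm k)) * φ k s ∂rm := by
        refine integral_mono (hi k).norm ((hφi k).const_mul _) fun s => ?_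
        simp only [Real.norm_eq_abs, abs_mul, abs_of_nonneg (hφ0 k s), abs_of_nonneg (hγ0 k)]
        have h3 : |e s| * |E k| ≤ B * (B * mm k) := mul_le_mul (hB s) (hEB k) (abs_nonneg _) hB0
        have h4 : 0 ≤ γ k * φ k s := mul_nonneg (hγ0 k) (hφ0 k s)
        nlinarith
      refine hk.trans ?_
      rw [integral_const_mul, hmv]
      exact le_of_eq (by ring)
    have h := hasSum_integral_of_summable_integral_norm hi hsum
    have hI : (∫ s, ∑' k, γ k * φ k s * e s * E k ∂rm) = Sr (1 / 3) e := by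
      unfold Sr
      refine integral_congr_ae (Filter.Eventually.of_forall fun s => ?_)
      simp only
      exact (hin s).tsum_eq
    rw [hI] at h
    refine P8b1_hs h fun k => ?_
    have h6 : (fun s => γ k * φ k s * e s * E k) = fun s => (γ k * E k) * (φ k s * e s) := by
      funext s
      ring
    rw [h6, integral_const_mul]
    simp only [hE]
    ring
  -- Cauchy-Schwarz
  have hei : Integrable e rm := by
    refine Integrable.mono' (P8b1_one_int.const_mul B) he.aestronglyMeasurable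
      (Filter.Eventually.of_forall fun s => ?_)
    rw [Real.norm_eq_abs, mul_one]
    exact hB s
  have h2i : Integrable (fun s => e s ^ 2 / EE (s / Real.sqrt 8)) rm := by
    refine Integrable.mono' (P8b1_one_int.const_mul (B ^ 2))
      ((he.pow_const 2).div P8b1_w_meas).aestronglyMeasurable ?_
    filter_upwards [P8b1_ae] with s hs
    have hw := P8b1_w hs
    rw [Real.norm_eq_abs, abs_of_nonneg (by positivity), mul_one]
    have h7 : e s ^ 2 ≤ B ^ 2 := by
      rw [← sq_abs (e s)]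
      have := hB s
      have := abs_nonneg (e s)
      gcongr
    calc e s ^ 2 / EE (s / Real.sqrt 8) ≤ e s ^ 2 / 1 := by gcongr
      _ ≤ B ^ 2 := by rw [div_one]; exact h7
  have hcs : ∀ k, E k ^ 2 ≤ (∫ s, (φ k s - c k) ^ 2 * EE (s / Real.sqrt 8) ∂rm)
      * ∫ s, e s ^ 2 / EE (s / Real.sqrt 8) ∂rm := by
    intro k
    have h8 : E k = ∫ s, (φ k s - c k) * e s ∂rm := by
      have h9 : (fun s => (φ k s - c k) * e s) = fun s => φ k s * e s - c k * e s := by
        funext s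
        ring
      rw [h9, integral_sub (hφe k) (hei.const_mul _), integral_const_mul, he0, mul_zero, sub_zero]
    rw [h8]
    refine P8b1_cs (fun s => φ k s - c k) e (fun s => EE (s / Real.sqrt 8)) ?_ (P8b1_A_int k (c k)) h2i ?_
    · filter_upwards [P8b1_ae] with s hs
      have := P8b1_w hs
      linarith
    · have h9 : (fun s => (φ k s - c k) * e s) = fun s => φ k s * e s - c k * e s := by
        funext s
        ring
      rw [h9]
      exact (hφe k).sub (hei.const_mul _)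
  have hI0 : 0 ≤ ∫ s, e s ^ 2 / EE (s / Real.sqrt 8) ∂rm := by
    refine integral_nonneg_of_ae ?_
    filter_upwards [P8b1_ae] with s hs
    have hw := P8b1_w hs
    simp only [Pi.zero_apply]
    positivity
  have hfin : Sr (1 / 3) e ≤ (∑' k, γ k * ∫ s, (φ k s - c k) ^ 2 * EE (s / Real.sqrt 8) ∂rm)
      * ∫ s, e s ^ 2 / EE (s / Real.sqrt 8) ∂rm := by
    refine hasSum_le (fun k => ?_) hout (hS.hasSum.mul_right _)
    have := mul_le_mul_of_nonneg_left (hcs k) (hγ0 k)
    calc γ k * E k ^ 2 ≤ γ k * ((∫ s, (φ k s - c k) ^ 2 * EE (s / Real.sqrt 8) ∂rm)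
          * ∫ s, e s ^ 2 / EE (s / Real.sqrt 8) ∂rm) := this
      _ = _ := by ring
  calc Sr (1 / 3) e ≤ _ := hfin
    _ ≤ 1 * ∫ s, e s ^ 2 / EE (s / Real.sqrt 8) ∂rm := mul_le_mul_of_nonneg_right hT hI0
    _ = _ := one_mul _

end Pool.TC
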