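import Pool.Agent.TC.St

/-! Project TC, module P8b2 (numbers). -/

set_option autoImplicit false

open MeasureTheory ProbabilityTheory Pool.H65.PS Pool.H65.PT

namespace Pool.TC

noncomputable section

/-- moments. -/
def P8b2_J (n : ℕ) (b : ℝ) : ℝ := ∫ x in Set.Ioi (0 : ℝ), x ^ n * Real.exp (-b * x ^ 2)

theorem P8b2_int (n : ℕ) (b : ℝ) (hb : 0 < b) :
    IntegrableOn (fun x : ℝ => x ^ n * Real.exp (-b * x ^ 2)) (Set.Ioi 0) := by
  have h := integrableOn_rpow_mul_exp_neg_mul_sq (b := b) hb (s := (n : ℝ))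
    (by have : (0:ℝ) ≤ n := Nat.cast_nonneg n
        linarith)
  simpa [Real.rpow_natCast] using h

theorem P8b2_Jeq (n : ℕ) (b : ℝ) (hb : 0 < b) :
    P8b2_J n b = b ^ (-((n : ℝ) + 1) / 2) * (1 / 2) * Real.Gamma (((n : ℝ) + 1) / 2) := by
  have h := integral_rpow_mul_exp_neg_mul_rpow (p := 2) (q := (n : ℝ)) (b := b) (by norm_num)
    (by have : (0:ℝ) ≤ n := Nat.cast_nonneg n
        linarith) hb
  have e : ∀ x : ℝ, x ^ (n : ℝ) * Real.exp (-b * x ^ (2:ℝ)) = x ^ n * Real.exp (-b * x ^ 2) := by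
    intro x
    rw [Real.rpow_natCast, Real.rpow_two]
  unfold P8b2_J
  simp_rw [e] at h
  exact h

theorem P8b2_rec (n : ℕ) (b : ℝ) (hb : 0 < b) :
    P8b2_J (n + 2) b = ((n : ℝ) + 1) / (2 * b) * P8b2_J n b := by
  rw [P8b2_Jeq _ _ hb, P8b2_Jeq _ _ hb]
  have h0 : (0:ℝ) ≤ n := Nat.cast_nonneg n
  have e1 : (((n + 2 : ℕ) : ℝ) + 1) / 2 = ((n : ℝ) + 1) / 2 + 1 := by push_cast; ring
  have e2 : -(((n + 2 : ℕ) : ℝ) + 1) / 2 = -((n : ℝ) + 1) / 2 - 1 := by push_cast; ring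
  rw [e1, e2, Real.Gamma_add_one (by positivity), Real.rpow_sub_one hb.ne']
  field_simp

theorem P8b2_J0 (b : ℝ) : P8b2_J 0 b = Real.sqrt (Real.pi / b) / 2 := by
  have h := integral_gaussian_Ioi b
  unfold P8b2_J
  simpa using h

theorem P8b2_J1 (b : ℝ) (hb : 0 < b) : P8b2_J 1 b = 1 / (2 * b) := by
  rw [P8b2_Jeq _ _ hb]
  norm_num
  rw [Real.rpow_neg_one]

theorem P8b2_rm (g : ℝ → ℝ) :
    ∫ s, g s ∂rm = ∫ s in Set.Ioi (0 : ℝ), g s * (s * Real.exp (-(s ^ 2) / 2)) := by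
  unfold rm
  rw [integral_withDensity_eq_integral_toReal_smul₀]
  · refine setIntegral_congr_fun measurableSet_Ioi ?_
    intro s hs
    have hs' : (0:ℝ) < s := hs
    simp only [smul_eq_mul]
    rw [ENNReal.toReal_ofReal (by positivity)]
    ring
  · fun_prop
  · filter_upwards with s
    exact ENNReal.ofReal_lt_top

/-- the combination of moments. -/
def P8b2_w (n : ℕ) (b : ℝ) (x : ℝ) : ℝ :=
  (527 / 100 * Real.sqrt 8) * (x ^ n * Real.exp (-b * x ^ 2)) - 16 / 5 * (x ^ (n + 1) * Real.exp (-b * x ^ 2))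
    + 1 / 320 * (x ^ (n + 5) * Real.exp (-b * x ^ 2))

def P8b2_W (n : ℕ) (b : ℝ) : ℝ :=
  (527 / 100 * Real.sqrt 8) * P8b2_J n b - 16 / 5 * P8b2_J (n + 1) b + 1 / 320 * P8b2_J (n + 5) b

theorem P8b2_wint (n : ℕ) (b : ℝ) (hb : 0 < b) : IntegrableOn (P8b2_w n b) (Set.Ioi 0) := by
  unfold P8b2_w
  exact (((P8b2_int n b hb).const_mul _).sub ((P8b2_int (n + 1) b hb).const_mul _)).add
    ((P8b2_int (n + 5) b hb).const_mul _)

theorem P8b2_wval (n : ℕ) (b : ℝ) (hb : 0 < b) :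
    ∫ x in Set.Ioi (0 : ℝ), P8b2_w n b x = P8b2_W n b := by
  unfold P8b2_w P8b2_W P8b2_J
  rw [integral_add, integral_sub, integral_const_mul, integral_const_mul, integral_const_mul]
  · exact (P8b2_int n b hb).const_mul _
  · exact (P8b2_int (n + 1) b hb).const_mul _
  · exact ((P8b2_int n b hb).const_mul _).sub ((P8b2_int (n + 1) b hb).const_mul _)
  · exact (P8b2_int (n + 5) b hb).const_mul _

theorem P8b2_EE (s : ℝ) (hs : 0 < s) :
    EE (s / Real.sqrt 8) = Real.exp (s ^ 2 / 16) * (527 / 100 * Real.sqrt 8 / s - 16 / 5 + s ^ 4 / 320) := by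
  have h8 : Real.sqrt 8 ^ 2 = 8 := Real.sq_sqrt (by norm_num)
  have h84 : Real.sqrt 8 ^ 4 = 64 := by
    calc Real.sqrt 8 ^ 4 = (Real.sqrt 8 ^ 2) ^ 2 := by ring
      _ = 64 := by rw [h8]; norm_num
  have h80 : Real.sqrt 8 ≠ 0 := by positivity
  unfold EE e1
  rw [div_pow, div_pow, h8, h84]
  congr 1
  · congr 1
    ring
  · field_simp
    ring

theorem P8b2_pt (k : ℕ) (c s : ℝ) (hs : 0 < s) :
    ((s ^ 2 / 2) ^ k * Real.exp (-(s ^ 2) / 16) - c) ^ 2 * EE (s / Real.sqrt 8) * (s * Real.exp (-(s ^ 2) / 2))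
      = (1 / 4 ^ k) * P8b2_w (4 * k) (9 / 16) s - (2 * c / 2 ^ k) * P8b2_w (2 * k) (1 / 2) s
        + c ^ 2 * P8b2_w 0 (7 / 16) s := by
  rw [P8b2_EE s hs]
  unfold P8b2_w
  have e9 : Real.exp (-(9 / 16) * s ^ 2)
      = Real.exp (-(s ^ 2) / 16) ^ 2 * Real.exp (s ^ 2 / 16) * Real.exp (-(s ^ 2) / 2) := by
    rw [← Real.exp_nat_mul, ← Real.exp_add, ← Real.exp_add]
    congr 1
    push_cast
    ring
  have e2 : Real.exp (-(1 / 2) * s ^ 2)
      = Real.exp (-(s ^ 2) / 16) * Real.exp (s ^ 2 / 16) * Real.exp (-(s ^ 2) / 2) := by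
    rw [← Real.exp_add, ← Real.exp_add]
    congr 1
    ring
  have e7 : Real.exp (-(7 / 16) * s ^ 2) = Real.exp (s ^ 2 / 16) * Real.exp (-(s ^ 2) / 2) := by
    rw [← Real.exp_add]
    congr 1
    ring
  rw [e9, e2, e7]
  have p4 : s ^ (4 * k) = (s ^ k) ^ 4 := by rw [← pow_mul, mul_comm]
  have p2 : s ^ (2 * k) = (s ^ k) ^ 2 := by rw [← pow_mul, mul_comm]
  have q4 : (4 : ℝ) ^ k = (2 ^ k) ^ 2 := by rw [← pow_mul, mul_comm, pow_mul]; norm_num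
  have q2 : (s ^ 2 / 2) ^ k = (s ^ k) ^ 2 / 2 ^ k := by rw [div_pow, ← pow_mul, ← pow_mul, mul_comm]
  rw [pow_add _ (4 * k), pow_add _ (4 * k), pow_add _ (2 * k), pow_add _ (2 * k), p4, p2, q4, q2]
  have hk : (2 : ℝ) ^ k ≠ 0 := by positivity
  generalize Real.exp (-(s ^ 2) / 16) = A
  generalize Real.exp (s ^ 2 / 16) = B
  generalize Real.exp (-(s ^ 2) / 2) = C
  generalize s ^ k = D
  generalize (2 : ℝ) ^ k = E at hk ⊢
  field_simp
  ring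

theorem P8b2_val (k : ℕ) (c : ℝ) :
    ∫ s, ((s ^ 2 / 2) ^ k * Real.exp (-(s ^ 2) / 16) - c) ^ 2 * EE (s / Real.sqrt 8) ∂rm
      = (1 / 4 ^ k) * P8b2_W (4 * k) (9 / 16) - (2 * c / 2 ^ k) * P8b2_W (2 * k) (1 / 2)
        + c ^ 2 * P8b2_W 0 (7 / 16) := by
  rw [P8b2_rm]
  have h : ∫ s in Set.Ioi (0 : ℝ), ((s ^ 2 / 2) ^ k * Real.exp (-(s ^ 2) / 16) - c) ^ 2 * EE (s / Real.sqrt 8)
        * (s * Real.exp (-(s ^ 2) / 2))
      = ∫ s in Set.Ioi (0 : ℝ), ((1 / 4 ^ k) * P8b2_w (4 * k) (9 / 16) s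
        - (2 * c / 2 ^ k) * P8b2_w (2 * k) (1 / 2) s + c ^ 2 * P8b2_w 0 (7 / 16) s) := by
    refine setIntegral_congr_fun measurableSet_Ioi ?_
    intro s hs
    exact P8b2_pt k c s hs
  rw [h, integral_add, integral_sub, integral_const_mul, integral_const_mul, integral_const_mul,
    P8b2_wval _ _ (by norm_num), P8b2_wval _ _ (by norm_num), P8b2_wval _ _ (by norm_num)]
  · exact (P8b2_wint _ _ (by norm_num)).const_mul _
  · exact (P8b2_wint _ _ (by norm_num)).const_mul _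
  · exact ((P8b2_wint _ _ (by norm_num)).const_mul _).sub ((P8b2_wint _ _ (by norm_num)).const_mul _)
  · exact (P8b2_wint _ _ (by norm_num)).const_mul _

/-- coefficients. -/
def P8b2_g (k : ℕ) : ℝ := (9 / 8) * (9 / 64 : ℝ) ^ k / ((k.factorial : ℝ) ^ 2)

def P8b2_x (k : ℕ) : ℝ := P8b2_g k * (1 / 4 ^ k) * P8b2_J (4 * k) (9 / 16)
def P8b2_y (k : ℕ) : ℝ := P8b2_g k * (1 / 4 ^ k) * P8b2_J (4 * k + 1) (9 / 16)
def P8b2_z (k : ℕ) : ℝ := P8b2_g k * (1 / 4 ^ k) * P8b2_J (4 * k + 5) (9 / 16)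

theorem P8b2_gs (k : ℕ) : P8b2_g (k + 1) = P8b2_g k * (9 / 64) / ((k : ℝ) + 1) ^ 2 := by
  unfold P8b2_g
  rw [Nat.factorial_succ, pow_succ]
  push_cast
  have h1 : ((k.factorial : ℕ) : ℝ) ≠ 0 := by exact_mod_cast (Nat.factorial_pos k).ne'
  have h2 : ((k : ℝ) + 1) ≠ 0 := by positivity
  field_simp

theorem P8b2_xs (k : ℕ) : P8b2_x (k + 1) = (4 * (k : ℝ) + 3) * (4 * (k : ℝ) + 1) / (36 * ((k : ℝ) + 1) ^ 2) * P8b2_x k := by
  unfold P8b2_x
  rw [P8b2_gs]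
  have h2 : ((k : ℝ) + 1) ≠ 0 := by positivity
  have e : 4 * (k + 1) = 4 * k + 2 + 2 := by ring
  rw [e, P8b2_rec _ _ (by norm_num), P8b2_rec _ _ (by norm_num), pow_succ]
  push_cast
  field_simp
  ring

theorem P8b2_ys (k : ℕ) : P8b2_y (k + 1) = 2 * (2 * (k : ℝ) + 1) / (9 * ((k : ℝ) + 1)) * P8b2_y k := by
  unfold P8b2_y
  rw [P8b2_gs]
  have h2 : ((k : ℝ) + 1) ≠ 0 := by positivity
  have e : 4 * (k + 1) + 1 = 4 * k + 1 + 2 + 2 := by ring
  rw [e, P8b2_rec _ _ (by norm_num), P8b2_rec _ _ (by norm_num), pow_succ]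
  push_cast
  field_simp
  ring

theorem P8b2_zy (k : ℕ) : P8b2_z k = 512 / 81 * ((k : ℝ) + 1) * (2 * (k : ℝ) + 1) * P8b2_y k := by
  unfold P8b2_z P8b2_y
  have e : 4 * k + 5 = 4 * k + 1 + 2 + 2 := by ring
  rw [e, P8b2_rec _ _ (by norm_num), P8b2_rec _ _ (by norm_num)]
  push_cast
  field_simp
  ring

theorem P8b2_x0 : P8b2_x 0 = 9 / 16 * Real.sqrt (Real.pi / (9 / 16)) := by
  unfold P8b2_x P8b2_g
  rw [Nat.mul_zero, P8b2_J0]
  norm_num
  ring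

theorem P8b2_y0 : P8b2_y 0 = 1 := by
  unfold P8b2_y P8b2_g
  rw [Nat.mul_zero, Nat.zero_add, P8b2_J1 _ (by norm_num)]
  norm_num

theorem P8b2_xpos (k : ℕ) : 0 ≤ P8b2_x k := by
  induction k with
  | zero => rw [P8b2_x0]; positivity
  | succ k ih => rw [P8b2_xs]; positivity

theorem P8b2_ypos (k : ℕ) : 0 ≤ P8b2_y k := by
  induction k with
  | zero => rw [P8b2_y0]; norm_num
  | succ k ih => rw [P8b2_ys]; positivity

theorem P8b2_zpos (k : ℕ) : 0 ≤ P8b2_z k := by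
  rw [P8b2_zy]
  have := P8b2_ypos k
  positivity

theorem P8b2_xt (k : ℕ) : P8b2_x (k + 6) ≤ P8b2_x 6 * (5 / 9) ^ k := by
  induction k with
  | zero => simp
  | succ k ih =>
    have e : k + 1 + 6 = (k + 6) + 1 := by ring
    rw [e, P8b2_xs, pow_succ]
    have hk : (0:ℝ) ≤ k := Nat.cast_nonneg k
    have h1 : (4 * ((k + 6 : ℕ) : ℝ) + 3) * (4 * ((k + 6 : ℕ) : ℝ) + 1) / (36 * (((k + 6 : ℕ) : ℝ) + 1) ^ 2) ≤ 5 / 9 := by
      rw [div_le_div_iff₀ (by positivity) (by norm_num)]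
      push_cast
      nlinarith [hk, mul_nonneg hk hk]
    calc _ ≤ 5 / 9 * P8b2_x (k + 6) := mul_le_mul_of_nonneg_right h1 (P8b2_xpos _)
      _ ≤ 5 / 9 * (P8b2_x 6 * (5 / 9) ^ k) := mul_le_mul_of_nonneg_left ih (by norm_num)
      _ = _ := by ring

theorem P8b2_yt (k : ℕ) : P8b2_y (k + 6) ≤ P8b2_y 6 * (5 / 9) ^ k := by
  induction k with
  | zero => simp
  | succ k ih =>
    have e : k + 1 + 6 = (k + 6) + 1 := by ring
    rw [e, P8b2_ys, pow_succ]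
    have hk : (0:ℝ) ≤ k := Nat.cast_nonneg k
    have h1 : 2 * (2 * ((k + 6 : ℕ) : ℝ) + 1) / (9 * (((k + 6 : ℕ) : ℝ) + 1)) ≤ 5 / 9 := by
      rw [div_le_div_iff₀ (by positivity) (by norm_num)]
      push_cast
      nlinarith [hk, mul_nonneg hk hk]
    calc _ ≤ 5 / 9 * P8b2_y (k + 6) := mul_le_mul_of_nonneg_right h1 (P8b2_ypos _)
      _ ≤ 5 / 9 * (P8b2_y 6 * (5 / 9) ^ k) := mul_le_mul_of_nonneg_left ih (by norm_num)
      _ = _ := by ring

theorem P8b2_zs (k : ℕ) : P8b2_z (k + 1)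
    = 2 * ((k : ℝ) + 2) * (2 * (k : ℝ) + 3) / (9 * ((k : ℝ) + 1) ^ 2) * P8b2_z k := by
  rw [P8b2_zy, P8b2_zy, P8b2_ys]
  push_cast
  have h2 : ((k : ℝ) + 1) ≠ 0 := by positivity
  field_simp
  ring

theorem P8b2_zt (k : ℕ) : P8b2_z (k + 6) ≤ P8b2_z 6 * (5 / 9) ^ k := by
  induction k with
  | zero => simp
  | succ k ih =>
    have e : k + 1 + 6 = (k + 6) + 1 := by ring
    rw [e, P8b2_zs, pow_succ]
    have hk : (0:ℝ) ≤ k := Nat.cast_nonneg k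
    have h1 : 2 * (((k + 6 : ℕ) : ℝ) + 2) * (2 * ((k + 6 : ℕ) : ℝ) + 3) / (9 * (((k + 6 : ℕ) : ℝ) + 1) ^ 2) ≤ 5 / 9 := by
      rw [div_le_div_iff₀ (by positivity) (by norm_num)]
      push_cast
      nlinarith [hk, mul_nonneg hk hk]
    calc _ ≤ 5 / 9 * P8b2_z (k + 6) := mul_le_mul_of_nonneg_right h1 (P8b2_zpos _)
      _ ≤ 5 / 9 * (P8b2_z 6 * (5 / 9) ^ k) := mul_le_mul_of_nonneg_left ih (by norm_num)
      _ = _ := by ring

/-- main part of the `k`-th term. -/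
def P8b2_t (k : ℕ) : ℝ :=
  (527 / 100 * Real.sqrt 8) * P8b2_x k - 16 / 5 * P8b2_y k + 1 / 320 * P8b2_z k

theorem P8b2_term (k : ℕ) (c : ℝ) :
    (9 / 8) * (9 / 64 : ℝ) ^ k / ((k.factorial : ℝ) ^ 2) *
      ∫ s, ((s ^ 2 / 2) ^ k * Real.exp (-(s ^ 2) / 16) - c) ^ 2 * EE (s / Real.sqrt 8) ∂rm
      = P8b2_t k + P8b2_g k * (c ^ 2 * P8b2_W 0 (7 / 16) - (2 * c / 2 ^ k) * P8b2_W (2 * k) (1 / 2)) := by
  rw [P8b2_val]
  unfold P8b2_t P8b2_x P8b2_y P8b2_z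
  rw [show P8b2_W (4 * k) (9 / 16) = (527 / 100 * Real.sqrt 8) * P8b2_J (4 * k) (9 / 16)
    - 16 / 5 * P8b2_J (4 * k + 1) (9 / 16) + 1 / 320 * P8b2_J (4 * k + 5) (9 / 16) from rfl]
  unfold P8b2_g
  ring

theorem P8b2_gsum : Summable (fun k : ℕ => (5 / 9 : ℝ) ^ k) :=
  summable_geometric_of_lt_one (by norm_num) (by norm_num)

theorem P8b2_xsum : Summable P8b2_x := by
  rw [← summable_nat_add_iff 6]
  exact Summable.of_nonneg_of_le (fun k => P8b2_xpos _) P8b2_xt (P8b2_gsum.mul_left _)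

theorem P8b2_ysum : Summable P8b2_y := by
  rw [← summable_nat_add_iff 6]
  exact Summable.of_nonneg_of_le (fun k => P8b2_ypos _) P8b2_yt (P8b2_gsum.mul_left _)

theorem P8b2_zsum : Summable P8b2_z := by
  rw [← summable_nat_add_iff 6]
  exact Summable.of_nonneg_of_le (fun k => P8b2_zpos _) P8b2_zt (P8b2_gsum.mul_left _)

theorem P8b2_tsum : Summable P8b2_t := by
  unfold P8b2_t
  exact ((P8b2_xsum.mul_left _).sub (P8b2_ysum.mul_left _)).add (P8b2_zsum.mul_left _)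

theorem P8b2_tail : ∑' k, P8b2_t (k + 6)
    ≤ ((527 / 100 * Real.sqrt 8) * P8b2_x 6 + 1 / 320 * P8b2_z 6) * (9 / 4) := by
  have hs : Summable (fun k => P8b2_t (k + 6)) := (summable_nat_add_iff 6).mpr P8b2_tsum
  have hg := P8b2_gsum.mul_left ((527 / 100 * Real.sqrt 8) * P8b2_x 6 + 1 / 320 * P8b2_z 6)
  have h := Summable.tsum_le_tsum (fun k => ?_) hs hg
  · rw [tsum_mul_left, tsum_geometric_of_lt_one (by norm_num) (by norm_num)] at h
    norm_num at h ⊢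
    exact h
  · have h1 := P8b2_xt k
    have h2 := P8b2_zt k
    have h3 := P8b2_ypos (k + 6)
    have h4 : 0 ≤ 527 / 100 * Real.sqrt 8 := by positivity
    have h5 := mul_le_mul_of_nonneg_left h1 h4
    unfold P8b2_t
    nlinarith [h5, h2, h3]

theorem P8b2_bx0 : (527 / 100 * Real.sqrt 8) * P8b2_x 0 ≤ 1981498 / 100000 := by
  rw [P8b2_x0]
  have h1 : Real.sqrt 8 ≤ 2828428 / 1000000 := by
    rw [show (2828428 / 1000000 : ℝ) = Real.sqrt ((2828428 / 1000000) ^ 2) from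
      (Real.sqrt_sq (by norm_num)).symm]
    exact Real.sqrt_le_sqrt (by norm_num)
  have h2 : Real.sqrt (Real.pi / (9 / 16)) ≤ 236328 / 100000 := by
    rw [show (236328 / 100000 : ℝ) = Real.sqrt ((236328 / 100000) ^ 2) from
      (Real.sqrt_sq (by norm_num)).symm]
    apply Real.sqrt_le_sqrt
    have := Real.pi_lt_d6
    rw [div_le_iff₀ (by norm_num)]
    norm_num at this ⊢
    linarith
  have h3 : Real.sqrt 8 * Real.sqrt (Real.pi / (9 / 16)) ≤ 2828428 / 1000000 * (236328 / 100000) :=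
    mul_le_mul h1 h2 (Real.sqrt_nonneg _) (by norm_num)
  nlinarith [h3]

theorem P8b2_bW0 : 155 / 10 ≤ P8b2_W 0 (1 / 2) := by
  unfold P8b2_W
  have e5 : P8b2_J (0 + 5) (1 / 2) = 8 := by
    rw [show 0 + 5 = 1 + 2 + 2 from rfl, P8b2_rec _ _ (by norm_num), P8b2_rec _ _ (by norm_num),
      P8b2_J1 _ (by norm_num)]
    norm_num
  have e1 : P8b2_J (0 + 1) (1 / 2) = 1 := by
    rw [show 0 + 1 = 1 from rfl, P8b2_J1 _ (by norm_num)]
    norm_num
  rw [e5, e1, P8b2_J0]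
  have h1 : 2828427 / 1000000 ≤ Real.sqrt 8 := by
    rw [show (2828427 / 1000000 : ℝ) = Real.sqrt ((2828427 / 1000000) ^ 2) from
      (Real.sqrt_sq (by norm_num)).symm]
    exact Real.sqrt_le_sqrt (by norm_num)
  have h2 : 25066 / 10000 ≤ Real.sqrt (Real.pi / (1 / 2)) := by
    rw [show (25066 / 10000 : ℝ) = Real.sqrt ((25066 / 10000) ^ 2) from
      (Real.sqrt_sq (by norm_num)).symm]
    apply Real.sqrt_le_sqrt
    have := Real.pi_gt_d6
    rw [le_div_iff₀ (by norm_num)]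
    norm_num at this ⊢
    linarith
  have h3 : 2828427 / 1000000 * (25066 / 10000) ≤ Real.sqrt 8 * Real.sqrt (Real.pi / (1 / 2)) :=
    mul_le_mul h1 h2 (by norm_num) (Real.sqrt_nonneg _)
  nlinarith [h3]

theorem P8b2_bW2 : 1243 / 100 ≤ P8b2_W 2 (1 / 2) := by
  unfold P8b2_W
  have e5 : P8b2_J (2 + 5) (1 / 2) = 48 := by
    rw [show 2 + 5 = 1 + 2 + 2 + 2 from rfl, P8b2_rec _ _ (by norm_num), P8b2_rec _ _ (by norm_num),
      P8b2_rec _ _ (by norm_num), P8b2_J1 _ (by norm_num)]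
    norm_num
  have e1 : P8b2_J (2 + 1) (1 / 2) = 2 := by
    rw [show 2 + 1 = 1 + 2 from rfl, P8b2_rec _ _ (by norm_num), P8b2_J1 _ (by norm_num)]
    norm_num
  have e2 : P8b2_J 2 (1 / 2) = P8b2_J 0 (1 / 2) := by
    rw [show 2 = 0 + 2 from rfl, P8b2_rec _ _ (by norm_num)]
    norm_num
  rw [e5, e1, e2, P8b2_J0]
  have h1 : 2828427 / 1000000 ≤ Real.sqrt 8 := by
    rw [show (2828427 / 1000000 : ℝ) = Real.sqrt ((2828427 / 1000000) ^ 2) from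
      (Real.sqrt_sq (by norm_num)).symm]
    exact Real.sqrt_le_sqrt (by norm_num)
  have h2 : 25066 / 10000 ≤ Real.sqrt (Real.pi / (1 / 2)) := by
    rw [show (25066 / 10000 : ℝ) = Real.sqrt ((25066 / 10000) ^ 2) from
      (Real.sqrt_sq (by norm_num)).symm]
    apply Real.sqrt_le_sqrt
    have := Real.pi_gt_d6
    rw [le_div_iff₀ (by norm_num)]
    norm_num at this ⊢
    linarith
  have h3 : 2828427 / 1000000 * (25066 / 10000) ≤ Real.sqrt 8 * Real.sqrt (Real.pi / (1 / 2)) :=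
    mul_le_mul h1 h2 (by norm_num) (Real.sqrt_nonneg _)
  nlinarith [h3]

theorem P8b2_bW7 : P8b2_W 0 (7 / 16) ≤ 1636 / 100 := by
  unfold P8b2_W
  have e5 : P8b2_J (0 + 5) (7 / 16) = 4096 / 343 := by
    rw [show 0 + 5 = 1 + 2 + 2 from rfl, P8b2_rec _ _ (by norm_num), P8b2_rec _ _ (by norm_num),
      P8b2_J1 _ (by norm_num)]
    norm_num
  have e1 : P8b2_J (0 + 1) (7 / 16) = 8 / 7 := by
    rw [show 0 + 1 = 1 from rfl, P8b2_J1 _ (by norm_num)]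
    norm_num
  rw [e5, e1, P8b2_J0]
  have h1 : Real.sqrt 8 ≤ 2828428 / 1000000 := by
    rw [show (2828428 / 1000000 : ℝ) = Real.sqrt ((2828428 / 1000000) ^ 2) from
      (Real.sqrt_sq (by norm_num)).symm]
    exact Real.sqrt_le_sqrt (by norm_num)
  have h2 : Real.sqrt (Real.pi / (7 / 16)) ≤ 26798 / 10000 := by
    rw [show (26798 / 10000 : ℝ) = Real.sqrt ((26798 / 10000) ^ 2) from
      (Real.sqrt_sq (by norm_num)).symm]
    apply Real.sqrt_le_sqrt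
    have := Real.pi_lt_d6
    rw [div_le_iff₀ (by norm_num)]
    norm_num at this ⊢
    linarith
  have h3 : Real.sqrt 8 * Real.sqrt (Real.pi / (7 / 16)) ≤ 2828428 / 1000000 * (26798 / 10000) :=
    mul_le_mul h1 h2 (Real.sqrt_nonneg _) (by norm_num)
  nlinarith [h3]

/-- the correction terms. -/
def P8b2_r (k : ℕ) : ℝ :=
  P8b2_g k * ((if k = 0 then 19 / 20 else if k = 1 then 19 / 50 else 0) ^ 2 * P8b2_W 0 (7 / 16)
    - (2 * (if k = 0 then 19 / 20 else if k = 1 then 19 / 50 else 0) / 2 ^ k) * P8b2_W (2 * k) (1 / 2))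

theorem P8b2_r0 (k : ℕ) : P8b2_r (k + 6) = 0 := by
  unfold P8b2_r
  simp

theorem P8b2_rsum : Summable P8b2_r := by
  rw [← summable_nat_add_iff 6]
  simp_rw [P8b2_r0]
  exact summable_zero

theorem pP8b2 : StP8b2 := by
  unfold StP8b2
  have hT : (fun k : ℕ => (9 / 8) * (9 / 64 : ℝ) ^ k / ((k.factorial : ℝ) ^ 2) *
      ∫ s, ((s ^ 2 / 2) ^ k * Real.exp (-(s ^ 2) / 16) - (if k = 0 then 19 / 20 else if k = 1 then 19 / 50 else 0)) ^ 2
        * EE (s / Real.sqrt 8) ∂rm) = fun k => P8b2_t k + P8b2_r k := by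
    funext k
    exact P8b2_term k _
  rw [hT]
  have hsum : Summable (fun k => P8b2_t k + P8b2_r k) := P8b2_tsum.add P8b2_rsum
  refine ⟨hsum, ?_⟩
  rw [← hsum.sum_add_tsum_nat_add 6]
  have htail : ∑' k, (P8b2_t (k + 6) + P8b2_r (k + 6)) = ∑' k, P8b2_t (k + 6) := by
    refine tsum_congr ?_
    intro k
    rw [P8b2_r0, add_zero]
  rw [htail]
  have h6 := P8b2_tail
  have x1 : P8b2_x 1 = 1 / 12 * P8b2_x 0 := by
    rw [show 1 = 0 + 1 from rfl, P8b2_xs]; norm_num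
  have x2 : P8b2_x 2 = 35 / 1728 * P8b2_x 0 := by
    rw [show 2 = 1 + 1 from rfl, P8b2_xs, x1]; norm_num; ring
  have x3 : P8b2_x 3 = 385 / 62208 * P8b2_x 0 := by
    rw [show 3 = 2 + 1 from rfl, P8b2_xs, x2]; norm_num; ring
  have x4 : P8b2_x 4 = 25025 / 11943936 * P8b2_x 0 := by
    rw [show 4 = 3 + 1 from rfl, P8b2_xs, x3]; norm_num; ring
  have x5 : P8b2_x 5 = 323323 / 429981696 * P8b2_x 0 := by
    rw [show 5 = 4 + 1 from rfl, P8b2_xs, x4]; norm_num; ring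
  have x6 : P8b2_x 6 = 52055003 / 185752092672 * P8b2_x 0 := by
    rw [show 6 = 5 + 1 from rfl, P8b2_xs, x5]; norm_num; ring
  have y0 := P8b2_y0
  have y1 : P8b2_y 1 = 2 / 9 := by
    have h := P8b2_ys 0
    rw [y0] at h
    norm_num at h
    exact h
  have y2 : P8b2_y 2 = 2 / 27 := by
    rw [show 2 = 1 + 1 from rfl, P8b2_ys, y1]; norm_num
  have y3 : P8b2_y 3 = 20 / 729 := by
    rw [show 3 = 2 + 1 from rfl, P8b2_ys, y2]; norm_num
  have y4 : P8b2_y 4 = 70 / 6561 := by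
    rw [show 4 = 3 + 1 from rfl, P8b2_ys, y3]; norm_num
  have y5 : P8b2_y 5 = 28 / 6561 := by
    rw [show 5 = 4 + 1 from rfl, P8b2_ys, y4]; norm_num
  have y6 : P8b2_y 6 = 308 / 177147 := by
    rw [show 6 = 5 + 1 from rfl, P8b2_ys, y5]; norm_num
  have z0 : P8b2_z 0 = 512 / 81 := by rw [P8b2_zy, y0]; norm_num
  have z1 : P8b2_z 1 = 512 / 81 * 6 * (2 / 9) := by rw [P8b2_zy, y1]; norm_num
  have z2 : P8b2_z 2 = 512 / 81 * 15 * (2 / 27) := by rw [P8b2_zy, y2]; norm_num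
  have z3 : P8b2_z 3 = 512 / 81 * 28 * (20 / 729) := by rw [P8b2_zy, y3]; norm_num
  have z4 : P8b2_z 4 = 512 / 81 * 45 * (70 / 6561) := by rw [P8b2_zy, y4]; norm_num
  have z5 : P8b2_z 5 = 512 / 81 * 66 * (28 / 6561) := by rw [P8b2_zy, y5]; norm_num
  have z6 : P8b2_z 6 = 512 / 81 * 91 * (308 / 177147) := by rw [P8b2_zy, y6]; norm_num
  have r0 : P8b2_r 0 = 9 / 8 * ((19 / 20) ^ 2 * P8b2_W 0 (7 / 16) - 19 / 10 * P8b2_W 0 (1 / 2)) := by
    unfold P8b2_r P8b2_g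
    norm_num
  have r1 : P8b2_r 1 = 81 / 512 * ((19 / 50) ^ 2 * P8b2_W 0 (7 / 16) - 19 / 50 * P8b2_W 2 (1 / 2)) := by
    unfold P8b2_r P8b2_g
    norm_num
  have r2 : P8b2_r 2 = 0 := by unfold P8b2_r; simp
  have r3 : P8b2_r 3 = 0 := by unfold P8b2_r; simp
  have r4 : P8b2_r 4 = 0 := by unfold P8b2_r; simp
  have r5 : P8b2_r 5 = 0 := by unfold P8b2_r; simp
  rw [Finset.sum_range_succ, Finset.sum_range_succ, Finset.sum_range_succ, Finset.sum_range_succ,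
    Finset.sum_range_succ, Finset.sum_range_succ, Finset.sum_range_zero]
  rw [x6, z6] at h6
  unfold P8b2_t at h6 ⊢
  rw [x1, x2, x3, x4, x5, y0, y1, y2, y3, y4, y5, z0, z1, z2, z3, z4, z5, r0, r1, r2, r3, r4, r5]
  have b0 := P8b2_bx0
  have b1 := P8b2_bW0
  have b2 := P8b2_bW2
  have b3 := P8b2_bW7
  generalize P8b2_W 0 (7 / 16) = w7 at *
  generalize P8b2_W 0 (1 / 2) = w0 at *
  generalize P8b2_W 2 (1 / 2) = w2 at *
  generalize hX : (527 / 100 * Real.sqrt 8) = X at *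
  have e1 : ∀ c : ℝ, X * (c * P8b2_x 0) = c * (X * P8b2_x 0) := by intro c; ring
  rw [e1] at h6
  rw [e1, e1, e1, e1, e1]
  generalize X * P8b2_x 0 = L at *
  norm_num at h6 b0 b1 b2 b3 ⊢
  linarith

end

end Pool.TC
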