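import Pool.Agent.TC.St
import Pool.Agent.Helper65.PT.Law

/-! Project TC, module P8c. -/

set_option autoImplicit false

open MeasureTheory ProbabilityTheory Pool.H65.PS Pool.H65.PT

namespace Pool.TC

private theorem P8c_rad (s θ : ℝ) (hs : 0 < s) : Real.sqrt (pt2 s θ 0 ^ 2 + pt2 s θ 1 ^ 2) = s := by
  have h : pt2 s θ 0 ^ 2 + pt2 s θ 1 ^ 2 = s ^ 2 := by
    have := Real.sin_sq_add_cos_sq θ
    simp only [pt2, Matrix.cons_val_zero, Matrix.cons_val_one]
    linear_combination s ^ 2 * this
  rw [h, Real.sqrt_sq hs.le]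

private theorem P8c_ae : ∀ᵐ s ∂rm, 0 < s := by
  have h1 : rm ≪ volume.restrict (Set.Ioi (0 : ℝ)) := withDensity_absolutelyContinuous _ _
  exact h1.ae_le (ae_restrict_mem measurableSet_Ioi)

private theorem P8c_cmint (F : ℝ → ℝ) : ∫ φ, F φ ∂cm = (2 * Real.pi)⁻¹ * ∫ φ in (-Real.pi)..Real.pi, F φ := by
  unfold cm
  have hpi := Real.pi_pos
  rw [integral_smul_measure, ENNReal.toReal_ofReal (by positivity),
    intervalIntegral.integral_of_le (by linarith), smul_eq_mul]

private theorem P8c_per (b θ : ℝ) : ∫ φ, Real.exp (b * Real.cos (θ - φ)) ∂cm = I0 b := by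
  unfold I0
  rw [P8c_cmint, P8c_cmint]
  congr 1
  have e1 : (∫ φ in (-Real.pi)..Real.pi, Real.exp (b * Real.cos (θ - φ))) =
      ∫ φ in (θ - Real.pi)..(θ - -Real.pi), Real.exp (b * Real.cos φ) :=
    intervalIntegral.integral_comp_sub_left (fun φ => Real.exp (b * Real.cos φ)) θ
  rw [e1]
  have hp : Function.Periodic (fun φ => Real.exp (b * Real.cos φ)) (2 * Real.pi) := by
    intro φ
    simp
  have h := hp.intervalIntegral_add_eq (θ - Real.pi) (-Real.pi)
  rw [show θ - Real.pi + 2 * Real.pi = θ - -Real.pi by ring,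
    show -Real.pi + 2 * Real.pi = Real.pi by ring] at h
  exact h

private theorem P8c_Qb (b c d : ℝ) (hcm : IsProbabilityMeasure cm) :
    Qb b (fun _ => c) (fun _ => d) = I0 b * c * d := by
  unfold Qb
  have : ∀ θ : ℝ, ∫ φ, c * d * Real.exp (b * Real.cos (θ - φ)) ∂cm = I0 b * c * d := by
    intro θ
    rw [integral_const_mul, P8c_per]
    ring
  simp only [this]
  simp

private theorem P8c_neg : MeasurePreserving (fun x : Fin 2 → ℝ => -x) (gam (Fin 2)) (gam (Fin 2)) := by
  have h := Law_mp (fun (i j : Fin 2) => if i = j then (-1 : ℝ) else 0) (by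
    intro j k
    fin_cases j <;> fin_cases k <;> simp)
  convert h using 1
  funext x j
  rw [Law_lin_apply]
  fin_cases j <;> simp

theorem pP8c (hP0a : StP0a) (hP0c : StP0c) (hP8c1 : StP8c1) : StP8c := by
  intro e ρ hem heb he0 hρ0 hρ1
  obtain ⟨hcm, hrm, hmap⟩ := hP0a
  obtain ⟨B, hB⟩ := heb
  set h : (Fin 2 → ℝ) → ℝ := fun x => e (Real.sqrt (x 0 ^ 2 + x 1 ^ 2)) with hdef
  have hbm : Bm h := ⟨hem.comp (by fun_prop), B, fun x => hB _⟩
  have hpol : ∀ s θ : ℝ, 0 < s → h (pt2 s θ) = e s := by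
    intro s θ hs
    simp only [hdef]
    rw [P8c_rad s θ hs]
  have hSr : ∀ r : ℝ, 0 ≤ r → r < 1 → sg r h h = Sr r e := by
    intro r hr0 hr1
    rw [(hP0c r h h hr0 hr1 hbm hbm).2]
    unfold Sr
    refine integral_congr_ae ?_
    filter_upwards [P8c_ae] with s hs
    refine integral_congr_ae ?_
    filter_upwards [P8c_ae] with t ht
    have e1 : (fun θ => h (pt2 s θ)) = fun _ => e s := by
      funext θ
      exact hpol s θ hs
    have e2 : (fun θ => h (pt2 t θ)) = fun _ => e t := by
      funext θ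
      exact hpol t θ ht
    simp only [e1, e2]
    rw [P8c_Qb _ _ _ hcm]
    ring
  have hmean : ∫ x, h x ∂(gam (Fin 2)) = 0 := by
    have hpm : Measurable (fun p : ℝ × ℝ => pt2 p.1 p.2) := by
      refine measurable_pi_iff.2 fun i => ?_
      fin_cases i
      · show Measurable fun p : ℝ × ℝ => p.1 * Real.cos p.2
        fun_prop
      · show Measurable fun p : ℝ × ℝ => p.1 * Real.sin p.2
        fun_prop
    have hint : Integrable (fun p : ℝ × ℝ => h (pt2 p.1 p.2)) (rm.prod cm) :=
      Integrable.of_bound (hbm.meas.comp hpm).aestronglyMeasurable B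
        (Filter.Eventually.of_forall fun p => by
          rw [Real.norm_eq_abs]
          exact hB _)
    rw [← hmap, integral_map hpm.aemeasurable hbm.meas.aestronglyMeasurable,
      integral_prod _ hint, ← he0]
    refine integral_congr_ae ?_
    filter_upwards [P8c_ae] with s hs
    have e1 : (fun θ => h (pt2 s θ)) = fun _ => e s := by
      funext θ
      exact hpol s θ hs
    simp only [e1]
    simp
  have hmo : ∀ i, mo h i = 0 := by
    intro i
    have h1 : mo h i = ∫ x, h (-x) * (-x) i ∂(gam (Fin 2)) := by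
      unfold mo
      exact (P8c_neg.integral_comp (MeasurableEquiv.neg _).measurableEmbedding
        (fun x => h x * x i)).symm
    have h2 : (∫ x, h (-x) * (-x) i ∂(gam (Fin 2))) = -mo h i := by
      unfold mo
      rw [← integral_neg]
      congr 1
      funext x
      simp [hdef]
    linarith [h1, h2]
  have key := hP8c1 (Fin 2) h ρ (1 / 3) hbm hmean hmo hρ0.le hρ1 (by norm_num) (by norm_num)
  rw [hSr ρ hρ0.le (by linarith), hSr (1 / 3) (by norm_num) (by norm_num)] at key
  calc Sr ρ e ≤ (ρ / (1 / 3)) ^ 2 * Sr (1 / 3) e := key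
    _ = 9 * ρ ^ 2 * Sr (1 / 3) e := by ring

end Pool.TC
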