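import Pool.Agent.TC.St
import Pool.Agent.Helper65.PT.Oub
import Pool.Agent.Helper65.PT.Oul

set_option autoImplicit false

open MeasureTheory ProbabilityTheory Pool.H65.PS Pool.H65.PT

namespace Pool.TC

variable {κ : Type} [Fintype κ]

/-- Cauchy-Schwarz for the noise stability. -/
private lemma P8c1_cs {g : (κ → ℝ) → ℝ} (hg : Bm g) {θ : ℝ} (h0 : 0 ≤ θ) (h1 : θ ≤ 1) :
    (sg θ g g) ^ 2 ≤ sg (θ ^ 2) g g * sg 1 g g := by
  have hθ := OU_bm hg θ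
  have m1 : MemLp g 2 (gam κ) := by
    obtain ⟨B, hB⟩ := hg.bdd
    exact MemLp.of_bound hg.meas.aestronglyMeasurable B
      (Filter.Eventually.of_forall fun x => by rw [Real.norm_eq_abs]; exact hB x)
  have m2 : MemLp (OU θ g) 2 (gam κ) := by
    obtain ⟨B, hB⟩ := hθ.bdd
    exact MemLp.of_bound hθ.meas.aestronglyMeasurable B
      (Filter.Eventually.of_forall fun x => by rw [Real.norm_eq_abs]; exact hB x)
  have hcs := oub_cs m1 m2
  have e1 : ∫ x, g x ^ 2 ∂(gam κ) = sg 1 g g := by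
    rw [sg_one hg hg]
    exact integral_congr_ae (Filter.Eventually.of_forall fun x => by simp only; ring)
  have e2 : ∫ x, OU θ g x ^ 2 ∂(gam κ) = sg (θ ^ 2) g g := by
    have h2 := oub_sqrt hg (θ ^ 2) (by positivity) (pow_le_one₀ h0 h1)
    rw [Real.sqrt_sq h0] at h2
    exact h2.symm
  rw [← sg_eq_OU hg hg θ, e1, e2] at hcs
  have n1 : 0 ≤ sg 1 g g := sg_self_nonneg hg 1 zero_le_one le_rfl
  have n2 : 0 ≤ sg (θ ^ 2) g g := sg_self_nonneg hg _ (by positivity) (pow_le_one₀ h0 h1)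
  calc (sg θ g g) ^ 2 = |sg θ g g| ^ 2 := (sq_abs _).symm
    _ ≤ (Real.sqrt (sg 1 g g) * Real.sqrt (sg (θ ^ 2) g g)) ^ 2 :=
        pow_le_pow_left₀ (abs_nonneg _) hcs 2
    _ = sg (θ ^ 2) g g * sg 1 g g := by
        rw [mul_pow, Real.sq_sqrt n1, Real.sq_sqrt n2]; ring

private lemma P8c1_gap {g : (κ → ℝ) → ℝ} (hg : Bm g) (hi : ∫ x, g x ∂(gam κ) = 0)
    (hm : ∀ i, mo g i = 0) {θ : ℝ} (h0 : 0 ≤ θ) (h1 : θ ≤ 1) :
    sg θ g g ≤ θ ^ 2 * sg 1 g g := by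
  have n1 : 0 ≤ sg 1 g g := sg_self_nonneg hg 1 zero_le_one le_rfl
  rcases h1.eq_or_lt with h1' | h1'
  · rw [h1']; linarith
  rcases h0.eq_or_lt with h0' | h0'
  · rw [← h0', sg_zero hg hg, hi]; simp
  by_contra hcon
  push Not at hcon
  have nθ : sg θ g g ≤ sg 1 g g := sg_mono hg θ 1 h0 h1 le_rfl
  have hpos : 0 < sg 1 g g := by
    rcases n1.eq_or_lt with h | h
    · rw [← h] at hcon nθ; linarith
    · exact h
  set φ : ℝ → ℝ := fun t => sg t g g / sg 1 g g with hφ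
  have hφ0 : ∀ t, 0 ≤ t → t ≤ 1 → 0 ≤ φ t := fun t ht ht1 =>
    div_nonneg (sg_self_nonneg hg t ht ht1) n1
  have hφ2 : ∀ t, 0 ≤ t → t ≤ 1 → φ t ^ 2 ≤ φ (t ^ 2) := by
    intro t ht ht1
    have := P8c1_cs hg ht ht1
    simp only [hφ]
    rw [div_pow, div_le_div_iff₀ (by positivity) hpos]
    nlinarith
  have hiter : ∀ n : ℕ, φ θ ^ (2 ^ n) ≤ φ (θ ^ (2 ^ n)) := by
    intro n
    induction n with
    | zero => simp
    | succ n ih =>
      have a1 : (0 : ℝ) ≤ θ ^ (2 ^ n) := by positivity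
      have a2 : θ ^ (2 ^ n) ≤ 1 := pow_le_one₀ h0 h1
      have a3 := hφ2 _ a1 a2
      have e1 : φ θ ^ (2 ^ (n + 1)) = (φ θ ^ (2 ^ n)) ^ 2 := by
        rw [← pow_mul, pow_succ]
      have e2 : θ ^ (2 ^ (n + 1)) = (θ ^ (2 ^ n)) ^ 2 := by
        rw [← pow_mul, pow_succ]
      rw [e1, e2]
      exact (pow_le_pow_left₀ (pow_nonneg (hφ0 θ h0 h1) _) ih 2).trans a3
  have hsmall : ∀ r, 0 ≤ r → r ≤ 1 / 4 → φ r ≤ 8 * r ^ 2 := by
    intro r hr hr1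
    have h2 := sg_level2 hg r hr hr1
    rw [hi] at h2
    simp only [hm] at h2
    have h3 : sg (1 / 2) g g ≤ sg 1 g g := sg_mono hg _ _ (by norm_num) (by norm_num) le_rfl
    simp only [hφ]
    rw [div_le_iff₀ hpos]
    have h4 : 8 * r ^ 2 * sg (1 / 2) g g ≤ 8 * r ^ 2 * sg 1 g g :=
      mul_le_mul_of_nonneg_left h3 (by positivity)
    simp at h2
    linarith
  -- ratio
  have hq : 1 < φ θ / θ ^ 2 := by
    rw [lt_div_iff₀ (by positivity), one_mul]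
    simp only [hφ]
    rw [lt_div_iff₀ hpos]
    exact hcon
  have ht1 := tendsto_pow_atTop_atTop_of_one_lt hq
  have ht2 := tendsto_pow_atTop_nhds_zero_of_lt_one h0 h1'
  obtain ⟨K1, hK1⟩ := Filter.eventually_atTop.1 (ht1.eventually_gt_atTop 8)
  obtain ⟨K2, hK2⟩ := Filter.eventually_atTop.1 (ht2.eventually_le_const (show (0 : ℝ) < 1 / 4 by norm_num))
  set n := max K1 K2 with hn
  have hn2 : n ≤ 2 ^ n := Nat.lt_two_pow_self.le
  have b1 := hK1 (2 ^ n) ((le_max_left _ _).trans hn2)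
  have b2 := hK2 (2 ^ n) ((le_max_right _ _).trans hn2)
  have b3 := hiter n
  have b4 := hsmall (θ ^ (2 ^ n)) (by positivity) b2
  rw [div_pow] at b1
  have b5 : (0 : ℝ) < (θ ^ 2) ^ (2 ^ n) := by positivity
  rw [lt_div_iff₀ b5] at b1
  have e : (θ ^ 2) ^ (2 ^ n) = (θ ^ (2 ^ n)) ^ 2 := by
    rw [← pow_mul, ← pow_mul, mul_comm]
  rw [e] at b1
  linarith

theorem pP8c1 : StP8c1 := by
  intro κ _ h ρ ρ₁ hh hi hm h0 h1 h2 h3
  set g := OU (Real.sqrt ρ₁) h with hgdef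
  have hg : Bm g := OU_bm hh _
  have hs0 : 0 ≤ Real.sqrt ρ₁ := Real.sqrt_nonneg _
  have hs1 : Real.sqrt ρ₁ ≤ 1 := Real.sqrt_le_one.2 h3
  have ha : |Real.sqrt ρ₁| ≤ 1 := by rw [abs_of_nonneg hs0]; exact hs1
  have hgi : ∫ x, g x ∂(gam κ) = 0 := by
    rw [hgdef, integral_OU hh _ ha, hi]
  have hgm : ∀ i, mo g i = 0 := fun i => by
    rw [hgdef, mo_OU hh _ ha, hm i, mul_zero]
  have hθ0 : 0 ≤ ρ / ρ₁ := by positivity
  have hθ1 : ρ / ρ₁ ≤ 1 := by rw [div_le_one h2]; exact h1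
  have e1 : sg (ρ / ρ₁) g g = sg ρ h h := by
    rw [hgdef, sg_OU hh hh _ _ hs0 hs1 hθ0 hθ1, Real.sq_sqrt h2.le]
    congr 1
    field_simp
  have e2 : sg 1 g g = sg ρ₁ h h := by
    rw [hgdef, sg_OU hh hh _ _ hs0 hs1 zero_le_one le_rfl, Real.sq_sqrt h2.le, mul_one]
  have := P8c1_gap hg hgi hgm hθ0 hθ1
  rw [e1, e2] at this
  exact this

end Pool.TC
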