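import Pool.Agent.TC.St

set_option autoImplicit false

open MeasureTheory ProbabilityTheory Pool.H65.PS Pool.H65.PT

namespace Pool.TC

private lemma P8d_p {R : ℝ} (hR : 0 ≤ R) : 0 < 527 / 100 - 16 / 5 * R + R ^ 5 / 5 := by
  have h1 : 0 ≤ R * (R ^ 2 - 9 / 5) ^ 2 := by positivity
  -- R^5 ≥ 18/5 R^3 - 81/25 R
  have h2 : 0 ≤ R * (R - 4 / 3) ^ 2 := by positivity
  nlinarith [sq_nonneg (R - 4 / 3), sq_nonneg (R ^ 2 - 9 / 5)]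

private lemma P8d_g {R : ℝ} (hR : 0 ≤ R) :
    0 < 3689 / 100 - 256 / 5 * R + 1054 / 25 * R ^ 2 - 128 / 5 * R ^ 3 + 16 / 5 * R ^ 5
      + 8 / 5 * R ^ 7 := by
  have h1 : 0 ≤ 8 / 5 * (R ^ 3 * (R ^ 2 - 36 / 25) ^ 2) := by positivity
  have h2 : 0 ≤ 976 / 125 * (R * (R ^ 2 - 463 / 250) ^ 2) := by positivity
  have h3 : 0 ≤ R ^ 3 := by positivity
  nlinarith [sq_nonneg (R - 37 / 40)]

private lemma P8d_poly {θ R : ℝ} (h0 : 0 < θ) (h1 : θ ≤ 1) (hR : 0 < R) :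
    9 * θ * (527 / 100 - 16 / 5 * (θ * R) + (θ * R) ^ 5 / 5)
      ≤ (8 + θ ^ 2) * (1 + (1 - θ ^ 2) * R ^ 2 / 2) * (527 / 100 - 16 / 5 * R + R ^ 5 / 5) := by
  have hp := P8d_p hR.le
  have hg := P8d_g hR.le
  set p : ℝ := 527 / 100 - 16 / 5 * R + R ^ 5 / 5 with hpdef
  -- lower bound of the quotient
  have hQ : 0 ≤ 527 / 100 * (8 - θ) - 128 / 5 * R * (1 + θ)
      + 1 / 5 * R ^ 5 * (1 + θ) * (9 * θ ^ 4 + 9 * θ ^ 2 + 8)
      + (8 + θ ^ 2) * (1 + θ) * (R ^ 2 / 2) * p := by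
    have t1 : 1 / 5 * R ^ 5 * (1 + θ) * 8 ≤ 1 / 5 * R ^ 5 * (1 + θ) * (9 * θ ^ 4 + 9 * θ ^ 2 + 8) := by
      apply mul_le_mul_of_nonneg_left _ (by positivity)
      nlinarith [sq_nonneg θ, sq_nonneg (θ ^ 2)]
    have t2 : 8 * ((1 + θ) * (R ^ 2 / 2) * p) ≤ (8 + θ ^ 2) * ((1 + θ) * (R ^ 2 / 2) * p) := by
      apply mul_le_mul_of_nonneg_right _ (by positivity)
      nlinarith [sq_nonneg θ]
    have t3 : 0 ≤ 527 / 100 * (8 - θ) - 128 / 5 * R * (1 + θ) + 1 / 5 * R ^ 5 * (1 + θ) * 8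
        + 8 * ((1 + θ) * (R ^ 2 / 2) * p) := by
      have e : 527 / 100 * (8 - θ) - 128 / 5 * R * (1 + θ) + 1 / 5 * R ^ 5 * (1 + θ) * 8
        + 8 * ((1 + θ) * (R ^ 2 / 2) * p)
        = (1 + θ) / 2 * (3689 / 100 - 256 / 5 * R + 1054 / 25 * R ^ 2 - 128 / 5 * R ^ 3
          + 16 / 5 * R ^ 5 + 8 / 5 * R ^ 7) + (1 - θ) * (527 * 8 / 100 - 3689 / 200) := by
        rw [hpdef]; ring
      rw [e]
      have := mul_nonneg (by linarith : 0 ≤ (1 + θ) / 2) hg.le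
      have := mul_nonneg (by linarith : 0 ≤ 1 - θ) (by norm_num : (0 : ℝ) ≤ 527 * 8 / 100 - 3689 / 200)
      linarith
    nlinarith
  have hfin := mul_nonneg (by linarith : 0 ≤ 1 - θ) hQ
  have e : (8 + θ ^ 2) * (1 + (1 - θ ^ 2) * R ^ 2 / 2) * p
      - 9 * θ * (527 / 100 - 16 / 5 * (θ * R) + (θ * R) ^ 5 / 5)
      = (1 - θ) * (527 / 100 * (8 - θ) - 128 / 5 * R * (1 + θ)
      + 1 / 5 * R ^ 5 * (1 + θ) * (9 * θ ^ 4 + 9 * θ ^ 2 + 8)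
      + (8 + θ ^ 2) * (1 + θ) * (R ^ 2 / 2) * p) := by
    rw [hpdef]; ring
  linarith

theorem pP8d : StP8d := by
  intro θ R h0 h1 hR
  have hpoly := P8d_poly h0 h1 hR
  have hp := P8d_p (R := R) hR.le
  have hpθ := P8d_p (R := θ * R) (by positivity)
  have hx : 0 ≤ (1 - θ ^ 2) * R ^ 2 / 2 := by
    have : 0 ≤ 1 - θ ^ 2 := by nlinarith
    positivity
  -- exp (R²/2) ≥ exp(θ²R²/2) (1 + x)
  have hexp : Real.exp ((θ * R) ^ 2 / 2) * (1 + (1 - θ ^ 2) * R ^ 2 / 2) ≤ Real.exp (R ^ 2 / 2) := by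
    have h2 := Real.add_one_le_exp ((1 - θ ^ 2) * R ^ 2 / 2)
    have h3 : Real.exp (R ^ 2 / 2)
        = Real.exp ((θ * R) ^ 2 / 2) * Real.exp ((1 - θ ^ 2) * R ^ 2 / 2) := by
      rw [← Real.exp_add]; congr 1; ring
    rw [h3]
    exact mul_le_mul_of_nonneg_left (by linarith) (Real.exp_pos _).le
  have e1R : e1 R = (527 / 100 - 16 / 5 * R + R ^ 5 / 5) / R := by
    unfold e1; field_simp
  have e1θ : 9 * θ ^ 2 * e1 (θ * R)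
      = 9 * θ * (527 / 100 - 16 / 5 * (θ * R) + (θ * R) ^ 5 / 5) / R := by
    unfold e1; field_simp
  unfold EE
  have hE := Real.exp_pos ((θ * R) ^ 2 / 2)
  calc 9 * θ ^ 2 * (Real.exp ((θ * R) ^ 2 / 2) * e1 (θ * R))
      = Real.exp ((θ * R) ^ 2 / 2) * (9 * θ ^ 2 * e1 (θ * R)) := by ring
    _ = Real.exp ((θ * R) ^ 2 / 2)
        * (9 * θ * (527 / 100 - 16 / 5 * (θ * R) + (θ * R) ^ 5 / 5) / R) := by rw [e1θ]
    _ ≤ Real.exp ((θ * R) ^ 2 / 2)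
        * ((8 + θ ^ 2) * (1 + (1 - θ ^ 2) * R ^ 2 / 2) * (527 / 100 - 16 / 5 * R + R ^ 5 / 5) / R) := by
        apply mul_le_mul_of_nonneg_left _ hE.le
        exact div_le_div_of_nonneg_right hpoly hR.le
    _ = (8 + θ ^ 2) * ((Real.exp ((θ * R) ^ 2 / 2) * (1 + (1 - θ ^ 2) * R ^ 2 / 2))
        * ((527 / 100 - 16 / 5 * R + R ^ 5 / 5) / R)) := by ring
    _ ≤ (8 + θ ^ 2) * (Real.exp (R ^ 2 / 2) * ((527 / 100 - 16 / 5 * R + R ^ 5 / 5) / R)) := by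
        apply mul_le_mul_of_nonneg_left _ (by positivity)
        exact mul_le_mul_of_nonneg_right hexp (by positivity)
    _ = (8 + θ ^ 2) * (Real.exp (R ^ 2 / 2) * e1 R) := by rw [e1R]

end Pool.TC
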