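import Pool.Agent.TC.St

/-! Module P8e of project TC (MP_c6cf29_pr): polynomial inequalities. -/

set_option autoImplicit false

open MeasureTheory ProbabilityTheory Pool.H65.PS Pool.H65.PT

namespace Pool.TC

private theorem P8e_int1 (R : ℝ) (h1 : 0 ≤ R) (h2 : R ≤ 6 / 5) :
    0 ≤ (527 / 100 - 16 / 5 * R + R ^ 5 / 5) * (1903 / 10000 + 1166 / 10000 * R + 1327 / 10000 * R ^ 2
      - 128 / 10000 * R ^ 3 + 563 / 10000 * R ^ 4 - 336 / 10000 * R ^ 5) - 1 := by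
  have ha : 0 ≤ R - 0 := by linarith
  have hb : 0 ≤ 6 / 5 - R := by linarith
  have key : (6 / 5 : ℝ) ^ 10 * ((527 / 100 - 16 / 5 * R + R ^ 5 / 5) * (1903 / 10000 + 1166 / 10000 * R + 1327 / 10000 * R ^ 2
      - 128 / 10000 * R ^ 3 + 563 / 10000 * R ^ 4 - 336 / 10000 * R ^ 5) - 1) =
    (2881 / 1000000) * (6 / 5 - R) ^ 10 +
      (88591 / 2500000) * (R - 0) ^ 1 * (6 / 5 - R) ^ 9 +
      (16475589 / 25000000) * (R - 0) ^ 2 * (6 / 5 - R) ^ 8 +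
      (54560253 / 15625000) * (R - 0) ^ 3 * (6 / 5 - R) ^ 7 +
      (2831923473 / 312500000) * (R - 0) ^ 4 * (6 / 5 - R) ^ 6 +
      (10481323077 / 781250000) * (R - 0) ^ 5 * (6 / 5 - R) ^ 5 +
      (17940814149 / 1562500000) * (R - 0) ^ 6 * (6 / 5 - R) ^ 4 +
      (10088210481 / 1953125000) * (R - 0) ^ 7 * (6 / 5 - R) ^ 3 +
      (65839989753 / 78125000000) * (R - 0) ^ 8 * (6 / 5 - R) ^ 2 +
      (1589123411 / 195312500000) * (R - 0) ^ 9 * (6 / 5 - R) ^ 1 +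
      (51064730741 / 1953125000000) * (R - 0) ^ 10 := by ring
  have hpos : 0 ≤ (6 / 5 : ℝ) ^ 10 * ((527 / 100 - 16 / 5 * R + R ^ 5 / 5) * (1903 / 10000 + 1166 / 10000 * R + 1327 / 10000 * R ^ 2
      - 128 / 10000 * R ^ 3 + 563 / 10000 * R ^ 4 - 336 / 10000 * R ^ 5) - 1) := by
    rw [key]
    positivity
  exact nonneg_of_mul_nonneg_right hpos (by positivity)

private theorem P8e_int2 (R : ℝ) (h1 : 6 / 5 ≤ R) (h2 : R ≤ 12 / 5) :
    0 ≤ (527 / 100 - 16 / 5 * R + R ^ 5 / 5) * (1903 / 10000 + 1166 / 10000 * R + 1327 / 10000 * R ^ 2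
      - 128 / 10000 * R ^ 3 + 563 / 10000 * R ^ 4 - 336 / 10000 * R ^ 5) - 1 := by
  have ha : 0 ≤ R - 6 / 5 := by linarith
  have hb : 0 ≤ 12 / 5 - R := by linarith
  have key : (6 / 5 : ℝ) ^ 10 * ((527 / 100 - 16 / 5 * R + R ^ 5 / 5) * (1903 / 10000 + 1166 / 10000 * R + 1327 / 10000 * R ^ 2
      - 128 / 10000 * R ^ 3 + 563 / 10000 * R ^ 4 - 336 / 10000 * R ^ 5) - 1) =
    (51064730741 / 1953125000000) * (12 / 5 - R) ^ 10 +
      (100540338071 / 195312500000) * (R - 6 / 5) ^ 1 * (12 / 5 - R) ^ 9 +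
      (422064362529 / 78125000000) * (R - 6 / 5) ^ 2 * (12 / 5 - R) ^ 8 +
      (1574539730493 / 48828125000) * (R - 6 / 5) ^ 3 * (12 / 5 - R) ^ 7 +
      (22644162822849 / 195312500000) * (R - 6 / 5) ^ 4 * (12 / 5 - R) ^ 6 +
      (128164092525441 / 488281250000) * (R - 6 / 5) ^ 5 * (12 / 5 - R) ^ 5 +
      (74228480958777 / 195312500000) * (R - 6 / 5) ^ 6 * (12 / 5 - R) ^ 4 +
      (3369816626529 / 9765625000) * (R - 6 / 5) ^ 7 * (12 / 5 - R) ^ 3 +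
      (71305620990093 / 390625000000) * (R - 6 / 5) ^ 8 * (12 / 5 - R) ^ 2 +
      (8997796549703 / 195312500000) * (R - 6 / 5) ^ 9 * (12 / 5 - R) ^ 1 +
      (4646170403789 / 1953125000000) * (R - 6 / 5) ^ 10 := by ring
  have hpos : 0 ≤ (6 / 5 : ℝ) ^ 10 * ((527 / 100 - 16 / 5 * R + R ^ 5 / 5) * (1903 / 10000 + 1166 / 10000 * R + 1327 / 10000 * R ^ 2
      - 128 / 10000 * R ^ 3 + 563 / 10000 * R ^ 4 - 336 / 10000 * R ^ 5) - 1) := by
    rw [key]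
    positivity
  exact nonneg_of_mul_nonneg_right hpos (by positivity)

/-- P8e -/
theorem pP8e : StP8e := by
  intro R hR
  have h0 : 0 < 527 / 100 - 16 / 5 * R + R ^ 5 / 5 := by
    have e : 527 / 100 - 16 / 5 * R + R ^ 5 / 5 = 1 / 5 * (R * (R ^ 2 - 9 / 5) ^ 2) +
        18 / 25 * ((R - 27 / 20) ^ 2 * (R + 27 / 10)) + (886 / 10000 * R + 17270 / 10000) +
        (72 / 100 * (2 * (27 / 20) ^ 3) * (-1) + 527 / 100 - 17270 / 10000) +
        (72 / 100 * 3 * (27 / 20) ^ 2 - 1 / 5 * (9 / 5) ^ 2 - 16 / 5 - 886 / 10000) * R := by ring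
    rw [e]
    have p1 : 0 ≤ 1 / 5 * (R * (R ^ 2 - 9 / 5) ^ 2) := by positivity
    have p2 : 0 ≤ 18 / 25 * ((R - 27 / 20) ^ 2 * (R + 27 / 10)) := by positivity
    nlinarith
  have he : e1 R = (527 / 100 - 16 / 5 * R + R ^ 5 / 5) / R := by
    unfold e1
    field_simp
  refine ⟨by rw [he]; positivity, ?_⟩
  by_cases h : R ≤ 12 / 5
  · left
    have h1 : e1 R * P5 R = (527 / 100 - 16 / 5 * R + R ^ 5 / 5) * (1903 / 10000 + 1166 / 10000 * R + 1327 / 10000 * R ^ 2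
      - 128 / 10000 * R ^ 3 + 563 / 10000 * R ^ 4 - 336 / 10000 * R ^ 5) := by
      rw [he]
      unfold P5
      field_simp
    rw [h1]
    by_cases h2 : R ≤ 6 / 5
    · linarith [P8e_int1 R hR.le h2]
    · linarith [P8e_int2 R (not_le.1 h2).le h]
  · right
    push Not at h
    have h1 : e1 R * (892 / 10000 * R) = 892 / 10000 * (527 / 100 - 16 / 5 * R + R ^ 5 / 5) := by
      rw [he]
      field_simp
    rw [h1]
    have h2 : (12 / 5 : ℝ) ^ 4 ≤ R ^ 4 := pow_le_pow_left₀ (by norm_num) h.le 4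
    have h3 : (12 / 5 : ℝ) ^ 4 * R ≤ R ^ 5 := by
      have := mul_le_mul_of_nonneg_right h2 hR.le
      calc (12 / 5 : ℝ) ^ 4 * R ≤ R ^ 4 * R := this
        _ = R ^ 5 := by ring
    nlinarith

end Pool.TC
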