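import Pool.Agent.TC.St
import Pool.Agent.Helper65.PT.Law
import Pool.Agent.Helper65.PT.Pmo

/-! TC module P9: the noise stability of the simplex partition of `ℝ³` in polar coordinates of the plane. -/

set_option autoImplicit false

open MeasureTheory ProbabilityTheory Pool.H65.PS Pool.H65.PT

namespace Pool.TC

/-- cosines of the directions. -/
private noncomputable def P9_c : Fin 3 → ℝ := ![1, -1 / 2, -1 / 2]

/-- sines of the directions. -/
private noncomputable def P9_d : Fin 3 → ℝ := ![0, Real.sqrt 3 / 2, -(Real.sqrt 3 / 2)]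

private theorem P9_cos (k : Fin 3) : Real.cos (2 * Real.pi * ((k : ℕ) : ℝ) / 3) = P9_c k := by
  fin_cases k
  · simp [P9_c]
  · have e : 2 * Real.pi * (((1 : Fin 3) : ℕ) : ℝ) / 3 = Real.pi - Real.pi / 3 := by
      simp only [Fin.val_one]
      push_cast
      ring
    show Real.cos (2 * Real.pi * (((1 : Fin 3) : ℕ) : ℝ) / 3) = P9_c 1
    rw [e, Real.cos_pi_sub, Real.cos_pi_div_three]
    simp [P9_c]
    norm_num
  · have e : 2 * Real.pi * (((2 : Fin 3) : ℕ) : ℝ) / 3 = Real.pi / 3 + Real.pi := by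
      simp only [Fin.val_two]
      push_cast
      ring
    show Real.cos (2 * Real.pi * (((2 : Fin 3) : ℕ) : ℝ) / 3) = P9_c 2
    rw [e, Real.cos_add_pi, Real.cos_pi_div_three]
    simp [P9_c]
    norm_num

private theorem P9_sin (k : Fin 3) : Real.sin (2 * Real.pi * ((k : ℕ) : ℝ) / 3) = P9_d k := by
  fin_cases k
  · simp [P9_d]
  · have e : 2 * Real.pi * (((1 : Fin 3) : ℕ) : ℝ) / 3 = Real.pi - Real.pi / 3 := by
      simp only [Fin.val_one]
      push_cast
      ring
    show Real.sin (2 * Real.pi * (((1 : Fin 3) : ℕ) : ℝ) / 3) = P9_d 1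
    rw [e, Real.sin_pi_sub, Real.sin_pi_div_three]
    simp [P9_d]
  · have e : 2 * Real.pi * (((2 : Fin 3) : ℕ) : ℝ) / 3 = Real.pi / 3 + Real.pi := by
      simp only [Fin.val_two]
      push_cast
      ring
    show Real.sin (2 * Real.pi * (((2 : Fin 3) : ℕ) : ℝ) / 3) = P9_d 2
    rw [e, Real.sin_add_pi, Real.sin_pi_div_three]
    simp [P9_d]

private theorem P9_aff {m : ℕ} (j : Fin m) (x : Fin m → ℝ) (a b : ℝ) (ha : 0 < a) :
    cellF j (fun k => a * x k + b) = cellF j x := by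
  unfold cellF
  have : (∀ l, l ≠ j → a * x l + b < a * x j + b) ↔ (∀ l, l ≠ j → x l < x j) := by
    refine forall_congr' fun l => forall_congr' fun _ => ?_
    rw [add_lt_add_iff_right, mul_lt_mul_iff_right₀ ha]
  simp only [this]

/-- the sectors as functions on the plane. -/
private noncomputable def P9_g (j : Fin 3) (y : Fin 2 → ℝ) : ℝ :=
  cellF j (fun k => y 0 * P9_c k + y 1 * P9_d k)

private theorem P9_g_meas (j : Fin 3) : Measurable (P9_g j) := by
  unfold P9_g
  refine (cellF_measurable j).comp ?_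
  fun_prop

private theorem P9_g_bm (j : Fin 3) : Bm (P9_g j) := by
  refine ⟨P9_g_meas j, 1, fun x => ?_⟩
  unfold P9_g
  rw [abs_of_nonneg (cellF_nonneg j _)]
  exact cellF_le_one j _

private theorem P9_g_pt2 (j : Fin 3) (s θ : ℝ) (hs : 0 < s) : P9_g j (pt2 s θ) = sec j θ := by
  unfold P9_g sec
  rw [← P9_aff j (fun k : Fin 3 => Real.cos (θ - 2 * Real.pi * ((k : ℕ) : ℝ) / 3)) s 0 hs]
  congr 1
  funext k
  rw [Real.cos_sub, P9_cos, P9_sin]
  simp only [pt2, Matrix.cons_val_zero, Matrix.cons_val_one]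
  ring

/-- the scale `√(2/3)`. -/
private noncomputable def P9_r : ℝ := Real.sqrt (2 / 3)

private theorem P9_r_sq : P9_r * P9_r = 2 / 3 := Real.mul_self_sqrt (by norm_num)

private theorem P9_r_pos : 0 < P9_r := Real.sqrt_pos.2 (by norm_num)

/-- orthonormal rows. -/
private noncomputable def P9_u : Fin 2 → Fin 3 → ℝ :=
  ![fun k => P9_r * P9_c k, fun k => P9_r * P9_d k]

private theorem P9_frame : Frame P9_u := by
  have h1 := P9_r_sq
  have h2 : Real.sqrt 3 * Real.sqrt 3 = 3 := Real.mul_self_sqrt (by norm_num)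
  intro j k
  unfold dot
  rw [Fin.sum_univ_three]
  fin_cases j <;> fin_cases k
  · simp [P9_u, P9_c]
    linear_combination (3 / 2 : ℝ) * h1
  · simp [P9_u, P9_c, P9_d]
  · simp [P9_u, P9_c, P9_d]
  · simp [P9_u, P9_d]
    linear_combination (Real.sqrt 3 * Real.sqrt 3 / 2) * h1 + (1 / 3 : ℝ) * h2

private theorem P9_xi (j : Fin 3) (x : Fin 3 → ℝ) : P9_g j (xi P9_u x) = cellF j x := by
  have h2 : Real.sqrt 3 * Real.sqrt 3 = 3 := Real.mul_self_sqrt (by norm_num)
  have hp : 0 < P9_r * (3 / 2) := mul_pos P9_r_pos (by norm_num)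
  unfold P9_g
  rw [← P9_aff j x (P9_r * (3 / 2))
    (-(P9_r * (1 / 2) * (x 0 + x 1 + x 2))) hp]
  congr 1
  funext k
  simp only [xi, dot, Fin.sum_univ_three, P9_u, Matrix.cons_val_zero, Matrix.cons_val_one]
  fin_cases k
  · simp [P9_c, P9_d]
    ring
  · simp [P9_c, P9_d]
    linear_combination (P9_r / 4 * (x 1 - x 2)) * h2
  · simp [P9_c, P9_d]
    linear_combination (P9_r / 4 * (x 2 - x 1)) * h2

private theorem P9_sg (ρ : ℝ) (j : Fin 3) :
    sg ρ (cellF j) (cellF j) = sg ρ (P9_g j) (P9_g j) := by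
  have e : (cellF j : (Fin 3 → ℝ) → ℝ) = fun x => P9_g j (xi P9_u x) := by
    funext x
    rw [P9_xi]
  rw [e]
  unfold sg
  simp_rw [Law_xi_lin]
  have h := (measurePreserving_xi P9_u P9_frame).prod (measurePreserving_xi P9_u P9_frame)
  exact Law_integral_comp h
    (F := fun p : (Fin 2 → ℝ) × (Fin 2 → ℝ) =>
      P9_g j p.1 * P9_g j (ρ • p.1 + Real.sqrt (1 - ρ ^ 2) • p.2))
    (((P9_g_meas j).comp measurable_fst).mul ((P9_g_meas j).comp (by fun_prop)))

private theorem P9_rm_pos : ∀ᵐ s ∂rm, 0 < s := by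
  unfold rm
  refine (withDensity_absolutelyContinuous _ _).ae_le ?_
  exact ae_restrict_mem measurableSet_Ioi

private theorem P9_sfinite : SFinite rm := by
  unfold rm
  infer_instance

/-- module P9. -/
theorem pP9 (hP0c : StP0c) : StP9 := by
  intro ρ h0 h1
  have := P9_sfinite
  have hb : ∀ j : Fin 3, Integrable (fun p : ℝ × ℝ => kap ρ p.1 p.2 *
      Qb (bb ρ p.1 p.2) (fun θ => P9_g j (pt2 p.1 θ)) (fun φ => P9_g j (pt2 p.2 φ)))
      (rm.prod rm) := fun j => (hP0c ρ (P9_g j) (P9_g j) h0 h1 (P9_g_bm j) (P9_g_bm j)).1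
  have hv : ∀ j : Fin 3, sg ρ (cellF j) (cellF j) = ∫ p : ℝ × ℝ, kap ρ p.1 p.2 *
      Qb (bb ρ p.1 p.2) (fun θ => P9_g j (pt2 p.1 θ)) (fun φ => P9_g j (pt2 p.2 φ))
      ∂(rm.prod rm) := by
    intro j
    rw [P9_sg, (hP0c ρ (P9_g j) (P9_g j) h0 h1 (P9_g_bm j) (P9_g_bm j)).2,
      integral_prod _ (hb j)]
  unfold Lam Ss
  rw [Finset.sum_congr rfl fun j _ => hv j, ← integral_finsetSum _ fun j _ => hb j,
    integral_prod _ (integrable_finsetSum _ fun j _ => hb j)]
  refine integral_congr_ae ?_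
  filter_upwards [P9_rm_pos] with s hs
  refine integral_congr_ae ?_
  filter_upwards [P9_rm_pos] with t ht
  show ∑ j : Fin 3, kap ρ s t * Qb (bb ρ s t) (fun θ => P9_g j (pt2 s θ))
    (fun φ => P9_g j (pt2 t φ)) = kap ρ s t * Sgb (bb ρ s t)
  unfold Sgb
  rw [Finset.mul_sum]
  refine Finset.sum_congr rfl fun j _ => ?_
  have e1 : (fun θ => P9_g j (pt2 s θ)) = sec j := funext fun θ => P9_g_pt2 j s θ hs
  have e2 : (fun φ => P9_g j (pt2 t φ)) = sec j := funext fun φ => P9_g_pt2 j t φ ht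
  rw [e1, e2]

end Pool.TC
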