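import Pool.Agent.TC.St
import Pool.Agent.Helper65.PS.Base

/-! Project TC, module Soft: softmax partitions with equal volumes. -/

set_option autoImplicit false

open MeasureTheory ProbabilityTheory Pool.H65.PS Pool.H65.PT

namespace Pool.TC

section Soft

set_option linter.unusedSectionVars false

variable {κ : Type} [Fintype κ] {m : ℕ}

/-- the exponents -/
noncomputable def Soft_y (G : Fin m → (κ → ℝ) → ℝ) (T : ℝ) (c : Fin m → ℝ) (x : κ → ℝ) :
    Fin m → ℝ := fun k => (G k x + c k) / T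

theorem Soft_meas {G : Fin m → (κ → ℝ) → ℝ} (hG : ∀ j, Measurable (G j)) (T : ℝ)
    (c : Fin m → ℝ) : Measurable (Soft_y G T c) :=
  measurable_pi_iff.2 fun k => ((hG k).add_const _).div_const _

theorem Soft_norm {G : Fin m → (κ → ℝ) → ℝ} {B T : ℝ} (hB0 : 0 ≤ B) (hB : ∀ j x, |G j x| ≤ B)
    (hT : 0 < T) (c : Fin m → ℝ) (x : κ → ℝ) : ‖Soft_y G T c x‖ ≤ (B + ‖c‖) / T := by
  rw [pi_norm_le_iff_of_nonneg (by positivity)]
  intro k
  have h1 : |c k| ≤ ‖c‖ := by simpa using norm_le_pi_norm c k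
  rw [Soft_y, Real.norm_eq_abs, abs_div, abs_of_pos hT]
  refine div_le_div_of_nonneg_right ?_ hT.le
  exact (abs_add_le _ _).trans (add_le_add (hB k x) h1)

theorem Soft_lse [Nonempty (Fin m)] {G : Fin m → (κ → ℝ) → ℝ} {B T : ℝ} (hB0 : 0 ≤ B)
    (hB : ∀ j x, |G j x| ≤ B) (hT : 0 < T) (c : Fin m → ℝ) (x : κ → ℝ) :
    ‖lse (Soft_y G T c x)‖ ≤ (B + ‖c‖) / T + |lse (0 : Fin m → ℝ)| := by
  have h1 := abs_lse_sub_le (Soft_y G T c x) 0
  rw [sub_zero] at h1
  have h2 := Soft_norm hB0 hB hT c x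
  have h3 : |lse (Soft_y G T c x)| ≤
      |lse (Soft_y G T c x) - lse (0 : Fin m → ℝ)| + |lse (0 : Fin m → ℝ)| := by
    have := abs_add_le (lse (Soft_y G T c x) - lse (0 : Fin m → ℝ)) (lse (0 : Fin m → ℝ))
    rwa [sub_add_cancel] at this
  rw [Real.norm_eq_abs]
  linarith

theorem Soft_aesm [Nonempty (Fin m)] {G : Fin m → (κ → ℝ) → ℝ} (hG : ∀ j, Measurable (G j))
    (T : ℝ) (c : Fin m → ℝ) :
    AEStronglyMeasurable (fun x => lse (Soft_y G T c x)) (gam κ) :=
  (continuous_lse.measurable.comp (Soft_meas hG T c)).aestronglyMeasurable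

theorem Soft_int [Nonempty (Fin m)] {G : Fin m → (κ → ℝ) → ℝ} (hG : ∀ j, Measurable (G j))
    {B T : ℝ} (hB0 : 0 ≤ B) (hB : ∀ j x, |G j x| ≤ B) (hT : 0 < T) (c : Fin m → ℝ) :
    Integrable (fun x => lse (Soft_y G T c x)) (gam κ) :=
  Integrable.of_bound (Soft_aesm hG T c) _
    (Filter.Eventually.of_forall fun x => Soft_lse hB0 hB hT c x)

theorem Soft_intsm [Nonempty (Fin m)] {G : Fin m → (κ → ℝ) → ℝ} (hG : ∀ j, Measurable (G j))
    (T : ℝ) (c : Fin m → ℝ) (j : Fin m) :
    Integrable (fun x => sm (Soft_y G T c x) j) (gam κ) := by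
  refine Integrable.of_bound
    ((continuous_sm j).measurable.comp (Soft_meas hG T c)).aestronglyMeasurable 1
    (Filter.Eventually.of_forall fun x => ?_)
  rw [Real.norm_eq_abs, abs_of_pos (sm_pos _ j)]
  calc sm (Soft_y G T c x) j ≤ ∑ k, sm (Soft_y G T c x) k :=
        Finset.single_le_sum (f := fun k => sm (Soft_y G T c x) k)
          (fun k _ => (sm_pos _ k).le) (Finset.mem_univ j)
    _ = 1 := sm_sum _

theorem Soft_dir (G : Fin m → (κ → ℝ) → ℝ) (T : ℝ) (c h : Fin m → ℝ) (t : ℝ) (x : κ → ℝ) :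
    Soft_y G T (c + t • h) x = Soft_y G T c x + t • (T⁻¹ • h) := by
  funext k
  simp only [Soft_y, Pi.add_apply, Pi.smul_apply, smul_eq_mul]
  ring

theorem Soft_mn_le [Nonempty (Fin m)] (x v : Fin m → ℝ) : |mn x v| ≤ ‖v‖ := by
  unfold mn
  exact abs_sm_avg_le x v ‖v‖ fun j => by simpa using norm_le_pi_norm v j

theorem Soft_deriv [Nonempty (Fin m)] {G : Fin m → (κ → ℝ) → ℝ} (hG : ∀ j, Measurable (G j))
    {B T : ℝ} (hB0 : 0 ≤ B) (hB : ∀ j x, |G j x| ≤ B) (hT : 0 < T) (c h : Fin m → ℝ) :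
    HasDerivAt (fun t : ℝ => ∫ x, lse (Soft_y G T (c + t • h) x) ∂(gam κ))
      (∫ x, mn (Soft_y G T c x) (T⁻¹ • h) ∂(gam κ)) 0 := by
  have h1 := hasDerivAt_integral_of_dominated_loc_of_deriv_le (μ := gam κ) (x₀ := (0 : ℝ))
    (s := Set.univ) (bound := fun _ => ‖T⁻¹ • h‖)
    (F := fun (t : ℝ) (x : κ → ℝ) => lse (Soft_y G T (c + t • h) x))
    (F' := fun (t : ℝ) (x : κ → ℝ) => mn (Soft_y G T c x + t • (T⁻¹ • h)) (T⁻¹ • h))
    Filter.univ_mem
    (Filter.Eventually.of_forall fun t => Soft_aesm hG T _)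
    (Soft_int hG hB0 hB hT _)
    ?_
    (Filter.Eventually.of_forall fun x t _ => by
      rw [Real.norm_eq_abs]
      exact Soft_mn_le _ _)
    (integrable_const _)
    (Filter.Eventually.of_forall fun x t _ => ?_)
  · have h2 := h1.2
    simp only [zero_smul, add_zero] at h2
    exact h2
  · have h3 : Measurable fun x => Soft_y G T c x + (0 : ℝ) • (T⁻¹ • h) :=
      (Soft_meas hG T c).add_const _
    have h4 : Continuous fun y : Fin m → ℝ => mn y (T⁻¹ • h) :=
      cont_mn_comp continuous_id continuous_const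
    exact (h4.measurable.comp h3).aestronglyMeasurable
  · simp only [Soft_dir]
    exact hasDerivAt_lse (Soft_y G T c x) (T⁻¹ • h) t

end Soft

theorem pSoft : StSoft := by
  intro κ _ m hm G hG B hB0 hB T hT hT1
  have hne : Nonempty (Fin m) := ⟨⟨0, by omega⟩⟩
  have hm1 : (1 : ℝ) ≤ m := by exact_mod_cast hm
  set R : ℝ := m * (2 * B + m) with hR
  have hR0 : 0 ≤ R := by positivity
  set Φ : (Fin m → ℝ) → ℝ := fun c => ∫ x, lse (Soft_y G T c x) ∂(gam κ) with hΦ
  set K : Set (Fin m → ℝ) :=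
    (Set.univ.pi fun _ => Set.Icc (-(R + 1)) (R + 1)) ∩ {c | ∑ j, c j = 0} with hK
  have hKm : ∀ c : Fin m → ℝ, c ∈ K ↔ (∀ j, |c j| ≤ R + 1) ∧ ∑ j, c j = 0 := by
    intro c
    simp only [hK, Set.mem_inter_iff, Set.mem_pi, Set.mem_univ, true_implies, Set.mem_Icc,
      Set.mem_ofPred_eq, abs_le]
  have hKc : IsCompact K := by
    refine (isCompact_univ_pi fun _ => isCompact_Icc).inter_right ?_
    exact isClosed_eq (by fun_prop) continuous_const
  have hKn : K.Nonempty := by
    refine ⟨0, (hKm 0).2 ⟨fun j => ?_, by simp⟩⟩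
    rw [Pi.zero_apply, abs_zero]
    linarith
  have hcont : ContinuousOn Φ K := by
    refine continuousOn_of_dominated (bound := fun _ => (B + (R + 1)) / T + |lse (0 : Fin m → ℝ)|)
      (fun c _ => Soft_aesm hG T c) (fun c hc => Filter.Eventually.of_forall fun x => ?_)
      (integrable_const _) (Filter.Eventually.of_forall fun x => ?_)
    · refine (Soft_lse hB0 hB hT c x).trans ?_
      have h1 : ‖c‖ ≤ R + 1 := by
        rw [pi_norm_le_iff_of_nonneg (by linarith)]
        intro j
        rw [Real.norm_eq_abs]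
        exact ((hKm c).1 hc).1 j
      have h2 : (B + ‖c‖) / T ≤ (B + (R + 1)) / T :=
        div_le_div_of_nonneg_right (by linarith) hT.le
      linarith
    · have h1 : Continuous fun c : Fin m → ℝ => Soft_y G T c x := by
        unfold Soft_y
        fun_prop
      exact (continuous_lse.comp h1).continuousOn
  obtain ⟨c, hcK, hmin⟩ := hKc.exists_isMinOn hKn hcont
  have hc0 : ∑ j, c j = 0 := ((hKm c).1 hcK).2
  -- upper bound for the coordinates
  have hlog : Real.log m ≤ m := (Real.log_le_sub_one_of_pos (by linarith)).trans (by linarith)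
  have hlog0 : 0 ≤ Real.log m := Real.log_nonneg hm1
  have hup : ∀ j, c j ≤ 2 * B + m := by
    intro j
    have h1 : (c j - B) / T ≤ Φ c := by
      have e1 : (c j - B) / T = ∫ _x : κ → ℝ, (c j - B) / T ∂(gam κ) := by simp
      rw [e1]
      refine integral_mono (integrable_const _) (Soft_int hG hB0 hB hT c) fun x => ?_
      refine le_trans ?_ (le_lse (Soft_y G T c x) j)
      refine div_le_div_of_nonneg_right ?_ hT.le
      have := (abs_le.1 (hB j x)).1
      linarith
    have h2 : Φ 0 ≤ Real.log m + B / T := by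
      have e1 : Real.log m + B / T = ∫ _x : κ → ℝ, (Real.log m + B / T) ∂(gam κ) := by simp
      rw [e1]
      refine integral_mono (Soft_int hG hB0 hB hT 0) (integrable_const _) fun x => ?_
      have h3 : lse (Soft_y G T 0 x) ≤ lse (fun _ : Fin m => B / T) := by
        refine lse_mono fun k => ?_
        rw [Soft_y, Pi.zero_apply, add_zero]
        exact div_le_div_of_nonneg_right ((le_abs_self _).trans (hB k x)) hT.le
      rw [lse_zero_const, Fintype.card_fin] at h3
      exact h3
    have h3 : Φ c ≤ Φ 0 := by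
      refine hmin ((hKm 0).2 ⟨fun j => ?_, by simp⟩)
      rw [Pi.zero_apply, abs_zero]
      linarith
    have h4 : (c j - B) / T ≤ Real.log m + B / T := by linarith
    have h5 : c j - B ≤ T * Real.log m + B := by
      rw [div_le_iff₀ hT] at h4
      have : (Real.log m + B / T) * T = T * Real.log m + B := by field_simp
      linarith
    have h6 : T * Real.log m ≤ m := by nlinarith
    linarith
  have habs : ∀ j, |c j| ≤ R := by
    intro j
    have h1 : ∑ k ∈ Finset.univ.erase j, c k ≤ ∑ _k ∈ Finset.univ.erase j, (2 * B + (m : ℝ)) :=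
      Finset.sum_le_sum fun k _ => hup k
    rw [Finset.sum_const, Finset.card_erase_of_mem (Finset.mem_univ j), Finset.card_univ,
      Fintype.card_fin, nsmul_eq_mul, Nat.cast_sub hm, Nat.cast_one] at h1
    have h2 : c j + ∑ k ∈ Finset.univ.erase j, c k = 0 := by
      rw [Finset.add_sum_erase _ _ (Finset.mem_univ j)]
      exact hc0
    have h3 := hup j
    have h4 : 0 ≤ 2 * B + (m : ℝ) := by linarith
    rw [abs_le, hR]
    constructor
    · nlinarith
    · nlinarith
  -- the derivative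
  have hder : ∀ i j, ∫ x, sm (Soft_y G T c x) i ∂(gam κ) = ∫ x, sm (Soft_y G T c x) j ∂(gam κ) := by
    intro i j
    set h : Fin m → ℝ := Pi.single i 1 - Pi.single j 1 with hh
    have hs : ∑ k, h k = 0 := by
      simp [hh]
    have ha : ∀ k, |h k| ≤ 1 := by
      intro k
      simp only [hh, Pi.sub_apply, Pi.single_apply]
      split_ifs <;> norm_num
    have h1 := Soft_deriv hG hB0 hB hT c h
    have h2 : IsLocalMin (fun t : ℝ => Φ (c + t • h)) 0 := by
      have h3 : ∀ᶠ t : ℝ in nhds 0, |t| < 1 := by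
        have := (continuous_abs (G := ℝ)).tendsto 0
        rw [abs_zero] at this
        exact this.eventually (gt_mem_nhds one_pos)
      refine h3.mono fun t ht => ?_
      have h4 : c + t • h ∈ K := by
        refine (hKm _).2 ⟨fun k => ?_, ?_⟩
        · rw [Pi.add_apply, Pi.smul_apply, smul_eq_mul]
          refine (abs_add_le _ _).trans ?_
          rw [abs_mul]
          have := habs k
          have := ha k
          have := abs_nonneg (h k)
          nlinarith [abs_nonneg t]
        · simp only [Pi.add_apply, Pi.smul_apply, smul_eq_mul]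
          rw [Finset.sum_add_distrib, ← Finset.mul_sum, hc0, hs]
          ring
      have h5 := hmin h4
      simp only [zero_smul, add_zero]
      exact h5
    have h3 := h2.hasDerivAt_eq_zero h1
    have h4 : ∀ x, mn (Soft_y G T c x) (T⁻¹ • h) =
        T⁻¹ * (sm (Soft_y G T c x) i - sm (Soft_y G T c x) j) := by
      intro x
      rw [mn_smul]
      congr 1
      simp only [mn, hh, Pi.sub_apply, Pi.single_apply, mul_sub, Finset.sum_sub_distrib, mul_ite,
        mul_one, mul_zero, Finset.sum_ite_eq', Finset.mem_univ, if_true]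
    simp only [h4] at h3
    rw [integral_const_mul, integral_sub (Soft_intsm hG T c i) (Soft_intsm hG T c j)] at h3
    have h5 : T⁻¹ ≠ 0 := inv_ne_zero hT.ne'
    have h6 := (mul_eq_zero.1 h3).resolve_left h5
    linarith
  have hsum : ∑ j, ∫ x, sm (Soft_y G T c x) j ∂(gam κ) = 1 := by
    rw [← integral_finsetSum _ fun j _ => Soft_intsm hG T c j]
    simp only [sm_sum]
    simp
  refine ⟨c, habs, fun j => ?_⟩
  have h1 : ∑ _k : Fin m, ∫ x, sm (Soft_y G T c x) j ∂(gam κ) = 1 := by
    rw [← hsum]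
    exact Finset.sum_congr rfl fun k _ => hder j k
  rw [Finset.sum_const, Finset.card_univ, Fintype.card_fin, nsmul_eq_mul] at h1
  have h2 : (m : ℝ) ≠ 0 := by linarith
  rw [eq_div_iff h2, mul_comm]
  exact h1

end Pool.TC
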