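import Pool.Agent.TC.M_D1
import Pool.Agent.TC.M_D2a
import Pool.Agent.TC.M_Soft
import Pool.Agent.TC.M_D2b
import Pool.Agent.TC.M_D3a
import Pool.Agent.TC.M_D3b
import Pool.Agent.TC.M_D3c
import Pool.Agent.TC.M_D3d
import Pool.Agent.TC.M_D4a
import Pool.Agent.TC.M_D4
import Pool.Agent.TC.M_D5
import Pool.Agent.TC.M_D6x
import Pool.Agent.TC.M_D6y
import Pool.Agent.TC.M_D6z
import Pool.Agent.TC.M_D7a
import Pool.Agent.TC.M_D7b
import Pool.Agent.TC.M_D7c
import Pool.Agent.TC.M_D8a
import Pool.Agent.TC.M_D8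
import Pool.Agent.TC.M_D9
import Pool.Agent.TC.M_D10
import Pool.Agent.TC.M_P0a
import Pool.Agent.TC.M_P0b
import Pool.Agent.TC.M_P0c
import Pool.Agent.TC.M_P0d
import Pool.Agent.TC.M_P1
import Pool.Agent.TC.M_P2
import Pool.Agent.TC.M_P3
import Pool.Agent.TC.M_P4a
import Pool.Agent.TC.M_P4b
import Pool.Agent.TC.M_P5a
import Pool.Agent.TC.M_P5b
import Pool.Agent.TC.M_P5c
import Pool.Agent.TC.M_P5
import Pool.Agent.TC.M_P6a
import Pool.Agent.TC.M_P6b
import Pool.Agent.TC.M_P6
import Pool.Agent.TC.M_P7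
import Pool.Agent.TC.M_P8a
import Pool.Agent.TC.M_P8e
import Pool.Agent.TC.M_P8d
import Pool.Agent.TC.M_P8b1
import Pool.Agent.TC.M_P8b2
import Pool.Agent.TC.M_P8c1
import Pool.Agent.TC.M_P8c
import Pool.Agent.TC.M_P8
import Pool.Agent.TC.M_P9
import Pool.Agent.TC.M_G

/-! Project TC: assembly of all modules. -/

set_option autoImplicit false

open MeasureTheory ProbabilityTheory Pool.H65.PS Pool.H65.PT

namespace Pool.TC

theorem allD1 : StD1 := pD1

theorem allD2a : StD2a := pD2a

theorem allSoft : StSoft := pSoft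

theorem allD2b : StD2b := pD2b allSoft

theorem allD3a : StD3a := pD3a

theorem allD3b : StD3b := pD3b

theorem allD3c : StD3c := pD3c allD3a allD3b

theorem allD3d : StD3d := pD3d

theorem allD4a : StD4a := pD4a

theorem allD4 : StD4 := pD4 allD2a allD2b allD3c allD3d allD4a

theorem allD5 : StD5 := pD5

theorem allD6x : StD6x := pD6x

theorem allD6y : StD6y := pD6y allD6x

theorem allD6z : StD6z := pD6z allD6x

theorem allD7a : StD7a := pD7a

theorem allD7b : StD7b := pD7b

theorem allD7c : StD7c := pD7c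

theorem allD8a : StD8a := pD8a

theorem allD8 : StD8 := pD8 allD4 allD5 allD6y allD6z allD7a allD7b allD7c allD8a

theorem allD9 : StD9 := pD9

theorem allD10 : StD10 := pD10 allD1 allD6z allD8 allD9

theorem allP0a : StP0a := pP0a

theorem allP0b : StP0b := pP0b

theorem allP0c : StP0c := pP0c allP0a allP0b

theorem allP0d : StP0d := pP0d

theorem allP1 : StP1 := pP1

theorem allP2 : StP2 := pP2

theorem allP3 : StP3 := pP3

theorem allP4a : StP4a := pP4a

theorem allP4b : StP4b := pP4b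

theorem allP5a : StP5a := pP5a

theorem allP5b : StP5b := pP5b

theorem allP5c : StP5c := pP5c

theorem allP5 : StP5 := pP5 allP2 allP3 allP4a allP4b allP5a allP5b allP5c

theorem allP6a : StP6a := pP6a

theorem allP6b : StP6b := pP6b

theorem allP6 : StP6 := pP6 allP6a allP6b

theorem allP7 : StP7 := pP7 allP0c allP0d allP1 allP5 allP6

theorem allP8a : StP8a := pP8a allP6 allP0d

theorem allP8e : StP8e := pP8e

theorem allP8d : StP8d := pP8d

theorem allP8b1 : StP8b1 := pP8b1

theorem allP8b2 : StP8b2 := pP8b2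

theorem allP8c1 : StP8c1 := pP8c1

theorem allP8c : StP8c := pP8c allP0a allP0c allP8c1

theorem allP8 : StP8 := pP8 allP8a allP8b1 allP8b2 allP8c allP8d allP8e

theorem allP9 : StP9 := pP9 allP0c

theorem allG : StG := pG allD10 allP7 allP8 allP9 allP0a

end Pool.TC
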