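import Pool.Agent.Helper65.PT.Defs

/-! Definitions for the three-candidate theorem (MP_c6cf29_pr): plurality is stablest for `m = 3` and all
correlations `0 ≤ ρ ≤ 1/3`. -/

set_option autoImplicit false

open MeasureTheory ProbabilityTheory Pool.H65.PS Pool.H65.PT

namespace Pool.TC

noncomputable section

variable {κ : Type} [Fintype κ] {m : ℕ}

/-! ### dimension reduction -/

/-- total noise stability. -/
def St (ρ : ℝ) (f : (κ → ℝ) → Fin m → ℝ) : ℝ := ∑ j, sg ρ (fun x => f x j) (fun x => f x j)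

/-- `F` maximises the noise stability among the balanced measurable simplex-valued functions. -/
structure Mx (ρ : ℝ) (F : (κ → ℝ) → Fin m → ℝ) : Prop where
  pt : Pt F
  bal : Bal F
  max : ∀ f : (κ → ℝ) → Fin m → ℝ, Pt f → Bal f → St ρ f ≤ St ρ F

/-- `L¹` distance. -/
def L1 (F G : (κ → ℝ) → Fin m → ℝ) : ℝ := ∫ x, ∑ j, |G x j - F x j| ∂(gam κ)

/-- volume defect. -/
def df (G : (κ → ℝ) → Fin m → ℝ) (j : Fin m) : ℝ := ∫ x, G x j ∂(gam κ) - 1 / (m : ℝ)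

/-- near `F`, mass can be moved from colour `i` to colour `j` at small cost. -/
def Tr (F : (κ → ℝ) → Fin m → ℝ) (H : Fin m → (κ → ℝ) → ℝ) (i j : Fin m) : Prop :=
  ∃ C : ℝ, 0 ≤ C ∧ ∀ ε : ℝ, 0 < ε → ∃ R δ : ℝ, 0 < R ∧ 0 < δ ∧
    ∀ G : (κ → ℝ) → Fin m → ℝ, Pt G → L1 F G ≤ δ → ∀ σ : ℝ, 0 ≤ σ → σ ≤ δ →
      ∃ G' : (κ → ℝ) → Fin m → ℝ, Pt G' ∧ (∀ x, R < ‖x‖ → G' x = G x) ∧
        (∀ k, df G' k = df G k + σ * ((if k = j then 1 else 0) - (if k = i then 1 else 0))) ∧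
        L1 G G' ≤ C * σ ∧
        -(ε * σ) ≤ ∫ x, ∑ k, (G' x k - G x k) * H k x ∂(gam κ)

/-- `F (y, a u + h)`. -/
def shf (a h : ℝ) (F : (κ ⊕ Unit → ℝ) → Fin m → ℝ) : (κ ⊕ Unit → ℝ) → Fin m → ℝ :=
  fun x => F (Sum.elim (fun i => x (Sum.inl i)) (fun _ => a * x (Sum.inr ()) + h))

/-- noise stability with correlation `r` in the last coordinate and `ρ` in the others. -/
def sr (ρ r : ℝ) (F : (κ ⊕ Unit → ℝ) → Fin m → ℝ) : ℝ :=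
  ∑ j, ∫ p : (κ ⊕ Unit → ℝ) × (κ ⊕ Unit → ℝ), F p.1 j * F (Sum.elim
      (fun i => ρ * p.1 (Sum.inl i) + Real.sqrt (1 - ρ ^ 2) * p.2 (Sum.inl i))
      (fun _ => r * p.1 (Sum.inr ()) + Real.sqrt (1 - r ^ 2) * p.2 (Sum.inr ()))) j
    ∂((gam (κ ⊕ Unit)).prod (gam (κ ⊕ Unit)))

/-- average over the last coordinate. -/
def marg (F : (κ ⊕ Unit → ℝ) → Fin m → ℝ) : (κ → ℝ) → Fin m → ℝ :=
  fun y j => ∫ u : Unit → ℝ, F (Sum.elim y u) j ∂(gam Unit)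

/-- `F` smoothed by `T_{√ρ}` in the first coordinates, as a function of the last one. -/
def fib (ρ : ℝ) (F : (κ ⊕ Unit → ℝ) → Fin m → ℝ) (j : Fin m) (y : κ → ℝ) (u : Unit → ℝ) : ℝ :=
  OU (Real.sqrt ρ) (fun z : κ → ℝ => F (Sum.elim z u) j) y

/-! ### the plane in polar coordinates -/

/-- uniform probability on the circle (angles in `(-π, π]`). -/
def cm : Measure ℝ :=
  ENNReal.ofReal (2 * Real.pi)⁻¹ • (volume.restrict (Set.Ioc (-Real.pi) Real.pi))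

/-- law of the radius. -/
def rm : Measure ℝ :=
  (volume.restrict (Set.Ioi (0 : ℝ))).withDensity (fun s => ENNReal.ofReal (s * Real.exp (-(s ^ 2) / 2)))

/-- polar coordinates. -/
def pt2 (s θ : ℝ) : Fin 2 → ℝ := ![s * Real.cos θ, s * Real.sin θ]

/-- modified Bessel function `I_0`. -/
def I0 (b : ℝ) : ℝ := ∫ θ, Real.exp (b * Real.cos θ) ∂cm

/-- `⟨u, e^{b cos} * v⟩` on the circle. -/
def Qb (b : ℝ) (u v : ℝ → ℝ) : ℝ :=
  ∫ θ, ∫ φ, u θ * v φ * Real.exp (b * Real.cos (θ - φ)) ∂cm ∂cm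

/-- radial factor of the Mehler kernel of the plane. -/
def kap (ρ s t : ℝ) : ℝ :=
  (1 - ρ ^ 2)⁻¹ * Real.exp (-(ρ ^ 2 * (s ^ 2 + t ^ 2)) / (2 * (1 - ρ ^ 2)))

/-- exponent of the angular factor. -/
def bb (ρ s t : ℝ) : ℝ := ρ * s * t / (1 - ρ ^ 2)

/-- the constant `√3/π - 1/6 - 3/π²`. -/
def c3 : ℝ := Real.sqrt 3 / Real.pi - 1 / 6 - 3 / Real.pi ^ 2

/-- the constant `Λ(b)` of the circle inequality. -/
def Lb (b : ℝ) : ℝ :=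
  Real.exp (-b / 2) / 3 + 3 / Real.pi ^ 2 *
    (∫ w in (0 : ℝ)..(2 * Real.pi / 3), w * Real.exp (b * Real.cos w)) - c3 * b * Real.exp (-b)

/-- the three sectors of opening `2π/3`, as functions of the angle. -/
def sec (j : Fin 3) (θ : ℝ) : ℝ :=
  cellF j (fun k : Fin 3 => Real.cos (θ - 2 * Real.pi * ((k : ℕ) : ℝ) / 3))

/-- value of the sectors on the circle. -/
def Sgb (b : ℝ) : ℝ := ∑ j : Fin 3, Qb b (sec j) (sec j)

/-- noise stability of the three sectors. -/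
def Ss (ρ : ℝ) : ℝ := ∫ s, ∫ t, kap ρ s t * Sgb (bb ρ s t) ∂rm ∂rm

/-- the weight `W_ρ(s)`. -/
def Wr (ρ s : ℝ) : ℝ := ∫ t, kap ρ s t * (I0 (bb ρ s t) - Lb (bb ρ s t)) ∂rm

/-- the radial quadratic form. -/
def Sr (ρ : ℝ) (e : ℝ → ℝ) : ℝ := ∫ s, ∫ t, kap ρ s t * I0 (bb ρ s t) * e s * e t ∂rm ∂rm

/-- circle functions with values in `[0,1]`. -/
structure Cf (u : ℝ → ℝ) : Prop where
  meas : Measurable u
  nn : ∀ θ, 0 ≤ u θ
  le : ∀ θ, u θ ≤ 1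
  per : ∀ θ, u (θ + 2 * Real.pi) = u θ

/-- layer form. -/
def Bw (w : ℝ) (u : ℝ → ℝ) : ℝ :=
  ∫ θ, ∫ φ, u θ * u φ * (if Real.cos w < Real.cos (θ - φ) then 1 else 0) ∂cm ∂cm

/-- value of the layer form on an arc of measure `α`. -/
def an (ν α : ℝ) : ℝ := 2 * α * ν - ν ^ 2 + (max (ν - α) 0) ^ 2 + (max (ν - (1 - α)) 0) ^ 2

/-- the layer constant. -/
def ee (ν : ℝ) : ℝ := if ν ≤ 1 / 3 then 6 * ν ^ 2 else 1

/-- fraction of colour `j` on the circle of radius `s`. -/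
def al (f : (Fin 2 → ℝ) → Fin 3 → ℝ) (j : Fin 3) (s : ℝ) : ℝ := ∫ θ, f (pt2 s θ) j ∂cm

/-- `5.27/R - 3.2 + 0.2 R⁴`. -/
def e1 (R : ℝ) : ℝ := 527 / 100 / R - 16 / 5 + R ^ 4 / 5

/-- envelope of `1 / W`. -/
def EE (R : ℝ) : ℝ := Real.exp (R ^ 2 / 2) * e1 R

/-- lower bound for `exp (R²/2) W`. -/
def P5 (R : ℝ) : ℝ := 1903 / 10000 * R + 1166 / 10000 * R ^ 2 + 1327 / 10000 * R ^ 3
  - 128 / 10000 * R ^ 4 + 563 / 10000 * R ^ 5 - 336 / 10000 * R ^ 6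

/-- lower bound for `I_0 - Λ`. -/
def p5 (b : ℝ) : ℝ := 1519 / 10000 * b + 583 / 10000 * b ^ 2 + 353 / 10000 * b ^ 3
  - 16 / 10000 * b ^ 4 + 3 / 1000 * b ^ 5 - 7 / 10000 * b ^ 6

/-- `∫ cos^k dν` for the signed measure `ν = dw/π on (0,π) - δ_{2π/3}/3 - (3w/π²) dw on (0,2π/3)`. -/
def wk (k : ℕ) : ℝ := (∫ θ, Real.cos θ ^ k ∂cm) - (-1 / 2) ^ k / 3
  - 3 / Real.pi ^ 2 * ∫ w in (0 : ℝ)..(2 * Real.pi / 3), w * Real.cos w ^ k

end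

end Pool.TC
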