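import Pool.Agent.TC.St
import Pool.Agent.Helper65.PT.Trf
import Pool.Agent.Helper65.PT.Plm

set_option autoImplicit false

open MeasureTheory ProbabilityTheory Pool.H65.PS Pool.H65.PT

namespace Pool.TC

/-- the three-candidate theorem, in terms of the definitions of `PS.Defs`. -/
theorem three (hG : StG) (ρ : ℝ) (h0 : 0 ≤ ρ) (h1 : ρ ≤ 1 / 3) :
      Filter.Tendsto (fun n : ℕ => ∑ j : Fin 3, stab ρ (fun ω : Fin n → Fin 3 => plur ω j))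
        Filter.atTop (nhds (Lam 3 ρ)) ∧
      ∀ ε : ℝ, ε > 0 → ∃ τ : ℝ, τ > 0 ∧
        ∀ (n : ℕ) (f : (Fin n → Fin 3) → Fin 3 → ℝ), (∀ ω, f ω ∈ stdSimplex ℝ (Fin 3)) →
          (∀ j, av (fun ω => f ω j) = 1 / ((3 : ℕ) : ℝ)) →
          (∀ i j, infl (fun ω => f ω j) i ≤ τ) →
          ∑ j, stab ρ (fun ω => f ω j) ≤ Lam 3 ρ + ε := by
  refine ⟨plur_limit 3 (by norm_num) ρ h0 (by linarith), ?_⟩
  intro ε hε
  obtain ⟨τ, hτ, hT⟩ := transfer 3 (by norm_num) ρ h0 (by linarith) ε hε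
  refine ⟨τ, hτ, fun n f hf hb hi => ?_⟩
  obtain ⟨F, hF, hFb, hle⟩ := hT n f hf hb hi
  have := hG ρ h0 h1 (Fin n × Fin 3) F hF hFb
  linarith

end Pool.TC
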