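import Pool.Agent.TC.St
import Pool.Agent.Helper65.PT.Oub
import Pool.Agent.Helper65.PT.Ous
import Mathlib.MeasureTheory.Measure.SeparableMeasure
import Mathlib.MeasureTheory.Function.L2Space
import Mathlib.Analysis.InnerProductSpace.Dual
import Mathlib.Analysis.Normed.Module.WeakDual
import Mathlib.MeasureTheory.Function.AEEqOfIntegral

/-! Project TC, module D1: existence of a maximiser of the noise stability. -/

set_option autoImplicit false

open MeasureTheory ProbabilityTheory Pool.H65.PS Pool.H65.PT Filter Topology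

namespace Pool.TC

/-- weak sequential compactness in `L²`. -/
private theorem D1_weak {α : Type} [MeasurableSpace α] [MeasurableSpace.CountablyGenerated α]
    (μ : Measure α) [IsProbabilityMeasure μ] (u : ℕ → α → ℝ) (hu : ∀ k, Measurable (u k))
    (hb : ∀ k x, |u k x| ≤ 1) :
    ∃ φ : ℕ → ℕ, StrictMono φ ∧ ∃ g : α → ℝ, MemLp g 2 μ ∧ ∀ h : α → ℝ, MemLp h 2 μ →
      Tendsto (fun k => ∫ x, u (φ k) x * h x ∂μ) atTop (𝓝 (∫ x, g x * h x ∂μ)) := by
  have hm : ∀ k, MemLp (u k) 2 μ := fun k =>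
    MemLp.of_bound (hu k).aestronglyMeasurable 1 (Eventually.of_forall fun x => by
      rw [Real.norm_eq_abs]; exact hb k x)
  have _i1 : Fact ((1 : ENNReal) ≤ 2) := ⟨by norm_num⟩
  have _i2 : Fact ((2 : ENNReal) ≠ ⊤) := ⟨by norm_num⟩
  have hinner : ∀ (f h : α → ℝ) (hf : MemLp f 2 μ) (hh : MemLp h 2 μ),
      inner ℝ (hf.toLp f) (hh.toLp h) = ∫ x, f x * h x ∂μ := by
    intro f h hf hh
    rw [L2.inner_def]
    apply integral_congr_ae
    filter_upwards [hf.coeFn_toLp, hh.coeFn_toLp] with x h1 h2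
    rw [h1, h2]
    simp [mul_comm]
  let U : ℕ → Lp ℝ 2 μ := fun k => (hm k).toLp (u k)
  have hnorm : ∀ k, ‖U k‖ ≤ 1 := by
    intro k
    have h2 := Lp.norm_le_of_ae_bound (p := 2) (μ := μ) (f := U k) (C := 1) zero_le_one ?_
    · have h3 : measureUnivNNReal μ = 1 := by simp [measureUnivNNReal]
      rw [h3] at h2
      simpa using h2
    · filter_upwards [(hm k).coeFn_toLp] with x hx
      rw [hx, Real.norm_eq_abs]
      exact hb k x
  let T : ℕ → WeakDual ℝ (Lp ℝ 2 μ) := fun k =>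
    StrongDual.toWeakDual (InnerProductSpace.toDual ℝ (Lp ℝ 2 μ) (U k))
  have hT : ∀ k, T k ∈ WeakDual.toStrongDual ⁻¹' (Metric.closedBall (0 : StrongDual ℝ (Lp ℝ 2 μ)) 1) := by
    intro k
    simp only [Set.mem_preimage, mem_closedBall_zero_iff]
    have : WeakDual.toStrongDual (T k) = InnerProductSpace.toDual ℝ (Lp ℝ 2 μ) (U k) := rfl
    rw [this, LinearIsometryEquiv.norm_map]
    exact hnorm k
  obtain ⟨G, _, φ, hφ, hlim⟩ := WeakDual.isSeqCompact_closedBall ℝ (Lp ℝ 2 μ) 0 1 hT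
  let g : Lp ℝ 2 μ := (InnerProductSpace.toDual ℝ (Lp ℝ 2 μ)).symm (WeakDual.toStrongDual G)
  refine ⟨φ, hφ, g, Lp.memLp g, fun h hh => ?_⟩
  have h1 := ((WeakDual.eval_continuous (𝕜 := ℝ) (hh.toLp h)).tendsto G).comp hlim
  have e1 : ∀ k, (T (φ k)) (hh.toLp h) = ∫ x, u (φ k) x * h x ∂μ := by
    intro k
    rw [← hinner (u (φ k)) h (hm _) hh]
    rfl
  have e2 : G (hh.toLp h) = ∫ x, g x * h x ∂μ := by
    have e3 : G (hh.toLp h) = inner ℝ g (hh.toLp h) := by
      have e4 := InnerProductSpace.toDual_symm_apply (𝕜 := ℝ) (E := Lp ℝ 2 μ) (x := hh.toLp h)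
        (y := WeakDual.toStrongDual G)
      rw [e4]
      rfl
    rw [e3, L2.inner_def]
    apply integral_congr_ae
    filter_upwards [hh.coeFn_toLp] with x h2
    rw [h2]
    simp [mul_comm]
  rw [← e2]
  refine h1.congr fun k => ?_
  exact e1 k

/-- common subsequence for finitely many sequences. -/
private theorem D1_weakfin {α : Type} [MeasurableSpace α] [MeasurableSpace.CountablyGenerated α]
    (μ : Measure α) [IsProbabilityMeasure μ] {m : ℕ} (u : ℕ → α → Fin m → ℝ)
    (hu : ∀ k j, Measurable (fun x => u k x j)) (hb : ∀ k x j, |u k x j| ≤ 1) :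
    ∃ φ : ℕ → ℕ, StrictMono φ ∧ ∃ g : Fin m → α → ℝ, ∀ j, MemLp (g j) 2 μ ∧
      ∀ h : α → ℝ, MemLp h 2 μ →
      Tendsto (fun k => ∫ x, u (φ k) x j * h x ∂μ) atTop (𝓝 (∫ x, g j x * h x ∂μ)) := by
  classical
  have key : ∀ s : Finset (Fin m), ∃ φ : ℕ → ℕ, StrictMono φ ∧ ∃ g : Fin m → α → ℝ, ∀ j ∈ s,
      MemLp (g j) 2 μ ∧ ∀ h : α → ℝ, MemLp h 2 μ →
      Tendsto (fun k => ∫ x, u (φ k) x j * h x ∂μ) atTop (𝓝 (∫ x, g j x * h x ∂μ)) := by
    intro s
    induction s using Finset.induction_on with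
    | empty => exact ⟨id, strictMono_id, fun _ _ => 0, fun j hj => absurd hj (Finset.notMem_empty j)⟩
    | insert i s his ih =>
      obtain ⟨φ, hφ, g, hg⟩ := ih
      obtain ⟨ψ, hψ, g', hg', hlim⟩ := D1_weak μ (fun k x => u (φ k) x i) (fun k => hu _ i)
        (fun k x => hb _ x i)
      refine ⟨φ ∘ ψ, hφ.comp hψ, fun j => if j = i then g' else g j, fun j hj => ?_⟩
      by_cases hji : j = i
      · subst hji
        simp only [if_true, Function.comp]
        exact ⟨hg', hlim⟩
      · have hjs : j ∈ s := (Finset.mem_insert.1 hj).resolve_left hji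
        simp only [if_neg hji, Function.comp]
        exact ⟨(hg j hjs).1, fun h hh => ((hg j hjs).2 h hh).comp hψ.tendsto_atTop⟩
  obtain ⟨φ, hφ, g, hg⟩ := key Finset.univ
  exact ⟨φ, hφ, g, fun j => hg j (Finset.mem_univ j)⟩

/-- from `L²` test functions to `L¹` test functions. -/
private theorem D1_ext {α : Type} [MeasurableSpace α] (μ : Measure α) [IsProbabilityMeasure μ]
    (u : ℕ → α → ℝ) (g : α → ℝ) (hu : ∀ k, Measurable (u k)) (hb : ∀ k x, |u k x| ≤ 1)
    (hg : Measurable g) (hgb : ∀ x, |g x| ≤ 1)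
    (hlim : ∀ h : α → ℝ, MemLp h 2 μ →
      Tendsto (fun k => ∫ x, u k x * h x ∂μ) atTop (𝓝 (∫ x, g x * h x ∂μ)))
    (h : α → ℝ) (hm : Measurable h) (hi : Integrable h μ) :
    Tendsto (fun k => ∫ x, u k x * h x ∂μ) atTop (𝓝 (∫ x, g x * h x ∂μ)) := by
  classical
  -- truncation
  let t : ℕ → α → ℝ := fun N x => if |h x| ≤ N then h x else 0
  have htm : ∀ N, Measurable (t N) := fun N =>
    Measurable.ite (measurableSet_le hm.norm measurable_const) hm measurable_const
  have htb : ∀ N x, |t N x| ≤ N := by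
    intro N x
    simp only [t]
    split_ifs with h1
    · exact h1
    · simp
  have ht2 : ∀ N, MemLp (t N) 2 μ := fun N =>
    MemLp.of_bound (htm N).aestronglyMeasurable N (Eventually.of_forall fun x => by
      rw [Real.norm_eq_abs]; exact htb N x)
  have hd : Tendsto (fun N => ∫ x, |h x - t N x| ∂μ) atTop (𝓝 0) := by
    have h0 : (0 : ℝ) = ∫ _x : α, (0 : ℝ) ∂μ := by simp
    rw [h0]
    refine tendsto_integral_of_dominated_convergence (fun x => |h x|)
      (fun N => (hm.sub (htm N)).norm.aestronglyMeasurable) hi.abs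
      (fun N => Eventually.of_forall fun x => ?_) (Eventually.of_forall fun x => ?_)
    · simp only [t]
      split_ifs with h1
      · simp
      · simp
    · obtain ⟨N0, hN0⟩ := exists_nat_ge |h x|
      refine tendsto_const_nhds.congr' ?_
      filter_upwards [eventually_ge_atTop N0] with N hN
      have : |h x| ≤ (N : ℝ) := hN0.trans (by exact_mod_cast hN)
      simp [t, this]
  have hit : ∀ N, Integrable (t N) μ := fun N => (ht2 N).integrable (by norm_num)
  have hcomp : ∀ (v : α → ℝ), Measurable v → (∀ x, |v x| ≤ 1) → ∀ N,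
      |∫ x, v x * h x ∂μ - ∫ x, v x * t N x ∂μ| ≤ ∫ x, |h x - t N x| ∂μ := by
    intro v hv hvb N
    have i1 : Integrable (fun x => v x * h x) μ := by
      refine hi.bdd_mul (c := 1) hv.aestronglyMeasurable (Eventually.of_forall fun x => by
        rw [Real.norm_eq_abs]; exact hvb x)
    have i2 : Integrable (fun x => v x * t N x) μ := by
      refine (hit N).bdd_mul (c := 1) hv.aestronglyMeasurable (Eventually.of_forall fun x => by
        rw [Real.norm_eq_abs]; exact hvb x)
    rw [← integral_sub i1 i2]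
    refine (abs_integral_le_integral_abs).trans ?_
    refine integral_mono (i1.sub i2).abs (hi.sub (hit N)).abs fun x => ?_
    simp only
    rw [← mul_sub, abs_mul]
    have := hvb x
    nlinarith [abs_nonneg (h x - t N x), abs_nonneg (v x)]
  rw [Metric.tendsto_atTop]
  intro ε hε
  obtain ⟨N, hN⟩ : ∃ N, ∫ x, |h x - t N x| ∂μ < ε / 3 := by
    have h1 := (hd.eventually (gt_mem_nhds (show (0 : ℝ) < ε / 3 by linarith))).exists
    exact h1
  have h2 := hlim (t N) (ht2 N)
  rw [Metric.tendsto_atTop] at h2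
  obtain ⟨K, hK⟩ := h2 (ε / 3) (by linarith)
  refine ⟨K, fun k hk => ?_⟩
  have h3 := hK k hk
  rw [Real.dist_eq] at h3 ⊢
  have h4 := hcomp (u k) (hu k) (hb k) N
  have h5 := hcomp g hg hgb N
  rw [abs_le] at h4 h5
  rw [abs_lt] at h3 ⊢
  constructor <;> linarith [h4.1, h4.2, h5.1, h5.2, h3.1, h3.2]

section gauss

variable {κ : Type} [Fintype κ]

/-- the law of `r x + σ y` is absolutely continuous. -/
private theorem D1_ac (r : ℝ) (hr : 0 ≤ r) (hr1 : r < 1) (x : κ → ℝ) :
    (gam κ).map (fun y => r • x + Real.sqrt (1 - r ^ 2) • y) ≪ gam κ := by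
  have hmeas : ∀ x : κ → ℝ, Measurable (fun y : κ → ℝ => r • x + Real.sqrt (1 - r ^ 2) • y) :=
    fun x => oub_am (r • x) _
  refine Measure.AbsolutelyContinuous.mk fun N hN h0 => ?_
  let f : (κ → ℝ) → ℝ := N.indicator 1
  have hf : Bm f := by
    refine ⟨measurable_one.indicator hN, 1, fun y => ?_⟩
    by_cases hy : y ∈ N <;> simp [f, hy]
  have hf0 : ∀ y, 0 ≤ f y := fun y => Set.indicator_nonneg (fun _ _ => zero_le_one) y
  have habs : |r| ≤ 1 := by rw [abs_of_nonneg hr]; exact hr1.le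
  have h1 : ∫ z, OU r f z ∂(gam κ) = 0 := by
    rw [integral_OU hf r habs]
    simp only [f]
    rw [integral_indicator_one hN, Measure.real, h0]
    rfl
  have hOU0 : ∀ z, 0 ≤ OU r f z := fun z => integral_nonneg fun y => hf0 _
  have h2 : OU r f =ᵐ[gam κ] 0 := by
    rw [← integral_eq_zero_iff_of_nonneg hOU0 (oub_int (OU_bm hf r).meas (OU_bm hf r).bdd)]
    exact h1
  obtain ⟨z, hz⟩ := h2.exists
  simp only [Pi.zero_apply] at hz
  rw [Ous_OU_eq hf r hr hr1] at hz
  set σ := Real.sqrt (1 - r ^ 2) with hσ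
  set v := (r / σ) • z with hv
  have hfs : Bm (fun y => f (σ • y)) := Ous_bm_scale hf σ
  have hint : ∀ w : κ → ℝ, Integrable (fun y => Real.exp (dot w y - dot w w / 2) * f (σ • y))
      (gam κ) := by
    intro w
    refine ((Ous_exp_abs (κ := κ) ‖w‖)).mono (((Real.measurable_exp.comp
      (((Ous_dot_continuous w).measurable).sub_const _)).mul hfs.meas).aestronglyMeasurable)
      (Eventually.of_forall fun y => ?_)
    rw [Real.norm_eq_abs, Real.norm_eq_abs, abs_mul, abs_of_pos (Real.exp_pos _),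
      abs_of_pos (Real.exp_pos _)]
    have h3 := Ous_dens_le w y ‖w‖ (fun i => by
      have := norm_le_pi_norm w i
      rwa [Real.norm_eq_abs] at this)
    have h4 : |f (σ • y)| ≤ 1 := by
      by_cases hy : σ • y ∈ N <;> simp [f, hy]
    nlinarith [Real.exp_pos (dot w y - dot w w / 2), abs_nonneg (f (σ • y))]
  have h5 : (fun y => Real.exp (dot v y - dot v v / 2) * f (σ • y)) =ᵐ[gam κ] 0 := by
    rw [← integral_eq_zero_iff_of_nonneg (fun y => mul_nonneg (Real.exp_pos _).le (hf0 _))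
      (hint v)]
    exact hz
  have h6 : ∀ᵐ y ∂(gam κ), f (σ • y) = 0 := by
    filter_upwards [h5] with y hy
    simp only [Pi.zero_apply, mul_eq_zero, (Real.exp_pos _).ne', false_or] at hy
    exact hy
  have h7 : OU r f x = 0 := by
    rw [Ous_OU_eq hf r hr hr1]
    rw [← hσ]
    apply integral_eq_zero_of_ae
    filter_upwards [h6] with y hy
    rw [hy, mul_zero]
    rfl
  have h8 : ((gam κ).map (fun y => r • x + σ • y)).real N = 0 := by
    rw [← integral_indicator_one hN, integral_map (hmeas x).aemeasurable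
      (measurable_one.indicator hN).aestronglyMeasurable]
    exact h7
  have _i3 : IsFiniteMeasure ((gam κ).map (fun y => r • x + σ • y)) :=
    (gam κ).isFiniteMeasure_map _
  rw [Measure.real, ENNReal.toReal_eq_zero_iff] at h8
  exact h8.resolve_right (measure_ne_top _ _)

/-- pointwise convergence of the smoothed functions. -/
private theorem D1_OU (u : ℕ → (κ → ℝ) → ℝ) (g : (κ → ℝ) → ℝ) (hu : ∀ k, Measurable (u k))
    (hb : ∀ k x, |u k x| ≤ 1) (hg : Measurable g) (hgb : ∀ x, |g x| ≤ 1)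
    (hlim : ∀ h : (κ → ℝ) → ℝ, MemLp h 2 (gam κ) →
      Tendsto (fun k => ∫ x, u k x * h x ∂(gam κ)) atTop (𝓝 (∫ x, g x * h x ∂(gam κ))))
    (r : ℝ) (hr : 0 ≤ r) (hr1 : r < 1) (x : κ → ℝ) :
    Tendsto (fun k => OU r (u k) x) atTop (𝓝 (OU r g x)) := by
  have hmeas : Measurable (fun y : κ → ℝ => r • x + Real.sqrt (1 - r ^ 2) • y) :=
    oub_am (r • x) _
  set ν := (gam κ).map (fun y => r • x + Real.sqrt (1 - r ^ 2) • y) with hν
  have _i3 : IsFiniteMeasure ν := (gam κ).isFiniteMeasure_map _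
  have hac : ν ≪ gam κ := D1_ac r hr hr1 x
  have _i4 : ν.HaveLebesgueDecomposition (gam κ) :=
    Measure.haveLebesgueDecomposition_of_sigmaFinite ν (gam κ)
  let h : (κ → ℝ) → ℝ := fun z => (ν.rnDeriv (gam κ) z).toReal
  have hm : Measurable h := (Measure.measurable_rnDeriv _ _).ennreal_toReal
  have hi : Integrable h (gam κ) := Measure.integrable_toReal_rnDeriv
  have key : ∀ v : (κ → ℝ) → ℝ, Measurable v → OU r v x = ∫ z, v z * h z ∂(gam κ) := by
    intro v hv
    have h1 : OU r v x = ∫ z, v z ∂ν := by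
      rw [hν, integral_map hmeas.aemeasurable hv.aestronglyMeasurable]
      rfl
    rw [h1, ← integral_rnDeriv_smul hac]
    apply integral_congr_ae
    refine Eventually.of_forall fun z => ?_
    simp only [smul_eq_mul, h]
    rw [mul_comm]
  have h2 := D1_ext (gam κ) u g hu hb hg hgb hlim h hm hi
  rw [key g hg]
  refine h2.congr fun k => ?_
  rw [key (u k) (hu k)]

omit [Fintype κ] in
private theorem D1_abs_le {m : ℕ} {f : (κ → ℝ) → Fin m → ℝ} (hf : Pt f) (x : κ → ℝ)
    (j : Fin m) : |f x j| ≤ 1 := by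
  have h1 := hf.simp x
  have h2 := h1.1 j
  have h3 : f x j ≤ ∑ i, f x i :=
    Finset.single_le_sum (f := fun i => f x i) (fun i _ => h1.1 i) (Finset.mem_univ j)
  rw [h1.2] at h3
  rw [abs_le]
  exact ⟨by linarith, h3⟩

omit [Fintype κ] in
private theorem D1_bm {m : ℕ} {f : (κ → ℝ) → Fin m → ℝ} (hf : Pt f) (j : Fin m) :
    Bm (fun x => f x j) := ⟨hf.meas j, 1, fun x => D1_abs_le hf x j⟩

private theorem D1_OU_abs {m : ℕ} {f : (κ → ℝ) → Fin m → ℝ} (hf : Pt f) (r : ℝ) (j : Fin m)
    (x : κ → ℝ) : |OU r (fun x => f x j) x| ≤ 1 := by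
  have h1 := norm_integral_le_of_norm_le_const (μ := gam κ)
    (f := fun y => f (r • x + Real.sqrt (1 - r ^ 2) • y) j) (C := 1)
    (Filter.Eventually.of_forall fun y => by rw [Real.norm_eq_abs]; exact D1_abs_le hf _ j)
  simpa [OU] using h1

private theorem D1_St {m : ℕ} {f : (κ → ℝ) → Fin m → ℝ} (hf : Pt f) (ρ : ℝ) (hρ : 0 ≤ ρ)
    (hρ1 : ρ ≤ 1) :
    St ρ f = ∑ j, ∫ x, OU (Real.sqrt ρ) (fun x => f x j) x ^ 2 ∂(gam κ) :=
  Finset.sum_congr rfl fun j _ => oub_sqrt (D1_bm hf j) ρ hρ hρ1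

end gauss

theorem pD1 : StD1 := by
  intro κ _ m ρ hm hρ hρ1
  classical
  have hm0 : (0 : ℝ) < m := by exact_mod_cast hm
  have hr : 0 ≤ Real.sqrt ρ := Real.sqrt_nonneg _
  have hr1 : Real.sqrt ρ < 1 := by
    rw [Real.sqrt_lt' one_pos]
    linarith
  let S : Set ℝ := {s | ∃ f : (κ → ℝ) → Fin m → ℝ, Pt f ∧ Bal f ∧ St ρ f = s}
  have hcs : (fun _ : Fin m => 1 / (m : ℝ)) ∈ stdSimplex ℝ (Fin m) := by
    refine ⟨fun j => by positivity, ?_⟩
    simp only [Finset.sum_const, Finset.card_univ, Fintype.card_fin, nsmul_eq_mul]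
    field_simp
  have hne : S.Nonempty := by
    refine ⟨_, fun _ _ => 1 / (m : ℝ), ⟨fun j => measurable_const, fun x => hcs⟩, fun j => ?_, rfl⟩
    simp
  have hbdd : BddAbove S := by
    refine ⟨m, ?_⟩
    rintro s ⟨f, hf, -, rfl⟩
    rw [D1_St hf ρ hρ hρ1.le]
    have h1 : ∀ j : Fin m, ∫ x, OU (Real.sqrt ρ) (fun x => f x j) x ^ 2 ∂(gam κ) ≤ 1 := by
      intro j
      have h2 := norm_integral_le_of_norm_le_const (μ := gam κ)
        (f := fun x => OU (Real.sqrt ρ) (fun x => f x j) x ^ 2) (C := 1)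
        (Filter.Eventually.of_forall fun x => by
          rw [Real.norm_eq_abs, abs_pow]
          exact pow_le_one₀ (abs_nonneg _) (D1_OU_abs hf _ j x))
      rw [Real.norm_eq_abs] at h2
      have h3 := (le_abs_self _).trans h2
      simpa using h3
    calc _ ≤ ∑ _j : Fin m, (1 : ℝ) := Finset.sum_le_sum fun j _ => h1 j
      _ = m := by simp
  obtain ⟨v, -, hvlim, hvS⟩ := exists_seq_tendsto_sSup hne hbdd
  choose f hf hfb hfv using hvS
  obtain ⟨φ, hφ, g, hg⟩ := D1_weakfin (gam κ) f (fun k j => (hf k).meas j)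
    (fun k x j => D1_abs_le (hf k) x j)
  have hgi : ∀ j, Integrable (g j) (gam κ) := fun j => (hg j).1.integrable (by norm_num)
  have hfi : ∀ k j, Integrable (fun x => f k x j) (gam κ) := fun k j =>
    oub_int ((hf k).meas j) ⟨1, fun x => D1_abs_le (hf k) x j⟩
  -- set integrals
  have hA : ∀ A : Set (κ → ℝ), MeasurableSet A → ∀ j,
      Tendsto (fun k => ∫ x in A, f (φ k) x j ∂(gam κ)) atTop (𝓝 (∫ x in A, g j x ∂(gam κ))) := by
    intro A hAm j
    have h1 : MemLp (A.indicator (1 : (κ → ℝ) → ℝ)) 2 (gam κ) :=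
      MemLp.of_bound (measurable_one.indicator hAm).aestronglyMeasurable 1
        (Eventually.of_forall fun x => by by_cases hx : x ∈ A <;> simp [hx])
    have h2 := (hg j).2 _ h1
    have e : ∀ w : (κ → ℝ) → ℝ, ∫ x, w x * A.indicator (1 : (κ → ℝ) → ℝ) x ∂(gam κ) =
        ∫ x in A, w x ∂(gam κ) := by
      intro w
      rw [← integral_indicator hAm]
      apply integral_congr_ae
      refine Eventually.of_forall fun x => ?_
      by_cases hx : x ∈ A <;> simp [hx]
    simp only [e] at h2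
    exact h2
  have hpos : ∀ j, 0 ≤ᵐ[gam κ] g j := by
    intro j
    refine ae_nonneg_of_forall_setIntegral_nonneg (hgi j) fun A hAm _ => ?_
    exact ge_of_tendsto' (hA A hAm j) fun k => integral_nonneg fun x => ((hf _).simp x).1 j
  have hsum : (fun x => ∑ j, g j x) =ᵐ[gam κ] fun _ => (1 : ℝ) := by
    refine Integrable.ae_eq_of_forall_setIntegral_eq _ _ (integrable_finsetSum _ fun j _ => hgi j)
      (integrable_const _) fun A hAm _ => ?_
    rw [integral_finsetSum _ fun j _ => (hgi j).integrableOn]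
    have h1 : Tendsto (fun k => ∑ j, ∫ x in A, f (φ k) x j ∂(gam κ)) atTop
        (𝓝 (∑ j, ∫ x in A, g j x ∂(gam κ))) := tendsto_finsetSum _ fun j _ => hA A hAm j
    have h2 : ∀ k, ∑ j, ∫ x in A, f (φ k) x j ∂(gam κ) = ∫ _x in A, (1 : ℝ) ∂(gam κ) := by
      intro k
      rw [← integral_finsetSum _ fun j _ => (hfi (φ k) j).integrableOn]
      simp only [((hf (φ k)).simp _).2]
    simp only [h2] at h1
    exact tendsto_nhds_unique h1 tendsto_const_nhds |>.symm ▸ rfl
  -- measurable version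
  let g' : Fin m → (κ → ℝ) → ℝ := fun j => (hg j).1.1.mk (g j)
  have hg'm : ∀ j, Measurable (g' j) := fun j => (hg j).1.1.stronglyMeasurable_mk.measurable
  have hgg' : ∀ j, g j =ᵐ[gam κ] g' j := fun j => (hg j).1.1.ae_eq_mk
  let P : (κ → ℝ) → Prop := fun x => (∀ j, 0 ≤ g' j x) ∧ ∑ j, g' j x = 1
  have hPm : MeasurableSet {x | P x} := by
    have h1 : {x | P x} = (⋂ j, {x | 0 ≤ g' j x}) ∩ {x | ∑ j, g' j x = 1} := by
      ext x
      simp [P]
    rw [h1]
    exact (MeasurableSet.iInter fun j => measurableSet_le measurable_const (hg'm j)).inter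
      (measurableSet_eq_fun (Finset.measurable_fun_sum _ fun j _ => hg'm j) measurable_const)
  let F : (κ → ℝ) → Fin m → ℝ := fun x j => if P x then g' j x else 1 / (m : ℝ)
  have hFP : Pt F := by
    refine ⟨fun j => Measurable.ite hPm (hg'm j) measurable_const, fun x => ?_⟩
    by_cases hx : P x
    · have : F x = fun j => g' j x := by funext j; simp [F, hx]
      rw [this]
      exact ⟨hx.1, hx.2⟩
    · have : F x = fun _ => 1 / (m : ℝ) := by funext j; simp [F, hx]
      rw [this]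
      exact hcs
  have hFg : ∀ j, (fun x => F x j) =ᵐ[gam κ] g j := by
    intro j
    filter_upwards [eventually_countable_forall.2 hgg', eventually_countable_forall.2 hpos, hsum]
      with x h1 h2 h3
    have hx : P x := by
      refine ⟨fun i => ?_, ?_⟩
      · rw [← h1 i]; exact h2 i
      · rw [← h3]
        exact Finset.sum_congr rfl fun i _ => (h1 i).symm
    simp only [F, hx, if_true]
    exact (h1 j).symm
  have hFB : Bal F := by
    intro j
    rw [integral_congr_ae (hFg j)]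
    have h1 := hA Set.univ MeasurableSet.univ j
    simp only [Measure.restrict_univ] at h1
    have h2 : ∀ k, ∫ x, f (φ k) x j ∂(gam κ) = 1 / (m : ℝ) := fun k => hfb _ j
    simp only [h2] at h1
    exact tendsto_nhds_unique h1 tendsto_const_nhds
  have hFlim : ∀ j (h : (κ → ℝ) → ℝ), MemLp h 2 (gam κ) →
      Tendsto (fun k => ∫ x, f (φ k) x j * h x ∂(gam κ)) atTop
        (𝓝 (∫ x, F x j * h x ∂(gam κ))) := by
    intro j h hh
    have h1 : ∫ x, F x j * h x ∂(gam κ) = ∫ x, g j x * h x ∂(gam κ) := by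
      apply integral_congr_ae
      filter_upwards [hFg j] with x hx
      rw [hx]
    rw [h1]
    exact (hg j).2 h hh
  have hSlim : Tendsto (fun k => St ρ (f (φ k))) atTop (𝓝 (St ρ F)) := by
    rw [D1_St hFP ρ hρ hρ1.le]
    simp only [D1_St (hf _) ρ hρ hρ1.le]
    refine tendsto_finsetSum _ fun j _ => ?_
    refine tendsto_integral_of_dominated_convergence (fun _ => (1 : ℝ))
      (fun k => ((OU_bm (D1_bm (hf (φ k)) j) _).meas.pow_const 2).aestronglyMeasurable)
      (integrable_const _) (fun k => Eventually.of_forall fun x => ?_)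
      (Eventually.of_forall fun x => ?_)
    · rw [Real.norm_eq_abs, abs_pow]
      exact pow_le_one₀ (abs_nonneg _) (D1_OU_abs (hf _) _ j x)
    · refine Tendsto.pow ?_ 2
      exact D1_OU (fun k x => f (φ k) x j) (fun x => F x j) (fun k => (hf _).meas j)
        (fun k x => D1_abs_le (hf _) x j) (hFP.meas j) (fun x => D1_abs_le hFP x j)
        (hFlim j) _ hr hr1 x
  have hSF : St ρ F = sSup S := by
    have h1 : Tendsto (fun k => St ρ (f (φ k))) atTop (𝓝 (sSup S)) := by
      have h2 := hvlim.comp hφ.tendsto_atTop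
      refine h2.congr fun k => ?_
      simp only [Function.comp]
      exact (hfv _).symm
    exact tendsto_nhds_unique hSlim h1
  refine ⟨F, hFP, hFB, fun f' hf' hb' => ?_⟩
  rw [hSF]
  exact le_csSup hbdd ⟨f', hf', hb', rfl⟩

end Pool.TC
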