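import Pool.Agent.TC.St

/-! Project TC, module D8. -/

set_option autoImplicit false

open MeasureTheory ProbabilityTheory Pool.H65.PS Pool.H65.PT

namespace Pool.TC

private theorem D8_prob {κ : Type} [Fintype κ] : IsProbabilityMeasure (gam κ) := by
  unfold gam
  infer_instance

private theorem D8_bd {κ : Type} {m : ℕ} {f : (κ → ℝ) → Fin m → ℝ} (hf : Pt f) (x : κ → ℝ) (j : Fin m) :
    0 ≤ f x j ∧ f x j ≤ 1 := by
  obtain ⟨h0, h1⟩ := hf.simp x
  refine ⟨h0 j, ?_⟩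
  rw [← h1]
  exact Finset.single_le_sum (fun k _ => h0 k) (Finset.mem_univ j)

private theorem D8_St_nonneg {κ : Type} [Fintype κ] {m : ℕ} (ρ : ℝ) {f : (κ → ℝ) → Fin m → ℝ}
    (hf : Pt f) : 0 ≤ St ρ f := by
  unfold St sg
  exact Finset.sum_nonneg fun j _ => integral_nonneg fun p =>
    mul_nonneg (D8_bd hf _ j).1 (D8_bd hf _ j).1

private theorem D8_St_le {κ : Type} [Fintype κ] {m : ℕ} (ρ : ℝ) {f : (κ → ℝ) → Fin m → ℝ}
    (hf : Pt f) : St ρ f ≤ 1 := by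
  have := D8_prob (κ := κ)
  unfold St sg
  have hmap : Measurable fun p : (κ → ℝ) × (κ → ℝ) => ρ • p.1 + Real.sqrt (1 - ρ ^ 2) • p.2 :=
    by fun_prop
  have hint : ∀ j : Fin m, Integrable (fun p : (κ → ℝ) × (κ → ℝ) =>
      f p.1 j * f (ρ • p.1 + Real.sqrt (1 - ρ ^ 2) • p.2) j) ((gam κ).prod (gam κ)) := by
    intro j
    have hmeas : Measurable (fun p : (κ → ℝ) × (κ → ℝ) =>
        f p.1 j * f (ρ • p.1 + Real.sqrt (1 - ρ ^ 2) • p.2) j) :=
      ((hf.meas j).comp measurable_fst).mul ((hf.meas j).comp hmap)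
    refine Integrable.of_bound hmeas.aestronglyMeasurable 1 (Filter.Eventually.of_forall fun p => ?_)
    have h1 := D8_bd hf p.1 j
    have h2 := D8_bd hf (ρ • p.1 + Real.sqrt (1 - ρ ^ 2) • p.2) j
    rw [Real.norm_eq_abs, abs_of_nonneg (mul_nonneg h1.1 h2.1)]
    calc f p.1 j * f (ρ • p.1 + Real.sqrt (1 - ρ ^ 2) • p.2) j ≤ 1 * 1 :=
          mul_le_mul h1.2 h2.2 h2.1 zero_le_one
      _ = 1 := one_mul 1
  rw [← integral_finsetSum _ fun j _ => hint j]
  have h1 : ∫ _p : (κ → ℝ) × (κ → ℝ), (1 : ℝ) ∂((gam κ).prod (gam κ)) = 1 := by simp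
  refine le_trans (integral_mono (integrable_finsetSum _ fun j _ => hint j)
    (integrable_const (1 : ℝ)) fun p => ?_) h1.le
  have h3 : ∑ j, f p.1 j = 1 := (hf.simp p.1).2
  calc ∑ j, f p.1 j * f (ρ • p.1 + Real.sqrt (1 - ρ ^ 2) • p.2) j ≤ ∑ j, f p.1 j :=
        Finset.sum_le_sum fun j _ =>
          mul_le_of_le_one_right (D8_bd hf p.1 j).1 (D8_bd hf _ j).2
    _ = 1 := h3

private theorem D8_joint {κ : Type} [Fintype κ] (a t : ℝ) :
    Measurable fun p : ℝ × ((κ ⊕ Unit) → ℝ) =>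
      (Sum.elim (fun i => p.2 (Sum.inl i)) (fun _ => a * p.2 (Sum.inr ()) + t * p.1) :
        (κ ⊕ Unit) → ℝ) := by
  refine measurable_pi_iff.2 fun i => ?_
  rcases i with i | i
  · simp only [Sum.elim_inl]
    exact (measurable_pi_apply (Sum.inl i)).comp measurable_snd
  · simp only [Sum.elim_inr]
    fun_prop

private theorem D8_shf_pt {κ : Type} [Fintype κ] {m : ℕ} {F : (κ ⊕ Unit → ℝ) → Fin m → ℝ}
    (hF : Pt F) (a h : ℝ) : Pt (shf a h F) := by
  refine ⟨fun j => ?_, fun x => hF.simp _⟩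
  have h1 : Measurable fun x : (κ ⊕ Unit) → ℝ =>
      (Sum.elim (fun i => x (Sum.inl i)) (fun _ => a * x (Sum.inr ()) + h) : (κ ⊕ Unit) → ℝ) := by
    refine measurable_pi_iff.2 fun i => ?_
    rcases i with i | i
    · simp only [Sum.elim_inl]
      exact measurable_pi_apply (Sum.inl i)
    · simp only [Sum.elim_inr]
      fun_prop
  exact (hF.meas j).comp h1

private theorem D8_df_meas {κ : Type} [Fintype κ] {m : ℕ} {F : (κ ⊕ Unit → ℝ) → Fin m → ℝ}
    (hF : Pt F) (a t : ℝ) (j : Fin m) : Measurable fun ξ : ℝ => df (shf a (t * ξ) F) j := by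
  have := D8_prob (κ := κ ⊕ Unit)
  have h1 : StronglyMeasurable fun p : ℝ × ((κ ⊕ Unit) → ℝ) =>
      F (Sum.elim (fun i => p.2 (Sum.inl i)) (fun _ => a * p.2 (Sum.inr ()) + t * p.1)) j :=
    ((hF.meas j).comp (D8_joint a t)).stronglyMeasurable
  exact (h1.integral_prod_right'.measurable).sub_const _

private theorem D8_df_le {κ : Type} [Fintype κ] {m : ℕ} (hm : 1 ≤ m) {G : (κ → ℝ) → Fin m → ℝ}
    (hG : Pt G) (j : Fin m) : |df G j| ≤ 1 := by
  have := D8_prob (κ := κ)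
  have hm1 : (1 : ℝ) ≤ m := by exact_mod_cast hm
  have h0 : 0 ≤ ∫ x, G x j ∂(gam κ) := integral_nonneg fun x => (D8_bd hG x j).1
  have hint : Integrable (fun x => G x j) (gam κ) :=
    Integrable.of_bound (hG.meas j).aestronglyMeasurable 1 (Filter.Eventually.of_forall fun x => by
      rw [Real.norm_eq_abs, abs_of_nonneg (D8_bd hG x j).1]; exact (D8_bd hG x j).2)
  have h1 : ∫ x, G x j ∂(gam κ) ≤ 1 := by
    have e : ∫ _x : κ → ℝ, (1 : ℝ) ∂(gam κ) = 1 := by simp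
    rw [← e]
    exact integral_mono hint (integrable_const _) fun x => (D8_bd hG x j).2
  have h2 : (0 : ℝ) < 1 / m := by positivity
  have h3 : (1 : ℝ) / m ≤ 1 := by rw [div_le_one (by linarith)]; exact hm1
  unfold df
  rw [abs_le]
  constructor <;> linarith

theorem pD8 (hD4 : StD4) (hD5 : StD5) (hD6y : StD6y) (hD6z : StD6z) (hD7a : StD7a)
    (hD7b : StD7b) (hD7c : StD7c) (hD8a : StD8a) : StD8 := by
  intro κ _ m ρ F hm hρ hρ1 hMx hmo
  have hprob := D8_prob (κ := κ ⊕ Unit)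
  have hF := hMx.pt
  have hB := hMx.bal
  obtain ⟨hmon, hconv, C, hC⟩ := hD6y κ m ρ F hρ.le hρ1.le hF
  obtain ⟨e1, e2, -, -⟩ := hD6z κ m ρ F hρ.le hρ1.le hF
  rw [← e1, ← e2]
  refine hD8a (fun r => sr ρ r F) ρ C hρ hρ1 hmon hconv hC ?_
  intro ε hε
  show ∃ t0 : ℝ, 0 < t0 ∧ ∀ t : ℝ, 0 < t → t ≤ t0 →
    sr ρ (ρ + t ^ 2 * (1 - ρ)) F ≤ sr ρ ρ F + ε * t ^ 2
  obtain ⟨c, hc⟩ := hD4 (κ ⊕ Unit) m ρ F hm hρ.le hρ1 hMx
  have hm0 : (0 : ℝ) < m := by exact_mod_cast hm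
  obtain ⟨ε', hε'⟩ : ∃ ε' : ℝ, ε' = ε / (6 * m) := ⟨_, rfl⟩
  have hε'pos : 0 < ε' := by rw [hε']; positivity
  obtain ⟨δ, hδ, hδc⟩ := hc ε' hε'pos
  obtain ⟨δ5, hδ5, hL1⟩ := hD5 κ m F hF δ hδ
  obtain ⟨A, hA⟩ : ∃ A : ℝ, A = ∑ j, |c j| := ⟨_, rfl⟩
  have hA0 : 0 ≤ A := by rw [hA]; exact Finset.sum_nonneg fun j _ => abs_nonneg _
  have hint6 : Integrable (fun ξ : ℝ => ξ ^ 6) (gaussianReal 0 1) := by
    have h := (memLp_id_gaussianReal (μ := 0) (v := 1) 6).integrable_norm_pow (by norm_num)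
    refine h.congr (Filter.Eventually.of_forall fun ξ => ?_)
    simp only [id, Real.norm_eq_abs]
    exact Even.pow_abs (by decide) ξ
  obtain ⟨M, hM⟩ : ∃ M : ℝ, M = ∫ ξ : ℝ, ξ ^ 6 ∂(gaussianReal 0 1) := ⟨_, rfl⟩
  have hM0 : 0 ≤ M := by rw [hM]; exact integral_nonneg fun ξ => by positivity
  have hden : 0 < 2 * ((1 + 2 * A) * M + 1) := by positivity
  refine ⟨min (1 / 2) (min δ5 (min (δ5 ^ 2) (ε / (2 * ((1 + 2 * A) * M + 1))))), ?_, ?_⟩
  · exact lt_min (by norm_num) (lt_min hδ5 (lt_min (by positivity) (by positivity)))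
  intro t ht htle
  have ht1 : t ≤ 1 / 2 := htle.trans (min_le_left _ _)
  have ht2 : t ≤ δ5 := htle.trans ((min_le_right _ _).trans (min_le_left _ _))
  have ht3 : t ≤ δ5 ^ 2 :=
    htle.trans ((min_le_right _ _).trans ((min_le_right _ _).trans (min_le_left _ _)))
  have ht4 : t ≤ ε / (2 * ((1 + 2 * A) * M + 1)) :=
    htle.trans ((min_le_right _ _).trans ((min_le_right _ _).trans (min_le_right _ _)))
  have htsq : t ^ 2 ≤ t := by nlinarith
  obtain ⟨a, ha⟩ : ∃ a : ℝ, a = Real.sqrt (1 - t ^ 2) := ⟨_, rfl⟩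
  have ha1 : |a - 1| ≤ δ5 := by
    have h1 : a ≤ 1 := by rw [ha]; exact Real.sqrt_le_iff.2 ⟨by norm_num, by nlinarith⟩
    have h2 : 1 - t ^ 2 ≤ a := by
      rw [ha]
      refine Real.le_sqrt_of_sq_le ?_
      nlinarith
    rw [abs_le]
    constructor <;> linarith
  have h7a := hD7a κ m ρ t F hF hρ.le hρ1.le ht.le (by linarith)
  have h7b := hD7b κ m t F hF ht.le (by linarith)
  have h7c := fun j => hD7c κ m t F hF hB ht.le ht1 j (hmo j)
  rw [← ha] at h7a h7b h7c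
  -- the majorant
  have hdfint : ∀ j, Integrable (fun ξ : ℝ => df (shf a (t * ξ) F) j) (gaussianReal 0 1) := fun j =>
    Integrable.of_bound (D8_df_meas hF a t j).aestronglyMeasurable 1
      (Filter.Eventually.of_forall fun ξ => by
        rw [Real.norm_eq_abs]; exact D8_df_le hm (D8_shf_pt hF _ _) j)
  have hpt : ∀ ξ : ℝ, St ρ (shf a (t * ξ) F) ≤
      (St ρ F - 2 * ∑ j, c j * df (shf a (t * ξ) F) j + ε' * ∑ j, |df (shf a (t * ξ) F) j|) +
        (1 + 2 * A) * t ^ 3 * ξ ^ 6 := by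
    intro ξ
    have hG := D8_shf_pt hF a (t * ξ)
    have hsix : 0 ≤ (1 + 2 * A) * t ^ 3 * ξ ^ 6 := by positivity
    rcases le_or_gt (t * ξ ^ 2) 1 with hcase | hcase
    · have h1 : |t * ξ| ≤ δ5 := by
        refine abs_le_of_sq_le_sq ?_ hδ5.le
        calc (t * ξ) ^ 2 = t * (t * ξ ^ 2) := by ring
          _ ≤ t * 1 := mul_le_mul_of_nonneg_left hcase ht.le
          _ ≤ δ5 ^ 2 := by linarith
      have h2 := hδc (shf a (t * ξ) F) hG (hL1 a (t * ξ) ha1 h1)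
      linarith
    · have h1 : 1 ≤ t ^ 3 * ξ ^ 6 := by
        have e : t ^ 3 * ξ ^ 6 = (t * ξ ^ 2) ^ 3 := by ring
        rw [e]
        exact one_le_pow₀ hcase.le
      have h2 := D8_St_le ρ hG
      have h3 := D8_St_nonneg ρ hF
      have h4 : ∑ j, c j * df (shf a (t * ξ) F) j ≤ A := by
        rw [hA]
        refine Finset.sum_le_sum fun j _ => ?_
        calc c j * df (shf a (t * ξ) F) j ≤ |c j * df (shf a (t * ξ) F) j| := le_abs_self _
          _ = |c j| * |df (shf a (t * ξ) F) j| := abs_mul _ _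
          _ ≤ |c j| * 1 := mul_le_mul_of_nonneg_left (D8_df_le hm hG j) (abs_nonneg _)
          _ = |c j| := mul_one _
      have h5 : 0 ≤ ε' * ∑ j, |df (shf a (t * ξ) F) j| :=
        mul_nonneg hε'pos.le (Finset.sum_nonneg fun j _ => abs_nonneg _)
      have h6 : (1 + 2 * A) * 1 ≤ (1 + 2 * A) * (t ^ 3 * ξ ^ 6) :=
        mul_le_mul_of_nonneg_left h1 (by linarith)
      linarith
  have hfin : ε' * (m * (3 * t ^ 2)) + (1 + 2 * A) * t ^ 3 * M ≤ ε * t ^ 2 := by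
    have h1 : ε' * (m * (3 * t ^ 2)) = ε / 2 * t ^ 2 := by
      rw [hε']; field_simp; ring
    have h2 : t * (2 * ((1 + 2 * A) * M + 1)) ≤ ε := by
      rwa [le_div_iff₀ hden] at ht4
    have h3 : (1 + 2 * A) * M * t ≤ ε / 2 := by nlinarith
    have h4 : (1 + 2 * A) * t ^ 3 * M = ((1 + 2 * A) * M * t) * t ^ 2 := by ring
    rw [h1, h4]
    have h5 := mul_le_mul_of_nonneg_right h3 (sq_nonneg t)
    linarith
  rw [e1, ← h7a]
  by_cases hi : Integrable (fun ξ : ℝ => St ρ (shf a (t * ξ) F)) (gaussianReal 0 1)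
  · have hI1 : Integrable (fun ξ : ℝ => ∑ j, c j * df (shf a (t * ξ) F) j) (gaussianReal 0 1) :=
      integrable_finsetSum _ fun j _ => (hdfint j).const_mul _
    have hI2 : Integrable (fun ξ : ℝ => ∑ j, |df (shf a (t * ξ) F) j|) (gaussianReal 0 1) :=
      integrable_finsetSum _ fun j _ => (hdfint j).abs
    have hI3 : Integrable (fun ξ : ℝ => St ρ F - 2 * ∑ j, c j * df (shf a (t * ξ) F) j)
        (gaussianReal 0 1) := (integrable_const _).sub (hI1.const_mul 2)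
    have hI4 : Integrable (fun ξ : ℝ => (St ρ F - 2 * ∑ j, c j * df (shf a (t * ξ) F) j +
        ε' * ∑ j, |df (shf a (t * ξ) F) j|)) (gaussianReal 0 1) := hI3.add (hI2.const_mul ε')
    have hI5 : Integrable (fun ξ : ℝ => (1 + 2 * A) * t ^ 3 * ξ ^ 6) (gaussianReal 0 1) :=
      hint6.const_mul _
    have hle := integral_mono hi (hI4.add hI5) hpt
    have hval : ∫ ξ : ℝ, ((St ρ F - 2 * ∑ j, c j * df (shf a (t * ξ) F) j +
        ε' * ∑ j, |df (shf a (t * ξ) F) j|) + (1 + 2 * A) * t ^ 3 * ξ ^ 6) ∂(gaussianReal 0 1) =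
        St ρ F - 2 * ∑ j, c j * (∫ ξ : ℝ, df (shf a (t * ξ) F) j ∂(gaussianReal 0 1)) +
        ε' * ∑ j, (∫ ξ : ℝ, |df (shf a (t * ξ) F) j| ∂(gaussianReal 0 1)) +
        (1 + 2 * A) * t ^ 3 * M := by
      rw [integral_add hI4 hI5, integral_add hI3 (hI2.const_mul ε'),
        integral_sub (integrable_const _) (hI1.const_mul 2), integral_const_mul, integral_const_mul,
        integral_const_mul, integral_finsetSum _ (fun j _ => (hdfint j).const_mul _),
        integral_finsetSum _ (fun j _ => (hdfint j).abs), ← hM]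
      simp only [integral_const_mul, integral_const, probReal_univ, one_smul]
    have hle2 : ∫ ξ : ℝ, St ρ (shf a (t * ξ) F) ∂(gaussianReal 0 1) ≤
        St ρ F - 2 * ∑ j, c j * (∫ ξ : ℝ, df (shf a (t * ξ) F) j ∂(gaussianReal 0 1)) +
        ε' * ∑ j, (∫ ξ : ℝ, |df (shf a (t * ξ) F) j| ∂(gaussianReal 0 1)) +
        (1 + 2 * A) * t ^ 3 * M := by
      rw [← hval]; exact hle
    have hz : ∑ j, c j * (∫ ξ : ℝ, df (shf a (t * ξ) F) j ∂(gaussianReal 0 1)) = 0 := by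
      refine Finset.sum_eq_zero fun j _ => ?_
      rw [h7b j]
      have : df F j = 0 := by unfold df; rw [hB j]; ring
      rw [this, mul_zero]
    have hs : ∑ j, (∫ ξ : ℝ, |df (shf a (t * ξ) F) j| ∂(gaussianReal 0 1)) ≤ m * (3 * t ^ 2) := by
      calc ∑ j, (∫ ξ : ℝ, |df (shf a (t * ξ) F) j| ∂(gaussianReal 0 1)) ≤
            ∑ _j : Fin m, 3 * t ^ 2 := Finset.sum_le_sum fun j _ => h7c j
        _ = m * (3 * t ^ 2) := by simp
    have hs' := mul_le_mul_of_nonneg_left hs hε'pos.le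
    rw [hz] at hle2
    linarith
  · rw [integral_undef hi]
    have h3 := D8_St_nonneg ρ hF
    have h4 : 0 ≤ ε * t ^ 2 := by positivity
    linarith

end Pool.TC
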