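import Mathlib
import Pool.Agent.TC.St
import Pool.Agent.Helper65.PT.Law

/-! Module P7 of project TC: assembly of the radial inequality. -/

set_option autoImplicit false

open MeasureTheory ProbabilityTheory Pool.H65.PS Pool.H65.PT

namespace Pool.TC

private instance P7_cm_prob : IsProbabilityMeasure cm := by
  constructor
  have hpi := Real.pi_pos
  rw [cm, Measure.smul_apply, Measure.restrict_apply MeasurableSet.univ, Set.univ_inter,
    Real.volume_Ioc, smul_eq_mul, ← ENNReal.ofReal_mul (by positivity)]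
  rw [show (2 * Real.pi)⁻¹ * (Real.pi - -Real.pi) = 1 by field_simp; ring]
  simp

private instance P7_rm_sf : SFinite rm := by
  unfold rm; infer_instance

private theorem P7_rm_pos : ∀ᵐ s ∂rm, 0 < s := by
  have h : ∀ᵐ s ∂(volume.restrict (Set.Ioi (0 : ℝ))), 0 < s :=
    ae_restrict_mem measurableSet_Ioi
  exact (withDensity_absolutelyContinuous _ _).ae_le h

private theorem P7_prod_pos : ∀ᵐ p ∂(rm.prod rm), 0 < p.1 ∧ 0 < p.2 := by
  have h1 : ∀ᵐ p ∂(rm.prod rm), 0 < p.1 :=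
    Measure.quasiMeasurePreserving_fst.ae P7_rm_pos
  have h2 : ∀ᵐ p ∂(rm.prod rm), 0 < p.2 :=
    Measure.quasiMeasurePreserving_snd.ae P7_rm_pos
  filter_upwards [h1, h2] with p a b using ⟨a, b⟩

private theorem P7_pt2_meas : Measurable (fun p : ℝ × ℝ => pt2 p.1 p.2) := by
  rw [measurable_pi_iff]
  intro i
  fin_cases i
  · simp only [pt2]; exact measurable_fst.mul (Real.measurable_cos.comp measurable_snd)
  · simp only [pt2]; exact measurable_fst.mul (Real.measurable_sin.comp measurable_snd)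

private theorem P7_pt2_per (s θ : ℝ) : pt2 s (θ + 2 * Real.pi) = pt2 s θ := by
  simp [pt2]

private theorem P7_kap_nn (ρ s t : ℝ) (h1 : ρ < 1) (h0 : 0 ≤ ρ) : 0 ≤ kap ρ s t := by
  have : 0 < 1 - ρ ^ 2 := by nlinarith
  unfold kap; positivity

private theorem P7_bb_nn (ρ s t : ℝ) (h1 : ρ < 1) (h0 : 0 ≤ ρ) (hs : 0 < s) (ht : 0 < t) :
    0 ≤ bb ρ s t := by
  have : 0 < 1 - ρ ^ 2 := by nlinarith
  unfold bb; positivity

private theorem P7_kap_cont (ρ : ℝ) : Continuous (fun p : ℝ × ℝ => kap ρ p.1 p.2) := by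
  unfold kap; fun_prop

private theorem P7_bb_cont (ρ : ℝ) : Continuous (fun p : ℝ × ℝ => bb ρ p.1 p.2) := by
  unfold bb; fun_prop

private theorem P7_kap_symm (ρ s t : ℝ) : kap ρ s t = kap ρ t s := by
  unfold kap; rw [add_comm (s ^ 2)]

private theorem P7_bb_symm (ρ s t : ℝ) : bb ρ s t = bb ρ t s := by
  unfold bb; ring

private theorem P7_Lb_cont : Continuous Lb := by
  unfold Lb
  have h : Continuous fun b : ℝ => ∫ w in (0 : ℝ)..(2 * Real.pi / 3), w * Real.exp (b * Real.cos w) := by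
    apply intervalIntegral.continuous_parametric_intervalIntegral_of_continuous'
    fun_prop
  fun_prop

private theorem P7_int_one : ∫ _θ, (1 : ℝ) ∂cm = 1 := by simp

private theorem P7_int_cos : ∫ θ, Real.cos θ ∂cm = 0 := by
  have hpi := Real.pi_pos
  rw [cm, integral_smul_measure, ← intervalIntegral.integral_of_le (by linarith)]
  simp

private theorem P7_bdd_int {f : ℝ → ℝ} (hf : Measurable f) (C : ℝ) (h : ∀ θ, |f θ| ≤ C) :
    Integrable f cm := by
  refine Integrable.of_bound hf.aestronglyMeasurable C (Filter.Eventually.of_forall fun θ => ?_)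
  rw [Real.norm_eq_abs]; exact h θ

private theorem P7_I0_ge (b : ℝ) (hb : 0 ≤ b) : 1 ≤ I0 b := by
  unfold I0
  have hc : Integrable Real.cos cm :=
    P7_bdd_int Real.measurable_cos 1 Real.abs_cos_le_one
  have h : ∫ θ, (1 + b * Real.cos θ) ∂cm = 1 := by
    rw [integral_add (integrable_const _) (hc.const_mul b), integral_const_mul, P7_int_cos,
      P7_int_one]
    ring
  rw [← h]
  refine integral_mono ((integrable_const _).add (hc.const_mul b)) ?_ (fun θ => ?_)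
  · refine P7_bdd_int (by fun_prop) (Real.exp b) (fun θ => ?_)
    rw [abs_of_pos (Real.exp_pos _)]
    apply Real.exp_le_exp.2
    have := Real.cos_le_one θ
    nlinarith
  · have := Real.add_one_le_exp (b * Real.cos θ)
    simp only
    linarith

private theorem P7_c3_le : c3 ≤ 1 := by
  have h1 := Real.pi_gt_three
  have hs : Real.sqrt 3 ≤ 2 := by
    rw [Real.sqrt_le_left (by norm_num)]; norm_num
  have h2 : Real.sqrt 3 / Real.pi ≤ 1 := by
    rw [div_le_one (by linarith)]; linarith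
  have h3 : 0 ≤ 3 / Real.pi ^ 2 := by positivity
  unfold c3; linarith

private theorem P7_Lb_ge (b : ℝ) (hb : 0 ≤ b) : -1 ≤ Lb b := by
  have hpi := Real.pi_pos
  unfold Lb
  have h1 : 0 ≤ ∫ w in (0 : ℝ)..(2 * Real.pi / 3), w * Real.exp (b * Real.cos w) := by
    apply intervalIntegral.integral_nonneg (by positivity)
    intro w hw
    have := hw.1
    positivity
  have h2 : 0 ≤ Real.exp (-b / 2) / 3 := by positivity
  have h3 : 0 ≤ 3 / Real.pi ^ 2 * ∫ w in (0 : ℝ)..(2 * Real.pi / 3), w * Real.exp (b * Real.cos w) :=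
    mul_nonneg (by positivity) h1
  have h4 : b * Real.exp (-b) ≤ 1 := by
    rw [Real.exp_neg, ← div_eq_mul_inv, div_le_one (Real.exp_pos b)]
    have := Real.add_one_le_exp b
    linarith
  have h5 : 0 ≤ b * Real.exp (-b) := by positivity
  have h6 : c3 * b * Real.exp (-b) ≤ 1 := by
    have := P7_c3_le
    nlinarith
  linarith

private theorem P7_sec (j : Fin 3) (s θ : ℝ) (hs : 0 < s) :
    cellF j (fun k : Fin 3 => pt2 s θ 0 * Real.cos (2 * Real.pi * ((k : ℕ) : ℝ) / 3)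
      + pt2 s θ 1 * Real.sin (2 * Real.pi * ((k : ℕ) : ℝ) / 3)) = sec j θ := by
  unfold sec cellF
  have h : ∀ k : Fin 3, pt2 s θ 0 * Real.cos (2 * Real.pi * ((k : ℕ) : ℝ) / 3)
      + pt2 s θ 1 * Real.sin (2 * Real.pi * ((k : ℕ) : ℝ) / 3)
      = s * Real.cos (θ - 2 * Real.pi * ((k : ℕ) : ℝ) / 3) := by
    intro k
    rw [Real.cos_sub]
    simp only [pt2, Matrix.cons_val_zero, Matrix.cons_val_one]
    ring
  simp only [h, mul_lt_mul_iff_right₀ hs]

private theorem P7_cell_Bm (j : Fin 3) : Bm (fun x : Fin 2 → ℝ =>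
    cellF j (fun k : Fin 3 => x 0 * Real.cos (2 * Real.pi * ((k : ℕ) : ℝ) / 3)
      + x 1 * Real.sin (2 * Real.pi * ((k : ℕ) : ℝ) / 3))) := by
  refine ⟨(Law_cell_meas j).comp ?_, 1, fun x => ?_⟩
  · rw [measurable_pi_iff]
    intro k
    exact ((measurable_pi_apply 0).mul_const _).add ((measurable_pi_apply 1).mul_const _)
  · unfold cellF; split_ifs <;> simp

private theorem P7_Sgb_int (hP0c : StP0c) (ρ : ℝ) (h0 : 0 ≤ ρ) (h1 : ρ < 1) :
    Integrable (fun p : ℝ × ℝ => kap ρ p.1 p.2 * Sgb (bb ρ p.1 p.2)) (rm.prod rm) := by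
  have h : ∀ j : Fin 3, Integrable (fun p : ℝ × ℝ => kap ρ p.1 p.2 *
      Qb (bb ρ p.1 p.2) (sec j) (sec j)) (rm.prod rm) := by
    intro j
    refine ((hP0c ρ _ _ h0 h1 (P7_cell_Bm j) (P7_cell_Bm j)).1).congr ?_
    filter_upwards [P7_prod_pos] with p hp
    simp only [P7_sec j _ _ hp.1, P7_sec j _ _ hp.2]
  have h' := integrable_finsetSum Finset.univ (fun j _ => h j)
  refine h'.congr (Filter.Eventually.of_forall fun p => ?_)
  simp only [Sgb, Finset.mul_sum]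

private theorem P7_mulb {F g : ℝ × ℝ → ℝ} {μ : Measure (ℝ × ℝ)} (hF : Integrable F μ)
    (hg : Measurable g) (hb : ∀ p, |g p| ≤ 1) : Integrable (fun p => F p * g p) μ := by
  refine hF.mono (hF.1.mul hg.aestronglyMeasurable) (Filter.Eventually.of_forall fun p => ?_)
  rw [norm_mul]
  exact mul_le_of_le_one_right (norm_nonneg _) (hb p)

private theorem P7_int3 {A B C : ℝ × ℝ → ℝ} {μ : Measure (ℝ × ℝ)} (hA : Integrable A μ)
    (hB : Integrable B μ) (hC : Integrable C μ) :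
    ∫ p, (A p - (1 / 2) * B p - (1 / 2) * C p) ∂μ =
      ∫ p, A p ∂μ - (1 / 2) * ∫ p, B p ∂μ - (1 / 2) * ∫ p, C p ∂μ := by
  have h1 : Integrable (fun p => A p - (1 / 2) * B p) μ := hA.sub (hB.const_mul _)
  rw [integral_sub h1 (hC.const_mul _), integral_sub hA (hB.const_mul _), integral_const_mul,
    integral_const_mul]

theorem pP7 (hP0c : StP0c) (hP0d : StP0d) (hP1 : StP1) (hP5 : StP5) (hP6 : StP6) : StP7 := by
  intro ρ f h0 h1 hf
  have fnn : ∀ x j, 0 ≤ f x j := fun x j => (hf.simp x).1 j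
  have fsum : ∀ x, ∑ j, f x j = 1 := fun x => (hf.simp x).2
  have fle : ∀ x j, f x j ≤ 1 := by
    intro x j
    rw [← fsum x]
    exact Finset.single_le_sum (fun i _ => fnn x i) (Finset.mem_univ j)
  have um : ∀ j s, Measurable (fun θ => f (pt2 s θ) j) := fun j s =>
    (hf.meas j).comp (P7_pt2_meas.comp measurable_prodMk_left)
  have hCf : ∀ s j, Cf (fun θ => f (pt2 s θ) j) := fun s j =>
    ⟨um j s, fun θ => fnn _ j, fun θ => fle _ j, fun θ => by rw [P7_pt2_per]⟩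
  have hBm : ∀ j, Bm (fun x => f x j) := fun j =>
    ⟨hf.meas j, 1, fun x => by rw [abs_of_nonneg (fnn x j)]; exact fle x j⟩
  set e : Fin 3 → ℝ → ℝ := fun j s => al f j s - 1 / 3 with he
  have em : ∀ j, Measurable (e j) := by
    intro j
    have h : StronglyMeasurable (fun p : ℝ × ℝ => f (pt2 p.1 p.2) j) :=
      ((hf.meas j).comp P7_pt2_meas).stronglyMeasurable
    exact (h.integral_prod_right' (ν := cm)).measurable.sub_const _
  have al0 : ∀ j s, 0 ≤ al f j s := fun j s => integral_nonneg fun θ => fnn _ j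
  have al1 : ∀ j s, al f j s ≤ 1 := by
    intro j s
    rw [← P7_int_one]
    refine integral_mono ?_ (integrable_const _) (fun θ => fle _ j)
    exact P7_bdd_int (um j s) 1 fun θ => by rw [abs_of_nonneg (fnn _ j)]; exact fle _ j
  have e1 : ∀ j s, |e j s| ≤ 1 := by
    intro j s
    have := al0 j s
    have := al1 j s
    rw [abs_le, he]
    constructor <;> simp only <;> linarith
  -- integrability
  have hH := (hP0d ρ h0 h1).1
  have hS := P7_Sgb_int hP0c ρ h0 h1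
  have hG : Integrable (fun p : ℝ × ℝ => kap ρ p.1 p.2 *
      (I0 (bb ρ p.1 p.2) - Lb (bb ρ p.1 p.2))) (rm.prod rm) := by
    refine (hH.const_mul 2).mono' ?_ ?_
    · have h := hH.1.sub ((P7_kap_cont ρ).mul (P7_Lb_cont.comp (P7_bb_cont ρ))).aestronglyMeasurable
      refine h.congr (Filter.Eventually.of_forall fun p => ?_)
      simp only [Pi.sub_apply, Pi.mul_apply, Function.comp]
      ring
    · filter_upwards [P7_prod_pos] with p hp
      have hb := P7_bb_nn ρ p.1 p.2 h1 h0 hp.1 hp.2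
      have hk := P7_kap_nn ρ p.1 p.2 h1 h0
      have a1 := P7_I0_ge _ hb
      have a2 := P7_Lb_ge _ hb
      have a3 := (hP6 _ hb).2
      rw [Real.norm_eq_abs, abs_of_nonneg (mul_nonneg hk (by linarith))]
      nlinarith
  have hQ : ∀ j, Integrable (fun p : ℝ × ℝ => kap ρ p.1 p.2 * Qb (bb ρ p.1 p.2)
      (fun θ => f (pt2 p.1 θ) j) (fun φ => f (pt2 p.2 φ) j)) (rm.prod rm) := fun j =>
    (hP0c ρ _ _ h0 h1 (hBm j) (hBm j)).1
  have hQe : St ρ f = ∫ p, ∑ j, kap ρ p.1 p.2 * Qb (bb ρ p.1 p.2)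
      (fun θ => f (pt2 p.1 θ) j) (fun φ => f (pt2 p.2 φ) j) ∂(rm.prod rm) := by
    rw [integral_finsetSum _ (fun j _ => hQ j), St]
    refine Finset.sum_congr rfl fun j _ => ?_
    rw [(hP0c ρ _ _ h0 h1 (hBm j) (hBm j)).2, integral_prod _ (hQ j)]
  have sqm : ∀ j s, |e j s ^ 2| ≤ 1 := by
    intro j s
    rw [abs_pow]
    exact pow_le_one₀ (abs_nonneg _) (e1 j s)
  have hX : ∀ j, Integrable (fun p : ℝ × ℝ => kap ρ p.1 p.2 * I0 (bb ρ p.1 p.2) *
      (e j p.1 * e j p.2)) (rm.prod rm) := fun j =>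
    P7_mulb hH (((em j).comp measurable_fst).mul ((em j).comp measurable_snd)) fun p => by
      rw [abs_mul]
      exact mul_le_one₀ (e1 j p.1) (abs_nonneg _) (e1 j p.2)
  have hY1 : ∀ j, Integrable (fun p : ℝ × ℝ => kap ρ p.1 p.2 *
      (I0 (bb ρ p.1 p.2) - Lb (bb ρ p.1 p.2)) * e j p.1 ^ 2) (rm.prod rm) := fun j =>
    P7_mulb hG (((em j).comp measurable_fst).pow_const 2) fun p => sqm j p.1
  have hY2 : ∀ j, Integrable (fun p : ℝ × ℝ => kap ρ p.1 p.2 *
      (I0 (bb ρ p.1 p.2) - Lb (bb ρ p.1 p.2)) * e j p.2 ^ 2) (rm.prod rm) := fun j =>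
    P7_mulb hG (((em j).comp measurable_snd).pow_const 2) fun p => sqm j p.2
  have hR : ∀ j, Integrable (fun p : ℝ × ℝ => kap ρ p.1 p.2 * I0 (bb ρ p.1 p.2) *
      (e j p.1 * e j p.2) - (1 / 2) * (kap ρ p.1 p.2 *
      (I0 (bb ρ p.1 p.2) - Lb (bb ρ p.1 p.2)) * e j p.1 ^ 2) - (1 / 2) * (kap ρ p.1 p.2 *
      (I0 (bb ρ p.1 p.2) - Lb (bb ρ p.1 p.2)) * e j p.2 ^ 2)) (rm.prod rm) := fun j =>
    ((hX j).sub ((hY1 j).const_mul _)).sub ((hY2 j).const_mul _)
  have hmono : ∫ p, ∑ j, kap ρ p.1 p.2 * Qb (bb ρ p.1 p.2)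
      (fun θ => f (pt2 p.1 θ) j) (fun φ => f (pt2 p.2 φ) j) ∂(rm.prod rm) ≤
      ∫ p, (kap ρ p.1 p.2 * Sgb (bb ρ p.1 p.2) + ∑ j, (kap ρ p.1 p.2 * I0 (bb ρ p.1 p.2) *
      (e j p.1 * e j p.2) - (1 / 2) * (kap ρ p.1 p.2 *
      (I0 (bb ρ p.1 p.2) - Lb (bb ρ p.1 p.2)) * e j p.1 ^ 2) - (1 / 2) * (kap ρ p.1 p.2 *
      (I0 (bb ρ p.1 p.2) - Lb (bb ρ p.1 p.2)) * e j p.2 ^ 2))) ∂(rm.prod rm) := by
    refine integral_mono_ae (integrable_finsetSum _ fun j _ => hQ j)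
      (hS.add (integrable_finsetSum _ fun j _ => hR j)) ?_
    filter_upwards [P7_prod_pos] with p hp
    have hb := P7_bb_nn ρ p.1 p.2 h1 h0 hp.1 hp.2
    have hk := P7_kap_nn ρ p.1 p.2 h1 h0
    have q1 : ∀ j, Qb (bb ρ p.1 p.2) (fun θ => f (pt2 p.1 θ) j) (fun φ => f (pt2 p.2 φ) j) ≤
        (Qb (bb ρ p.1 p.2) (fun θ => f (pt2 p.1 θ) j) (fun θ => f (pt2 p.1 θ) j) +
        Qb (bb ρ p.1 p.2) (fun θ => f (pt2 p.2 θ) j) (fun θ => f (pt2 p.2 θ) j)) / 2 -
        I0 (bb ρ p.1 p.2) / 2 * (e j p.1 - e j p.2) ^ 2 := by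
      intro j
      have h := hP1 (bb ρ p.1 p.2) (fun θ => f (pt2 p.1 θ) j) (fun θ => f (pt2 p.2 θ) j) hb
        (um j p.1) (um j p.2)
        (fun θ => by rw [abs_of_nonneg (fnn _ j)]; exact fle _ j)
        (fun θ => by rw [abs_of_nonneg (fnn _ j)]; exact fle _ j)
      have h2 : e j p.1 - e j p.2 = (∫ θ, f (pt2 p.1 θ) j ∂cm) - ∫ θ, f (pt2 p.2 θ) j ∂cm := by
        simp only [he, al]; ring
      rw [h2]
      exact h
    have q2 := hP5 (bb ρ p.1 p.2) (fun j θ => f (pt2 p.1 θ) j) hb (fun j => hCf p.1 j)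
      (fun θ => fsum _)
    have q3 := hP5 (bb ρ p.1 p.2) (fun j θ => f (pt2 p.2 θ) j) hb (fun j => hCf p.2 j)
      (fun θ => fsum _)
    have q2' : ∑ j, Qb (bb ρ p.1 p.2) (fun θ => f (pt2 p.1 θ) j) (fun θ => f (pt2 p.1 θ) j) ≤
        Sgb (bb ρ p.1 p.2) + Lb (bb ρ p.1 p.2) * ∑ j, e j p.1 ^ 2 := q2
    have q3' : ∑ j, Qb (bb ρ p.1 p.2) (fun θ => f (pt2 p.2 θ) j) (fun θ => f (pt2 p.2 θ) j) ≤
        Sgb (bb ρ p.1 p.2) + Lb (bb ρ p.1 p.2) * ∑ j, e j p.2 ^ 2 := q3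
    have r0 := q1 0
    have r1 := q1 1
    have r2 := q1 2
    simp only [Fin.sum_univ_three] at q2' q3' ⊢
    have key : Qb (bb ρ p.1 p.2) (fun θ => f (pt2 p.1 θ) 0) (fun φ => f (pt2 p.2 φ) 0) +
        Qb (bb ρ p.1 p.2) (fun θ => f (pt2 p.1 θ) 1) (fun φ => f (pt2 p.2 φ) 1) +
        Qb (bb ρ p.1 p.2) (fun θ => f (pt2 p.1 θ) 2) (fun φ => f (pt2 p.2 φ) 2) ≤
        Sgb (bb ρ p.1 p.2) + I0 (bb ρ p.1 p.2) * (e 0 p.1 * e 0 p.2 + e 1 p.1 * e 1 p.2 +
        e 2 p.1 * e 2 p.2) - 1 / 2 * ((I0 (bb ρ p.1 p.2) - Lb (bb ρ p.1 p.2)) *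
        (e 0 p.1 ^ 2 + e 1 p.1 ^ 2 + e 2 p.1 ^ 2 + e 0 p.2 ^ 2 + e 1 p.2 ^ 2 + e 2 p.2 ^ 2)) := by
      linarith
    have := mul_le_mul_of_nonneg_left key hk
    linarith
  rw [hQe]
  refine hmono.trans (le_of_eq ?_)
  rw [integral_add hS (integrable_finsetSum _ fun j _ => hR j),
    integral_finsetSum _ (fun j _ => hR j)]
  congr 1
  · rw [Ss, integral_prod _ hS]
  · refine Finset.sum_congr rfl fun j _ => ?_
    rw [P7_int3 (hX j) (hY1 j) (hY2 j)]
    have s1 : ∫ p, kap ρ p.1 p.2 * (I0 (bb ρ p.1 p.2) - Lb (bb ρ p.1 p.2)) * e j p.2 ^ 2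
        ∂(rm.prod rm) = ∫ p, kap ρ p.1 p.2 * (I0 (bb ρ p.1 p.2) - Lb (bb ρ p.1 p.2)) *
        e j p.1 ^ 2 ∂(rm.prod rm) := by
      rw [← integral_prod_swap]
      refine integral_congr_ae (Filter.Eventually.of_forall fun p => ?_)
      simp only [Prod.fst_swap, Prod.snd_swap]
      rw [P7_kap_symm, P7_bb_symm]
    have s2 : ∫ p, kap ρ p.1 p.2 * (I0 (bb ρ p.1 p.2) - Lb (bb ρ p.1 p.2)) * e j p.1 ^ 2
        ∂(rm.prod rm) = ∫ s, Wr ρ s * e j s ^ 2 ∂rm := by
      rw [integral_prod _ (hY1 j)]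
      refine integral_congr_ae (Filter.Eventually.of_forall fun s => ?_)
      simp only
      rw [integral_mul_const, Wr]
    have s3 : ∫ p, kap ρ p.1 p.2 * I0 (bb ρ p.1 p.2) * (e j p.1 * e j p.2) ∂(rm.prod rm) =
        Sr ρ (fun s => al f j s - 1 / 3) := by
      rw [integral_prod _ (hX j), Sr]
      refine integral_congr_ae (Filter.Eventually.of_forall fun s => ?_)
      refine integral_congr_ae (Filter.Eventually.of_forall fun t => ?_)
      simp only [he]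
      ring
    rw [s1, s2, s3]
    ring

end Pool.TC
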